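import Pool.Agent.Helper8.DC.PG

set_option autoImplicit false

open scoped Manifold ContDiff

namespace Pool.Agent.Helper8.DC

noncomputable section

theorem sm_pd {V : Type} [NormedAddCommGroup V] [NormedSpace ℝ V] (l : Fin 4) {f : E4 → V}
    {U : Set E4} (hU : IsOpen U) (hf : ContDiffOn ℝ ∞ f U) :
    ContDiffOn ℝ ∞ (fun y => pd l f y) U := by
  have h := hf.fderiv_of_isOpen (m := ∞) hU (by simp)
  exact h.clm_apply contDiffOn_const

theorem sm_comp {U : Set E4} {A : E4 → Fin 4 → R3} (hA : ContDiffOn ℝ ∞ A U) (m : Fin 4) :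
    ContDiffOn ℝ ∞ (fun y => A y m) U := contDiffOn_pi.mp hA m

theorem sm_cross {U : Set E4} {f g : E4 → R3} (hf : ContDiffOn ℝ ∞ f U)
    (hg : ContDiffOn ℝ ∞ g U) : ContDiffOn ℝ ∞ (fun y => crossProduct (f y) (g y)) U := by
  rw [contDiffOn_pi]
  have hf' := contDiffOn_pi.mp hf
  have hg' := contDiffOn_pi.mp hg
  intro a
  fin_cases a
  · simpa [cross_apply] using ((hf' 1).mul (hg' 2)).sub ((hf' 2).mul (hg' 1))
  · simpa [cross_apply] using ((hf' 2).mul (hg' 0)).sub ((hf' 0).mul (hg' 2))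
  · simpa [cross_apply] using ((hf' 0).mul (hg' 1)).sub ((hf' 1).mul (hg' 0))

theorem sm_cov {U : Set E4} (hU : IsOpen U) {A : E4 → Fin 4 → R3} {φ : E4 → R3}
    (hA : ContDiffOn ℝ ∞ A U) (hφ : ContDiffOn ℝ ∞ φ U) (m : Fin 4) :
    ContDiffOn ℝ ∞ (fun y => cov A φ y m) U :=
  (sm_pd m hU hφ).add (sm_cross (sm_comp hA m) hφ)

theorem sm_curv {U : Set E4} (hU : IsOpen U) {A : E4 → Fin 4 → R3}
    (hA : ContDiffOn ℝ ∞ A U) (l m : Fin 4) :
    ContDiffOn ℝ ∞ (fun y => curv A y l m) U :=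
  ((sm_pd l hU (sm_comp hA m)).sub (sm_pd m hU (sm_comp hA l))).add
    (sm_cross (sm_comp hA l) (sm_comp hA m))

theorem sm_wedge {U : Set E4} {B C : E4 → Fin 4 → Fin 4 → ℝ}
    (hB : ∀ l m, ContDiffOn ℝ ∞ (fun y => B y l m) U)
    (hC : ∀ l m, ContDiffOn ℝ ∞ (fun y => C y l m) U) :
    ContDiffOn ℝ ∞ (fun y => wedge (B y) (C y)) U := by
  unfold wedge
  exact ((((((hB 0 1).mul (hC 2 3)).sub ((hB 0 2).mul (hC 1 3))).add ((hB 0 3).mul (hC 1 2))).add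
    ((hB 1 2).mul (hC 0 3))).sub ((hB 1 3).mul (hC 0 2))).add ((hB 2 3).mul (hC 0 1))

theorem sm_vec {U : Set E4} (hU : IsOpen U) {A : E4 → Fin 4 → R3} {φ : E4 → R3}
    (hA : ContDiffOn ℝ ∞ A U) (hφ : ContDiffOn ℝ ∞ φ U) (l : Fin 4) :
    ContDiffOn ℝ ∞ (fun y => vec A φ y l) U := by
  have hφ' := contDiffOn_pi.mp hφ
  have hw : ∀ b c : Fin 3, ContDiffOn ℝ ∞ (fun y => wedge3 (Pi.single l 1) (cm1 (cov A φ y) b)
      (cmp (curv A y) c)) U := by
    intro b c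
    unfold wedge3
    refine sm_wedge (fun p q => ?_) (fun p q => ?_)
    · have h1 := contDiffOn_pi.mp (sm_cov hU hA hφ q) b
      have h2 := contDiffOn_pi.mp (sm_cov hU hA hφ p) b
      exact (contDiffOn_const.mul h1).sub (contDiffOn_const.mul h2)
    · exact contDiffOn_pi.mp (sm_curv hU hA p q) c
  unfold vec trip
  exact (((hφ' 0).mul ((hw 1 2).sub (hw 2 1))).add ((hφ' 1).mul ((hw 2 0).sub (hw 0 2)))).add
    ((hφ' 2).mul ((hw 0 1).sub (hw 1 0)))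

end

end Pool.Agent.Helper8.DC
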