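import Pool.Agent.Helper8.DC.Alg

set_option autoImplicit false
set_option linter.unusedSimpArgs false

open scoped Manifold ContDiff

namespace Pool.Agent.Helper8.DC

noncomputable section

/-- The vector density of the 3-form `∑ ε_abc φ_a ∇φ_b ∧ F_c`. -/
def vec (A : E4 → Fin 4 → R3) (φ : E4 → R3) (y : E4) (l : Fin 4) : ℝ :=
  trip (φ y) (Pi.single l 1) (cov A φ y) (curv A y)

/-! ### Product rules -/

theorem g_line {V : Type} [NormedAddCommGroup V] [NormedSpace ℝ V] (l : Fin 4) {f : E4 → V}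
    {y : E4} (hf : DifferentiableAt ℝ f y) :
    HasDerivAt (fun t : ℝ => f (y + t • EuclideanSpace.single l 1)) (pd l f y) 0 := by
  have h1 : HasDerivAt (fun t : ℝ => y + t • (EuclideanSpace.single l 1 : E4))
      (EuclideanSpace.single l 1) 0 := by
    simpa using ((hasDerivAt_id (0 : ℝ)).smul_const (EuclideanSpace.single l 1 : E4)).const_add y
  have h2 : HasFDerivAt f (fderiv ℝ f y) (y + (0 : ℝ) • (EuclideanSpace.single l 1 : E4)) := by
    simpa using hf.hasFDerivAt
  exact h2.comp_hasDerivAt (0 : ℝ) h1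

theorem g_pd_of_line {V : Type} [NormedAddCommGroup V] [NormedSpace ℝ V] (l : Fin 4)
    {f : E4 → V} {y : E4} (hf : DifferentiableAt ℝ f y) {v : V}
    (h : HasDerivAt (fun t : ℝ => f (y + t • EuclideanSpace.single l 1)) v 0) :
    pd l f y = v := (g_line l hf).unique h

theorem g_pd_apply {ι : Type} [Fintype ι] {V : Type} [NormedAddCommGroup V] [NormedSpace ℝ V]
    (l : Fin 4) {f : E4 → ι → V} {y : E4} (hf : DifferentiableAt ℝ f y) (i : ι) :
    pd l f y i = pd l (fun z => f z i) y := by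
  have h := (hasDerivAt_pi.mp (g_line l hf)) i
  exact (g_pd_of_line l (differentiableAt_pi.mp hf i) h).symm

theorem g_cross_line {f g : ℝ → R3} {f' g' : R3} (hf : HasDerivAt f f' 0)
    (hg : HasDerivAt g g' 0) :
    HasDerivAt (fun t => crossProduct (f t) (g t))
      (crossProduct f' (g 0) + crossProduct (f 0) g') 0 := by
  have hf' := hasDerivAt_pi.mp hf
  have hg' := hasDerivAt_pi.mp hg
  rw [hasDerivAt_pi]
  intro a
  fin_cases a
  · refine (((hf' 1).mul (hg' 2)).sub ((hf' 2).mul (hg' 1))).congr_deriv ?_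
    simp [cross_apply]
    ring
  · refine (((hf' 2).mul (hg' 0)).sub ((hf' 0).mul (hg' 2))).congr_deriv ?_
    simp [cross_apply]
    ring
  · refine (((hf' 0).mul (hg' 1)).sub ((hf' 1).mul (hg' 0))).congr_deriv ?_
    simp [cross_apply]
    ring

theorem g_cross_diff {f g : E4 → R3} {y : E4} (hf : DifferentiableAt ℝ f y)
    (hg : DifferentiableAt ℝ g y) :
    DifferentiableAt ℝ (fun z => crossProduct (f z) (g z)) y := by
  have hf' := differentiableAt_pi.mp hf
  have hg' := differentiableAt_pi.mp hg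
  rw [differentiableAt_pi]
  intro a
  fin_cases a
  · exact ((hf' 1).fun_mul (hg' 2)).fun_sub ((hf' 2).fun_mul (hg' 1))
  · exact ((hf' 2).fun_mul (hg' 0)).fun_sub ((hf' 0).fun_mul (hg' 2))
  · exact ((hf' 0).fun_mul (hg' 1)).fun_sub ((hf' 1).fun_mul (hg' 0))

theorem g_pd_cross (l : Fin 4) {f g : E4 → R3} {y : E4} (hf : DifferentiableAt ℝ f y)
    (hg : DifferentiableAt ℝ g y) :
    pd l (fun z => crossProduct (f z) (g z)) y =
      crossProduct (pd l f y) (g y) + crossProduct (f y) (pd l g y) := by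
  refine g_pd_of_line l (g_cross_diff hf hg) ?_
  have := g_cross_line (g_line l hf) (g_line l hg)
  simpa using this

theorem g_pd_add {V : Type} [NormedAddCommGroup V] [NormedSpace ℝ V] (l : Fin 4)
    {f g : E4 → V} {y : E4} (hf : DifferentiableAt ℝ f y) (hg : DifferentiableAt ℝ g y) :
    pd l (fun z => f z + g z) y = pd l f y + pd l g y := by
  unfold pd
  rw [fderiv_fun_add hf hg]
  rfl

theorem g_pd_sub {V : Type} [NormedAddCommGroup V] [NormedSpace ℝ V] (l : Fin 4)
    {f g : E4 → V} {y : E4} (hf : DifferentiableAt ℝ f y) (hg : DifferentiableAt ℝ g y) :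
    pd l (fun z => f z - g z) y = pd l f y - pd l g y := by
  unfold pd
  rw [fderiv_fun_sub hf hg]
  rfl

theorem g_sm_pd {V : Type} [NormedAddCommGroup V] [NormedSpace ℝ V] (l : Fin 4) {f : E4 → V}
    {U : Set E4} (hU : IsOpen U) (hf : ContDiffOn ℝ ∞ f U) :
    ContDiffOn ℝ ∞ (fun y => pd l f y) U := by
  have h := hf.fderiv_of_isOpen (m := ∞) hU (by simp)
  exact h.clm_apply contDiffOn_const

theorem g_sm_diff {V : Type} [NormedAddCommGroup V] [NormedSpace ℝ V] {f : E4 → V}
    {U : Set E4} (hU : IsOpen U) (hf : ContDiffOn ℝ ∞ f U) {y : E4} (hy : y ∈ U) :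
    DifferentiableAt ℝ f y :=
  (hf.contDiffAt (hU.mem_nhds hy)).differentiableAt (by simp)

theorem g_pd_comm {V : Type} [NormedAddCommGroup V] [NormedSpace ℝ V] (l m : Fin 4) {f : E4 → V}
    {U : Set E4} (hU : IsOpen U) (hf : ContDiffOn ℝ ∞ f U) {y : E4} (hy : y ∈ U) :
    pd l (fun z => pd m f z) y = pd m (fun z => pd l f z) y := by
  have hc : ContDiffAt ℝ ∞ f y := hf.contDiffAt (hU.mem_nhds hy)
  have hs : IsSymmSndFDerivAt ℝ f y := by
    refine hc.isSymmSndFDerivAt ?_
    rw [minSmoothness_of_isRCLikeNormedField]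
    exact WithTop.coe_le_coe.mpr le_top
  have hd : DifferentiableAt ℝ (fderiv ℝ f) y := by
    have h := hf.fderiv_of_isOpen (m := ∞) hU (by simp)
    exact g_sm_diff hU h hy
  have key : ∀ p q : Fin 4, pd p (fun z => pd q f z) y =
      fderiv ℝ (fderiv ℝ f) y (EuclideanSpace.single p 1) (EuclideanSpace.single q 1) := by
    intro p q
    unfold pd
    rw [fderiv_clm_apply hd (differentiableAt_const _)]
    simp
  rw [key, key]
  exact hs _ _

/-! ### Derivative of `trip` -/

theorem g_wedge_line {B C : ℝ → Fin 4 → Fin 4 → ℝ} {B' C' : Fin 4 → Fin 4 → ℝ}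
    (hB : ∀ l m, HasDerivAt (fun t => B t l m) (B' l m) 0)
    (hC : ∀ l m, HasDerivAt (fun t => C t l m) (C' l m) 0) :
    HasDerivAt (fun t => wedge (B t) (C t)) (wedge B' (C 0) + wedge (B 0) C') 0 := by
  unfold wedge
  refine (((((((hB 0 1).mul (hC 2 3)).sub ((hB 0 2).mul (hC 1 3))).add
    ((hB 0 3).mul (hC 1 2))).add ((hB 1 2).mul (hC 0 3))).sub ((hB 1 3).mul (hC 0 2))).add
    ((hB 2 3).mul (hC 0 1))).congr_deriv ?_
  ring

theorem g_wedge3_line (β : Fin 4 → ℝ) {α : ℝ → Fin 4 → R3} {α' : Fin 4 → R3}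
    {F : ℝ → Fin 4 → Fin 4 → R3} {F' : Fin 4 → Fin 4 → R3}
    (hα : ∀ m a, HasDerivAt (fun t => α t m a) (α' m a) 0)
    (hF : ∀ l m a, HasDerivAt (fun t => F t l m a) (F' l m a) 0) (a c : Fin 3) :
    HasDerivAt (fun t => wedge3 β (cm1 (α t) a) (cmp (F t) c))
      (wedge3 β (cm1 α' a) (cmp (F 0) c) + wedge3 β (cm1 (α 0) a) (cmp F' c)) 0 := by
  unfold wedge3
  refine g_wedge_line (fun l m => ?_) (fun l m => hF l m c)
  unfold wed cm1
  exact ((hα m a).const_mul (β l)).sub ((hα l a).const_mul (β m))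

theorem g_trip_line (β : Fin 4 → ℝ) {φ : ℝ → R3} {φ' : R3} {α : ℝ → Fin 4 → R3}
    {α' : Fin 4 → R3} {F : ℝ → Fin 4 → Fin 4 → R3} {F' : Fin 4 → Fin 4 → R3}
    (hφ : ∀ a, HasDerivAt (fun t => φ t a) (φ' a) 0)
    (hα : ∀ m a, HasDerivAt (fun t => α t m a) (α' m a) 0)
    (hF : ∀ l m a, HasDerivAt (fun t => F t l m a) (F' l m a) 0) :
    HasDerivAt (fun t => trip (φ t) β (α t) (F t))
      (trip φ' β (α 0) (F 0) + trip (φ 0) β α' (F 0) + trip (φ 0) β (α 0) F') 0 := by
  have h := g_wedge3_line β hα hF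
  unfold trip
  refine ((((hφ 0).mul ((h 1 2).sub (h 2 1))).add ((hφ 1).mul ((h 2 0).sub (h 0 2)))).add
    ((hφ 2).mul ((h 0 1).sub (h 1 0)))).congr_deriv ?_
  simp only [Pi.sub_apply]
  ring

/-! ### Algebra -/

theorem g_cr0 (a b : R3) : crossProduct a b 0 = a 1 * b 2 - a 2 * b 1 := by simp [cross_apply]

theorem g_cr1 (a b : R3) : crossProduct a b 1 = a 2 * b 0 - a 0 * b 2 := by simp [cross_apply]

theorem g_cr2 (a b : R3) : crossProduct a b 2 = a 0 * b 1 - a 1 * b 0 := by simp [cross_apply]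

theorem g_alg (φ : R3) (A c : Fin 4 → R3) (dc : Fin 4 → Fin 4 → R3) (F : Fin 4 → Fin 4 → R3)
    (dF : Fin 4 → Fin 4 → Fin 4 → R3) (hF : ∀ l m, F l m = -F m l)
    (hdF : ∀ k l m, dF k l m = -dF k m l)
    (h1 : ∀ l m, dc l m - dc m l + crossProduct (A l) (c m) - crossProduct (A m) (c l) =
      crossProduct (F l m) φ)
    (h2 : ∀ l m n, dF l m n + dF m n l + dF n l m + crossProduct (A l) (F m n) +
      crossProduct (A m) (F n l) + crossProduct (A n) (F l m) = 0) :
    ∑ l, (trip (c l - crossProduct (A l) φ) (Pi.single l 1) c F +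
      trip φ (Pi.single l 1) (dc l) F + trip φ (Pi.single l 1) c (dF l)) =
      quad c F + rest φ F := by
  have e0 : ∀ l m, dc l m 0 = dc m l 0 - (A l 1 * c m 2 - A l 2 * c m 1)
      + (A m 1 * c l 2 - A m 2 * c l 1) + (F l m 1 * φ 2 - F l m 2 * φ 1) := by
    intro l m
    have := congrFun (h1 l m) 0
    simp only [Pi.add_apply, Pi.sub_apply, Pi.neg_apply, Pi.zero_apply, g_cr0, g_cr1, g_cr2] at this
    linarith
  have e1 : ∀ l m, dc l m 1 = dc m l 1 - (A l 2 * c m 0 - A l 0 * c m 2)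
      + (A m 2 * c l 0 - A m 0 * c l 2) + (F l m 2 * φ 0 - F l m 0 * φ 2) := by
    intro l m
    have := congrFun (h1 l m) 1
    simp only [Pi.add_apply, Pi.sub_apply, Pi.neg_apply, Pi.zero_apply, g_cr0, g_cr1, g_cr2] at this
    linarith
  have e2 : ∀ l m, dc l m 2 = dc m l 2 - (A l 0 * c m 1 - A l 1 * c m 0)
      + (A m 0 * c l 1 - A m 1 * c l 0) + (F l m 0 * φ 1 - F l m 1 * φ 0) := by
    intro l m
    have := congrFun (h1 l m) 2
    simp only [Pi.add_apply, Pi.sub_apply, Pi.neg_apply, Pi.zero_apply, g_cr0, g_cr1, g_cr2] at this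
    linarith
  have b0 : ∀ l m n, dF l m n 0 = dF m l n 0 - dF n l m 0 - (A l 1 * F m n 2 - A l 2 * F m n 1)
      + (A m 1 * F l n 2 - A m 2 * F l n 1) - (A n 1 * F l m 2 - A n 2 * F l m 1) := by
    intro l m n
    have := congrFun (h2 l m n) 0
    rw [hdF m n l, hF n l] at this
    simp only [Pi.add_apply, Pi.sub_apply, Pi.neg_apply, Pi.zero_apply, g_cr0, g_cr1, g_cr2] at this
    linarith
  have b1 : ∀ l m n, dF l m n 1 = dF m l n 1 - dF n l m 1 - (A l 2 * F m n 0 - A l 0 * F m n 2)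
      + (A m 2 * F l n 0 - A m 0 * F l n 2) - (A n 2 * F l m 0 - A n 0 * F l m 2) := by
    intro l m n
    have := congrFun (h2 l m n) 1
    rw [hdF m n l, hF n l] at this
    simp only [Pi.add_apply, Pi.sub_apply, Pi.neg_apply, Pi.zero_apply, g_cr0, g_cr1, g_cr2] at this
    linarith
  have b2 : ∀ l m n, dF l m n 2 = dF m l n 2 - dF n l m 2 - (A l 0 * F m n 1 - A l 1 * F m n 0)
      + (A m 0 * F l n 1 - A m 1 * F l n 0) - (A n 0 * F l m 1 - A n 1 * F l m 0) := by
    intro l m n
    have := congrFun (h2 l m n) 2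
    rw [hdF m n l, hF n l] at this
    simp only [Pi.add_apply, Pi.sub_apply, Pi.neg_apply, Pi.zero_apply, g_cr0, g_cr1, g_cr2] at this
    linarith
  simp only [Fin.sum_univ_four, trip, quad, rest, wedge3, wedge, wed, cm1, cmp, gram, Matrix.trace,
    Matrix.diag, Fin.sum_univ_three, Pi.single_apply, Pi.sub_apply, g_cr0, g_cr1, g_cr2]
  simp only [Fin.isValue, Matrix.cons_val_zero, Matrix.cons_val_one, Matrix.cons_val,
    if_true, if_false, Fin.reduceEq, one_mul, zero_mul, zero_sub, sub_zero, ite_true, ite_false,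
    mul_one, mul_zero, sub_self, zero_add, add_zero, neg_mul, neg_zero]
  rw [e0 0 1, e1 0 1, e2 0 1, e0 0 2, e1 0 2, e2 0 2, e0 0 3, e1 0 3, e2 0 3, e0 1 2, e1 1 2,
    e2 1 2, e0 1 3, e1 1 3, e2 1 3, e0 2 3, e1 2 3, e2 2 3, b0 0 1 2, b1 0 1 2, b2 0 1 2,
    b0 0 1 3, b1 0 1 3, b2 0 1 3, b0 0 2 3, b1 0 2 3, b2 0 2 3, b0 1 2 3, b1 1 2 3, b2 1 2 3]
  ring

/-- PIECE G. `dθ = Q + R` for `θ = ∑ ε_abc φ_a ∇φ_b ∧ F_c`.
PROOF. Everything is `C^∞` on the open set `U`, so first and second derivatives of the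
components of `A` and `φ` at `y` exist and `pd l (pd m f) y = pd m (pd l f) y`. By the product rule
`∑_l pd l (vec l)` is a polynomial in these numbers. Use
(1) `pd l (cov A φ · m) - pd m (cov A φ · l) + A_l × cov m - A_m × cov l = F_lm × φ`;
(2) Bianchi: the cyclic sum over `(l,m,n)` of `pd l F_mn + A_l × F_mn` vanishes;
(3) `pd l φ = cov l - A_l × φ`;
(4) invariance of the triple product `ε` under `A_l ×` (sum over the three factors is `0`), which
kills all terms with a free `A`; what remains is `quad (cov A φ y) (curv A y)` plus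
`∑ ε_abc φ_a (F × φ)_b ∧ F_c`, and the latter is `rest (φ y) (curv A y)`.
Checked numerically (random quadratic polynomials). -/
theorem div_vec (A : E4 → Fin 4 → R3) (φ : E4 → R3) (U : Set E4) (hU : IsOpen U)
    (hA : ContDiffOn ℝ ∞ A U) (hφ : ContDiffOn ℝ ∞ φ U) (y : E4) (hy : y ∈ U) :
    ∑ l, pd l (fun z => vec A φ z l) y = quad (cov A φ y) (curv A y) + rest (φ y) (curv A y) := by
  have sA : ∀ m, ContDiffOn ℝ ∞ (fun z => A z m) U := fun m => contDiffOn_pi.mp hA m
  have dA : ∀ m, DifferentiableAt ℝ (fun z => A z m) y := fun m => g_sm_diff hU (sA m) hy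
  have dφ : DifferentiableAt ℝ φ y := g_sm_diff hU hφ hy
  have dpφ : ∀ m, DifferentiableAt ℝ (fun z => pd m φ z) y := fun m =>
    g_sm_diff hU (g_sm_pd m hU hφ) hy
  have dpA : ∀ k m, DifferentiableAt ℝ (fun z => pd k (fun w => A w m) z) y := fun k m =>
    g_sm_diff hU (g_sm_pd k hU (sA m)) hy
  have dcov : ∀ m, DifferentiableAt ℝ (fun z => cov A φ z m) y := fun m =>
    (dpφ m).fun_add (g_cross_diff (dA m) dφ)
  have dcurv : ∀ m n, DifferentiableAt ℝ (fun z => curv A z m n) y := fun m n =>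
    ((dpA m n).fun_sub (dpA n m)).fun_add (g_cross_diff (dA m) (dA n))
  have pcov : ∀ l m, pd l (fun z => cov A φ z m) y = pd l (fun z => pd m φ z) y +
      (crossProduct (pd l (fun z => A z m) y) (φ y) + crossProduct (A y m) (pd l φ y)) := by
    intro l m
    unfold cov
    rw [g_pd_add l (dpφ m) (g_cross_diff (dA m) dφ), g_pd_cross l (dA m) dφ]
  have pcurv : ∀ l m n, pd l (fun z => curv A z m n) y =
      pd l (fun z => pd m (fun w => A w n) z) y - pd l (fun z => pd n (fun w => A w m) z) y +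
      (crossProduct (pd l (fun z => A z m) y) (A y n) +
        crossProduct (A y m) (pd l (fun z => A z n) y)) := by
    intro l m n
    unfold curv
    rw [g_pd_add l ((dpA m n).fun_sub (dpA n m)) (g_cross_diff (dA m) (dA n)),
      g_pd_sub l (dpA m n) (dpA n m), g_pd_cross l (dA m) (dA n)]
  have key : ∀ l, pd l (fun z => vec A φ z l) y =
      trip (cov A φ y l - crossProduct (A y l) (φ y)) (Pi.single l 1) (cov A φ y) (curv A y) +
      trip (φ y) (Pi.single l 1) (fun m => pd l (fun z => cov A φ z m) y) (curv A y) +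
      trip (φ y) (Pi.single l 1) (cov A φ y) (fun m n => pd l (fun z => curv A z m n) y) := by
    intro l
    have hv := g_trip_line (Pi.single l 1) (φ := fun t : ℝ => φ (y + t • EuclideanSpace.single l 1))
      (φ' := pd l φ y)
      (α := fun t : ℝ => cov A φ (y + t • EuclideanSpace.single l 1))
      (α' := fun m => pd l (fun z => cov A φ z m) y)
      (F := fun t : ℝ => curv A (y + t • EuclideanSpace.single l 1))
      (F' := fun m n => pd l (fun z => curv A z m n) y)
      (fun a => hasDerivAt_pi.mp (g_line l dφ) a)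
      (fun m a => hasDerivAt_pi.mp (g_line l (dcov m)) a)
      (fun m n a => hasDerivAt_pi.mp (g_line l (dcurv m n)) a)
    have e1 : pd l φ y = cov A φ y l - crossProduct (A y l) (φ y) := by
      unfold cov
      abel
    have dvec : DifferentiableAt ℝ (fun z => vec A φ z l) y := by
      have hw : ∀ b c : Fin 3, DifferentiableAt ℝ (fun z => wedge3 (Pi.single l 1)
          (cm1 (cov A φ z) b) (cmp (curv A z) c)) y := by
        intro b c
        have h1 : ∀ p q, DifferentiableAt ℝ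
            (fun z => wed (Pi.single l 1) (cm1 (cov A φ z) b) p q) y := fun p q =>
          ((differentiableAt_pi.mp (dcov q) b).const_mul _).fun_sub
            ((differentiableAt_pi.mp (dcov p) b).const_mul _)
        have h2 : ∀ p q, DifferentiableAt ℝ (fun z => cmp (curv A z) c p q) y := fun p q =>
          differentiableAt_pi.mp (dcurv p q) c
        unfold wedge3 wedge
        exact ((((((h1 0 1).fun_mul (h2 2 3)).fun_sub ((h1 0 2).fun_mul (h2 1 3))).fun_add
          ((h1 0 3).fun_mul (h2 1 2))).fun_add ((h1 1 2).fun_mul (h2 0 3))).fun_sub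
          ((h1 1 3).fun_mul (h2 0 2))).fun_add ((h1 2 3).fun_mul (h2 0 1))
      have hp := differentiableAt_pi.mp dφ
      unfold vec trip
      exact (((hp 0).fun_mul ((hw 1 2).fun_sub (hw 2 1))).fun_add
        ((hp 1).fun_mul ((hw 2 0).fun_sub (hw 0 2)))).fun_add
        ((hp 2).fun_mul ((hw 0 1).fun_sub (hw 1 0)))
    have := g_pd_of_line l dvec hv
    rw [this, e1]
    simp
  simp only [key]
  refine g_alg (φ y) (A y) (cov A φ y) (fun l m => pd l (fun z => cov A φ z m) y) (curv A y)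
    (fun l m n => pd l (fun z => curv A z m n) y) ?_ ?_ ?_ ?_
  · intro l m
    unfold curv
    rw [← cross_anticomm (A y m) (A y l)]
    abel
  · intro k l m
    simp only [pcurv]
    rw [← cross_anticomm (A y m) (pd k (fun z => A z l) y),
      ← cross_anticomm (pd k (fun z => A z m) y) (A y l)]
    abel
  · intro l m
    simp only [pcov]
    rw [g_pd_comm m l hU hφ hy]
    unfold cov curv
    funext a
    fin_cases a <;>
    · simp only [Pi.add_apply, Pi.sub_apply, Fin.mk_zero, Fin.mk_one, Fin.reduceFinMk, Fin.zero_eta,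
        g_cr0, g_cr1, g_cr2]
      ring
  · intro l m n
    simp only [pcurv]
    rw [g_pd_comm m l hU (sA n) hy, g_pd_comm n l hU (sA m) hy, g_pd_comm n m hU (sA l) hy]
    unfold curv
    funext a
    fin_cases a <;>
    · simp only [Pi.add_apply, Pi.sub_apply, Pi.zero_apply, Fin.mk_zero, Fin.mk_one,
        Fin.reduceFinMk, Fin.zero_eta, g_cr0, g_cr1, g_cr2]
      ring

end

end Pool.Agent.Helper8.DC
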