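import Mathlib

/-!
Definitions: SO(3)-connections over a closed 4-manifold in local coordinates,
curvature, positive definiteness, flat orthogonal coefficients.
-/

set_option autoImplicit false

open scoped Manifold ContDiff

namespace Pool.Agent.Helper8.DC

noncomputable section

/-- The model space of a 4-manifold. -/
abbrev E4 := EuclideanSpace ℝ (Fin 4)

/-- `ℝ³`, identified with the Lie algebra of skew matrices: `a` acts by `w ↦ a × w`. -/
abbrev R3 := Fin 3 → ℝ

/-- The `l`-th partial derivative of `f` at `y`. -/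
def pd {V : Type} [NormedAddCommGroup V] [NormedSpace ℝ V] (l : Fin 4) (f : E4 → V) (y : E4) : V :=
  fderiv ℝ f y (EuclideanSpace.single l 1)

/-- `B ∧ C = wedge B C · dy⁰ ∧ dy¹ ∧ dy² ∧ dy³` for 2-forms `B`, `C` on `ℝ⁴`
(with components `B l m = B(∂_l, ∂_m)`). -/
def wedge (B C : Fin 4 → Fin 4 → ℝ) : ℝ :=
  B 0 1 * C 2 3 - B 0 2 * C 1 3 + B 0 3 * C 1 2 + B 1 2 * C 0 3 - B 1 3 * C 0 2 + B 2 3 * C 0 1

/-- The 2-form `a ∧ b` for 1-forms `a`, `b`. -/
def wed (a b : Fin 4 → ℝ) : Fin 4 → Fin 4 → ℝ := fun l m => a l * b m - a m * b l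

/-- Coefficient of `a ∧ b ∧ B`. -/
def wedge3 (a b : Fin 4 → ℝ) (B : Fin 4 → Fin 4 → ℝ) : ℝ := wedge (wed a b) B

/-- Value `F(u,v)` of an `ℝ³`-valued 2-form. -/
def val (F : Fin 4 → Fin 4 → R3) (u v : Fin 4 → ℝ) : R3 := ∑ l, ∑ m, (u l * v m) • F l m

/-- The `a`-th component of an `ℝ³`-valued 2-form. -/
def cmp (F : Fin 4 → Fin 4 → R3) (a : Fin 3) : Fin 4 → Fin 4 → ℝ := fun l m => F l m a

/-- The matrix `M` of the curvature: `F_a ∧ F_b = M a b · dy⁰ ∧ dy¹ ∧ dy² ∧ dy³`. -/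
def gram (F : Fin 4 → Fin 4 → R3) : Matrix (Fin 3) (Fin 3) ℝ :=
  fun a b => wedge (cmp F a) (cmp F b)

/-- Covariant derivative `∇_m φ = ∂_m φ + A_m × φ` of a local section. -/
def cov (A : E4 → Fin 4 → R3) (φ : E4 → R3) (y : E4) (m : Fin 4) : R3 :=
  pd m φ y + crossProduct (A y m) (φ y)

/-- Curvature `F_lm = ∂_l A_m - ∂_m A_l + A_l × A_m` (so `[∇_l, ∇_m] φ = F_lm × φ`). -/
def curv (A : E4 → Fin 4 → R3) (y : E4) (l m : Fin 4) : R3 :=
  pd l (fun z => A z m) y - pd m (fun z => A z l) y + crossProduct (A y l) (A y m)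

/-- Definite: `F(u,v) ≠ 0` for linearly independent `u`, `v`. -/
def Definite (F : Fin 4 → Fin 4 → R3) : Prop :=
  ∀ u v : Fin 4 → ℝ, LinearIndependent ℝ ![u, v] → val F u v ≠ 0

/-- `F` is definite, the coordinates are oriented by `F` (`F_a ∧ F_a > 0`), and `(F_1, F_2, F_3)`
is an oriented basis of `Λ⁺`: whenever `u ≠ 0` and `F_1(v,·) = F_2(u,·)` one has `F_3(u,v) > 0`
(indices `0, 1, 2` in Lean). For the round 4-sphere `F_a` is `- (ω_a)`, `ω_a(u,v) = g(J_a u, v)`,
`J_1 J_2 = J_3`, and this holds. -/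
def PosDef (F : Fin 4 → Fin 4 → R3) : Prop :=
  Definite F ∧ (∀ a, 0 < gram F a a) ∧
    ∀ u v : Fin 4 → ℝ, u ≠ 0 → (∀ w, val F v w 0 = val F u w 1) → 0 < val F u v 2

/-- The pinching condition `2 tr M² ≤ (tr M)²`, i.e. the eigenvalues of `√M` satisfy the
triangle inequality. -/
def Pinched (F : Fin 4 → Fin 4 → R3) : Prop :=
  2 * (gram F * gram F).trace ≤ (gram F).trace ^ 2

variable {X : Type} [TopologicalSpace X] [ChartedSpace E4 X] [IsManifold (𝓡 4) ∞ X]

variable (X) in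
/-- An oriented rank 3 bundle `E` with fibre metric and metric connection over the 4-manifold `X`,
given by trivialisations over coordinate charts `c i` (from the maximal atlas) that cover `X`:
connection forms `A i` in the coordinates of `c i`, transition functions `g i j` with values in
`SO(3)`, written in the coordinates of `c j`. -/
structure Bundle where
  /-- index set -/
  ι : Type
  /-- coordinate charts -/
  c : ι → OpenPartialHomeomorph X E4
  c_mem : ∀ i, c i ∈ IsManifold.maximalAtlas (𝓡 4) ∞ X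
  cover : ∀ x, ∃ i, x ∈ (c i).source
  /-- connection forms -/
  A : ι → E4 → Fin 4 → R3
  A_smooth : ∀ i, ContDiffOn ℝ ∞ (A i) (c i).target
  /-- transition functions -/
  g : ι → ι → E4 → Matrix (Fin 3) (Fin 3) ℝ
  g_smooth : ∀ i j a b, ContDiffOn ℝ ∞ (fun y => g i j y a b)
    ((c j).target ∩ (c j).symm ⁻¹' (c i).source)
  g_mem : ∀ i j, ∀ y ∈ (c j).target ∩ (c j).symm ⁻¹' (c i).source,
    g i j y ∈ Matrix.specialOrthogonalGroup (Fin 3) ℝ
  g_cocycle : ∀ i j k, ∀ y ∈ (c k).target ∩ (c k).symm ⁻¹' ((c i).source ∩ (c j).source),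
    g i j ((c j) ((c k).symm y)) * g j k y = g i k y
  /-- `dg + A_i g = g A_j` -/
  compat : ∀ i j, ∀ y ∈ (c j).target ∩ (c j).symm ⁻¹' (c i).source, ∀ (m : Fin 4) (w : R3),
    pd m (fun z => (g i j z).mulVec w) y +
      crossProduct (∑ n, (pd m (fun z => (c i) ((c j).symm z)) y) n • A i ((c i) ((c j).symm y)) n)
        ((g i j y).mulVec w) = (g i j y).mulVec (crossProduct (A j y m) w)

namespace Bundle

/-- The overlap of the charts `i` and `j`, in the coordinates of `j`. -/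
def ov (P : Bundle X) (i j : P.ι) : Set E4 := (P.c j).target ∩ (P.c j).symm ⁻¹' (P.c i).source

/-- The change of coordinates from `j` to `i`. -/
def tr (P : Bundle X) (i j : P.ι) (y : E4) : E4 := (P.c i) ((P.c j).symm y)

/-- The connection is positive definite (and the charts are oriented by it). -/
def PositiveDefinite (P : Bundle X) : Prop :=
  ∀ i, ∀ y ∈ (P.c i).target, PosDef (curv (P.A i) y)

/-- `2 tr M² ≤ (tr M)²` everywhere. -/
def IsPinched (P : Bundle X) : Prop := ∀ i, ∀ y ∈ (P.c i).target, Pinched (curv (P.A i) y)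

/-- A flat orthogonal bundle `L` of rank `N`: locally constant transition matrices in `O(N)`. -/
structure Flat (P : Bundle X) (N : ℕ) where
  /-- transition matrices -/
  h : P.ι → P.ι → E4 → Matrix (Fin N) (Fin N) ℝ
  h_const : ∀ i j, ∀ y ∈ P.ov i j, ∀ᶠ z in nhds y, h i j z = h i j y
  h_mem : ∀ i j, ∀ y ∈ P.ov i j, h i j y ∈ Matrix.orthogonalGroup (Fin N) ℝ
  h_cocycle : ∀ i j k, ∀ y ∈ (P.c k).target ∩ (P.c k).symm ⁻¹' ((P.c i).source ∩ (P.c j).source),
    h i j (P.tr j k y) * h j k y = h i k y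

/-- A smooth section of `L ⊗ E`: in the `i`-th trivialisation an `N`-tuple of functions with
values in `ℝ³`. -/
structure Sect (P : Bundle X) {N : ℕ} (L : P.Flat N) where
  /-- local representatives -/
  s : P.ι → E4 → Fin N → R3
  smooth : ∀ i, ContDiffOn ℝ ∞ (s i) (P.c i).target
  compat : ∀ i j, ∀ y ∈ P.ov i j, ∀ r,
    s i (P.tr i j y) r = ∑ t, L.h i j y r t • (P.g i j y).mulVec (s j y t)

/-- The components of the local `ℝ`-valued 2-form `⟨φ, F⟩ = ∑ φ_a F_a`. -/
def form (A : E4 → Fin 4 → R3) (φ : E4 → R3) (y : E4) (l m : Fin 4) : ℝ :=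
  ∑ a, φ y a * curv A y l m a

/-- A 2-form on an open set of `ℝ⁴` is closed at `y`. -/
def ClosedAt (η : E4 → Fin 4 → Fin 4 → ℝ) (y : E4) : Prop :=
  ∀ l m n : Fin 4, pd l (fun z => η z m n) y + pd m (fun z => η z n l) y +
    pd n (fun z => η z l m) y = 0

/-- The `L`-valued 2-form `⟨φ, F_A⟩` (a general `L`-valued section of `Λ⁺_A`) is closed. -/
def Sect.Closed {P : Bundle X} {N : ℕ} {L : P.Flat N} (φ : P.Sect L) : Prop :=
  ∀ i, ∀ y ∈ (P.c i).target, ∀ r,
    ClosedAt (form (P.A i) (fun z => φ.s i z r)) y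

end Bundle

end

end Pool.Agent.Helper8.DC
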