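import Pool.Agent.Helper8.DC.Alg

set_option autoImplicit false

namespace Pool.Agent.Helper8.DC

theorem rot_diag_orth (M : Matrix (Fin 3) (Fin 3) ℝ) (hM : M.transpose = M) :
    ∃ R : Matrix (Fin 3) (Fin 3) ℝ, R * R.transpose = 1 ∧
      ∀ a b, a ≠ b → (R * M * R.transpose) a b = 0 := by
  have hH : M.IsHermitian := by
    rw [Matrix.IsHermitian, Matrix.conjTranspose_eq_transpose_of_trivial]
    exact hM
  have hs := hH.conjStarAlgAut_star_eigenvectorUnitary
  set U : Matrix (Fin 3) (Fin 3) ℝ := (hH.eigenvectorUnitary : Matrix (Fin 3) (Fin 3) ℝ) with hU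
  have hUU : star U * U = 1 := (Matrix.mem_unitaryGroup_iff'.1 hH.eigenvectorUnitary.2)
  have hst : star U = U.transpose := by
    rw [Matrix.star_eq_conjTranspose, Matrix.conjTranspose_eq_transpose_of_trivial]
  rw [hst] at hUU
  rw [Unitary.conjStarAlgAut_star_apply] at hs
  have hs' : U.transpose * M * U = Matrix.diagonal (RCLike.ofReal ∘ hH.eigenvalues) := by
    rw [← hst]; exact hs
  refine ⟨U.transpose, by rw [Matrix.transpose_transpose]; exact hUU, ?_⟩
  intro a b hab
  rw [Matrix.transpose_transpose, hs', Matrix.diagonal_apply_ne _ hab]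

/-- PIECE A. Diagonalisation of a symmetric 3x3 matrix by a rotation.
PROOF. `M` is Hermitian; `Matrix.IsHermitian.spectral_theorem` gives an orthogonal `R`
(transpose of the eigenvector matrix) with `R M Rᵀ` diagonal. If `det R = -1` take `-R`
(dimension 3). -/
theorem rot_diag (M : Matrix (Fin 3) (Fin 3) ℝ) (hM : M.transpose = M) :
    ∃ R ∈ Matrix.specialOrthogonalGroup (Fin 3) ℝ,
      ∀ a b, a ≠ b → (R * M * R.transpose) a b = 0 := by
  obtain ⟨R, hR, hd⟩ := rot_diag_orth M hM
  have hdet : R.det * R.det = 1 := by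
    have h := congrArg Matrix.det hR
    rwa [Matrix.det_mul, Matrix.det_transpose, Matrix.det_one] at h
  rcases mul_self_eq_one_iff.1 hdet with h | h
  · refine ⟨R, ?_, hd⟩
    rw [Matrix.mem_specialOrthogonalGroup_iff, Matrix.mem_orthogonalGroup_iff]
    exact ⟨hR, h⟩
  · refine ⟨-R, ?_, ?_⟩
    · rw [Matrix.mem_specialOrthogonalGroup_iff, Matrix.mem_orthogonalGroup_iff]
      refine ⟨?_, ?_⟩
      · rw [Matrix.transpose_neg, neg_mul_neg]
        exact hR
      · rw [Matrix.det_neg, h]
        norm_num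
    · intro a b hab
      rw [Matrix.transpose_neg, mul_neg, neg_mul, neg_mul, neg_neg]
      exact hd a b hab

end Pool.Agent.Helper8.DC
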