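import Pool.Agent.Helper8.DC.PI

set_option autoImplicit false

open scoped Manifold ContDiff

namespace Pool.Agent.Helper8.DC

noncomputable section

section PJaux

variable {V W : Type} [NormedAddCommGroup V] [NormedSpace ℝ V] [NormedAddCommGroup W]
  [NormedSpace ℝ W]

theorem pj_congr {f g : E4 → V} {y : E4} (l : Fin 4) (h : f =ᶠ[nhds y] g) :
    pd l f y = pd l g y := by
  unfold pd; rw [h.fderiv_eq]

theorem pj_add {f g : E4 → V} {y : E4} (l : Fin 4) (hf : DifferentiableAt ℝ f y)
    (hg : DifferentiableAt ℝ g y) :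
    pd l (fun z => f z + g z) y = pd l f y + pd l g y := by
  unfold pd
  have : fderiv ℝ (fun z => f z + g z) y = fderiv ℝ f y + fderiv ℝ g y := fderiv_add hf hg
  rw [this]; rfl

theorem pj_sub {f g : E4 → V} {y : E4} (l : Fin 4) (hf : DifferentiableAt ℝ f y)
    (hg : DifferentiableAt ℝ g y) :
    pd l (fun z => f z - g z) y = pd l f y - pd l g y := by
  unfold pd
  have : fderiv ℝ (fun z => f z - g z) y = fderiv ℝ f y - fderiv ℝ g y := fderiv_sub hf hg
  rw [this]; rfl

theorem pj_sum {ι : Type} (s : Finset ι) {f : ι → E4 → V} {y : E4} (l : Fin 4)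
    (hf : ∀ i ∈ s, DifferentiableAt ℝ (f i) y) :
    pd l (fun z => ∑ i ∈ s, f i z) y = ∑ i ∈ s, pd l (f i) y := by
  unfold pd
  have : fderiv ℝ (fun z => ∑ i ∈ s, f i z) y = ∑ i ∈ s, fderiv ℝ (f i) y :=
    fderiv_fun_sum hf
  rw [this, sum_apply]

theorem pj_smul {c : E4 → ℝ} {f : E4 → V} {y : E4} (l : Fin 4) (hc : DifferentiableAt ℝ c y)
    (hf : DifferentiableAt ℝ f y) :
    pd l (fun z => c z • f z) y = pd l c y • f y + c y • pd l f y := by
  unfold pd
  have : fderiv ℝ (fun z => c z • f z) y = c y • fderiv ℝ f y + (fderiv ℝ c y).smulRight (f y) :=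
    fderiv_fun_smul hc hf
  rw [this]
  simp only [add_apply, smul_apply, ContinuousLinearMap.smulRight_apply]
  rw [add_comm]

theorem pj_clm (L : V →L[ℝ] W) {f : E4 → V} {y : E4} (l : Fin 4) (hf : DifferentiableAt ℝ f y) :
    pd l (fun z => L (f z)) y = L (pd l f y) := by
  unfold pd
  have : fderiv ℝ (fun z => L (f z)) y = L.comp (fderiv ℝ f y) :=
    (L.hasFDerivAt.comp y hf.hasFDerivAt).fderiv
  rw [this]; rfl

theorem pj_cross_diff {f g : E4 → R3} {y : E4} (hf : DifferentiableAt ℝ f y)
    (hg : DifferentiableAt ℝ g y) :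
    DifferentiableAt ℝ (fun z => crossProduct (f z) (g z)) y := by
  have h1 := (LinearMap.toContinuousBilinearMap (crossProduct (R := ℝ))).isBoundedBilinearMap
  exact (h1.differentiableAt (f y, g y)).comp y (hf.prodMk hg)

theorem pj_cross {f g : E4 → R3} {y : E4} (l : Fin 4) (hf : DifferentiableAt ℝ f y)
    (hg : DifferentiableAt ℝ g y) :
    pd l (fun z => crossProduct (f z) (g z)) y =
      crossProduct (pd l f y) (g y) + crossProduct (f y) (pd l g y) := by
  have h1 := (LinearMap.toContinuousBilinearMap (crossProduct (R := ℝ))).isBoundedBilinearMap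
  have h2 := ((h1.hasFDerivAt (f y, g y)).comp y (hf.hasFDerivAt.prodMk hg.hasFDerivAt)).fderiv
  unfold pd
  have h3 : (fun z => crossProduct (f z) (g z)) =
      ((fun p : R3 × R3 => (LinearMap.toContinuousBilinearMap (crossProduct (R := ℝ))) p.1 p.2) ∘
        fun z => (f z, g z)) := rfl
  rw [h3, h2]
  simp [IsBoundedBilinearMap.deriv]
  rw [add_comm]

/-- Symmetry of second partial derivatives. -/
theorem pj_symm {f : E4 → V} {y : E4} (hf : ContDiffAt ℝ 2 f y) (l m : Fin 4) :
    pd l (fun z => pd m f z) y = pd m (fun z => pd l f z) y := by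
  have hd : DifferentiableAt ℝ (fderiv ℝ f) y :=
    (hf.fderiv_right (m := 1) (by norm_num)).differentiableAt (by norm_num)
  have key : ∀ a b : Fin 4, pd a (fun z => pd b f z) y =
      fderiv ℝ (fderiv ℝ f) y (EuclideanSpace.single a 1) (EuclideanSpace.single b 1) := by
    intro a b
    have := pj_clm (ContinuousLinearMap.apply ℝ V (EuclideanSpace.single b (1 : ℝ) : E4))
      (f := fderiv ℝ f) (y := y) a hd
    simpa [pd] using this
  rw [key, key]
  exact (hf.isSymmSndFDerivAt (by simp)) _ _

theorem pj_pd_diff {f : E4 → V} {y : E4} (hf : ContDiffAt ℝ 2 f y) (m : Fin 4) :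
    DifferentiableAt ℝ (fun z => pd m f z) y := by
  have hd : DifferentiableAt ℝ (fderiv ℝ f) y :=
    (hf.fderiv_right (m := 1) (by norm_num)).differentiableAt (by norm_num)
  exact ((ContinuousLinearMap.apply ℝ V
    (EuclideanSpace.single m (1 : ℝ) : E4)).differentiableAt).comp y hd

/-- Chain rule. -/
theorem pj_chain {F : E4 → V} {τ : E4 → E4} {y : E4} (l : Fin 4)
    (hF : DifferentiableAt ℝ F (τ y)) (hτ : DifferentiableAt ℝ τ y) :
    pd l (fun z => F (τ z)) y = ∑ n, (pd l τ y) n • pd n F (τ y) := by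
  unfold pd
  have h1 : fderiv ℝ (fun z => F (τ z)) y = (fderiv ℝ F (τ y)).comp (fderiv ℝ τ y) :=
    (hF.hasFDerivAt.comp y hτ.hasFDerivAt).fderiv
  rw [h1, ContinuousLinearMap.comp_apply]
  set v : E4 := fderiv ℝ τ y (EuclideanSpace.single l 1) with hv
  have h2 : v = ∑ n, v n • (EuclideanSpace.single n (1 : ℝ) : E4) := by
    ext k
    simp [Finset.sum_apply, Pi.single_apply]
  conv_lhs => rw [h2]
  rw [map_sum]
  simp

/-- The cross product under a rotation. -/
theorem pj_rot (g : Matrix (Fin 3) (Fin 3) ℝ) (hg : g ∈ Matrix.specialOrthogonalGroup (Fin 3) ℝ)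
    (u v : R3) : crossProduct (g.mulVec u) (g.mulVec v) = g.mulVec (crossProduct u v) := by
  have h0 := Matrix.mem_specialOrthogonalGroup_iff.mp hg
  have h1 : g * g.transpose = 1 := by
    have := (Matrix.mem_orthogonalGroup_iff (Fin 3) ℝ).mp h0.1
    simpa [Matrix.star_eq_conjTranspose, Matrix.conjTranspose] using this
  have h2 : g.adjugate = g.transpose := by
    have h3 : g.adjugate * (g * g.transpose) = g.transpose := by
      rw [← mul_assoc, Matrix.adjugate_mul, h0.2, one_smul, one_mul]
    rw [h1, mul_one] at h3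
    exact h3
  have h4 : crossProduct (g.mulVec u) (g.mulVec v) =
      (g.adjugate.transpose).mulVec (crossProduct u v) := by
    rw [Matrix.adjugate_fin_three]
    ext k
    fin_cases k <;>
    simp [crossProduct, Matrix.mulVec, dotProduct, Fin.sum_univ_three] <;> ring
  rw [h4, h2, Matrix.transpose_transpose]

theorem pj_cross_zero (x : R3) (h : ∀ w : R3, crossProduct x w = 0) : x = 0 := by
  have h0 := h ![1, 0, 0]
  have h1 := h ![0, 1, 0]
  have a := congrFun h0 1
  have b := congrFun h0 2
  have c := congrFun h1 2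
  simp [cross_apply] at a b c
  ext k
  fin_cases k
  · simpa using c
  · simpa using b
  · simpa using a

theorem pj_prod (U : Set E4) (hU : IsOpen U) (g : E4 → Matrix (Fin 3) (Fin 3) ℝ)
    (a b : E4 → Fin 4 → R3) (hg : ∀ r s, ContDiffOn ℝ ∞ (fun z => g z r s) U)
    (hc : ∀ z ∈ U, ∀ (m : Fin 4) (w : R3), pd m (fun x => (g x).mulVec w) z +
      crossProduct (b z m) ((g z).mulVec w) = (g z).mulVec (crossProduct (a z m) w))
    (v : E4 → R3) (z : E4) (hz : z ∈ U) (hv : DifferentiableAt ℝ v z) (l : Fin 4) :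
    pd l (fun x => (g x).mulVec (v x)) z = (g z).mulVec (pd l v z) +
      ((g z).mulVec (crossProduct (a z l) (v z)) - crossProduct (b z l) ((g z).mulVec (v z))) := by
  have hgd : ∀ w : R3, DifferentiableAt ℝ (fun x => (g x).mulVec w) z := by
    intro w
    rw [differentiableAt_pi]
    intro r
    have h1 : ∀ s, DifferentiableAt ℝ (fun x => g x r s) z := fun s =>
      ((hg r s).contDiffAt (hU.mem_nhds hz)).differentiableAt (by simp)
    simp only [Matrix.mulVec, dotProduct]
    exact DifferentiableAt.fun_sum fun s _ => (h1 s).mul_const _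
  have hvd : ∀ s, DifferentiableAt ℝ (fun x => v x s) z := fun s => differentiableAt_pi.mp hv s
  have hvp : ∀ s, pd l (fun x => v x s) z = pd l v z s := fun s =>
    pj_clm (ContinuousLinearMap.proj (R := ℝ) (φ := fun _ : Fin 3 => ℝ) s) l hv
  have hdec : ∀ w : R3, w = ∑ s, w s • (Pi.single s 1 : R3) := by
    intro w; ext k; simp [Finset.sum_apply, Pi.single_apply]
  have h2 : (fun x => (g x).mulVec (v x)) =
      fun x => ∑ s, v x s • (g x).mulVec (Pi.single s 1 : R3) := by
    funext x
    conv_lhs => rw [hdec (v x)]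
    rw [Matrix.mulVec_sum]
    simp only [Matrix.mulVec_smul]
  rw [h2, pj_sum (f := fun s x => v x s • (g x).mulVec (Pi.single s 1 : R3)) Finset.univ l
    (fun s _ => (hvd s).smul (hgd _))]
  have h3 : ∀ s, pd l (fun x => v x s • (g x).mulVec (Pi.single s 1 : R3)) z =
      pd l v z s • (g z).mulVec (Pi.single s 1 : R3) +
      v z s • ((g z).mulVec (crossProduct (a z l) (Pi.single s 1 : R3)) -
        crossProduct (b z l) ((g z).mulVec (Pi.single s 1 : R3))) := by
    intro s
    rw [pj_smul l (hvd s) (hgd _), hvp, ← hc z hz l, add_sub_cancel_right]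
  rw [Finset.sum_congr rfl fun s _ => h3 s, Finset.sum_add_distrib]
  have h4 : ∀ w : R3, ∑ s, w s • (g z).mulVec (Pi.single s 1 : R3) = (g z).mulVec w := by
    intro w
    conv_rhs => rw [hdec w]
    rw [Matrix.mulVec_sum]
    simp only [Matrix.mulVec_smul]
  rw [h4]
  congr 1
  simp only [smul_sub]
  rw [Finset.sum_sub_distrib]
  congr 1
  · conv_rhs => rw [hdec (v z)]
    rw [map_sum, Matrix.mulVec_sum]
    simp only [map_smul, Matrix.mulVec_smul]
  · rw [← h4 (v z), map_sum]
    simp only [map_smul]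

theorem pj_gauge (U : Set E4) (hU : IsOpen U) (g : E4 → Matrix (Fin 3) (Fin 3) ℝ)
    (a b : E4 → Fin 4 → R3) (hg : ∀ r s, ContDiffOn ℝ ∞ (fun z => g z r s) U)
    (ha : ∀ z ∈ U, ∀ m, DifferentiableAt ℝ (fun x => a x m) z)
    (hb : ∀ z ∈ U, ∀ m, DifferentiableAt ℝ (fun x => b x m) z)
    (hso : ∀ z ∈ U, g z ∈ Matrix.specialOrthogonalGroup (Fin 3) ℝ)
    (hc : ∀ z ∈ U, ∀ (m : Fin 4) (w : R3), pd m (fun x => (g x).mulVec w) z +
      crossProduct (b z m) ((g z).mulVec w) = (g z).mulVec (crossProduct (a z m) w))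
    (y : E4) (hy : y ∈ U) (l m : Fin 4) :
    curv b y l m = (g y).mulVec (curv a y l m) := by
  have hgc : ∀ w : R3, ContDiffAt ℝ 2 (fun x => (g x).mulVec w) y := by
    intro w
    rw [contDiffAt_pi]
    intro r
    have h1 : ∀ s, ContDiffAt ℝ 2 (fun x => g x r s) y := fun s =>
      ((hg r s).contDiffAt (hU.mem_nhds hy)).of_le (by norm_cast)
    simp only [Matrix.mulVec, dotProduct]
    exact ContDiffAt.sum fun s _ => (h1 s).mul contDiffAt_const
  have hpd : ∀ z ∈ U, ∀ (k : Fin 4) (w : R3), pd k (fun x => (g x).mulVec w) z =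
      (g z).mulVec (crossProduct (a z k) w) - crossProduct (b z k) ((g z).mulVec w) := by
    intro z hz k w
    rw [← hc z hz k w, add_sub_cancel_right]
  have hconst : ∀ (k : Fin 4) (w : R3), pd k (fun _ : E4 => w) y = 0 := by
    intro k w
    unfold pd
    simp
  have hprodd : ∀ (v : E4 → R3), DifferentiableAt ℝ v y →
      DifferentiableAt ℝ (fun x => (g x).mulVec (v x)) y := by
    intro v hv
    rw [differentiableAt_pi]
    intro r
    have h1 : ∀ s, DifferentiableAt ℝ (fun x => g x r s) y := fun s =>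
      ((hg r s).contDiffAt (hU.mem_nhds hy)).differentiableAt (by simp)
    simp only [Matrix.mulVec, dotProduct]
    exact DifferentiableAt.fun_sum fun s _ => (h1 s).mul (differentiableAt_pi.mp hv s)
  -- the second derivative
  have hsec : ∀ (p q : Fin 4) (w : R3),
      pd p (fun z => pd q (fun x => (g x).mulVec w) z) y =
        ((g y).mulVec (crossProduct (pd p (fun x => a x q) y) w) +
          ((g y).mulVec (crossProduct (a y p) (crossProduct (a y q) w)) -
            crossProduct (b y p) ((g y).mulVec (crossProduct (a y q) w)))) -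
        (crossProduct (pd p (fun x => b x q) y) ((g y).mulVec w) +
          crossProduct (b y q) ((g y).mulVec (crossProduct (a y p) w) -
            crossProduct (b y p) ((g y).mulVec w))) := by
    intro p q w
    have haw : DifferentiableAt ℝ (fun x => crossProduct (a x q) w) y :=
      pj_cross_diff (ha y hy q) (differentiableAt_const w)
    have hgw : DifferentiableAt ℝ (fun x => (g x).mulVec w) y :=
      hprodd (fun _ => w) (differentiableAt_const w)
    have h1 : (fun z => pd q (fun x => (g x).mulVec w) z) =ᶠ[nhds y]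
        fun z => (g z).mulVec (crossProduct (a z q) w) - crossProduct (b z q) ((g z).mulVec w) := by
      filter_upwards [hU.mem_nhds hy] with z hz using hpd z hz q w
    rw [pj_congr p h1, pj_sub p (hprodd _ haw) (pj_cross_diff (hb y hy q) hgw),
      pj_prod U hU g a b hg hc _ y hy haw p, pj_cross p (hb y hy q) hgw,
      pj_cross p (ha y hy q) (differentiableAt_const w), hconst, map_zero, add_zero,
      hpd y hy p w]
  have hR : ∀ w : R3, crossProduct (curv b y l m) ((g y).mulVec w) =
      crossProduct ((g y).mulVec (curv a y l m)) ((g y).mulVec w) := by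
    intro w
    have e1 := pj_symm (hgc w) l m
    rw [hsec, hsec] at e1
    rw [pj_rot _ (hso y hy)]
    have e2 : crossProduct (curv a y l m) w =
        crossProduct (pd l (fun x => a x m) y) w - crossProduct (pd m (fun x => a x l) y) w +
        (crossProduct (a y l) (crossProduct (a y m) w) -
          crossProduct (a y m) (crossProduct (a y l) w)) := by
      unfold curv
      rw [map_add, map_sub, LinearMap.add_apply, LinearMap.sub_apply, cross_cross]
    have e3 : crossProduct (curv b y l m) ((g y).mulVec w) =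
        crossProduct (pd l (fun x => b x m) y) ((g y).mulVec w) -
        crossProduct (pd m (fun x => b x l) y) ((g y).mulVec w) +
        (crossProduct (b y l) (crossProduct (b y m) ((g y).mulVec w)) -
          crossProduct (b y m) (crossProduct (b y l) ((g y).mulVec w))) := by
      unfold curv
      rw [map_add, map_sub, LinearMap.add_apply, LinearMap.sub_apply, cross_cross]
    rw [e2, e3]
    simp only [map_sub, Matrix.mulVec_add, Matrix.mulVec_sub] at e1 ⊢
    have e4 := sub_eq_zero.mpr e1
    rw [← sub_eq_zero, ← neg_eq_zero, ← e4]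
    abel
  have h5 : curv b y l m - (g y).mulVec (curv a y l m) = 0 := by
    apply pj_cross_zero
    intro w
    have h0 := Matrix.mem_specialOrthogonalGroup_iff.mp (hso y hy)
    have h1 : g y * (g y).transpose = 1 := by
      have := (Matrix.mem_orthogonalGroup_iff (Fin 3) ℝ).mp h0.1
      simpa [Matrix.star_eq_conjTranspose, Matrix.conjTranspose] using this
    have h2 := hR ((g y).transpose.mulVec w)
    rw [Matrix.mulVec_mulVec, h1, Matrix.one_mulVec] at h2
    rw [map_sub, LinearMap.sub_apply, h2, sub_self]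
  exact sub_eq_zero.mp h5

theorem pj_pull (A : E4 → Fin 4 → R3) (τ : E4 → E4) (y : E4) (hτ : ContDiffAt ℝ 2 τ y)
    (hA : ∀ n, DifferentiableAt ℝ (fun x => A x n) (τ y)) (l m : Fin 4) :
    curv (fun z k => ∑ n, (pd k τ z) n • A (τ z) n) y l m =
      ∑ n, ∑ p, ((pd l τ y) n * (pd m τ y) p) • curv A (τ y) n p := by
  have hτd : DifferentiableAt ℝ τ y := hτ.differentiableAt (by norm_num)
  have hT : ∀ k n : Fin 4, DifferentiableAt ℝ (fun z => (pd k τ z) n) y := by
    intro k n
    exact ((EuclideanSpace.proj n : E4 →L[ℝ] ℝ).differentiableAt).comp y (pj_pd_diff hτ k)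
  have hH : ∀ p q n : Fin 4, pd p (fun z => (pd q τ z) n) y = (pd p (fun z => pd q τ z) y) n :=
    fun p q n => pj_clm (EuclideanSpace.proj n : E4 →L[ℝ] ℝ) p (pj_pd_diff hτ q)
  have hAd : ∀ n, DifferentiableAt ℝ (fun z => A (τ z) n) y := fun n =>
    (hA n).comp y hτd
  have hder : ∀ p q : Fin 4, pd p (fun z => ∑ n, (pd q τ z) n • A (τ z) n) y =
      ∑ n, ((pd p (fun z => pd q τ z) y) n • A (τ y) n + (pd q τ y) n •
        ∑ k, (pd p τ y) k • pd k (fun x => A x n) (τ y)) := by
    intro p q
    rw [pj_sum (f := fun n z => (pd q τ z) n • A (τ z) n) Finset.univ p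
      (fun n _ => (hT q n).smul (hAd n))]
    refine Finset.sum_congr rfl fun n _ => ?_
    rw [pj_smul p (hT q n) (hAd n), hH, pj_chain (F := fun x => A x n) p (hA n) hτd]
  unfold curv
  rw [hder, hder, pj_symm hτ m l]
  simp only [Finset.sum_add_distrib]
  rw [map_sum]
  simp only [Fin.sum_univ_four, map_add, map_smul, LinearMap.add_apply, LinearMap.smul_apply,
    smul_add, smul_sub, smul_smul]
  module

end PJaux

variable {X : Type} [TopologicalSpace X] [ChartedSpace E4 X] [IsManifold (𝓡 4) ∞ X]

/-- PIECE J. The curvature is a tensor.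
PROOF. Let `hat a` be the matrix of `w ↦ a × w` (`hat (a × b) = hat a * hat b - hat b * hat a`,
`hat (g a) = g * hat a * gᵀ` for `g` in `SO(3)`), `T = jac`, `B_m = ∑_n T n m • A_i n ∘ τ` near `y`.
`P.compat` says `∂_m g = g * hat (A_j m) - hat (B_m) * g` on the open set `ov`. Differentiate by
`∂_l` and antisymmetrise in `l, m` (second derivatives of `g` are symmetric; the mixed terms
`hat B_l g hat A_m + hat B_m g hat A_l` are symmetric):
`g * hat (curv A_j l m) = hat (∂_l B_m - ∂_m B_l + B_l × B_m) * g`, i.e.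
`∂_l B_m - ∂_m B_l + B_l × B_m = g (curv A_j l m)`. By the chain rule and the symmetry of
`∂_l T n m` in `l, m` the left side is `∑_n ∑_p T n l T p m curv A_i n p (τ y)`. -/
theorem curv_tr (P : Bundle X) (i j : P.ι) (y : E4) (hy : y ∈ P.ov i j) (l m : Fin 4) :
    ∑ n, ∑ p, (jac P i j y n l * jac P i j y p m) • curv (P.A i) (P.tr i j y) n p =
      (P.g i j y).mulVec (curv (P.A j) y l m) := by
  have hU := ov_open P i j
  have hτ : ∀ z ∈ P.ov i j, ContDiffAt ℝ 2 (P.tr i j) z := fun z hz =>
    ((tr_smooth P i j).contDiffAt (hU.mem_nhds hz)).of_le (by norm_cast)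
  have hAi : ∀ z ∈ P.ov i j, ∀ n, DifferentiableAt ℝ (fun x => P.A i x n) (P.tr i j z) := by
    intro z hz n
    have h1 := ((P.A_smooth i).contDiffAt ((P.c i).open_target.mem_nhds
      (tr_mem P i j z hz))).differentiableAt (by simp)
    exact differentiableAt_pi.mp h1 n
  have hAj : ∀ z ∈ P.ov i j, ∀ n, DifferentiableAt ℝ (fun x => P.A j x n) z := by
    intro z hz n
    have h1 := ((P.A_smooth j).contDiffAt ((P.c j).open_target.mem_nhds
      hz.1)).differentiableAt (by simp)
    exact differentiableAt_pi.mp h1 n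
  set b : E4 → Fin 4 → R3 := fun z k =>
    ∑ n, (pd k (P.tr i j) z) n • P.A i (P.tr i j z) n with hbdef
  have hb : ∀ z ∈ P.ov i j, ∀ k, DifferentiableAt ℝ (fun x => b x k) z := by
    intro z hz k
    have hT : ∀ n : Fin 4, DifferentiableAt ℝ (fun x => (pd k (P.tr i j) x) n) z := by
      intro n
      exact ((EuclideanSpace.proj n : E4 →L[ℝ] ℝ).differentiableAt).comp z
        (pj_pd_diff (hτ z hz) k)
    exact DifferentiableAt.fun_sum fun n _ => (hT n).smul
      ((hAi z hz n).comp z ((hτ z hz).differentiableAt (by norm_num)))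
  have h1 := pj_gauge (P.ov i j) hU (P.g i j) (P.A j) b (P.g_smooth i j) hAj hb (P.g_mem i j)
    (P.compat i j) y hy l m
  rw [← h1]
  exact (pj_pull (P.A i) (P.tr i j) y (hτ y hy) (hAi y hy) l m).symm

end

end Pool.Agent.Helper8.DC
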