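import Pool.Agent.Helper8.DC.PE
import Pool.Agent.Helper8.DC.Sm
import Pool.Agent.Helper8.DC.PJ

set_option autoImplicit false

open scoped Manifold ContDiff

namespace Pool.Agent.Helper8.DC

noncomputable section

/-! Multilinearity of `trip`. -/

theorem wedge_sum_left {κ : Type} (s : Finset κ) (f : κ → ℝ) (B : κ → Fin 4 → Fin 4 → ℝ)
    (C : Fin 4 → Fin 4 → ℝ) :
    wedge (fun l m => ∑ k ∈ s, f k * B k l m) C = ∑ k ∈ s, f k * wedge (B k) C := by
  simp only [wedge, Finset.sum_mul, ← Finset.sum_add_distrib, ← Finset.sum_sub_distrib]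
  refine Finset.sum_congr rfl fun k _ => ?_
  ring

theorem wedge3_sum_left {κ : Type} (s : Finset κ) (f : κ → ℝ) (a : κ → Fin 4 → ℝ)
    (b : Fin 4 → ℝ) (B : Fin 4 → Fin 4 → ℝ) :
    wedge3 (fun m => ∑ k ∈ s, f k * a k m) b B = ∑ k ∈ s, f k * wedge3 (a k) b B := by
  unfold wedge3
  rw [← wedge_sum_left]
  congr 1
  funext l m
  simp only [wed, Finset.sum_mul, ← Finset.sum_sub_distrib]
  refine Finset.sum_congr rfl fun k _ => ?_
  ring

theorem wedge3_sum_right {κ : Type} (s : Finset κ) (f : κ → ℝ) (a : Fin 4 → ℝ)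
    (b : κ → Fin 4 → ℝ) (B : Fin 4 → Fin 4 → ℝ) :
    wedge3 a (fun m => ∑ k ∈ s, f k * b k m) B = ∑ k ∈ s, f k * wedge3 a (b k) B := by
  unfold wedge3
  rw [← wedge_sum_left]
  congr 1
  funext l m
  simp only [wed, Finset.mul_sum, ← Finset.sum_sub_distrib]
  refine Finset.sum_congr rfl fun k _ => ?_
  ring

theorem trip_sum_form {κ : Type} (s : Finset κ) (f : κ → ℝ) (φ : R3) (β : κ → Fin 4 → ℝ)
    (α : Fin 4 → R3) (F : Fin 4 → Fin 4 → R3) :
    trip φ (fun m => ∑ k ∈ s, f k * β k m) α F = ∑ k ∈ s, f k * trip φ (β k) α F := by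
  simp only [trip, wedge3_sum_left, Finset.mul_sum, ← Finset.sum_add_distrib,
    ← Finset.sum_sub_distrib]
  refine Finset.sum_congr rfl fun k _ => ?_
  ring

theorem trip_sum_phi {κ : Type} (s : Finset κ) (f : κ → ℝ) (φ : κ → R3) (β : Fin 4 → ℝ)
    (α : Fin 4 → R3) (F : Fin 4 → Fin 4 → R3) :
    trip (∑ k ∈ s, f k • φ k) β α F = ∑ k ∈ s, f k * trip (φ k) β α F := by
  simp only [trip, Finset.sum_apply, Pi.smul_apply, smul_eq_mul, Finset.sum_mul,
    ← Finset.sum_add_distrib]
  refine Finset.sum_congr rfl fun k _ => ?_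
  ring

theorem trip_sum_cov {κ : Type} (s : Finset κ) (f : κ → ℝ) (φ : R3) (β : Fin 4 → ℝ)
    (α : κ → Fin 4 → R3) (F : Fin 4 → Fin 4 → R3) :
    trip φ β (fun m => ∑ k ∈ s, f k • α k m) F = ∑ k ∈ s, f k * trip φ β (α k) F := by
  have h : ∀ b, cm1 (fun m => ∑ k ∈ s, f k • α k m) b =
      fun m => ∑ k ∈ s, f k * cm1 (α k) b m := by
    intro b
    funext m
    simp [cm1, Finset.sum_apply]
  simp only [trip, h, wedge3_sum_right, Finset.mul_sum, ← Finset.sum_add_distrib,
    ← Finset.sum_sub_distrib]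
  refine Finset.sum_congr rfl fun k _ => ?_
  ring

/-- `trip` of pulled back forms. -/
theorem trip_pull (T : Matrix (Fin 4) (Fin 4) ℝ) (φ : R3) (β : Fin 4 → ℝ) (α : Fin 4 → R3)
    (F : Fin 4 → Fin 4 → R3) (hF : Skew F) :
    trip φ (fun m => ∑ n, T n m * β n) (fun m => ∑ n, T n m • α n)
      (fun l m => ∑ n, ∑ p, (T n l * T p m) • F n p) = T.det * trip φ β α F := by
  have h1 : ∀ b, cm1 (fun m => ∑ n, T n m • α n) b = fun m => ∑ n, T n m * cm1 α b n := by
    intro b; funext m; simp [cm1, Finset.sum_apply]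
  have h2 : ∀ c, cmp (fun l m => ∑ n, ∑ p, (T n l * T p m) • F n p) c =
      fun l m => ∑ n, ∑ p, T n l * T p m * cmp F c n p := by
    intro c; funext l m; simp [cmp, Finset.sum_apply]
  have hs : ∀ c, ∀ l m, cmp F c l m = -cmp F c m l := by
    intro c l m
    have := congrFun (hF l m) c
    simpa [cmp] using this
  simp only [trip, h1, h2]
  simp only [wedge3_pull T β _ _ (hs _)]
  ring

theorem skew_curv (A : E4 → Fin 4 → R3) (y : E4) : Skew (curv A y) := by
  intro l m
  unfold curv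
  rw [← cross_anticomm]
  abel

theorem trip_lin_form (φ : R3) (β : Fin 4 → ℝ) (α : Fin 4 → R3) (F : Fin 4 → Fin 4 → R3) :
    trip φ β α F = ∑ l, β l * trip φ (Pi.single l 1) α F := by
  rw [← trip_sum_form]
  congr 1
  funext m
  simp [Pi.single_apply]

variable {X : Type} [TopologicalSpace X] [ChartedSpace E4 X] [IsManifold (𝓡 4) ∞ X]

/-- The vector density of the whole section. -/
def wv (P : Bundle X) {N : ℕ} {L : P.Flat N} (φ : P.Sect L) (i : P.ι) (y : E4) (l : Fin 4) : ℝ :=
  ∑ r, vec (P.A i) (fun z => φ.s i z r) y l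

theorem wv_tr (P : Bundle X) {N : ℕ} (L : P.Flat N) (φ : P.Sect L) (i j : P.ι) (y : E4)
    (hy : y ∈ P.ov i j) (n : Fin 4) :
    ∑ l, jac P i j y n l * wv P φ j y l = (jac P i j y).det * wv P φ i (P.tr i j y) n := by
  set T := jac P i j y with hT
  set g := P.g i j y with hg
  have hgm : g ∈ Matrix.specialOrthogonalGroup (Fin 3) ℝ := P.g_mem i j y hy
  have hh : ∀ s t : Fin N, ∑ r, L.h i j y r s * L.h i j y r t = if s = t then 1 else 0 := by
    intro s t
    have h1 := L.h_mem i j y hy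
    rw [Matrix.mem_orthogonalGroup_iff'] at h1
    have := congrFun (congrFun h1 s) t
    simpa [Matrix.mul_apply, Matrix.one_apply, Matrix.star_eq_conjTranspose] using this
  have e1 : ∀ r, T.det * trip (φ.s i (P.tr i j y) r) (Pi.single n 1)
      (cov (P.A i) (fun z => φ.s i z r) (P.tr i j y)) (curv (P.A i) (P.tr i j y)) =
      ∑ s, ∑ t, L.h i j y r s * L.h i j y r t *
        trip (φ.s j y s) (fun m => T n m) (cov (P.A j) (fun z => φ.s j z t) y)
          (curv (P.A j) y) := by
    intro r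
    rw [← trip_pull T _ _ _ _ (skew_curv _ _)]
    have a1 : (fun m => ∑ n', T n' m * (Pi.single n 1 : Fin 4 → ℝ) n') = fun m => T n m := by
      funext m; simp [Pi.single_apply]
    have a2 : (fun m => ∑ n', T n' m • cov (P.A i) (fun z => φ.s i z r) (P.tr i j y) n') =
        fun m => ∑ t, L.h i j y r t • g.mulVec (cov (P.A j) (fun z => φ.s j z t) y m) := by
      funext m; exact cov_tr P L φ i j y hy r m
    have a3 : (fun l m => ∑ n', ∑ p, (T n' l * T p m) • curv (P.A i) (P.tr i j y) n' p) =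
        fun l m => g.mulVec (curv (P.A j) y l m) := by
      funext l m; exact curv_tr P i j y hy l m
    rw [a1, a2, a3, φ.compat i j y hy r, trip_sum_phi]
    refine Finset.sum_congr rfl fun s _ => ?_
    rw [trip_sum_cov, Finset.mul_sum]
    refine Finset.sum_congr rfl fun t _ => ?_
    rw [trip_rot g hgm, mul_assoc]
  have e2 : T.det * wv P φ i (P.tr i j y) n =
      ∑ s, trip (φ.s j y s) (fun m => T n m) (cov (P.A j) (fun z => φ.s j z s) y)
          (curv (P.A j) y) := by
    unfold wv vec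
    rw [Finset.mul_sum]
    simp only [e1]
    rw [Finset.sum_comm]
    refine Finset.sum_congr rfl fun s _ => ?_
    rw [Finset.sum_comm]
    simp only [← Finset.sum_mul, hh]
    simp
  rw [e2]
  have e3 : ∀ s, trip (φ.s j y s) (fun m => T n m) (cov (P.A j) (fun z => φ.s j z s) y)
      (curv (P.A j) y) = ∑ l, T n l * vec (P.A j) (fun z => φ.s j z s) y l := by
    intro s
    rw [trip_lin_form]
    rfl
  simp only [e3, wv, Finset.mul_sum]
  rw [Finset.sum_comm]

theorem det_pos (P : Bundle X) (hP : P.PositiveDefinite) (i j : P.ι) (y : E4)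
    (hy : y ∈ P.ov i j) : 0 < (jac P i j y).det := by
  set T := jac P i j y with hT
  set g := P.g i j y with hg
  have hgm : g ∈ Matrix.specialOrthogonalGroup (Fin 3) ℝ := P.g_mem i j y hy
  have hR1 : g.transpose * g = 1 := by
    have := (Matrix.mem_specialOrthogonalGroup_iff.mp hgm).1
    rw [Matrix.mem_orthogonalGroup_iff'] at this
    simpa [Matrix.star_eq_conjTranspose] using this
  have hFi := hP i _ (tr_mem P i j y hy)
  have hFj := hP j y hy.1
  have a3 : (fun l m => ∑ n', ∑ p, (T n' l * T p m) • curv (P.A i) (P.tr i j y) n' p) =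
      fun l m => g.mulVec (curv (P.A j) y l m) := by
    funext l m; exact curv_tr P i j y hy l m
  have hs : ∀ c, ∀ l m, cmp (curv (P.A i) (P.tr i j y)) c l m =
      -cmp (curv (P.A i) (P.tr i j y)) c m l := by
    intro c l m
    have := congrFun (skew_curv (P.A i) (P.tr i j y) l m) c
    simpa [cmp] using this
  have h2 : ∀ c, cmp (fun l m => ∑ n', ∑ p, (T n' l * T p m) •
      curv (P.A i) (P.tr i j y) n' p) c =
      fun l m => ∑ n', ∑ p, T n' l * T p m * cmp (curv (P.A i) (P.tr i j y)) c n' p := by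
    intro c; funext l m; simp [cmp, Finset.sum_apply]
  have e : (gram (curv (P.A j) y)).trace = T.det * (gram (curv (P.A i) (P.tr i j y))).trace := by
    have h1 : (gram (fun l m => g.mulVec (curv (P.A j) y l m))).trace =
        (gram (curv (P.A j) y)).trace := by
      rw [gram_rot, Matrix.trace_mul_comm, ← Matrix.mul_assoc, hR1, Matrix.one_mul]
    rw [← h1, ← a3]
    simp only [Matrix.trace, Matrix.diag, gram, h2, Finset.mul_sum]
    refine Finset.sum_congr rfl fun c _ => ?_
    exact wedge_pull T _ _ (hs c) (hs c)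
  have p1 : 0 < (gram (curv (P.A j) y)).trace := by
    simp only [Matrix.trace, Matrix.diag]
    exact Finset.sum_pos (fun a _ => hFj.2.1 a) Finset.univ_nonempty
  have p2 : 0 < (gram (curv (P.A i) (P.tr i j y))).trace := by
    simp only [Matrix.trace, Matrix.diag]
    exact Finset.sum_pos (fun a _ => hFi.2.1 a) Finset.univ_nonempty
  rw [e] at p1
  exact lt_of_not_ge fun h => absurd p1 (not_lt.mpr (mul_nonpos_of_nonpos_of_nonneg h p2.le))

end

end Pool.Agent.Helper8.DC
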