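import Pool.Agent.Helper8.DC.Defs

/-!
Pointwise algebra: definitions of the cubic expressions and the statements of the pieces.
-/

set_option autoImplicit false

namespace Pool.Agent.Helper8.DC

noncomputable section

/-- The 2-form `F` is skew. -/
def Skew (F : Fin 4 → Fin 4 → R3) : Prop := ∀ l m, F l m = -F m l

/-- The `a`-th component of an `ℝ³`-valued 1-form. -/
def cm1 (α : Fin 4 → R3) (a : Fin 3) : Fin 4 → ℝ := fun m => α m a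

/-- Coefficient of `β ∧ ∑ ε_abc φ_a α_b ∧ F_c`. -/
def trip (φ : R3) (β : Fin 4 → ℝ) (α : Fin 4 → R3) (F : Fin 4 → Fin 4 → R3) : ℝ :=
  φ 0 * (wedge3 β (cm1 α 1) (cmp F 2) - wedge3 β (cm1 α 2) (cmp F 1)) +
  φ 1 * (wedge3 β (cm1 α 2) (cmp F 0) - wedge3 β (cm1 α 0) (cmp F 2)) +
  φ 2 * (wedge3 β (cm1 α 0) (cmp F 1) - wedge3 β (cm1 α 1) (cmp F 0))

/-- Coefficient of `∑ ε_abc α_a ∧ α_b ∧ F_c`. -/
def quad (α : Fin 4 → R3) (F : Fin 4 → Fin 4 → R3) : ℝ :=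
  2 * (wedge3 (cm1 α 0) (cm1 α 1) (cmp F 2) + wedge3 (cm1 α 1) (cm1 α 2) (cmp F 0) +
    wedge3 (cm1 α 2) (cm1 α 0) (cmp F 1))

/-- `|φ|² tr M - φᵀ M φ`. -/
def rest (φ : R3) (F : Fin 4 → Fin 4 → R3) : ℝ :=
  (∑ a, φ a ^ 2) * (gram F).trace - ∑ a, ∑ b, φ a * gram F a b * φ b

/-- The constraint `∑ α_a ∧ F_a = 0`. -/
def Constr (α : Fin 4 → R3) (F : Fin 4 → Fin 4 → R3) : Prop :=
  ∀ β : Fin 4 → ℝ, ∑ a, wedge3 (cm1 α a) β (cmp F a) = 0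

end

end Pool.Agent.Helper8.DC
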