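import Pool.Agent.Helper8.DC.Main

set_option autoImplicit false

open scoped Manifold ContDiff
open MeasureTheory

namespace Pool.Agent.Helper8.DC

noncomputable section

variable {X : Type} [TopologicalSpace X] [ChartedSpace E4 X] [IsManifold (𝓡 4) ∞ X]

/-- A smooth 1-form on `X`, given in the charts of `P`. -/
def IsOne (P : Bundle X) (a : P.ι → E4 → Fin 4 → ℝ) : Prop :=
  (∀ i, ContDiffOn ℝ ∞ (a i) (P.c i).target) ∧
  ∀ i j, ∀ y ∈ P.ov i j, ∀ m, a j y m = ∑ n, jac P i j y n m * a i (P.tr i j y) n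

/-- A smooth 2-form on `X`, given in the charts of `P`. -/
def IsTwo (P : Bundle X) (ζ : P.ι → E4 → Fin 4 → Fin 4 → ℝ) : Prop :=
  (∀ i, ContDiffOn ℝ ∞ (ζ i) (P.c i).target) ∧
  (∀ i, ∀ y ∈ (P.c i).target, ∀ l m, ζ i y l m = -ζ i y m l) ∧
  ∀ i j, ∀ y ∈ P.ov i j, ∀ l m,
    ζ j y l m = ∑ n, ∑ p, jac P i j y n l * jac P i j y p m * ζ i (P.tr i j y) n p

/-- A smooth section of `E`. -/
def IsSec (P : Bundle X) (φ : P.ι → E4 → R3) : Prop :=
  (∀ i, ContDiffOn ℝ ∞ (φ i) (P.c i).target) ∧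
  ∀ i j, ∀ y ∈ P.ov i j, φ i (P.tr i j y) = (P.g i j y).mulVec (φ j y)

/-- Exterior derivative of a 1-form. -/
def dd (a : E4 → Fin 4 → ℝ) (y : E4) (l m : Fin 4) : ℝ :=
  pd l (fun z => a z m) y - pd m (fun z => a z l) y

/-- The coefficient of `dy^k ∧ dy^e ∧ B`. -/
def dual (B : Fin 4 → Fin 4 → ℝ) (k e : Fin 4) : ℝ := wedge3 (Pi.single k 1) (Pi.single e 1) B

/-- The four components of `dζ` for a 2-form `ζ`. -/
def dtwo (ζ : E4 → Fin 4 → Fin 4 → ℝ) (y : E4) (e : Fin 4) : ℝ :=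
  ∑ k, pd k (fun z => dual (ζ z) k e) y

/-- The four components of `d ⟨φ, F⟩`. -/
def DD (A : E4 → Fin 4 → R3) (φ : E4 → R3) (y : E4) (e : Fin 4) : ℝ :=
  ∑ k, pd k (fun z => ∑ a, dual (cmp (curv A z) a) k e * φ z a) y

/-- The components of `∑ α_a ∧ F_a`. -/
def con (α : Fin 4 → R3) (F : Fin 4 → Fin 4 → R3) (e : Fin 4) : ℝ :=
  ∑ a, wedge3 (cm1 α a) (Pi.single e 1) (cmp F a)

/-- The section of `E` that represents the `Λ⁺`-part of the 2-form `B`. -/
def sdp (F : Fin 4 → Fin 4 → R3) (B : Fin 4 → Fin 4 → ℝ) : R3 :=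
  (gram F)⁻¹.mulVec (fun b => wedge (cmp F b) B)

/-- The section of `E` that represents the `Λ⁺`-part of the 2-form `ζ` (in one chart). -/
def sf (A : E4 → Fin 4 → R3) (ζ : E4 → Fin 4 → Fin 4 → ℝ) (y : E4) : R3 :=
  sdp (curv A y) (ζ y)

/-- A smooth finite partition of unity. -/
structure PU (P : Bundle X) [Fintype P.ι] where
  /-- the functions -/
  ρ : P.ι → X → ℝ
  smooth : ∀ i, ContMDiff (𝓡 4) 𝓘(ℝ, ℝ) ∞ (ρ i)
  supp : ∀ i, tsupport (ρ i) ⊆ (P.c i).source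
  nonneg : ∀ i x, 0 ≤ ρ i x
  one : ∀ x, ∑ i, ρ i x = 1

/-- The function `ρ i` in the coordinates of the chart `j`. -/
def PU.rh {P : Bundle X} [Fintype P.ι] (R : PU P) (i j : P.ι) (y : E4) : ℝ :=
  R.ρ i ((P.c j).symm y)

/-- The integral of a density (4-form) given by its coefficients in the charts. -/
def PU.int {P : Bundle X} [Fintype P.ι] (R : PU P) (f : P.ι → E4 → ℝ) : ℝ :=
  ∑ i, ∫ y in (P.c i).target, R.rh i i y * f i y

/-- The section of `E` that is `χ` in the chart `i` and `0` elsewhere. -/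
def ext (P : Bundle X) (i : P.ι) (χ : E4 → R3) (j : P.ι) (y : E4) : R3 :=
  open Classical in
  if y ∈ P.ov i j then (P.g i j y).transpose.mulVec (χ (P.tr i j y)) else 0

/-- The 1-form that is `b` in the chart `i` and `0` elsewhere. -/
def ext1 (P : Bundle X) (i : P.ι) (b : E4 → Fin 4 → ℝ) (j : P.ι) (y : E4) (m : Fin 4) : ℝ :=
  open Classical in
  if y ∈ P.ov i j then ∑ n, jac P i j y n m * b (P.tr i j y) n else 0

/-- Strict pinching. -/
def Bundle.StrictlyPinched (P : Bundle X) : Prop :=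
  ∀ i, ∀ y ∈ (P.c i).target, 2 * (gram (curv (P.A i) y) * gram (curv (P.A i) y)).trace <
    (gram (curv (P.A i) y)).trace ^ 2

theorem isSec_add {P : Bundle X} {φ ψ : P.ι → E4 → R3} (h : IsSec P φ) (h' : IsSec P ψ) :
    IsSec P (φ + ψ) := by
  refine ⟨fun i => (h.1 i).add (h'.1 i), fun i j y hy => ?_⟩
  simp only [Pi.add_apply, Matrix.mulVec_add]
  rw [h.2 i j y hy, h'.2 i j y hy]

theorem isSec_smul {P : Bundle X} {φ : P.ι → E4 → R3} (t : ℝ) (h : IsSec P φ) :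
    IsSec P (t • φ) := by
  refine ⟨fun i => (h.1 i).const_smul t, fun i j y hy => ?_⟩
  simp only [Pi.smul_apply, Matrix.mulVec_smul]
  rw [h.2 i j y hy]

/-- The space of smooth sections of `E`. -/
def secs (P : Bundle X) : Submodule ℝ (P.ι → E4 → R3) where
  carrier := {φ | IsSec P φ}
  add_mem' := fun h h' => isSec_add h h'
  zero_mem' := ⟨fun _ => contDiffOn_const, fun i j y _ => by simp⟩
  smul_mem' := fun t _ h => isSec_smul t h

/-- The square of the `L²`-norm of a section (up to equivalence). -/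
def PU.nsq {P : Bundle X} [Fintype P.ι] (R : PU P) (φ : P.ι → E4 → R3) : ℝ :=
  R.int (fun i y => ∑ a, φ i y a ^ 2)

/-- The square of the `L²`-norm of a 3-form (up to equivalence). -/
def PU.nsq4 {P : Bundle X} [Fintype P.ι] (R : PU P) (G : P.ι → E4 → Fin 4 → ℝ) : ℝ :=
  R.int (fun i y => ∑ e, G i y e ^ 2)

/-- The pairing `∫ ⟨φ, F⟩ ∧ ⟨ψ, F⟩`. -/
def PU.pair {P : Bundle X} [Fintype P.ι] (R : PU P) (φ ψ : P.ι → E4 → R3) : ℝ :=
  R.int (fun i y => ∑ a, ∑ b, φ i y a * gram (curv (P.A i) y) a b * ψ i y b)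

end

end Pool.Agent.Helper8.DC
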