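import Pool.Agent.Helper8.DC.Alg

set_option autoImplicit false

open scoped Manifold ContDiff

namespace Pool.Agent.Helper8.DC

theorem ph_pd_comp {ι : Type} [Fintype ι] {f : E4 → ι → ℝ} {y : E4} (hf : DifferentiableAt ℝ f y)
    (l : Fin 4) (a : ι) : pd l f y a = pd l (fun z => f z a) y := by
  have h1 : HasFDerivAt (fun z => f z a) ((ContinuousLinearMap.proj (R := ℝ) a).comp (fderiv ℝ f y)) y :=
    (ContinuousLinearMap.proj (R := ℝ) (φ := fun _ : ι => ℝ) a).hasFDerivAt.comp y hf.hasFDerivAt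
  unfold pd
  rw [h1.fderiv]; rfl

theorem ph_pd_comp2 {ι : Type} [Fintype ι] {V : Type} [NormedAddCommGroup V] [NormedSpace ℝ V]
    {f : E4 → ι → V} {y : E4} (hf : DifferentiableAt ℝ f y)
    (l : Fin 4) (a : ι) : pd l f y a = pd l (fun z => f z a) y := by
  have h1 : HasFDerivAt (fun z => f z a) ((ContinuousLinearMap.proj (R := ℝ) a).comp (fderiv ℝ f y)) y :=
    (ContinuousLinearMap.proj (R := ℝ) (φ := fun _ : ι => V) a).hasFDerivAt.comp y hf.hasFDerivAt
  unfold pd
  rw [h1.fderiv]; rfl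

theorem ph_pd_add {f g : E4 → ℝ} {y : E4} (hf : DifferentiableAt ℝ f y)
    (hg : DifferentiableAt ℝ g y) (l : Fin 4) :
    pd l (fun z => f z + g z) y = pd l f y + pd l g y := by
  unfold pd
  rw [show (fun z => f z + g z) = f + g from rfl, (hf.hasFDerivAt.add hg.hasFDerivAt).fderiv]; rfl

theorem ph_pd_sub {f g : E4 → ℝ} {y : E4} (hf : DifferentiableAt ℝ f y)
    (hg : DifferentiableAt ℝ g y) (l : Fin 4) :
    pd l (fun z => f z - g z) y = pd l f y - pd l g y := by
  unfold pd
  rw [show (fun z => f z - g z) = f - g from rfl, (hf.hasFDerivAt.sub hg.hasFDerivAt).fderiv]; rfl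

theorem ph_pd_mul {f g : E4 → ℝ} {y : E4} (hf : DifferentiableAt ℝ f y)
    (hg : DifferentiableAt ℝ g y) (l : Fin 4) :
    pd l (fun z => f z * g z) y = pd l f y * g y + f y * pd l g y := by
  unfold pd
  rw [show (fun z => f z * g z) = f * g from rfl, (hf.hasFDerivAt.mul hg.hasFDerivAt).fderiv]
  simp; ring

theorem ph_pd_congr {f g : E4 → ℝ} {y : E4} (h : f =ᶠ[nhds y] g) (l : Fin 4) :
    pd l f y = pd l g y := by
  unfold pd; rw [h.fderiv_eq]

theorem ph_smooth_pd {f : E4 → ℝ} {U : Set E4} (hU : IsOpen U) (hf : ContDiffOn ℝ ∞ f U)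
    (l : Fin 4) : ContDiffOn ℝ ∞ (fun z => pd l f z) U := by
  have h1 : ContDiffOn ℝ ∞ (fderiv ℝ f) U := hf.fderiv_of_isOpen hU (by simp)
  exact h1.clm_apply contDiffOn_const

theorem ph_symm {f : E4 → ℝ} {U : Set E4} (hU : IsOpen U) (hf : ContDiffOn ℝ ∞ f U) {y : E4}
    (hy : y ∈ U) (l m : Fin 4) :
    pd l (fun z => pd m f z) y = pd m (fun z => pd l f z) y := by
  have h0 : ContDiffAt ℝ ∞ f y := hf.contDiffAt (hU.mem_nhds hy)
  have h1 : DifferentiableAt ℝ (fderiv ℝ f) y :=
    ((hf.fderiv_of_isOpen (m := ∞) hU (by simp)).contDiffAt (hU.mem_nhds hy)).differentiableAt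
      (by simp)
  have h2 : ∀ k : Fin 4, ∀ v : E4, fderiv ℝ (fun z => pd k f z) y v
      = fderiv ℝ (fderiv ℝ f) y v (EuclideanSpace.single k 1) := by
    intro k v
    have h3 : HasFDerivAt (fun z => pd k f z)
        ((fderiv ℝ (fderiv ℝ f) y).flip (EuclideanSpace.single k 1)) y := by
      have := h1.hasFDerivAt.clm_apply (hasFDerivAt_const (EuclideanSpace.single k (1 : ℝ)) y)
      simpa [pd] using this
    rw [h3.fderiv]; rfl
  have h4 : IsSymmSndFDerivAt ℝ f y := h0.isSymmSndFDerivAt (by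
    simp only [minSmoothness_of_isRCLikeNormedField]; exact WithTop.coe_le_coe.2 le_top)
  have h5 := h4 (EuclideanSpace.single l 1) (EuclideanSpace.single m 1)
  change fderiv ℝ (fun z => pd m f z) y (EuclideanSpace.single l 1)
    = fderiv ℝ (fun z => pd l f z) y (EuclideanSpace.single m 1)
  rw [h2, h2, h5]

theorem ph_curv {A : E4 → Fin 4 → R3} {z : E4} (hA : DifferentiableAt ℝ A z) (m n : Fin 4)
    (a : Fin 3) : curv A z m n a = pd m (fun w => A w n a) z - pd n (fun w => A w m a) z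
      + crossProduct (A z m) (A z n) a := by
  have h1 : ∀ k : Fin 4, DifferentiableAt ℝ (fun w => A w k) z := fun k =>
    (differentiableAt_pi.1 hA) k
  unfold curv
  simp only [Pi.add_apply, Pi.sub_apply]
  rw [ph_pd_comp (h1 n), ph_pd_comp (h1 m)]

/-- PIECE H. Closedness of `∑ φ_a F_a` gives the constraint `∑ ∇φ_a ∧ F_a = 0`.
PROOF. `d(∑ φ_a F_a) = ∑ dφ_a ∧ F_a + ∑ φ_a dF_a`, Bianchi `dF = -A ∧ × F` (symmetry of second
derivatives of `A`), `dφ = ∇φ - A × φ` and `(A × φ) · F + φ · (A × F) = 0`. So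
`∑_a (α_a l F_a m n + α_a m F_a n l + α_a n F_a l m) = 0` for all `l m n`, where
`α = cov A φ y`, and `∑_a wedge3 α_a β F_a` is a linear combination of these with coefficients
`± β`. -/
theorem constr_of_closed (A : E4 → Fin 4 → R3) (φ : E4 → R3) (U : Set E4) (hU : IsOpen U)
    (hA : ContDiffOn ℝ ∞ A U) (hφ : ContDiffOn ℝ ∞ φ U) (y : E4) (hy : y ∈ U)
    (hc : Bundle.ClosedAt (Bundle.form A φ) y) : Constr (cov A φ y) (curv A y) := by
  have hUy := hU.mem_nhds hy
  have hAd : ∀ z ∈ U, DifferentiableAt ℝ A z := fun z hz =>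
    (hA.contDiffAt (hU.mem_nhds hz)).differentiableAt (by simp)
  have hφd : ∀ z ∈ U, DifferentiableAt ℝ φ z := fun z hz =>
    (hφ.contDiffAt (hU.mem_nhds hz)).differentiableAt (by simp)
  have hAc : ∀ m a, ContDiffOn ℝ ∞ (fun z => A z m a) U := fun m a =>
    (contDiffOn_pi.1 ((contDiffOn_pi.1 hA) m)) a
  have hAcd : ∀ m a, DifferentiableAt ℝ (fun z => A z m a) y := fun m a =>
    ((hAc m a).contDiffAt hUy).differentiableAt (by simp)
  have hφc : ∀ a, DifferentiableAt ℝ (fun z => φ z a) y := fun a =>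
    (differentiableAt_pi.1 (hφd y hy)) a
  have hpd : ∀ k m a, DifferentiableAt ℝ (fun z => pd k (fun w => A w m a) z) y := fun k m a =>
    ((ph_smooth_pd hU (hAc m a) k).contDiffAt hUy).differentiableAt (by simp)
  -- second derivatives
  have hsym : ∀ k m n a, pd k (fun z => pd m (fun w => A w n a) z) y
      = pd m (fun z => pd k (fun w => A w n a) z) y := fun k m n a => ph_symm hU (hAc n a) hy k m
  set G : Fin 4 → Fin 4 → Fin 3 → E4 → ℝ := fun m n a z =>
    pd m (fun w => A w n a) z - pd n (fun w => A w m a) z + crossProduct (A z m) (A z n) a with hG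
  have hGd : ∀ m n a, DifferentiableAt ℝ (G m n a) y := by
    intro m n a
    refine ((hpd m n a).sub (hpd n m a)).add ?_
    fin_cases a <;> simp [cross_apply] <;>
      exact ((hAcd _ _).mul (hAcd _ _)).sub ((hAcd _ _).mul (hAcd _ _))
  have hform : ∀ l m n, pd l (fun z => Bundle.form A φ z m n) y
      = ∑ a, (pd l (fun z => φ z a) y * G m n a y + φ y a * pd l (G m n a) y) := by
    intro l m n
    have h1 : (fun z => Bundle.form A φ z m n) =ᶠ[nhds y]
        fun z => φ z 0 * G m n 0 z + φ z 1 * G m n 1 z + φ z 2 * G m n 2 z := by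
      filter_upwards [hUy] with z hz
      simp only [Bundle.form, Fin.sum_univ_three, hG]
      rw [ph_curv (hAd z hz), ph_curv (hAd z hz), ph_curv (hAd z hz)]
    rw [ph_pd_congr h1,
      ph_pd_add (((hφc 0).fun_mul (hGd m n 0)).fun_add ((hφc 1).fun_mul (hGd m n 1)))
      ((hφc 2).fun_mul (hGd m n 2)),
      ph_pd_add ((hφc 0).fun_mul (hGd m n 0)) ((hφc 1).fun_mul (hGd m n 1)),
      ph_pd_mul (hφc 0) (hGd m n 0), ph_pd_mul (hφc 1) (hGd m n 1),
      ph_pd_mul (hφc 2) (hGd m n 2), Fin.sum_univ_three]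
  have hGpd : ∀ l m n a, pd l (G m n a) y = pd l (fun z => pd m (fun w => A w n a) z) y
      - pd l (fun z => pd n (fun w => A w m a) z) y
      + pd l (fun z => crossProduct (A z m) (A z n) a) y := by
    intro l m n a
    have hcr : DifferentiableAt ℝ (fun z => crossProduct (A z m) (A z n) a) y := by
      fin_cases a <;> simp [cross_apply] <;>
        exact ((hAcd _ _).mul (hAcd _ _)).sub ((hAcd _ _).mul (hAcd _ _))
    rw [hG]
    simp only
    rw [ph_pd_add ((hpd m n a).fun_sub (hpd n m a)) hcr, ph_pd_sub (hpd m n a) (hpd n m a)]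
  have hcr : ∀ l m n (b c : Fin 3), pd l (fun z => A z m b * A z n c - A z m c * A z n b) y
      = (pd l (fun z => A z m b) y * A y n c + A y m b * pd l (fun z => A z n c) y)
      - (pd l (fun z => A z m c) y * A y n b + A y m c * pd l (fun z => A z n b) y) := by
    intro l m n b c
    rw [ph_pd_sub ((hAcd _ _).fun_mul (hAcd _ _)) ((hAcd _ _).fun_mul (hAcd _ _)),
      ph_pd_mul (hAcd _ _) (hAcd _ _), ph_pd_mul (hAcd _ _) (hAcd _ _)]
  have hkey : ∀ l m n : Fin 4, ∑ a, (cov A φ y l a * curv A y m n a + cov A φ y m a * curv A y n l a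
      + cov A φ y n a * curv A y l m a) = 0 := by
    intro l m n
    have h := hc l m n
    rw [hform, hform, hform] at h
    simp only [Fin.sum_univ_three] at h ⊢
    simp only [hGpd] at h
    have e0 : ∀ k p q, pd k (fun z => crossProduct (A z p) (A z q) 0) y
        = pd k (fun z => A z p 1 * A z q 2 - A z p 2 * A z q 1) y := fun k p q => by
      simp [cross_apply]
    have e1 : ∀ k p q, pd k (fun z => crossProduct (A z p) (A z q) 1) y
        = pd k (fun z => A z p 2 * A z q 0 - A z p 0 * A z q 2) y := fun k p q => by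
      simp [cross_apply]
    have e2 : ∀ k p q, pd k (fun z => crossProduct (A z p) (A z q) 2) y
        = pd k (fun z => A z p 0 * A z q 1 - A z p 1 * A z q 0) y := fun k p q => by
      simp [cross_apply]
    simp only [e0, e1, e2, hcr] at h
    have c0 : ∀ k a, cov A φ y k a = pd k (fun z => φ z a) y + crossProduct (A y k) (φ y) a := by
      intro k a
      unfold cov
      simp only [Pi.add_apply]
      rw [ph_pd_comp (hφd y hy)]
    simp only [c0, ph_curv (hAd y hy)]
    simp only [hG] at h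
    simp only [cross_apply, Matrix.cons_val_zero, Matrix.cons_val_one, Matrix.cons_val_two,
      Matrix.cons_val, Matrix.head_cons, Matrix.tail_cons] at h ⊢
    rw [hsym l m n 0, hsym l m n 1, hsym l m n 2, hsym n l m 0, hsym n l m 1, hsym n l m 2,
      hsym m n l 0, hsym m n l 1, hsym m n l 2] at h
    linear_combination h
  have hsk : ∀ m n a, curv A y m n a = - curv A y n m a := by
    intro m n a
    unfold curv
    rw [← cross_anticomm (A y n) (A y m)]
    simp only [Pi.add_apply, Pi.sub_apply, Pi.neg_apply]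
    ring
  intro β
  have k012 := hkey 0 1 2
  have k013 := hkey 0 1 3
  have k023 := hkey 0 2 3
  have k123 := hkey 1 2 3
  simp only [wedge3, wedge, wed, cm1, cmp, Fin.sum_univ_three] at *
  rw [hsk 2 0, hsk 2 0, hsk 2 0] at k012
  rw [hsk 3 0, hsk 3 0, hsk 3 0] at k013
  rw [hsk 3 0, hsk 3 0, hsk 3 0] at k023
  rw [hsk 3 1, hsk 3 1, hsk 3 1] at k123
  linear_combination (β 1) * k023 - (β 0) * k123 - (β 2) * k013 + (β 3) * k012

end Pool.Agent.Helper8.DC
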