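import Pool.Agent.Helper8.DC.Tr
import Pool.Agent.Helper8.DC.PH
import Pool.Agent.Helper64.DC.Stokes

set_option autoImplicit false

open scoped Manifold ContDiff

namespace Pool.Agent.Helper8.DC

noncomputable section

variable {X : Type} [TopologicalSpace X] [ChartedSpace E4 X] [IsManifold (𝓡 4) ∞ X]

/-- The vector density as a map `E4 → E4`. -/
def wf (P : Bundle X) {N : ℕ} {L : P.Flat N} (φ : P.Sect L) (i : P.ι) (y : E4) : E4 :=
  WithLp.toLp 2 (wv P φ i y)

theorem sect_smooth (P : Bundle X) {N : ℕ} {L : P.Flat N} (φ : P.Sect L) (i : P.ι) (r : Fin N) :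
    ContDiffOn ℝ ∞ (fun z => φ.s i z r) (P.c i).target :=
  contDiffOn_pi.mp (φ.smooth i) r

theorem wv_smooth (P : Bundle X) {N : ℕ} {L : P.Flat N} (φ : P.Sect L) (i : P.ι) (l : Fin 4) :
    ContDiffOn ℝ ∞ (fun y => wv P φ i y l) (P.c i).target := by
  unfold wv
  exact ContDiffOn.sum fun r _ => sm_vec (P.c i).open_target (P.A_smooth i)
    (sect_smooth P φ i r) l

theorem wf_smooth (P : Bundle X) {N : ℕ} {L : P.Flat N} (φ : P.Sect L) (i : P.ι) :
    ContDiffOn ℝ ∞ (wf P φ i) (P.c i).target := by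
  rw [contDiffOn_euclidean]
  intro l
  exact wv_smooth P φ i l

theorem trace_eq (f : E4 →L[ℝ] E4) :
    LinearMap.trace ℝ E4 (f : E4 →ₗ[ℝ] E4) = ∑ l, (f (EuclideanSpace.single l 1)) l := by
  rw [LinearMap.trace_eq_matrix_trace ℝ (EuclideanSpace.basisFun (Fin 4) ℝ).toBasis]
  simp [Matrix.trace, Matrix.diag, LinearMap.toMatrix_apply]

theorem det_eq (P : Bundle X) (i j : P.ι) (y : E4) :
    (fderiv ℝ (P.c i ∘ (P.c j).symm) y).det = (jac P i j y).det := by
  have h : jac P i j y = LinearMap.toMatrix (EuclideanSpace.basisFun (Fin 4) ℝ).toBasis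
      (EuclideanSpace.basisFun (Fin 4) ℝ).toBasis
      (fderiv ℝ (P.c i ∘ (P.c j).symm) y : E4 →ₗ[ℝ] E4) := by
    ext n m
    rw [LinearMap.toMatrix_apply]
    simp [jac, pd]
    rfl
  rw [h, LinearMap.det_toMatrix]

theorem trace_wf (P : Bundle X) {N : ℕ} {L : P.Flat N} (φ : P.Sect L) (i : P.ι) (y : E4)
    (hy : y ∈ (P.c i).target) :
    LinearMap.trace ℝ E4 (fderiv ℝ (wf P φ i) y : E4 →ₗ[ℝ] E4) =
      ∑ r, (quad (cov (P.A i) (fun z => φ.s i z r) y) (curv (P.A i) y) +
        rest (φ.s i y r) (curv (P.A i) y)) := by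
  have hd : ∀ l, DifferentiableAt ℝ (fun z => wv P φ i z l) y := fun l =>
    ((wv_smooth P φ i l).contDiffAt ((P.c i).open_target.mem_nhds hy)).differentiableAt (by simp)
  rw [trace_eq]
  have h1 : ∀ l, (fderiv ℝ (wf P φ i) y (EuclideanSpace.single l 1)) l =
      pd l (fun z => wv P φ i z l) y := by
    intro l
    have hw : DifferentiableAt ℝ (wf P φ i) y :=
      ((wf_smooth P φ i).contDiffAt ((P.c i).open_target.mem_nhds hy)).differentiableAt (by simp)
    have := (EuclideanSpace.proj (𝕜 := ℝ) l : E4 →L[ℝ] ℝ).hasFDerivAt.comp y hw.hasFDerivAt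
    unfold pd
    have h2 : (fun z => wv P φ i z l) =
        (EuclideanSpace.proj (𝕜 := ℝ) l : E4 →L[ℝ] ℝ) ∘ (wf P φ i) := by
      funext z; rfl
    rw [h2, this.fderiv]
    rfl
  simp only [h1]
  have h3 : ∀ r, ∀ l, DifferentiableAt ℝ (fun z => vec (P.A i) (fun z => φ.s i z r) z l) y :=
    fun r l => ((sm_vec (P.c i).open_target (P.A_smooth i) (sect_smooth P φ i r) l).contDiffAt
      ((P.c i).open_target.mem_nhds hy)).differentiableAt (by simp)
  have h4 : ∀ l, pd l (fun z => wv P φ i z l) y =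
      ∑ r, pd l (fun z => vec (P.A i) (fun z => φ.s i z r) z l) y := by
    intro l
    unfold pd wv
    rw [fderiv_fun_sum (fun r _ => h3 r l)]
    simp
  simp only [h4]
  rw [Finset.sum_comm]
  refine Finset.sum_congr rfl fun r _ => ?_
  exact div_vec (P.A i) (fun z => φ.s i z r) _ (P.c i).open_target (P.A_smooth i)
    (sect_smooth P φ i r) y hy

/-- **Theorem.** Let `X` be a closed 4-manifold with a positive definite `SO(3)`-connection whose
curvature matrix satisfies `2 tr M² ≤ (tr M)²`. Then no nonzero closed 2-form with values in a flat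
orthogonal bundle is a section of `Λ⁺_A`. -/
theorem main [T2Space X] [CompactSpace X] (P : Bundle X) (hP : P.PositiveDefinite)
    (hpin : P.IsPinched) {N : ℕ} (L : P.Flat N) (φ : P.Sect L) (hφ : φ.Closed) :
    ∀ i, ∀ y ∈ (P.c i).target, φ.s i y = 0 := by
  have hq : ∀ i, ∀ y ∈ (P.c i).target, ∀ r,
      0 ≤ quad (cov (P.A i) (fun z => φ.s i z r) y) (curv (P.A i) y) := by
    intro i y hy r
    exact quad_nonneg _ (skew_curv _ _) (hP i y hy) (hpin i y hy) _
      (constr_of_closed _ _ _ (P.c i).open_target (P.A_smooth i) (sect_smooth P φ i r) y hy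
        (hφ i y hy r))
  have hr : ∀ i, ∀ y ∈ (P.c i).target, ∀ r, φ.s i y r ≠ 0 →
      0 < rest (φ.s i y r) (curv (P.A i) y) := by
    intro i y hy r h
    exact rest_pos _ (skew_curv _ _) (hP i y hy) _ h
  have hr0 : ∀ i, ∀ y ∈ (P.c i).target, ∀ r, 0 ≤ rest (φ.s i y r) (curv (P.A i) y) := by
    intro i y hy r
    by_cases h : φ.s i y r = 0
    · rw [h]; simp [rest]
    · exact (hr i y hy r h).le
  have hnn : ∀ i, ∀ y ∈ (P.c i).target,
      0 ≤ LinearMap.trace ℝ E4 (fderiv ℝ (wf P φ i) y : E4 →ₗ[ℝ] E4) := by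
    intro i y hy
    rw [trace_wf P φ i y hy]
    exact Finset.sum_nonneg fun r _ => add_nonneg (hq i y hy r) (hr0 i y hy r)
  have hcompat : ∀ i j, ∀ y ∈ (P.c j).target, (P.c j).symm y ∈ (P.c i).source →
      0 < (fderiv ℝ (P.c i ∘ (P.c j).symm) y).det ∧
      fderiv ℝ (P.c i ∘ (P.c j).symm) y (wf P φ j y)
        = (fderiv ℝ (P.c i ∘ (P.c j).symm) y).det • wf P φ i (P.c i ((P.c j).symm y)) := by
    intro i j y hy hy2
    have hyo : y ∈ P.ov i j := ⟨hy, hy2⟩
    rw [det_eq]
    refine ⟨det_pos P hP i j y hyo, ?_⟩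
    have hlin : fderiv ℝ (P.c i ∘ (P.c j).symm) y (wf P φ j y) =
        ∑ l, wv P φ j y l • pd l (P.tr i j) y := by
      have h1 : wf P φ j y = ∑ l, wv P φ j y l • EuclideanSpace.single l (1 : ℝ) := by
        ext k
        simp [wf, Finset.sum_apply, Pi.single_apply]
      rw [h1, map_sum]
      refine Finset.sum_congr rfl fun l _ => ?_
      rw [map_smul]
      rfl
    rw [hlin]
    ext n
    have := wv_tr P L φ i j y hyo n
    simp only [PiLp.smul_apply, smul_eq_mul, wf, WithLp.ofLp_sum, Finset.sum_apply]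
    refine Eq.trans ?_ this
    refine Finset.sum_congr rfl fun l _ => ?_
    simp only [jac]
    rw [mul_comm]
  have hz := Pool.Agent.Helper64.DC.stokes P.c P.c_mem P.cover (wf P φ)
    (fun i => (wf_smooth P φ i).of_le (by simp)) hcompat hnn
  intro i y hy
  have h0 := hz i y hy
  rw [trace_wf P φ i y hy] at h0
  funext r
  by_contra hne
  have hpos : 0 < ∑ r, (quad (cov (P.A i) (fun z => φ.s i z r) y) (curv (P.A i) y) +
        rest (φ.s i y r) (curv (P.A i) y)) := by
    refine Finset.sum_pos' (fun r _ => add_nonneg (hq i y hy r) (hr0 i y hy r))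
      ⟨r, Finset.mem_univ r, ?_⟩
    exact add_pos_of_nonneg_of_pos (hq i y hy r) (hr i y hy r hne)
  exact absurd h0 hpos.ne'

end

end Pool.Agent.Helper8.DC
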