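import Pool.Agent.Helper8.DC.Alg

set_option autoImplicit false

namespace Pool.Agent.Helper8.DC

open Matrix

/-- The matrix of a 2-form. -/
def pBmtF (B : Fin 4 → Fin 4 → ℝ) : Matrix (Fin 4) (Fin 4) ℝ :=
  !![B 0 0, B 0 1, B 0 2, B 0 3; B 1 0, B 1 1, B 1 2, B 1 3;
     B 2 0, B 2 1, B 2 2, B 2 3; B 3 0, B 3 1, B 3 2, B 3 3]

/-- The dual matrix of a 2-form. -/
def pBmtG (B : Fin 4 → Fin 4 → ℝ) : Matrix (Fin 4) (Fin 4) ℝ :=
  !![0, B 2 3, -B 1 3, B 1 2; -B 2 3, 0, B 0 3, -B 0 2;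
     B 1 3, -B 0 3, 0, B 0 1; -B 1 2, B 0 2, -B 0 1, 0]

theorem pBmtG_transpose (B : Fin 4 → Fin 4 → ℝ) : (pBmtG B).transpose = -pBmtG B := by
  ext i j
  fin_cases i <;> fin_cases j <;> simp [pBmtG]

theorem pBmtF_transpose (B : Fin 4 → Fin 4 → ℝ) (hB : ∀ l m, B l m = -B m l) :
    (pBmtF B).transpose = -pBmtF B := by
  have h0 : ∀ l, B l l = 0 := fun l => by have := hB l l; linarith
  ext i j
  fin_cases i <;> fin_cases j <;> simp [pBmtF, h0] <;> exact hB _ _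

theorem pB_anti_FG (A B : Fin 4 → Fin 4 → ℝ) (hA : ∀ l m, A l m = -A m l)
    (hB : ∀ l m, B l m = -B m l) :
    pBmtF A * pBmtG B + pBmtF B * pBmtG A = -(wedge A B) • (1 : Matrix (Fin 4) (Fin 4) ℝ) := by
  have a0 : ∀ l, A l l = 0 := fun l => by have := hA l l; linarith
  have b0 : ∀ l, B l l = 0 := fun l => by have := hB l l; linarith
  ext i j
  fin_cases i <;> fin_cases j <;>
    simp [pBmtF, pBmtG, Matrix.mul_apply, Fin.sum_univ_four, wedge, a0, b0, hA 1 0, hA 2 0, hA 3 0,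
      hA 2 1, hA 3 1, hA 3 2, hB 1 0, hB 2 0, hB 3 0, hB 2 1, hB 3 1, hB 3 2] <;> ring

theorem pB_anti_GF (A B : Fin 4 → Fin 4 → ℝ) (hA : ∀ l m, A l m = -A m l)
    (hB : ∀ l m, B l m = -B m l) :
    pBmtG A * pBmtF B + pBmtG B * pBmtF A = -(wedge A B) • (1 : Matrix (Fin 4) (Fin 4) ℝ) := by
  have a0 : ∀ l, A l l = 0 := fun l => by have := hA l l; linarith
  have b0 : ∀ l, B l l = 0 := fun l => by have := hB l l; linarith
  ext i j
  fin_cases i <;> fin_cases j <;>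
    simp [pBmtF, pBmtG, Matrix.mul_apply, Fin.sum_univ_four, wedge, a0, b0, hA 1 0, hA 2 0, hA 3 0,
      hA 2 1, hA 3 1, hA 3 2, hB 1 0, hB 2 0, hB 3 0, hB 2 1, hB 3 1, hB 3 2] <;> ring

theorem pB_wedge3_eq (a b : Fin 4 → ℝ) (B : Fin 4 → Fin 4 → ℝ) :
    wedge3 a b B = a ⬝ᵥ (pBmtG B *ᵥ b) := by
  simp [wedge3, wedge, wed, pBmtG, dotProduct, Matrix.mulVec, Fin.sum_univ_four]
  ring

/-- The matrix `S` with its two other forms and its symmetry. -/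
theorem pB_cyc_mats (F0 F1 F2 G0 G1 G2 : Matrix (Fin 4) (Fin 4) ℝ)
    (t0 : F0.transpose = -F0) (t1 : F1.transpose = -F1) (s2 : G2.transpose = -G2)
    (a02 : F0 * G2 = -(F2 * G0)) (a21 : F2 * G1 = -(F1 * G2))
    (b01 : G0 * F1 = -(G1 * F0)) (b20 : G2 * F0 = -(G0 * F2)) :
    F0 * G2 * F1 = F2 * G1 * F0 ∧ F0 * G2 * F1 = F1 * G0 * F2 ∧
      (F0 * G2 * F1).transpose = F0 * G2 * F1 := by
  have e1 : F0 * G2 * F1 = F2 * G1 * F0 := by
    rw [a02, Matrix.neg_mul, Matrix.mul_assoc, b01, Matrix.mul_neg, neg_neg, Matrix.mul_assoc]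
  have e2 : F2 * G1 * F0 = F1 * G0 * F2 := by
    rw [a21, Matrix.neg_mul, Matrix.mul_assoc, b20, Matrix.mul_neg, neg_neg, Matrix.mul_assoc]
  refine ⟨e1, e1.trans e2, ?_⟩
  rw [Matrix.transpose_mul, Matrix.transpose_mul, t0, t1, s2, e1, a21]
  simp [Matrix.mul_assoc]

/-- The final inequality. -/
theorem pB_final_ineq (T : Matrix (Fin 4) (Fin 4) ℝ) (hT : T.transpose = T)
    (hpos : ∀ u : Fin 4 → ℝ, 0 ≤ u ⬝ᵥ (T *ᵥ u)) (x y : Fin 4 → ℝ) (m0 m1 c : ℝ)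
    (h1 : 0 < m1) (hc : c ^ 2 ≤ 4 * m0 * m1) :
    0 ≤ m1 * (x ⬝ᵥ (T *ᵥ x)) + m0 * (y ⬝ᵥ (T *ᵥ y)) + c * (x ⬝ᵥ (T *ᵥ y)) := by
  have hsym : y ⬝ᵥ (T *ᵥ x) = x ⬝ᵥ (T *ᵥ y) := by
    rw [Matrix.dotProduct_mulVec, ← Matrix.mulVec_transpose, hT, dotProduct_comm]
  have h := hpos (m1 • x + (c / 2) • y)
  have e : (m1 • x + (c / 2) • y) ⬝ᵥ (T *ᵥ (m1 • x + (c / 2) • y)) =
      m1 * (m1 * (x ⬝ᵥ (T *ᵥ x)) + m0 * (y ⬝ᵥ (T *ᵥ y)) + c * (x ⬝ᵥ (T *ᵥ y))) -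
        (m0 * m1 - c ^ 2 / 4) * (y ⬝ᵥ (T *ᵥ y)) := by
    simp only [Matrix.mulVec_add, Matrix.mulVec_smul, dotProduct_add, add_dotProduct,
      smul_dotProduct, dotProduct_smul, smul_eq_mul, hsym]
    ring
  rw [e] at h
  have h2 : 0 ≤ (m0 * m1 - c ^ 2 / 4) * (y ⬝ᵥ (T *ᵥ y)) :=
    mul_nonneg (by linarith) (hpos y)
  have h3 : 0 ≤ m1 * (m1 * (x ⬝ᵥ (T *ᵥ x)) + m0 * (y ⬝ᵥ (T *ᵥ y)) + c * (x ⬝ᵥ (T *ᵥ y))) := by
    linarith
  exact nonneg_of_mul_nonneg_right h3 h1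

theorem pB_single_term (F G G' T : Matrix (Fin 4) (Fin 4) ℝ) (m m' : ℝ) (F' Gc : Matrix (Fin 4) (Fin 4) ℝ)
    (hF : F.transpose = -F) (e : F * G = (-(m / 2)) • (1 : Matrix (Fin 4) (Fin 4) ℝ))
    (e' : F' * G' = (-(m' / 2)) • (1 : Matrix (Fin 4) (Fin 4) ℝ))
    (hTT : F * Gc * F' = T) (a b : Fin 4 → ℝ) :
    m * m' * (a ⬝ᵥ (Gc *ᵥ b)) = -4 * ((G *ᵥ a) ⬝ᵥ (T *ᵥ (G' *ᵥ b))) := by
  have ha : m • a = (-2 : ℝ) • (F *ᵥ (G *ᵥ a)) := by
    rw [Matrix.mulVec_mulVec, e, Matrix.smul_mulVec, Matrix.one_mulVec, smul_smul]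
    congr 1
    ring
  have hb : m' • b = (-2 : ℝ) • (F' *ᵥ (G' *ᵥ b)) := by
    rw [Matrix.mulVec_mulVec, e', Matrix.smul_mulVec, Matrix.one_mulVec, smul_smul]
    congr 1
    ring
  have h1 : m * m' * (a ⬝ᵥ (Gc *ᵥ b)) = (m • a) ⬝ᵥ (Gc *ᵥ (m' • b)) := by
    simp only [Matrix.mulVec_smul, smul_dotProduct, dotProduct_smul, smul_eq_mul]
    ring
  have h2 : (F *ᵥ (G *ᵥ a)) ⬝ᵥ (Gc *ᵥ (F' *ᵥ (G' *ᵥ b))) =
      -((G *ᵥ a) ⬝ᵥ (T *ᵥ (G' *ᵥ b))) := by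
    rw [← hTT, dotProduct_comm, Matrix.dotProduct_mulVec, ← Matrix.mulVec_transpose, hF,
      dotProduct_comm, Matrix.mulVec_mulVec, Matrix.mulVec_mulVec]
    simp [Matrix.mul_assoc, Matrix.neg_mulVec, Matrix.mulVec_mulVec]
  rw [h1, ha, hb]
  simp only [Matrix.mulVec_smul, smul_dotProduct, dotProduct_smul, smul_eq_mul, h2]
  ring

/-- PIECE B. The pointwise inequality when the Gram matrix is diagonal.
PROOF. For a 2-form `B` (4x4 skew matrix) let `G(B)` be the skew matrix with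
`G01 = B23, G02 = -B13, G03 = B12, G12 = B03, G13 = -B02, G23 = B01`, so
`wedge3 a b B = ∑ a_l G_lm b_m` and, for two 2-forms, `A * G(B) + B * G(A) = -(wedge A B) • 1`,
`G(A) * B + G(B) * A = -(wedge A B) • 1` (check entrywise by ring). Put `F_a = cmp F a`
(matrices), `G_a = G(F_a)`, `m_a = gram F a a`, so `F_a G_a = G_a F_a = -(m_a / 2) • 1` and for
`a ≠ b` `F_a G_b = -F_b G_a`, `G_a F_b = -G_b F_a`. Let `x_a = G_a α_a` (mulVec, `α_a = cm1 α a`);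
the constraint says `x_0 + x_1 + x_2 = 0` (signs: `wedge3 α_a β F_a = α_a ⬝ G_a β = -(x_a ⬝ β)`).
Then `α_a = -(2/m_a) F_a x_a` and with the matrix `S = F_1 G_2 F_0`, which is symmetric and equal
to `F_2 G_0 F_1` and `F_0 G_1 F_2` (anticommutation), every `wedge3 α_a α_b F_c`, `(a,b,c)` cyclic,
equals `± (4/(m_a m_b)) (x_a ⬝ S x_b)` with one common sign, and `wedge3 (ι_u F_a) (ι_u F_b) F_c`
equals `± (u ⬝ S u)` with one common sign, so hypothesis `hU` says that `H = ± S` (the right sign)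
is positive semidefinite, and `quad α F = 8/(m_0 m_1 m_2) * (m_1 H(x_0,x_0) + m_0 H(x_1,x_1) +
(m_0 + m_1 - m_2) H(x_0,x_1))` after the elimination of `x_2`. This is `≥ 0` by `hpin`
(`m_0, m_1 > 0`; Cauchy-Schwarz for `H`, or complete the square:
`m_1 * (...) = H(m_1 x_0 + (c/2) x_1) + (m_0 m_1 - c^2/4) H(x_1,x_1)`, `c = m_0 + m_1 - m_2`).
Checked numerically. -/
theorem quad_diag (F : Fin 4 → Fin 4 → R3) (hs : Skew F)
    (h01 : gram F 0 1 = 0) (h02 : gram F 0 2 = 0) (h12 : gram F 1 2 = 0)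
    (hp : ∀ a, 0 < gram F a a)
    (hU : ∀ u : Fin 4 → ℝ, quad (fun m a => val F u (Pi.single m 1) a) F ≤ 0)
    (hpin : (gram F 0 0 + gram F 1 1 - gram F 2 2) ^ 2 ≤ 4 * gram F 0 0 * gram F 1 1)
    (α : Fin 4 → R3) (hα : Constr α F) : 0 ≤ quad α F := by
  have sk : ∀ a l m, cmp F a l m = -cmp F a m l := fun a l m => by
    have := congrFun (hs l m) a
    simpa [cmp] using this
  have hsymm : ∀ A B : Fin 4 → Fin 4 → ℝ, wedge A B = wedge B A := fun A B => by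
    simp only [wedge]; ring
  -- the anticommutation relations
  have dg : ∀ a, pBmtF (cmp F a) * pBmtG (cmp F a) =
      (-(gram F a a / 2)) • (1 : Matrix (Fin 4) (Fin 4) ℝ) := fun a => by
    have h := pB_anti_FG (cmp F a) (cmp F a) (sk a) (sk a)
    rw [← two_smul ℝ] at h
    have h' := congrArg (fun M => (1 / 2 : ℝ) • M) h
    simp only [smul_smul] at h'
    norm_num at h'
    rw [h']
    simp only [gram]
    rw [← neg_smul]
    congr 1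
    ring
  have an : ∀ a b, gram F a b = 0 → pBmtF (cmp F a) * pBmtG (cmp F b) =
      -(pBmtF (cmp F b) * pBmtG (cmp F a)) := fun a b h => by
    have h' := pB_anti_FG (cmp F a) (cmp F b) (sk a) (sk b)
    have h2 : wedge (cmp F a) (cmp F b) = 0 := h
    rw [h2, neg_zero, zero_smul] at h'
    exact eq_neg_of_add_eq_zero_left h'
  have bn : ∀ a b, gram F a b = 0 → pBmtG (cmp F a) * pBmtF (cmp F b) =
      -(pBmtG (cmp F b) * pBmtF (cmp F a)) := fun a b h => by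
    have h' := pB_anti_GF (cmp F a) (cmp F b) (sk a) (sk b)
    have h2 : wedge (cmp F a) (cmp F b) = 0 := h
    rw [h2, neg_zero, zero_smul] at h'
    exact eq_neg_of_add_eq_zero_left h'
  have h20 : gram F 2 0 = 0 := by
    have : gram F 2 0 = gram F 0 2 := hsymm _ _
    rw [this, h02]
  have h21 : gram F 2 1 = 0 := by
    have : gram F 2 1 = gram F 1 2 := hsymm _ _
    rw [this, h12]
  obtain ⟨e1, e2, hT⟩ := pB_cyc_mats (pBmtF (cmp F 0)) (pBmtF (cmp F 1)) (pBmtF (cmp F 2))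
    (pBmtG (cmp F 0)) (pBmtG (cmp F 1)) (pBmtG (cmp F 2))
    (pBmtF_transpose _ (sk 0)) (pBmtF_transpose _ (sk 1)) (pBmtG_transpose _)
    (an 0 2 h02) (an 2 1 h21) (bn 0 1 h01) (bn 2 0 h20)
  set T : Matrix (Fin 4) (Fin 4) ℝ := pBmtF (cmp F 0) * pBmtG (cmp F 2) * pBmtF (cmp F 1) with hTdef
  -- positivity of T
  have hpos : ∀ u : Fin 4 → ℝ, 0 ≤ u ⬝ᵥ (T *ᵥ u) := by
    intro u
    have hu := hU u
    have hiota : ∀ a, cm1 (fun m a => val F u (Pi.single m 1) a) a = -(pBmtF (cmp F a) *ᵥ u) := by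
      intro a
      have s := sk a
      have s0 : ∀ l, cmp F a l l = 0 := fun l => by have := s l l; linarith
      simp only [cmp] at s s0
      funext m
      fin_cases m <;>
        simp [cm1, val, pBmtF, cmp, Matrix.mulVec, dotProduct, Fin.sum_univ_four, Pi.single_apply,
          s0, s 1 0, s 2 0, s 3 0, s 2 1, s 3 1, s 3 2] <;> ring
    have term : ∀ (A B : Matrix (Fin 4) (Fin 4) ℝ) (G : Matrix (Fin 4) (Fin 4) ℝ),
        A.transpose = -A → A * G * B = T →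
        (-(A *ᵥ u)) ⬝ᵥ (G *ᵥ (-(B *ᵥ u))) = -(u ⬝ᵥ (T *ᵥ u)) := by
      intro A B G hA hAB
      rw [← hAB, Matrix.mulVec_neg, neg_dotProduct_neg, dotProduct_comm, Matrix.dotProduct_mulVec,
        ← Matrix.mulVec_transpose, hA, dotProduct_comm, Matrix.mulVec_mulVec,
        Matrix.mulVec_mulVec]
      simp [Matrix.mul_assoc, Matrix.neg_mulVec, Matrix.mulVec_mulVec]
    rw [quad, pB_wedge3_eq, pB_wedge3_eq, pB_wedge3_eq, hiota 0, hiota 1, hiota 2,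
      term _ _ _ (pBmtF_transpose _ (sk 0)) hTdef.symm,
      term _ _ _ (pBmtF_transpose _ (sk 1)) e2.symm,
      term _ _ _ (pBmtF_transpose _ (sk 2)) e1.symm] at hu
    linarith
  -- the constraint
  set x : Fin 3 → (Fin 4 → ℝ) := fun a => pBmtG (cmp F a) *ᵥ cm1 α a with hx
  have hsum : x 2 = -(x 0 + x 1) := by
    have h3 : x 0 + x 1 + x 2 = 0 := by
      apply dotProduct_eq_zero
      intro β
      have hβ := hα β
      simp only [Fin.sum_univ_three, pB_wedge3_eq] at hβ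
      have tr : ∀ a, cm1 α a ⬝ᵥ (pBmtG (cmp F a) *ᵥ β) = -(x a ⬝ᵥ β) := by
        intro a
        rw [Matrix.dotProduct_mulVec, ← Matrix.mulVec_transpose, pBmtG_transpose, Matrix.neg_mulVec,
          neg_dotProduct]
      rw [tr, tr, tr] at hβ
      rw [add_dotProduct, add_dotProduct]
      linarith
    rw [add_assoc, add_comm (x 1), ← add_assoc, add_comm (x 0), add_assoc] at h3
    rw [eq_neg_of_add_eq_zero_left h3]
  have q01 := pB_single_term _ _ _ T _ _ _ _ (pBmtF_transpose _ (sk 0)) (dg 0) (dg 1) hTdef.symm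
    (cm1 α 0) (cm1 α 1)
  have q12 := pB_single_term _ _ _ T _ _ _ _ (pBmtF_transpose _ (sk 1)) (dg 1) (dg 2) e2.symm
    (cm1 α 1) (cm1 α 2)
  have q20 := pB_single_term _ _ _ T _ _ _ _ (pBmtF_transpose _ (sk 2)) (dg 2) (dg 0) e1.symm
    (cm1 α 2) (cm1 α 0)
  change _ = -4 * (x 0 ⬝ᵥ (T *ᵥ x 1)) at q01
  change _ = -4 * (x 1 ⬝ᵥ (T *ᵥ x 2)) at q12
  change _ = -4 * (x 2 ⬝ᵥ (T *ᵥ x 0)) at q20
  have hsym : x 1 ⬝ᵥ (T *ᵥ x 0) = x 0 ⬝ᵥ (T *ᵥ x 1) := by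
    rw [Matrix.dotProduct_mulVec, ← Matrix.mulVec_transpose, hT, dotProduct_comm]
  rw [hsum] at q12 q20
  simp only [Matrix.mulVec_neg, Matrix.mulVec_add, dotProduct_neg, neg_dotProduct, dotProduct_add,
    add_dotProduct, hsym] at q12 q20
  have hfin := pB_final_ineq T hT hpos (x 0) (x 1) (gram F 0 0) (gram F 1 1)
    (gram F 0 0 + gram F 1 1 - gram F 2 2) (hp 1) hpin
  have hm : 0 < gram F 0 0 * gram F 1 1 * gram F 2 2 := mul_pos (mul_pos (hp 0) (hp 1)) (hp 2)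
  have hq : gram F 0 0 * gram F 1 1 * gram F 2 2 * quad α F =
      8 * (gram F 1 1 * (x 0 ⬝ᵥ (T *ᵥ x 0)) + gram F 0 0 * (x 1 ⬝ᵥ (T *ᵥ x 1)) +
        (gram F 0 0 + gram F 1 1 - gram F 2 2) * (x 0 ⬝ᵥ (T *ᵥ x 1))) := by
    rw [quad, pB_wedge3_eq, pB_wedge3_eq, pB_wedge3_eq]
    linear_combination 2 * gram F 2 2 * q01 + 2 * gram F 0 0 * q12 + 2 * gram F 1 1 * q20
  have h4 : 0 ≤ gram F 0 0 * gram F 1 1 * gram F 2 2 * quad α F := by
    rw [hq]; linarith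
  exact nonneg_of_mul_nonneg_right h4 hm

end Pool.Agent.Helper8.DC
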