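import Pool.Agent.Helper8.DC.Alg

set_option autoImplicit false

namespace Pool.Agent.Helper8.DC

theorem gram_quad_eq (F : Fin 4 → Fin 4 → R3) (φ : R3) :
    ∑ a, ∑ b, φ a * gram F a b * φ b =
      2 * ((∑ a, φ a * F 0 1 a) * (∑ a, φ a * F 2 3 a) -
        (∑ a, φ a * F 0 2 a) * (∑ a, φ a * F 1 3 a) +
        (∑ a, φ a * F 0 3 a) * (∑ a, φ a * F 1 2 a)) := by
  simp only [gram, wedge, cmp, Fin.sum_univ_three]
  ring

theorem gram_kernel (F : Fin 4 → Fin 4 → R3) (hs : Skew F) (φ : R3)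
    (h0 : ∑ a, ∑ b, φ a * gram F a b * φ b = 0) :
    ∃ u : Fin 4 → ℝ, u ≠ 0 ∧ ∀ v, ∑ a, φ a * val F u v a = 0 := by
  rw [gram_quad_eq F] at h0
  set b01 := ∑ a, φ a * F 0 1 a with hb01
  set b23 := ∑ a, φ a * F 2 3 a with hb23
  set b02 := ∑ a, φ a * F 0 2 a with hb02
  set b13 := ∑ a, φ a * F 1 3 a with hb13
  set b03 := ∑ a, φ a * F 0 3 a with hb03
  set b12 := ∑ a, φ a * F 1 2 a with hb12
  have hP : b01 * b23 - b02 * b13 + b03 * b12 = 0 := by linarith
  have hval : ∀ u v : Fin 4 → ℝ, ∑ a, φ a * val F u v a =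
      (u 0 * v 1 - u 1 * v 0) * b01 + (u 0 * v 2 - u 2 * v 0) * b02 +
      (u 0 * v 3 - u 3 * v 0) * b03 + (u 1 * v 2 - u 2 * v 1) * b12 +
      (u 1 * v 3 - u 3 * v 1) * b13 + (u 2 * v 3 - u 3 * v 2) * b23 := by
    intro u v
    have h : ∀ l m a, F l m a = -F m l a := fun l m a => congrFun (hs l m) a
    have h00 : ∀ l a, F l l a = 0 := fun l a => by linarith [h l l a]
    simp only [hb01, hb02, hb03, hb12, hb13, hb23, val, Fin.sum_univ_four, Fin.sum_univ_three,
      Pi.add_apply, Pi.smul_apply, smul_eq_mul, h00, h 1 0, h 2 0, h 3 0, h 2 1, h 3 1, h 3 2]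
    ring
  by_cases h23 : b23 = 0 ∧ b13 = 0 ∧ b12 = 0
  · by_cases h03 : b03 = 0 ∧ b02 = 0 ∧ b01 = 0
    · refine ⟨fun _ => 1, ?_, fun v => ?_⟩
      · intro h
        have := congrFun h 0
        simp at this
      · rw [hval, h23.1, h23.2.1, h23.2.2, h03.1, h03.2.1, h03.2.2]
        ring
    · -- b12 = b13 = b23 = 0 : the kernel contains vectors orthogonal to (b01,b02,b03), u 0 = 0
      obtain ⟨h1, h2, h3⟩ := h23
      by_cases h01 : b01 = 0
      · refine ⟨![0, 1, 0, 0], ?_, fun v => ?_⟩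
        · intro h
          have := congrFun h 1
          simp at this
        · rw [hval, h1, h2, h3, h01]
          simp
      · refine ⟨![0, -b02, b01, 0], ?_, fun v => ?_⟩
        · intro h
          have := congrFun h 2
          simp at this
          exact h01 this
        · rw [hval, h1, h2, h3]
          simp
          ring
  · refine ⟨![0, b23, -b13, b12], ?_, fun v => ?_⟩
    · intro h
      refine h23 ⟨?_, ?_, ?_⟩
      · have := congrFun h 1
        simpa using this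
      · have := congrFun h 2
        simpa using this
      · have := congrFun h 3
        simpa using this
    · rw [hval]
      simp
      linear_combination (-v 0) * hP

/-- the map `v ↦ F(u,v)` -/
noncomputable def valL (F : Fin 4 → Fin 4 → R3) (u : Fin 4 → ℝ) : (Fin 4 → ℝ) →ₗ[ℝ] R3 where
  toFun v := val F u v
  map_add' v w := by
    funext a
    simp only [val, Fin.sum_univ_four, Pi.add_apply, Pi.smul_apply, smul_eq_mul]
    ring
  map_smul' c v := by
    funext a
    simp only [val, Fin.sum_univ_four, Pi.add_apply, Pi.smul_apply, smul_eq_mul, RingHom.id_apply]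
    ring

theorem gram_quad_ne (F : Fin 4 → Fin 4 → R3) (hs : Skew F) (hF : Definite F) (φ : R3)
    (hφ : φ ≠ 0) : ∑ a, ∑ b, φ a * gram F a b * φ b ≠ 0 := by
  intro h0
  obtain ⟨u, hu, huv⟩ := gram_kernel F hs φ h0
  -- the functional
  set ψ : R3 →ₗ[ℝ] ℝ := ∑ a, φ a • LinearMap.proj a with hψ
  have hψa : ∀ w : R3, ψ w = ∑ a, φ a * w a := by
    intro w
    simp [hψ]
  have hψ0 : ψ ≠ 0 := by
    intro h
    apply hφ
    funext a
    have h1 := congrArg (fun g : R3 →ₗ[ℝ] ℝ => g (Pi.single a 1)) h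
    simp only [hψa, LinearMap.zero_apply] at h1
    rw [Finset.sum_eq_single a] at h1
    · simpa using h1
    · intro b _ hb
      rw [Pi.single_eq_of_ne hb, mul_zero]
    · intro h
      exact absurd (Finset.mem_univ a) h
  have hrange : LinearMap.range (valL F u) ≤ LinearMap.ker ψ := by
    rintro _ ⟨v, rfl⟩
    rw [LinearMap.mem_ker, hψa]
    exact huv v
  have hk : Module.finrank ℝ (LinearMap.ker ψ) = 2 := by
    have h1 := ψ.finrank_range_add_finrank_ker
    have h2 : LinearMap.range ψ = ⊤ := LinearMap.range_eq_top.2 (LinearMap.surjective hψ0)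
    rw [h2, finrank_top, Module.finrank_self, Module.finrank_fin_fun] at h1
    omega
  have hr : Module.finrank ℝ (LinearMap.range (valL F u)) ≤ 2 :=
    hk ▸ Submodule.finrank_mono hrange
  have hker : 2 ≤ Module.finrank ℝ (LinearMap.ker (valL F u)) := by
    have h1 := (valL F u).finrank_range_add_finrank_ker
    rw [Module.finrank_fin_fun] at h1
    omega
  have hsp : Module.finrank ℝ (Submodule.span ℝ {u}) = 1 := finrank_span_singleton hu
  have hnot : ¬ LinearMap.ker (valL F u) ≤ Submodule.span ℝ {u} := by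
    intro h
    have := Submodule.finrank_mono h
    omega
  obtain ⟨v, hv, hvu⟩ := SetLike.not_le_iff_exists.1 hnot
  refine hF u v ?_ (LinearMap.mem_ker.1 hv)
  rw [LinearIndependent.pair_iff' hu]
  intro a ha
  exact hvu (Submodule.mem_span_singleton.2 ⟨a, ha⟩)

/-- PIECE C1. The Gram matrix is positive definite.
PROOF. Let `q(φ)` be the left side `= wedge B B`, `B = ∑ φ_a F_a`. (1) `q(φ) ≠ 0` for `φ ≠ 0`:
otherwise `det B = (wedge B B / 2)^2 = 0`, so there is `u ≠ 0` with `B(u,·) = 0`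
(`Matrix.exists_mulVec_eq_zero_iff`); the linear map `v ↦ val F u v` from `ℝ⁴` to `ℝ³` has values
in the plane orthogonal to `φ`, so its kernel has dimension `≥ 2` and contains `v` linearly
independent of `u`, against `Definite`. (2) `q(e_0) = gram F 0 0 > 0`. If `q(φ) ≤ 0`, then
`q(φ) < 0` and the quadratic polynomial `q(e_0 + t φ)` has a root `t`; by (1) `e_0 + t φ = 0`, so
`q(e_0) = t^2 q(φ) < 0`, a contradiction. -/
theorem gram_pos (F : Fin 4 → Fin 4 → R3) (hs : Skew F) (hF : PosDef F) (φ : R3) (hφ : φ ≠ 0) :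
    0 < ∑ a, ∑ b, φ a * gram F a b * φ b := by
  by_contra hcon
  push Not at hcon
  have hne := gram_quad_ne F hs hF.1 φ hφ
  set c := ∑ a, ∑ b, φ a * gram F a b * φ b with hc
  have hc0 : c < 0 := lt_of_le_of_ne hcon hne
  have ha0 : 0 < gram F 0 0 := hF.2.1 0
  set b := ∑ b, (gram F 0 b + gram F b 0) / 2 * φ b with hb
  have hexp : ∀ t : ℝ, ∑ a, ∑ b, ((Pi.single 0 1 + t • φ : R3) a) * gram F a b *
      ((Pi.single 0 1 + t • φ : R3) b) = gram F 0 0 + 2 * b * t + c * t ^ 2 := by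
    intro t
    simp only [hb, hc, Fin.sum_univ_three, Pi.add_apply, Pi.smul_apply, smul_eq_mul,
      Pi.single_eq_same, Pi.single_eq_of_ne (by decide : (1 : Fin 3) ≠ 0),
      Pi.single_eq_of_ne (by decide : (2 : Fin 3) ≠ 0)]
    ring
  set D := b ^ 2 - gram F 0 0 * c with hD
  have hD0 : 0 ≤ D := by nlinarith [sq_nonneg b]
  set t := (-b - Real.sqrt D) / c with ht
  have hroot : gram F 0 0 + 2 * b * t + c * t ^ 2 = 0 := by
    have h1 : c * t = -b - Real.sqrt D := by
      rw [ht]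
      field_simp
    have h2 : c * (gram F 0 0 + 2 * b * t + c * t ^ 2) =
        gram F 0 0 * c + 2 * b * (c * t) + (c * t) ^ 2 := by ring
    have h3 : c * (gram F 0 0 + 2 * b * t + c * t ^ 2) = 0 := by
      rw [h2, h1]
      have h4 := Real.sq_sqrt hD0
      nlinarith
    rcases mul_eq_zero.1 h3 with h4 | h4
    · exact absurd h4 hne
    · exact h4
  have hzero : (Pi.single 0 1 + t • φ : R3) = 0 := by
    by_contra h
    exact gram_quad_ne F hs hF.1 _ h ((hexp t).trans hroot)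
  have h0 : φ 0 * t = -1 := by
    have := congrFun hzero 0
    simp at this
    linarith
  have h1 : φ 1 * t = 0 := by
    have := congrFun hzero 1
    simp at this
    rcases this with h | h <;> simp [h]
  have h2 : φ 2 * t = 0 := by
    have := congrFun hzero 2
    simp at this
    rcases this with h | h <;> simp [h]
  have h3 : t ^ 2 * c = gram F 0 0 := by
    have h4 : t ^ 2 * c = ∑ a, ∑ b, (φ a * t) * gram F a b * (φ b * t) := by
      simp only [hc, Fin.sum_univ_three]
      ring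
    rw [h4]
    simp only [Fin.sum_univ_three, h0, h1, h2]
    ring
  nlinarith [sq_nonneg t]

theorem val_skew (F : Fin 4 → Fin 4 → R3) (hs : Skew F) (u v : Fin 4 → ℝ) (a : Fin 3) :
    val F u v a = (u 0 * v 1 - u 1 * v 0) * F 0 1 a + (u 0 * v 2 - u 2 * v 0) * F 0 2 a +
      (u 0 * v 3 - u 3 * v 0) * F 0 3 a + (u 1 * v 2 - u 2 * v 1) * F 1 2 a +
      (u 1 * v 3 - u 3 * v 1) * F 1 3 a + (u 2 * v 3 - u 3 * v 2) * F 2 3 a := by
  have h : ∀ l m, F l m a = -F m l a := fun l m => congrFun (hs l m) a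
  have h0 : ∀ l, F l l a = 0 := fun l => by linarith [h l l]
  have h10 := h 1 0
  have h20 := h 2 0
  have h30 := h 3 0
  have h21 := h 2 1
  have h31 := h 3 1
  have h32 := h 3 2
  simp only [val, Fin.sum_univ_four, Pi.add_apply, Pi.smul_apply, smul_eq_mul, h0, h10, h20, h30,
    h21, h31, h32]
  ring

/-- PIECE C2. PROOF. `u = 0` is trivial. Let `u ≠ 0`, `f_a = ι_u F_a` (components
`f_a m = val F u (Pi.single m 1) a`), `P = gram F 0 0 / 2 > 0` and let `G` be the skew matrix with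
`G01 = B23, G02 = -B13, G03 = B12, G12 = B03, G13 = -B02, G23 = B01` for `B = cmp F 0`
(so `wedge3 a b B = ∑ a_l G_lm b_m`, `B * G = G * B = -P • 1`).
Let `v_l = -(1/P) ∑_p (f_1)_p G_pl`. Then `val F v w 0 = val F u w 1` for all `w`, so
`val F u v 2 > 0`; but `val F u v 2 = -(1/P) wedge3 f_1 f_2 (cmp F 0)`. Finally
`quad = 6 * wedge3 f_1 f_2 (cmp F 0)` is a polynomial identity (the three cyclic terms are equal;
use `Skew` to eliminate `F l m` with `l ≥ m`, then ring). -/
theorem urb_neg (F : Fin 4 → Fin 4 → R3) (hs : Skew F) (hF : PosDef F) (u : Fin 4 → ℝ) :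
    quad (fun m a => val F u (Pi.single m 1) a) F ≤ 0 := by
  by_cases hu : u = 0
  · subst hu
    have : (fun (m : Fin 4) (a : Fin 3) => val F 0 (Pi.single m 1) a) = fun _ _ => 0 := by
      funext m a
      simp [val]
    rw [this]
    simp [quad, cm1, wedge3, wed, wedge]
  -- the 1-forms
  have hf : ∀ (m : Fin 4) (a : Fin 3), val F u (Pi.single m 1) a =
      ![-(u 1 * F 0 1 a + u 2 * F 0 2 a + u 3 * F 0 3 a),
        u 0 * F 0 1 a - u 2 * F 1 2 a - u 3 * F 1 3 a,
        u 0 * F 0 2 a + u 1 * F 1 2 a - u 3 * F 2 3 a,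
        u 0 * F 0 3 a + u 1 * F 1 3 a + u 2 * F 2 3 a] m := by
    intro m a
    rw [val_skew F hs]
    fin_cases m <;> simp <;> ring
  have hP : 0 < F 0 1 0 * F 2 3 0 - F 0 2 0 * F 1 3 0 + F 0 3 0 * F 1 2 0 := by
    have h := hF.2.1 0
    simp only [gram, wedge, cmp] at h
    nlinarith [h]
  set P := F 0 1 0 * F 2 3 0 - F 0 2 0 * F 1 3 0 + F 0 3 0 * F 1 2 0 with hPdef
  set f : Fin 3 → Fin 4 → ℝ := fun a m =>
      ![-(u 1 * F 0 1 a + u 2 * F 0 2 a + u 3 * F 0 3 a),
        u 0 * F 0 1 a - u 2 * F 1 2 a - u 3 * F 1 3 a,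
        u 0 * F 0 2 a + u 1 * F 1 2 a - u 3 * F 2 3 a,
        u 0 * F 0 3 a + u 1 * F 1 3 a + u 2 * F 2 3 a] m with hfdef
  -- v = - (1/P) f_1 G
  set v : Fin 4 → ℝ := fun l => -(1 / P) *
    ![-(f 1 1 * F 2 3 0) + f 1 2 * F 1 3 0 - f 1 3 * F 1 2 0,
      f 1 0 * F 2 3 0 - f 1 2 * F 0 3 0 + f 1 3 * F 0 2 0,
      -(f 1 0 * F 1 3 0) + f 1 1 * F 0 3 0 - f 1 3 * F 0 1 0,
      f 1 0 * F 1 2 0 - f 1 1 * F 0 2 0 + f 1 2 * F 0 1 0] l with hvdef
  have hv : ∀ w, val F v w 0 = val F u w 1 := by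
    intro w
    rw [val_skew F hs, val_skew F hs]
    simp only [hvdef, hfdef, Matrix.cons_val]
    field_simp
    rw [hPdef]
    ring
  have h2 := hF.2.2 u v hu hv
  have h3 : val F u v 2 = -(1 / P) * wedge3 (f 1) (f 2) (cmp F 0) := by
    rw [val_skew F hs]
    simp only [hvdef, hfdef, wedge3, wedge, wed, cmp, Matrix.cons_val]
    ring
  rw [h3] at h2
  have h4 : wedge3 (f 1) (f 2) (cmp F 0) < 0 := by
    by_contra hc
    push Not at hc
    have : 0 ≤ 1 / P * wedge3 (f 1) (f 2) (cmp F 0) := by positivity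
    linarith
  have h5 : quad (fun m a => val F u (Pi.single m 1) a) F =
      6 * wedge3 (f 1) (f 2) (cmp F 0) := by
    have : (fun (m : Fin 4) (a : Fin 3) => val F u (Pi.single m 1) a) = fun m a => f a m := by
      funext m a
      rw [hf]
    rw [this]
    simp only [quad, cm1, hfdef, wedge3, wedge, wed, cmp, Matrix.cons_val]
    ring
  rw [h5]
  linarith

end Pool.Agent.Helper8.DC
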