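import Pool.Agent.Helper8.DC.Alg

set_option autoImplicit false

namespace Pool.Agent.Helper8.DC

theorem D_det_eq (R : Matrix (Fin 3) (Fin 3) ℝ)
    (hR : R ∈ Matrix.specialOrthogonalGroup (Fin 3) ℝ) :
    R 0 0 * R 1 1 * R 2 2 - R 0 0 * R 1 2 * R 2 1 - R 0 1 * R 1 0 * R 2 2 +
      R 0 1 * R 1 2 * R 2 0 + R 0 2 * R 1 0 * R 2 1 - R 0 2 * R 1 1 * R 2 0 = 1 := by
  have h := (Matrix.mem_specialOrthogonalGroup_iff.mp hR).2
  rw [Matrix.det_fin_three] at h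
  exact h

theorem D_cm1_rot (R : Matrix (Fin 3) (Fin 3) ℝ) (α : Fin 4 → R3) (a : Fin 3) :
    cm1 (fun m => R.mulVec (α m)) a =
      fun m => R a 0 * cm1 α 0 m + R a 1 * cm1 α 1 m + R a 2 * cm1 α 2 m := by
  funext m
  simp [cm1, Matrix.mulVec, dotProduct, Fin.sum_univ_three]

theorem D_cmp_rot (R : Matrix (Fin 3) (Fin 3) ℝ) (F : Fin 4 → Fin 4 → R3) (a : Fin 3) :
    cmp (fun l m => R.mulVec (F l m)) a =
      fun l m => R a 0 * cmp F 0 l m + R a 1 * cmp F 1 l m + R a 2 * cmp F 2 l m := by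
  funext l m
  simp [cmp, Matrix.mulVec, dotProduct, Fin.sum_univ_three]

theorem D_wedge3_swap (a b : Fin 4 → ℝ) (B : Fin 4 → Fin 4 → ℝ) :
    wedge3 a b B = -wedge3 b a B := by
  simp only [wedge3, wedge, wed]; ring

theorem D_wedge3_self (a : Fin 4 → ℝ) (B : Fin 4 → Fin 4 → ℝ) : wedge3 a a B = 0 := by
  simp only [wedge3, wedge, wed]; ring

theorem D_wedge3_left (c0 c1 c2 : ℝ) (a0 a1 a2 b : Fin 4 → ℝ) (B : Fin 4 → Fin 4 → ℝ) :
    wedge3 (fun m => c0 * a0 m + c1 * a1 m + c2 * a2 m) b B =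
      c0 * wedge3 a0 b B + c1 * wedge3 a1 b B + c2 * wedge3 a2 b B := by
  simp only [wedge3, wedge, wed]; ring

theorem D_wedge3_mid (c0 c1 c2 : ℝ) (a0 a1 a2 b : Fin 4 → ℝ) (B : Fin 4 → Fin 4 → ℝ) :
    wedge3 b (fun m => c0 * a0 m + c1 * a1 m + c2 * a2 m) B =
      c0 * wedge3 b a0 B + c1 * wedge3 b a1 B + c2 * wedge3 b a2 B := by
  simp only [wedge3, wedge, wed]; ring

theorem D_wedge3_right (c0 c1 c2 : ℝ) (B0 B1 B2 : Fin 4 → Fin 4 → ℝ) (a b : Fin 4 → ℝ) :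
    wedge3 a b (fun l m => c0 * B0 l m + c1 * B1 l m + c2 * B2 l m) =
      c0 * wedge3 a b B0 + c1 * wedge3 a b B1 + c2 * wedge3 a b B2 := by
  simp only [wedge3, wedge, wed]; ring

/-- PIECE D1. Rotating the frame does not change `quad`. PROOF. Trilinearity: the left side is
`det R` times `quad α F` (expand, the 27 numbers `wedge3 (cm1 α a) (cm1 α b) (cmp F c)` are
antisymmetric in `a`, `b`). -/
theorem quad_rot (R : Matrix (Fin 3) (Fin 3) ℝ) (hR : R ∈ Matrix.specialOrthogonalGroup (Fin 3) ℝ)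
    (α : Fin 4 → R3) (F : Fin 4 → Fin 4 → R3) :
    quad (fun m => R.mulVec (α m)) (fun l m => R.mulVec (F l m)) = quad α F := by
  have hd := D_det_eq R hR
  simp only [quad, D_cm1_rot, D_cmp_rot, D_wedge3_left, D_wedge3_mid, D_wedge3_right,
    D_wedge3_self]
  have s10 : ∀ B, wedge3 (cm1 α 1) (cm1 α 0) B = -wedge3 (cm1 α 0) (cm1 α 1) B :=
    fun B => D_wedge3_swap _ _ B
  have s20 : ∀ B, wedge3 (cm1 α 2) (cm1 α 0) B = -wedge3 (cm1 α 0) (cm1 α 2) B :=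
    fun B => D_wedge3_swap _ _ B
  have s21 : ∀ B, wedge3 (cm1 α 2) (cm1 α 1) B = -wedge3 (cm1 α 1) (cm1 α 2) B :=
    fun B => D_wedge3_swap _ _ B
  simp only [s10, s20, s21]
  linear_combination (2 * (wedge3 (cm1 α 0) (cm1 α 1) (cmp F 2) +
    wedge3 (cm1 α 1) (cm1 α 2) (cmp F 0) - wedge3 (cm1 α 0) (cm1 α 2) (cmp F 1))) * hd

/-- PIECE D2. The same for `trip`. -/
theorem trip_rot (R : Matrix (Fin 3) (Fin 3) ℝ) (hR : R ∈ Matrix.specialOrthogonalGroup (Fin 3) ℝ)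
    (φ : R3) (β : Fin 4 → ℝ) (α : Fin 4 → R3) (F : Fin 4 → Fin 4 → R3) :
    trip (R.mulVec φ) β (fun m => R.mulVec (α m)) (fun l m => R.mulVec (F l m)) =
      trip φ β α F := by
  have hd := D_det_eq R hR
  have hv : ∀ a, R.mulVec φ a = R a 0 * φ 0 + R a 1 * φ 1 + R a 2 * φ 2 := by
    intro a
    simp [Matrix.mulVec, dotProduct, Fin.sum_univ_three]
  simp only [trip, D_cm1_rot, D_cmp_rot, D_wedge3_mid, D_wedge3_right, hv]
  linear_combination (φ 0 * (wedge3 β (cm1 α 1) (cmp F 2) - wedge3 β (cm1 α 2) (cmp F 1)) +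
    φ 1 * (wedge3 β (cm1 α 2) (cmp F 0) - wedge3 β (cm1 α 0) (cmp F 2)) +
    φ 2 * (wedge3 β (cm1 α 0) (cmp F 1) - wedge3 β (cm1 α 1) (cmp F 0))) * hd

/-- PIECE D3. The Gram matrix of the rotated form. -/
theorem gram_rot (R : Matrix (Fin 3) (Fin 3) ℝ) (F : Fin 4 → Fin 4 → R3) :
    gram (fun l m => R.mulVec (F l m)) = R * gram F * R.transpose := by
  ext a b
  have hl : ∀ (c0 c1 c2 : ℝ) (B0 B1 B2 C : Fin 4 → Fin 4 → ℝ),
      wedge (fun l m => c0 * B0 l m + c1 * B1 l m + c2 * B2 l m) C =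
        c0 * wedge B0 C + c1 * wedge B1 C + c2 * wedge B2 C := by
    intro c0 c1 c2 B0 B1 B2 C
    simp only [wedge]; ring
  have hr : ∀ (c0 c1 c2 : ℝ) (B0 B1 B2 C : Fin 4 → Fin 4 → ℝ),
      wedge C (fun l m => c0 * B0 l m + c1 * B1 l m + c2 * B2 l m) =
        c0 * wedge C B0 + c1 * wedge C B1 + c2 * wedge C B2 := by
    intro c0 c1 c2 B0 B1 B2 C
    simp only [wedge]; ring
  simp only [gram, D_cmp_rot, hl, hr, Matrix.mul_apply, Matrix.transpose_apply,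
    Fin.sum_univ_three]
  ring

/-- Auxiliary: the determinant of a 4 by 4 matrix by 2 by 2 minors. -/
private theorem wedge3_pull_det (T : Matrix (Fin 4) (Fin 4) ℝ) : T.det =
    (T 0 0 * T 1 1 - T 0 1 * T 1 0) * (T 2 2 * T 3 3 - T 2 3 * T 3 2)
    - (T 0 0 * T 1 2 - T 0 2 * T 1 0) * (T 2 1 * T 3 3 - T 2 3 * T 3 1)
    + (T 0 0 * T 1 3 - T 0 3 * T 1 0) * (T 2 1 * T 3 2 - T 2 2 * T 3 1)
    + (T 0 1 * T 1 2 - T 0 2 * T 1 1) * (T 2 0 * T 3 3 - T 2 3 * T 3 0)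
    - (T 0 1 * T 1 3 - T 0 3 * T 1 1) * (T 2 0 * T 3 2 - T 2 2 * T 3 0)
    + (T 0 2 * T 1 3 - T 0 3 * T 1 2) * (T 2 0 * T 3 1 - T 2 1 * T 3 0) := by
  rw [Matrix.det_succ_row_zero]
  simp [Fin.sum_univ_succ, Matrix.det_fin_three, Fin.succAbove]
  ring

/-- Auxiliary: this is piece D5. -/
private theorem wedge3_pull_aux (T : Matrix (Fin 4) (Fin 4) ℝ) (B C : Fin 4 → Fin 4 → ℝ)
    (hB : ∀ l m, B l m = -B m l) (hC : ∀ l m, C l m = -C m l) :
    wedge (fun l m => ∑ n, ∑ p, T n l * T p m * B n p)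
      (fun l m => ∑ n, ∑ p, T n l * T p m * C n p) = T.det * wedge B C := by
  have h0 : ∀ l, B l l = 0 := fun l => by have := hB l l; linarith
  have k0 : ∀ l, C l l = 0 := fun l => by have := hC l l; linarith
  rw [wedge3_pull_det]
  simp only [wedge, Fin.sum_univ_four, h0, k0, hB 1 0, hB 2 0, hB 3 0, hB 2 1, hB 3 1, hB 3 2,
    hC 1 0, hC 2 0, hC 3 0, hC 2 1, hC 3 1, hC 3 2]
  ring

/-- PIECE D4. Pull back of `a ∧ b ∧ B` by a linear map. -/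
theorem wedge3_pull (T : Matrix (Fin 4) (Fin 4) ℝ) (a b : Fin 4 → ℝ) (B : Fin 4 → Fin 4 → ℝ)
    (hB : ∀ l m, B l m = -B m l) :
    wedge3 (fun m => ∑ n, T n m * a n) (fun m => ∑ n, T n m * b n)
      (fun l m => ∑ n, ∑ p, T n l * T p m * B n p) = T.det * wedge3 a b B := by
  have h := wedge3_pull_aux T (wed a b) B (fun l m => by simp only [wed]; ring) hB
  rw [wedge3, wedge3, ← h]
  congr 1
  funext l m
  simp only [wed, Fin.sum_univ_four]
  ring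

/-- PIECE D5. Pull back of `B ∧ C` by a linear map. -/
theorem wedge_pull (T : Matrix (Fin 4) (Fin 4) ℝ) (B C : Fin 4 → Fin 4 → ℝ)
    (hB : ∀ l m, B l m = -B m l) (hC : ∀ l m, C l m = -C m l) :
    wedge (fun l m => ∑ n, ∑ p, T n l * T p m * B n p)
      (fun l m => ∑ n, ∑ p, T n l * T p m * C n p) = T.det * wedge B C := by
  exact wedge3_pull_aux T B C hB hC

end Pool.Agent.Helper8.DC
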