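import Pool.Agent.Helper8.DC.PA
import Pool.Agent.Helper8.DC.PB
import Pool.Agent.Helper8.DC.PC
import Pool.Agent.Helper8.DC.PD

set_option autoImplicit false

open Matrix

namespace Pool.Agent.Helper8.DC

theorem gram_symm (F : Fin 4 → Fin 4 → R3) : (gram F).transpose = gram F := by
  ext a b
  simp only [Matrix.transpose_apply, gram, wedge]
  ring

theorem constr_rot (R : Matrix (Fin 3) (Fin 3) ℝ)
    (hR : R ∈ Matrix.specialOrthogonalGroup (Fin 3) ℝ)
    (α : Fin 4 → R3) (F : Fin 4 → Fin 4 → R3) (hα : Constr α F) :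
    Constr (fun m => R.mulVec (α m)) (fun l m => R.mulVec (F l m)) := by
  intro β
  have hR1 : R.transpose * R = 1 := by
    have := (Matrix.mem_specialOrthogonalGroup_iff.mp hR).1
    rw [Matrix.mem_orthogonalGroup_iff'] at this
    simpa [Matrix.star_eq_conjTranspose] using this
  have e : ∀ a b, ∑ c, R c a * R c b = if a = b then 1 else 0 := by
    intro a b
    have := congrFun (congrFun hR1 a) b
    simpa [Matrix.mul_apply, Matrix.one_apply] using this
  have key : ∑ a, wedge3 (cm1 (fun m => R.mulVec (α m)) a) β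
      (cmp (fun l m => R.mulVec (F l m)) a) =
      ∑ b, ∑ c, (∑ a, R a b * R a c) * wedge3 (cm1 α b) β (cmp F c) := by
    simp only [wedge3, wed, wedge, cm1, cmp, Matrix.mulVec, dotProduct, Fin.sum_univ_three]
    ring
  rw [key]
  simp only [e]
  have := hα β
  simpa using this

theorem val_rot (R : Matrix (Fin 3) (Fin 3) ℝ) (F : Fin 4 → Fin 4 → R3) (u v : Fin 4 → ℝ) :
    val (fun l m => R.mulVec (F l m)) u v = R.mulVec (val F u v) := by
  simp only [val]
  rw [← Matrix.mulVecLin_apply, map_sum]
  refine Finset.sum_congr rfl fun l _ => ?_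
  rw [map_sum]
  refine Finset.sum_congr rfl fun m _ => ?_
  rw [map_smul, Matrix.mulVecLin_apply]

theorem quad_nonneg (F : Fin 4 → Fin 4 → R3) (hs : Skew F) (hF : PosDef F) (hpin : Pinched F)
    (α : Fin 4 → R3) (hα : Constr α F) : 0 ≤ quad α F := by
  obtain ⟨R, hR, hdiag⟩ := rot_diag (gram F) (gram_symm F)
  have hR1 : R.transpose * R = 1 := by
    have := (Matrix.mem_specialOrthogonalGroup_iff.mp hR).1
    rw [Matrix.mem_orthogonalGroup_iff'] at this
    simpa [Matrix.star_eq_conjTranspose] using this
  set F' : Fin 4 → Fin 4 → R3 := fun l m => R.mulVec (F l m) with hF'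
  have hg : gram F' = R * gram F * R.transpose := gram_rot R F
  have hs' : Skew F' := by
    intro l m
    simp only [hF']
    rw [hs l m, Matrix.mulVec_neg]
  have htr : (gram F').trace = (gram F).trace := by
    rw [hg, Matrix.trace_mul_comm, ← Matrix.mul_assoc, hR1, Matrix.one_mul]
  have htr2 : (gram F' * gram F').trace = (gram F * gram F).trace := by
    have : gram F' * gram F' = R * (gram F * gram F) * R.transpose := by
      rw [hg]
      calc R * gram F * R.transpose * (R * gram F * R.transpose)
          = R * gram F * (R.transpose * R) * gram F * R.transpose := by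
            simp only [Matrix.mul_assoc]
        _ = R * (gram F * gram F) * R.transpose := by
            rw [hR1, Matrix.mul_one]
            simp only [Matrix.mul_assoc]
    rw [this, Matrix.trace_mul_comm, ← Matrix.mul_assoc, hR1, Matrix.one_mul]
  have hpos : ∀ a, 0 < gram F' a a := by
    intro a
    have hrow : (fun b => R a b) ≠ 0 := by
      intro h0
      have hR2 : R * R.transpose = 1 := mul_eq_one_comm.mp hR1
      have := congrFun (congrFun hR2 a) a
      simp only [Matrix.mul_apply, Matrix.transpose_apply, Matrix.one_apply_eq] at this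
      have h1 : ∀ b, R a b = 0 := fun b => congrFun h0 b
      simp [h1] at this
    have := gram_pos F hs hF (fun b => R a b) hrow
    rw [hg]
    simp only [Matrix.mul_apply, Matrix.transpose_apply]
    refine lt_of_lt_of_eq this ?_
    rw [Finset.sum_comm]
    refine Finset.sum_congr rfl fun b _ => ?_
    rw [Finset.sum_mul]
  have hoff : ∀ a b, a ≠ b → gram F' a b = 0 := by
    intro a b hab
    rw [hg]
    exact hdiag a b hab
  have hU : ∀ u : Fin 4 → ℝ, quad (fun m a => val F' u (Pi.single m 1) a) F' ≤ 0 := by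
    intro u
    have h1 : (fun (m : Fin 4) (a : Fin 3) => val F' u (Pi.single m 1) a) =
        fun m => R.mulVec (fun a => val F u (Pi.single m 1) a) := by
      funext m
      exact val_rot R F u (Pi.single m 1)
    rw [h1, hF', quad_rot R hR]
    exact urb_neg F hs hF u
  have hp2 : (gram F' 0 0 + gram F' 1 1 - gram F' 2 2) ^ 2 ≤ 4 * gram F' 0 0 * gram F' 1 1 := by
    have h := hpin
    unfold Pinched at h
    rw [← htr, ← htr2] at h
    simp only [Matrix.trace, Matrix.diag, Matrix.mul_apply, Fin.sum_univ_three] at h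
    rw [hoff 0 1 (by decide), hoff 0 2 (by decide), hoff 1 2 (by decide), hoff 1 0 (by decide),
      hoff 2 0 (by decide), hoff 2 1 (by decide)] at h
    nlinarith [h]
  have := quad_diag F' hs' (hoff 0 1 (by decide)) (hoff 0 2 (by decide)) (hoff 1 2 (by decide))
    hpos hU hp2 (fun m => R.mulVec (α m)) (constr_rot R hR α F hα)
  rwa [hF', quad_rot R hR] at this

theorem rest_pos (F : Fin 4 → Fin 4 → R3) (hs : Skew F) (hF : PosDef F) (φ : R3) (hφ : φ ≠ 0) :
    0 < rest φ F := by
  set q : R3 → ℝ := fun ψ => ∑ a, ∑ b, ψ a * gram F a b * ψ b with hq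
  have hsymm : ∀ a b, gram F a b = gram F b a := fun a b => by
    have := congrFun (congrFun (gram_symm F) b) a
    simpa using this
  have hid : rest φ F = q ![0, φ 2, -φ 1] + q ![-φ 2, 0, φ 0] + q ![φ 1, -φ 0, 0] := by
    simp only [hq, rest, Matrix.trace, Matrix.diag, Fin.sum_univ_three, Matrix.cons_val_zero,
      Matrix.cons_val_one, Matrix.cons_val_two, Matrix.head_cons, Matrix.tail_cons]
    rw [hsymm 1 0, hsymm 2 0, hsymm 2 1]
    ring
  have hnn : ∀ ψ, 0 ≤ q ψ := by
    intro ψ
    by_cases h : ψ = 0
    · simp [hq, h]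
    · exact (gram_pos F hs hF ψ h).le
  have hpp : ∀ ψ, ψ ≠ 0 → 0 < q ψ := fun ψ h => gram_pos F hs hF ψ h
  rw [hid]
  by_cases h0 : φ 0 = 0
  · by_cases h1 : φ 1 = 0
    · have h2 : φ 2 ≠ 0 := by
        intro h2
        apply hφ
        funext a
        fin_cases a <;> simp [h0, h1, h2]
      have : 0 < q ![0, φ 2, -φ 1] := hpp _ (by
        intro h
        have := congrFun h 1
        simp at this
        exact h2 this)
      linarith [hnn ![-φ 2, 0, φ 0], hnn ![φ 1, -φ 0, 0]]
    · have : 0 < q ![φ 1, -φ 0, 0] := hpp _ (by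
        intro h
        have := congrFun h 0
        simp at this
        exact h1 this)
      linarith [hnn ![-φ 2, 0, φ 0], hnn ![0, φ 2, -φ 1]]
  · have : 0 < q ![φ 1, -φ 0, 0] := hpp _ (by
      intro h
      have := congrFun h 1
      simp at this
      exact h0 this)
    linarith [hnn ![-φ 2, 0, φ 0], hnn ![0, φ 2, -φ 1]]

end Pool.Agent.Helper8.DC
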