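import Pool.Agent.Helper8.DC.Alg
import Pool.Agent.Helper8.DC.PH

set_option autoImplicit false

open scoped Manifold ContDiff

namespace Pool.Agent.Helper8.DC

noncomputable section

variable {X : Type} [TopologicalSpace X] [ChartedSpace E4 X] [IsManifold (𝓡 4) ∞ X]

/-- The Jacobian matrix of the change of coordinates: `jac n m = ∂_m τ_n`. -/
def jac (P : Bundle X) (i j : P.ι) (y : E4) : Matrix (Fin 4) (Fin 4) ℝ :=
  fun n m => (pd m (P.tr i j) y) n

/-- PIECE I0. The overlap is open and the change of coordinates is smooth on it, with values in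
the target of the chart `i`. -/
theorem ov_open (P : Bundle X) (i j : P.ι) : IsOpen (P.ov i j) :=
  (P.c j).isOpen_inter_preimage_symm (P.c i).open_source

theorem tr_smooth (P : Bundle X) (i j : P.ι) : ContDiffOn ℝ ∞ (P.tr i j) (P.ov i j) := by
  have h := IsManifold.compatible_of_mem_maximalAtlas (P.c_mem j) (P.c_mem i)
  have h2 := (mem_groupoid_of_pregroupoid.1 h).1
  have h3 : ContDiffOn ℝ ∞ ((𝓡 4) ∘ ((P.c j).symm ≫ₕ P.c i) ∘ (𝓡 4).symm)
      ((𝓡 4).symm ⁻¹' ((P.c j).symm ≫ₕ P.c i).source ∩ Set.range (𝓡 4)) := h2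
  have h4 : P.ov i j ⊆ (𝓡 4).symm ⁻¹' ((P.c j).symm ≫ₕ P.c i).source ∩ Set.range (𝓡 4) := by
    intro z hz
    refine ⟨?_, by simp⟩
    simpa [OpenPartialHomeomorph.trans_source, Bundle.ov] using hz
  exact h3.mono h4

theorem tr_mem (P : Bundle X) (i j : P.ι) (y : E4) (hy : y ∈ P.ov i j) :
    P.tr i j y ∈ (P.c i).target := (P.c i).map_source hy.2

theorem pi_pd_sum {ι : Type} (s : Finset ι) {f : ι → E4 → ℝ} {y : E4}
    (hf : ∀ t ∈ s, DifferentiableAt ℝ (f t) y) (m : Fin 4) :
    pd m (fun z => ∑ t ∈ s, f t z) y = ∑ t ∈ s, pd m (f t) y := by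
  unfold pd
  rw [fderiv_fun_sum hf]
  simp

theorem pi_chain {V : Type} [NormedAddCommGroup V] [NormedSpace ℝ V] {ψ : E4 → V} {τ : E4 → E4}
    {y : E4} (hτ : DifferentiableAt ℝ τ y) (hψ : DifferentiableAt ℝ ψ (τ y)) (m : Fin 4) :
    pd m (fun z => ψ (τ z)) y = ∑ n, (pd m τ y) n • pd n ψ (τ y) := by
  have h1 : HasFDerivAt (fun z => ψ (τ z)) ((fderiv ℝ ψ (τ y)).comp (fderiv ℝ τ y)) y :=
    hψ.hasFDerivAt.comp y hτ.hasFDerivAt
  unfold pd
  rw [h1.fderiv]
  simp only [ContinuousLinearMap.comp_apply]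
  set v : E4 := fderiv ℝ τ y (EuclideanSpace.single m 1) with hv
  have h2 : v = ∑ n, v n • EuclideanSpace.single n (1 : ℝ) := by
    ext k
    simp [Finset.sum_apply, EuclideanSpace.single_apply, Pi.single_apply]
  conv_lhs => rw [h2]
  rw [map_sum]
  exact Finset.sum_congr rfl fun n _ => by rw [map_smul]

/-- PIECE I1. The covariant derivative is covariant. PROOF. Near `y` (on the open set `ov`)
`φ_i r (τ z) = ∑_t h r t • g z *ᵥ φ_j t z` with `h` locally constant; differentiate (chain rule on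
the left: `∂_m (φ_i r ∘ τ) = ∑_n jac n m • (pd n (φ_i r)) (τ y)`), and use `P.compat` for the
derivative of `g` (with `w = φ_j t y`). -/
theorem cov_tr (P : Bundle X) {N : ℕ} (L : P.Flat N) (φ : P.Sect L) (i j : P.ι) (y : E4)
    (hy : y ∈ P.ov i j) (r : Fin N) (m : Fin 4) :
    ∑ n, jac P i j y n m • cov (P.A i) (fun z => φ.s i z r) (P.tr i j y) n =
      ∑ t, L.h i j y r t • (P.g i j y).mulVec (cov (P.A j) (fun z => φ.s j z t) y m) := by
  have hopen := ov_open P i j
  have hov := hopen.mem_nhds hy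
  have hτ : DifferentiableAt ℝ (P.tr i j) y :=
    ((tr_smooth P i j).contDiffAt hov).differentiableAt (by simp)
  have hψ : DifferentiableAt ℝ (fun z => φ.s i z r) (P.tr i j y) := by
    have h1 : DifferentiableAt ℝ (φ.s i) (P.tr i j y) :=
      ((φ.smooth i).contDiffAt ((P.c i).open_target.mem_nhds (tr_mem P i j y hy))).differentiableAt
        (by simp)
    exact (differentiableAt_pi.1 h1) r
  have hφ : ∀ t, DifferentiableAt ℝ (fun z => φ.s j z t) y := by
    have h1 : DifferentiableAt ℝ (φ.s j) y :=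
      ((φ.smooth j).contDiffAt ((P.c j).open_target.mem_nhds hy.1)).differentiableAt (by simp)
    exact fun t => (differentiableAt_pi.1 h1) t
  have hφa : ∀ t a, DifferentiableAt ℝ (fun z => φ.s j z t a) y := fun t a =>
    (differentiableAt_pi.1 (hφ t)) a
  have hg : ∀ a b, DifferentiableAt ℝ (fun z => P.g i j z a b) y := fun a b =>
    ((P.g_smooth i j a b).contDiffAt hov).differentiableAt (by simp)
  set τ := P.tr i j with hτdef
  -- the left side
  set B : R3 := ∑ n, (pd m τ y) n • P.A i (τ y) n with hB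
  have hL : ∑ n, jac P i j y n m • cov (P.A i) (fun z => φ.s i z r) (τ y) n
      = pd m (fun z => φ.s i (τ z) r) y + crossProduct B (φ.s i (τ y) r) := by
    rw [pi_chain (ψ := fun z => φ.s i z r) hτ hψ m]
    rw [hB, map_sum, LinearMap.sum_apply, ← Finset.sum_add_distrib]
    refine Finset.sum_congr rfl fun n _ => ?_
    unfold cov jac
    rw [smul_add, map_smul, LinearMap.smul_apply]
  rw [hL]
  have hcomp : ∀ t, pd m (fun z => (P.g i j z).mulVec (φ.s j z t)) y
      = pd m (fun z => (P.g i j z).mulVec (φ.s j y t)) y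
        + (P.g i j y).mulVec (pd m (fun z => φ.s j z t) y) := by
    intro t
    have d1 : DifferentiableAt ℝ (fun z => (P.g i j z).mulVec (φ.s j z t)) y := by
      refine differentiableAt_pi.2 fun a => ?_
      simp only [Matrix.mulVec, dotProduct]
      exact DifferentiableAt.fun_sum fun b _ => (hg a b).fun_mul (hφa t b)
    have d2 : DifferentiableAt ℝ (fun z => (P.g i j z).mulVec (φ.s j y t)) y := by
      refine differentiableAt_pi.2 fun a => ?_
      simp only [Matrix.mulVec, dotProduct]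
      exact DifferentiableAt.fun_sum fun b _ => (hg a b).fun_mul (differentiableAt_const _)
    funext a
    rw [ph_pd_comp d1, Pi.add_apply, ph_pd_comp d2]
    simp only [Matrix.mulVec, dotProduct]
    rw [pi_pd_sum _ (fun b _ => (hg a b).fun_mul (hφa t b)),
      pi_pd_sum _ (fun b _ => (hg a b).fun_mul (differentiableAt_const _)),
      ← Finset.sum_add_distrib]
    refine Finset.sum_congr rfl fun b _ => ?_
    rw [ph_pd_mul (hg a b) (hφa t b), ph_pd_mul (hg a b) (differentiableAt_const _),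
      ph_pd_comp (hφ t)]
    simp [pd]
  have hdt : ∀ t, DifferentiableAt ℝ (fun z => (P.g i j z).mulVec (φ.s j z t)) y := by
    intro t
    refine differentiableAt_pi.2 fun a => ?_
    simp only [Matrix.mulVec, dotProduct]
    exact DifferentiableAt.fun_sum fun b _ => (hg a b).fun_mul (hφa t b)
  have hev : (fun z => φ.s i (τ z) r) =ᶠ[nhds y]
      fun z => ∑ t, L.h i j y r t • (P.g i j z).mulVec (φ.s j z t) := by
    filter_upwards [hov, L.h_const i j y hy] with z hz hh
    rw [hτdef, φ.compat i j z hz r, hh]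
  have hD : pd m (fun z => φ.s i (τ z) r) y
      = ∑ t, L.h i j y r t • pd m (fun z => (P.g i j z).mulVec (φ.s j z t)) y := by
    have h1 : ∀ t, HasFDerivAt (fun z => L.h i j y r t • (P.g i j z).mulVec (φ.s j z t))
        (L.h i j y r t • fderiv ℝ (fun z => (P.g i j z).mulVec (φ.s j z t)) y) y := fun t =>
      (hdt t).hasFDerivAt.const_smul (L.h i j y r t)
    have h2 : HasFDerivAt (fun z => ∑ t, L.h i j y r t • (P.g i j z).mulVec (φ.s j z t))
        (∑ t, L.h i j y r t • fderiv ℝ (fun z => (P.g i j z).mulVec (φ.s j z t)) y) y :=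
      HasFDerivAt.fun_sum fun t _ => h1 t
    unfold pd
    rw [hev.fderiv_eq, h2.fderiv, ContinuousLinearMap.sum_apply]
    rfl
  have hval : φ.s i (τ y) r = ∑ t, L.h i j y r t • (P.g i j y).mulVec (φ.s j y t) := by
    rw [hτdef, φ.compat i j y hy r]
  rw [hD, hval, map_sum, ← Finset.sum_add_distrib]
  refine Finset.sum_congr rfl fun t _ => ?_
  rw [map_smul, ← smul_add, hcomp t]
  congr 1
  have hc := P.compat i j y hy m (φ.s j y t)
  unfold cov
  rw [Matrix.mulVec_add, ← hc]
  have hB' : (∑ n, (pd m (fun z => (P.c i) ((P.c j).symm z)) y) n •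
      P.A i ((P.c i) ((P.c j).symm y)) n) = B := rfl
  rw [hB']
  abel

end

end Pool.Agent.Helper8.DC
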