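import Pool.Agent.Helper8.DC.Defs2

set_option autoImplicit false

open scoped Manifold ContDiff

namespace Pool.Agent.Helper8.DC

noncomputable section

/-- PIECE QA1. Strict form of `urb_neg` (same proof). -/
theorem urb_neg_strict (F : Fin 4 → Fin 4 → R3) (hs : Skew F) (hF : PosDef F) (u : Fin 4 → ℝ)
    (hu : u ≠ 0) : quad (fun m a => val F u (Pi.single m 1) a) F < 0 := by
  -- the 1-forms
  have hf : ∀ (m : Fin 4) (a : Fin 3), val F u (Pi.single m 1) a =
      ![-(u 1 * F 0 1 a + u 2 * F 0 2 a + u 3 * F 0 3 a),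
        u 0 * F 0 1 a - u 2 * F 1 2 a - u 3 * F 1 3 a,
        u 0 * F 0 2 a + u 1 * F 1 2 a - u 3 * F 2 3 a,
        u 0 * F 0 3 a + u 1 * F 1 3 a + u 2 * F 2 3 a] m := by
    intro m a
    rw [val_skew F hs]
    fin_cases m <;> simp <;> ring
  have hP : 0 < F 0 1 0 * F 2 3 0 - F 0 2 0 * F 1 3 0 + F 0 3 0 * F 1 2 0 := by
    have h := hF.2.1 0
    simp only [gram, wedge, cmp] at h
    nlinarith [h]
  set P := F 0 1 0 * F 2 3 0 - F 0 2 0 * F 1 3 0 + F 0 3 0 * F 1 2 0 with hPdef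
  set f : Fin 3 → Fin 4 → ℝ := fun a m =>
      ![-(u 1 * F 0 1 a + u 2 * F 0 2 a + u 3 * F 0 3 a),
        u 0 * F 0 1 a - u 2 * F 1 2 a - u 3 * F 1 3 a,
        u 0 * F 0 2 a + u 1 * F 1 2 a - u 3 * F 2 3 a,
        u 0 * F 0 3 a + u 1 * F 1 3 a + u 2 * F 2 3 a] m with hfdef
  -- v = - (1/P) f_1 G
  set v : Fin 4 → ℝ := fun l => -(1 / P) *
    ![-(f 1 1 * F 2 3 0) + f 1 2 * F 1 3 0 - f 1 3 * F 1 2 0,
      f 1 0 * F 2 3 0 - f 1 2 * F 0 3 0 + f 1 3 * F 0 2 0,
      -(f 1 0 * F 1 3 0) + f 1 1 * F 0 3 0 - f 1 3 * F 0 1 0,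
      f 1 0 * F 1 2 0 - f 1 1 * F 0 2 0 + f 1 2 * F 0 1 0] l with hvdef
  have hv : ∀ w, val F v w 0 = val F u w 1 := by
    intro w
    rw [val_skew F hs, val_skew F hs]
    simp only [hvdef, hfdef, Matrix.cons_val]
    field_simp
    rw [hPdef]
    ring
  have h2 := hF.2.2 u v hu hv
  have h3 : val F u v 2 = -(1 / P) * wedge3 (f 1) (f 2) (cmp F 0) := by
    rw [val_skew F hs]
    simp only [hvdef, hfdef, wedge3, wedge, wed, cmp, Matrix.cons_val]
    ring
  rw [h3] at h2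
  have h4 : wedge3 (f 1) (f 2) (cmp F 0) < 0 := by
    by_contra hc
    push Not at hc
    have : 0 ≤ 1 / P * wedge3 (f 1) (f 2) (cmp F 0) := by positivity
    linarith
  have h5 : quad (fun m a => val F u (Pi.single m 1) a) F =
      6 * wedge3 (f 1) (f 2) (cmp F 0) := by
    have : (fun (m : Fin 4) (a : Fin 3) => val F u (Pi.single m 1) a) = fun m a => f a m := by
      funext m a
      rw [hf]
    rw [this]
    simp only [quad, cm1, hfdef, wedge3, wedge, wed, cmp, Matrix.cons_val]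
    ring
  rw [h5]
  linarith

open Matrix in
/-- The strict form of the final inequality. -/
theorem qa2_final (T : Matrix (Fin 4) (Fin 4) ℝ) (hT : T.transpose = T)
    (hpos : ∀ u : Fin 4 → ℝ, u ≠ 0 → 0 < u ⬝ᵥ (T *ᵥ u)) (x y : Fin 4 → ℝ) (hne : x ≠ 0 ∨ y ≠ 0)
    (m0 m1 c : ℝ) (h1 : 0 < m1) (hc : c ^ 2 < 4 * m0 * m1) :
    0 < m1 * (x ⬝ᵥ (T *ᵥ x)) + m0 * (y ⬝ᵥ (T *ᵥ y)) + c * (x ⬝ᵥ (T *ᵥ y)) := by
  have hpos' : ∀ u : Fin 4 → ℝ, 0 ≤ u ⬝ᵥ (T *ᵥ u) := by
    intro u
    by_cases hu : u = 0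
    · rw [hu]; simp
    · exact (hpos u hu).le
  have hsym : y ⬝ᵥ (T *ᵥ x) = x ⬝ᵥ (T *ᵥ y) := by
    rw [Matrix.dotProduct_mulVec, ← Matrix.mulVec_transpose, hT, dotProduct_comm]
  by_cases hy : y = 0
  · have hx : x ≠ 0 := by
      rcases hne with h | h
      · exact h
      · exact absurd hy h
    rw [hy]
    simp only [Matrix.mulVec_zero, dotProduct_zero, mul_zero, add_zero]
    exact mul_pos h1 (hpos x hx)
  · have h := hpos' (m1 • x + (c / 2) • y)
    have e : (m1 • x + (c / 2) • y) ⬝ᵥ (T *ᵥ (m1 • x + (c / 2) • y)) =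
        m1 * (m1 * (x ⬝ᵥ (T *ᵥ x)) + m0 * (y ⬝ᵥ (T *ᵥ y)) + c * (x ⬝ᵥ (T *ᵥ y))) -
          (m0 * m1 - c ^ 2 / 4) * (y ⬝ᵥ (T *ᵥ y)) := by
      simp only [Matrix.mulVec_add, Matrix.mulVec_smul, dotProduct_add, add_dotProduct,
        smul_dotProduct, dotProduct_smul, smul_eq_mul, hsym]
      ring
    rw [e] at h
    have h2 : 0 < (m0 * m1 - c ^ 2 / 4) * (y ⬝ᵥ (T *ᵥ y)) :=
      mul_pos (by linarith) (hpos y hy)
    have h3 : 0 < m1 * (m1 * (x ⬝ᵥ (T *ᵥ x)) + m0 * (y ⬝ᵥ (T *ᵥ y)) + c * (x ⬝ᵥ (T *ᵥ y))) := by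
      linarith
    exact (mul_pos_iff_of_pos_left h1).mp h3

open Matrix in
/-- PIECE QA2. Strict form of `quad_diag` (same proof; if all `x_a = G_a α_a` vanish then
`α = 0`, and `H` is positive definite). -/
theorem quad_diag_strict (F : Fin 4 → Fin 4 → R3) (hs : Skew F)
    (h01 : gram F 0 1 = 0) (h02 : gram F 0 2 = 0) (h12 : gram F 1 2 = 0)
    (hp : ∀ a, 0 < gram F a a)
    (hU : ∀ u : Fin 4 → ℝ, u ≠ 0 → quad (fun m a => val F u (Pi.single m 1) a) F < 0)
    (hpin : (gram F 0 0 + gram F 1 1 - gram F 2 2) ^ 2 < 4 * gram F 0 0 * gram F 1 1)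
    (α : Fin 4 → R3) (hα : Constr α F) (h0 : α ≠ 0) : 0 < quad α F := by
  have sk : ∀ a l m, cmp F a l m = -cmp F a m l := fun a l m => by
    have := congrFun (hs l m) a
    simpa [cmp] using this
  have hsymm : ∀ A B : Fin 4 → Fin 4 → ℝ, wedge A B = wedge B A := fun A B => by
    simp only [wedge]; ring
  -- the anticommutation relations
  have dg : ∀ a, pBmtF (cmp F a) * pBmtG (cmp F a) =
      (-(gram F a a / 2)) • (1 : Matrix (Fin 4) (Fin 4) ℝ) := fun a => by
    have h := pB_anti_FG (cmp F a) (cmp F a) (sk a) (sk a)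
    rw [← two_smul ℝ] at h
    have h' := congrArg (fun M => (1 / 2 : ℝ) • M) h
    simp only [smul_smul] at h'
    norm_num at h'
    rw [h']
    simp only [gram]
    rw [← neg_smul]
    congr 1
    ring
  have an : ∀ a b, gram F a b = 0 → pBmtF (cmp F a) * pBmtG (cmp F b) =
      -(pBmtF (cmp F b) * pBmtG (cmp F a)) := fun a b h => by
    have h' := pB_anti_FG (cmp F a) (cmp F b) (sk a) (sk b)
    have h2 : wedge (cmp F a) (cmp F b) = 0 := h
    rw [h2, neg_zero, zero_smul] at h'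
    exact eq_neg_of_add_eq_zero_left h'
  have bn : ∀ a b, gram F a b = 0 → pBmtG (cmp F a) * pBmtF (cmp F b) =
      -(pBmtG (cmp F b) * pBmtF (cmp F a)) := fun a b h => by
    have h' := pB_anti_GF (cmp F a) (cmp F b) (sk a) (sk b)
    have h2 : wedge (cmp F a) (cmp F b) = 0 := h
    rw [h2, neg_zero, zero_smul] at h'
    exact eq_neg_of_add_eq_zero_left h'
  have h20 : gram F 2 0 = 0 := by
    have : gram F 2 0 = gram F 0 2 := hsymm _ _
    rw [this, h02]
  have h21 : gram F 2 1 = 0 := by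
    have : gram F 2 1 = gram F 1 2 := hsymm _ _
    rw [this, h12]
  obtain ⟨e1, e2, hT⟩ := pB_cyc_mats (pBmtF (cmp F 0)) (pBmtF (cmp F 1)) (pBmtF (cmp F 2))
    (pBmtG (cmp F 0)) (pBmtG (cmp F 1)) (pBmtG (cmp F 2))
    (pBmtF_transpose _ (sk 0)) (pBmtF_transpose _ (sk 1)) (pBmtG_transpose _)
    (an 0 2 h02) (an 2 1 h21) (bn 0 1 h01) (bn 2 0 h20)
  set T : Matrix (Fin 4) (Fin 4) ℝ := pBmtF (cmp F 0) * pBmtG (cmp F 2) * pBmtF (cmp F 1) with hTdef
  -- positivity of T
  have hpos : ∀ u : Fin 4 → ℝ, u ≠ 0 → 0 < u ⬝ᵥ (T *ᵥ u) := by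
    intro u hu0
    have hu := hU u hu0
    have hiota : ∀ a, cm1 (fun m a => val F u (Pi.single m 1) a) a = -(pBmtF (cmp F a) *ᵥ u) := by
      intro a
      have s := sk a
      have s0 : ∀ l, cmp F a l l = 0 := fun l => by have := s l l; linarith
      simp only [cmp] at s s0
      funext m
      fin_cases m <;>
        simp [cm1, val, pBmtF, cmp, Matrix.mulVec, dotProduct, Fin.sum_univ_four, Pi.single_apply,
          s0, s 1 0, s 2 0, s 3 0, s 2 1, s 3 1, s 3 2] <;> ring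
    have term : ∀ (A B : Matrix (Fin 4) (Fin 4) ℝ) (G : Matrix (Fin 4) (Fin 4) ℝ),
        A.transpose = -A → A * G * B = T →
        (-(A *ᵥ u)) ⬝ᵥ (G *ᵥ (-(B *ᵥ u))) = -(u ⬝ᵥ (T *ᵥ u)) := by
      intro A B G hA hAB
      rw [← hAB, Matrix.mulVec_neg, neg_dotProduct_neg, dotProduct_comm, Matrix.dotProduct_mulVec,
        ← Matrix.mulVec_transpose, hA, dotProduct_comm, Matrix.mulVec_mulVec,
        Matrix.mulVec_mulVec]
      simp [Matrix.mul_assoc, Matrix.neg_mulVec, Matrix.mulVec_mulVec]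
    rw [quad, pB_wedge3_eq, pB_wedge3_eq, pB_wedge3_eq, hiota 0, hiota 1, hiota 2,
      term _ _ _ (pBmtF_transpose _ (sk 0)) hTdef.symm,
      term _ _ _ (pBmtF_transpose _ (sk 1)) e2.symm,
      term _ _ _ (pBmtF_transpose _ (sk 2)) e1.symm] at hu
    linarith
  -- the constraint
  set x : Fin 3 → (Fin 4 → ℝ) := fun a => pBmtG (cmp F a) *ᵥ cm1 α a with hx
  have hsum : x 2 = -(x 0 + x 1) := by
    have h3 : x 0 + x 1 + x 2 = 0 := by
      apply dotProduct_eq_zero
      intro β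
      have hβ := hα β
      simp only [Fin.sum_univ_three, pB_wedge3_eq] at hβ
      have tr : ∀ a, cm1 α a ⬝ᵥ (pBmtG (cmp F a) *ᵥ β) = -(x a ⬝ᵥ β) := by
        intro a
        rw [Matrix.dotProduct_mulVec, ← Matrix.mulVec_transpose, pBmtG_transpose, Matrix.neg_mulVec,
          neg_dotProduct]
      rw [tr, tr, tr] at hβ
      rw [add_dotProduct, add_dotProduct]
      linarith
    rw [add_assoc, add_comm (x 1), ← add_assoc, add_comm (x 0), add_assoc] at h3
    rw [eq_neg_of_add_eq_zero_left h3]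
  have q01 := pB_single_term _ _ _ T _ _ _ _ (pBmtF_transpose _ (sk 0)) (dg 0) (dg 1) hTdef.symm
    (cm1 α 0) (cm1 α 1)
  have q12 := pB_single_term _ _ _ T _ _ _ _ (pBmtF_transpose _ (sk 1)) (dg 1) (dg 2) e2.symm
    (cm1 α 1) (cm1 α 2)
  have q20 := pB_single_term _ _ _ T _ _ _ _ (pBmtF_transpose _ (sk 2)) (dg 2) (dg 0) e1.symm
    (cm1 α 2) (cm1 α 0)
  change _ = -4 * (x 0 ⬝ᵥ (T *ᵥ x 1)) at q01
  change _ = -4 * (x 1 ⬝ᵥ (T *ᵥ x 2)) at q12
  change _ = -4 * (x 2 ⬝ᵥ (T *ᵥ x 0)) at q20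
  have hsym : x 1 ⬝ᵥ (T *ᵥ x 0) = x 0 ⬝ᵥ (T *ᵥ x 1) := by
    rw [Matrix.dotProduct_mulVec, ← Matrix.mulVec_transpose, hT, dotProduct_comm]
  rw [hsum] at q12 q20
  simp only [Matrix.mulVec_neg, Matrix.mulVec_add, dotProduct_neg, neg_dotProduct, dotProduct_add,
    add_dotProduct, hsym] at q12 q20
  have hne : x 0 ≠ 0 ∨ x 1 ≠ 0 := by
    by_contra hcon
    push Not at hcon
    have hx2 : x 2 = 0 := by rw [hsum, hcon.1, hcon.2, add_zero, neg_zero]
    have hall : ∀ a, x a = 0 := by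
      intro a
      fin_cases a
      · exact hcon.1
      · exact hcon.2
      · exact hx2
    apply h0
    funext m a
    have h1 : pBmtF (cmp F a) *ᵥ (x a) = (-(gram F a a / 2)) • cm1 α a := by
      simp only [hx]
      rw [Matrix.mulVec_mulVec, dg a, Matrix.smul_mulVec, Matrix.one_mulVec]
    rw [hall a, Matrix.mulVec_zero] at h1
    have h2 := congrFun h1 m
    simp only [Pi.zero_apply, Pi.smul_apply, smul_eq_mul, cm1] at h2
    have h3 := hp a
    have h4 : -(gram F a a / 2) ≠ 0 := by linarith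
    exact (mul_eq_zero.mp h2.symm).resolve_left h4
  have hfin := qa2_final T hT hpos (x 0) (x 1) hne (gram F 0 0) (gram F 1 1)
    (gram F 0 0 + gram F 1 1 - gram F 2 2) (hp 1) hpin
  have hm : 0 < gram F 0 0 * gram F 1 1 * gram F 2 2 := mul_pos (mul_pos (hp 0) (hp 1)) (hp 2)
  have hq : gram F 0 0 * gram F 1 1 * gram F 2 2 * quad α F =
      8 * (gram F 1 1 * (x 0 ⬝ᵥ (T *ᵥ x 0)) + gram F 0 0 * (x 1 ⬝ᵥ (T *ᵥ x 1)) +
        (gram F 0 0 + gram F 1 1 - gram F 2 2) * (x 0 ⬝ᵥ (T *ᵥ x 1))) := by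
    rw [quad, pB_wedge3_eq, pB_wedge3_eq, pB_wedge3_eq]
    linear_combination 2 * gram F 2 2 * q01 + 2 * gram F 0 0 * q12 + 2 * gram F 1 1 * q20
  have h4 : 0 < gram F 0 0 * gram F 1 1 * gram F 2 2 * quad α F := by
    rw [hq]; linarith
  exact (mul_pos_iff_of_pos_left hm).mp h4

/-- PIECE QA3. Copy the proof of `quad_nonneg` (PE.lean). -/
theorem quad_pos (F : Fin 4 → Fin 4 → R3) (hs : Skew F) (hF : PosDef F)
    (hpin : 2 * (gram F * gram F).trace < (gram F).trace ^ 2)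
    (α : Fin 4 → R3) (hα : Constr α F) (h0 : α ≠ 0) : 0 < quad α F := by
  obtain ⟨R, hR, hdiag⟩ := rot_diag (gram F) (gram_symm F)
  have hR1 : R.transpose * R = 1 := by
    have := (Matrix.mem_specialOrthogonalGroup_iff.mp hR).1
    rw [Matrix.mem_orthogonalGroup_iff'] at this
    simpa [Matrix.star_eq_conjTranspose] using this
  set F' : Fin 4 → Fin 4 → R3 := fun l m => R.mulVec (F l m) with hF'
  have hg : gram F' = R * gram F * R.transpose := gram_rot R F
  have hs' : Skew F' := by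
    intro l m
    simp only [hF']
    rw [hs l m, Matrix.mulVec_neg]
  have htr : (gram F').trace = (gram F).trace := by
    rw [hg, Matrix.trace_mul_comm, ← Matrix.mul_assoc, hR1, Matrix.one_mul]
  have htr2 : (gram F' * gram F').trace = (gram F * gram F).trace := by
    have : gram F' * gram F' = R * (gram F * gram F) * R.transpose := by
      rw [hg]
      calc R * gram F * R.transpose * (R * gram F * R.transpose)
          = R * gram F * (R.transpose * R) * gram F * R.transpose := by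
            simp only [Matrix.mul_assoc]
        _ = R * (gram F * gram F) * R.transpose := by
            rw [hR1, Matrix.mul_one]
            simp only [Matrix.mul_assoc]
    rw [this, Matrix.trace_mul_comm, ← Matrix.mul_assoc, hR1, Matrix.one_mul]
  have hpos : ∀ a, 0 < gram F' a a := by
    intro a
    have hrow : (fun b => R a b) ≠ 0 := by
      intro h0
      have hR2 : R * R.transpose = 1 := mul_eq_one_comm.mp hR1
      have := congrFun (congrFun hR2 a) a
      simp only [Matrix.mul_apply, Matrix.transpose_apply, Matrix.one_apply_eq] at this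
      have h1 : ∀ b, R a b = 0 := fun b => congrFun h0 b
      simp [h1] at this
    have := gram_pos F hs hF (fun b => R a b) hrow
    rw [hg]
    simp only [Matrix.mul_apply, Matrix.transpose_apply]
    refine lt_of_lt_of_eq this ?_
    rw [Finset.sum_comm]
    refine Finset.sum_congr rfl fun b _ => ?_
    rw [Finset.sum_mul]
  have hoff : ∀ a b, a ≠ b → gram F' a b = 0 := by
    intro a b hab
    rw [hg]
    exact hdiag a b hab
  have hU : ∀ u : Fin 4 → ℝ, u ≠ 0 →
      quad (fun m a => val F' u (Pi.single m 1) a) F' < 0 := by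
    intro u hu
    have h1 : (fun (m : Fin 4) (a : Fin 3) => val F' u (Pi.single m 1) a) =
        fun m => R.mulVec (fun a => val F u (Pi.single m 1) a) := by
      funext m
      exact val_rot R F u (Pi.single m 1)
    rw [h1, hF', quad_rot R hR]
    exact urb_neg_strict F hs hF u hu
  have hp2 : (gram F' 0 0 + gram F' 1 1 - gram F' 2 2) ^ 2 < 4 * gram F' 0 0 * gram F' 1 1 := by
    have h := hpin
    rw [← htr, ← htr2] at h
    simp only [Matrix.trace, Matrix.diag, Matrix.mul_apply, Fin.sum_univ_three] at h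
    rw [hoff 0 1 (by decide), hoff 0 2 (by decide), hoff 1 2 (by decide), hoff 1 0 (by decide),
      hoff 2 0 (by decide), hoff 2 1 (by decide)] at h
    nlinarith [h]
  have hne : (fun m => R.mulVec (α m)) ≠ 0 := by
    intro h
    apply h0
    funext m
    have h1 : R.mulVec (α m) = 0 := congrFun h m
    have h2 : (R.transpose * R).mulVec (α m) = 0 := by
      rw [← Matrix.mulVec_mulVec, h1, Matrix.mulVec_zero]
    rw [hR1, Matrix.one_mulVec] at h2
    exact h2
  have := quad_diag_strict F' hs' (hoff 0 1 (by decide)) (hoff 0 2 (by decide))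
    (hoff 1 2 (by decide)) hpos hU hp2 (fun m => R.mulVec (α m)) (constr_rot R hR α F hα) hne
  rwa [hF', quad_rot R hR] at this

end

end Pool.Agent.Helper8.DC
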