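import Pool.Agent.Helper8.DC.QA

set_option autoImplicit false

open scoped Manifold ContDiff

namespace Pool.Agent.Helper8.DC

noncomputable section

theorem qb_compact {V : Type} [NormedAddCommGroup V] [NormedSpace ℝ V] [FiniteDimensional ℝ V]
    (K : Set E4) (hK : IsCompact K) (f g : E4 → V → ℝ)
    (hf : ContinuousOn (fun p : E4 × V => f p.1 p.2) (K ×ˢ Set.univ))
    (hg : ContinuousOn (fun p : E4 × V => g p.1 p.2) (K ×ˢ Set.univ))
    (hf2 : ∀ y (t : ℝ) α, f y (t • α) = t ^ 2 * f y α)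
    (hg2 : ∀ y (t : ℝ) α, g y (t • α) = t ^ 2 * g y α)
    (hg0 : ∀ y ∈ K, ∀ α, 0 ≤ g y α)
    (hpos : ∀ y ∈ K, ∀ α, α ≠ 0 → g y α = 0 → 0 < f y α) :
    ∃ C : ℝ, 0 ≤ C ∧ ∀ y ∈ K, ∀ α, -(C * g y α) ≤ f y α := by
  have hSc : IsCompact (K ×ˢ Metric.sphere (0 : V) 1) := hK.prod (isCompact_sphere 0 1)
  have hSsub : K ×ˢ Metric.sphere (0 : V) 1 ⊆ K ×ˢ (Set.univ : Set V) :=
    Set.prod_mono_right (Set.subset_univ _)
  set T : ℕ → Set (E4 × V) := fun n => (K ×ˢ Metric.sphere (0 : V) 1) ∩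
    (fun p : E4 × V => f p.1 p.2 + n * g p.1 p.2) ⁻¹' Set.Iic 0 with hT
  have hcl : ∀ n, IsClosed (T n) := fun n =>
    ((hf.mono hSsub).add (continuousOn_const.mul (hg.mono hSsub))).preimage_isClosed_of_isClosed
      hSc.isClosed isClosed_Iic
  have hex : ∃ n, ¬ (T n).Nonempty := by
    by_contra hcon
    push Not at hcon
    obtain ⟨p, hp⟩ := IsCompact.nonempty_iInter_of_sequence_nonempty_isCompact_isClosed T
      (fun n q hq => by
        refine ⟨hq.1, ?_⟩
        have h1 : f q.1 q.2 + ((n + 1 : ℕ) : ℝ) * g q.1 q.2 ≤ 0 := hq.2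
        have h2 := hg0 q.1 hq.1.1 q.2
        push_cast at h1
        change f q.1 q.2 + (n : ℝ) * g q.1 q.2 ≤ 0
        linarith)
      hcon (hSc.of_isClosed_subset (hcl 0) Set.inter_subset_left) hcl
    · have hp' : ∀ n : ℕ, p ∈ T n := fun n => Set.mem_iInter.1 hp n
      have hpS := (hp' 0).1
      have hp0 : p.2 ≠ 0 := by
        intro h
        have h1 : ‖p.2‖ = 1 := by simpa using hpS.2
        rw [h, norm_zero] at h1
        exact zero_ne_one h1
      have hle : ∀ n : ℕ, f p.1 p.2 + (n : ℝ) * g p.1 p.2 ≤ 0 := fun n => (hp' n).2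
      have hgz : g p.1 p.2 = 0 := by
        by_contra hne
        have hgp : 0 < g p.1 p.2 := lt_of_le_of_ne (hg0 p.1 hpS.1 p.2) (Ne.symm hne)
        obtain ⟨n, hn⟩ := exists_nat_gt (-(f p.1 p.2) / g p.1 p.2)
        rw [div_lt_iff₀ hgp] at hn
        have := hle n
        linarith
      have h1 := hpos p.1 hpS.1 p.2 hp0 hgz
      have h2 := hle 0
      rw [hgz] at h2
      linarith
  obtain ⟨n, hn⟩ := hex
  refine ⟨n, Nat.cast_nonneg n, fun y hy α => ?_⟩
  by_cases hα : α = 0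
  · subst hα
    have h1 := hf2 y 0 0
    have h2 := hg2 y 0 0
    simp at h1 h2
    rw [h1, h2]
    simp
  · have hnorm : 0 < ‖α‖ := norm_pos_iff.2 hα
    have hmem : (y, ‖α‖⁻¹ • α) ∈ K ×ˢ Metric.sphere (0 : V) 1 := by
      refine ⟨hy, ?_⟩
      simp [norm_smul, hnorm.ne']
    have hnot : ¬ (f y (‖α‖⁻¹ • α) + (n : ℝ) * g y (‖α‖⁻¹ • α) ≤ 0) := by
      intro h
      exact hn ⟨_, hmem, h⟩
    push Not at hnot
    rw [hf2, hg2] at hnot
    have h3 : 0 < (‖α‖⁻¹) ^ 2 * (f y α + (n : ℝ) * g y α) := by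
      have : (‖α‖⁻¹) ^ 2 * (f y α + (n : ℝ) * g y α) =
        (‖α‖⁻¹) ^ 2 * f y α + (n : ℝ) * ((‖α‖⁻¹) ^ 2 * g y α) := by ring
      rw [this]
      exact hnot
    have h4 : 0 < f y α + (n : ℝ) * g y α := (mul_pos_iff_of_pos_left (by positivity)).1 h3
    linarith

theorem qb_wedge {P : Type} [TopologicalSpace P] {S : Set P} {B C : P → Fin 4 → Fin 4 → ℝ}
    (hB : ∀ l m, ContinuousOn (fun y => B y l m) S)
    (hC : ∀ l m, ContinuousOn (fun y => C y l m) S) :
    ContinuousOn (fun y => wedge (B y) (C y)) S := by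
  unfold wedge
  exact ((((((hB 0 1).mul (hC 2 3)).sub ((hB 0 2).mul (hC 1 3))).add ((hB 0 3).mul (hC 1 2))).add
    ((hB 1 2).mul (hC 0 3))).sub ((hB 1 3).mul (hC 0 2))).add ((hB 2 3).mul (hC 0 1))

theorem qb_wedge3 {P : Type} [TopologicalSpace P] {S : Set P} {a b : P → Fin 4 → ℝ}
    {B : P → Fin 4 → Fin 4 → ℝ} (ha : ∀ l, ContinuousOn (fun y => a y l) S)
    (hb : ∀ l, ContinuousOn (fun y => b y l) S)
    (hB : ∀ l m, ContinuousOn (fun y => B y l m) S) :
    ContinuousOn (fun y => wedge3 (a y) (b y) (B y)) S := by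
  unfold wedge3
  refine qb_wedge (fun l m => ?_) hB
  exact ((ha l).mul (hb m)).sub ((ha m).mul (hb l))

theorem qb_curv {V : Type} [TopologicalSpace V] (A : E4 → Fin 4 → R3) (U : Set E4) (hU : IsOpen U)
    (hA : ContDiffOn ℝ ∞ A U) (K : Set E4) (hKU : K ⊆ U) (l m : Fin 4) (a : Fin 3) :
    ContinuousOn (fun p : E4 × V => curv A p.1 l m a) (K ×ˢ Set.univ) := by
  have h1 : ContinuousOn (fun y => curv A y l m a) U :=
    (contDiffOn_pi.mp (sm_curv hU hA l m) a).continuousOn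
  exact h1.comp continuous_fst.continuousOn (fun p hp => hKU hp.1)

theorem qb_quad_smul (t : ℝ) (α : Fin 4 → R3) (F : Fin 4 → Fin 4 → R3) :
    quad (t • α) F = t ^ 2 * quad α F := by
  simp only [quad, cm1, wedge3, wedge, wed, Pi.smul_apply, smul_eq_mul]
  ring

theorem qb_con_smul (t : ℝ) (α : Fin 4 → R3) (F : Fin 4 → Fin 4 → R3) (e : Fin 4) :
    con (t • α) F e = t * con α F e := by
  simp only [con, cm1, wedge3, wedge, wed, Pi.smul_apply, smul_eq_mul, Fin.sum_univ_three]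
  ring

theorem qb_constr (α : Fin 4 → R3) (F : Fin 4 → Fin 4 → R3) (h : ∀ e, con α F e = 0) :
    Constr α F := by
  intro β
  have h1 : ∑ a, wedge3 (cm1 α a) β (cmp F a) = ∑ e, β e * con α F e := by
    simp only [con, cm1, wedge3, wedge, wed, Fin.sum_univ_three, Fin.sum_univ_four,
      Pi.single_apply, Fin.isValue]
    simp
    ring
  rw [h1]
  simp [h]

/-- PIECE QB1. PROOF. `con α F e = 0` for all `e` iff `Constr α F` (linearity of `wedge3` in the
second argument). The functions `quad α (curv A y)` and `∑_e con^2` are continuous in `(y, α)` on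
`K × sphere` (compact), homogeneous of degree 2 in `α`, and `quad > 0` where the second one
vanishes (`quad_pos`). Hence `quad + C * ∑ con^2 > 0` on `K × sphere` for large `C` (otherwise take
`C = n` and a convergent subsequence, or use: the open sets `{quad + n * ∑ con^2 > 0}` increase
and cover the compact set). -/
theorem bound_quad (A : E4 → Fin 4 → R3) (U : Set E4) (hU : IsOpen U) (hA : ContDiffOn ℝ ∞ A U)
    (K : Set E4) (hK : IsCompact K) (hKU : K ⊆ U) (hP : ∀ y ∈ K, PosDef (curv A y))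
    (hpin : ∀ y ∈ K, 2 * (gram (curv A y) * gram (curv A y)).trace < (gram (curv A y)).trace ^ 2) :
    ∃ C : ℝ, 0 ≤ C ∧ ∀ y ∈ K, ∀ α : Fin 4 → R3,
      -(C * ∑ e, con α (curv A y) e ^ 2) ≤ quad α (curv A y) := by
  refine qb_compact K hK (fun y α => quad α (curv A y)) (fun y α => ∑ e, con α (curv A y) e ^ 2)
    ?_ ?_ (fun y t α => qb_quad_smul t α _) (fun y t α => ?_)
    (fun y _ α => Finset.sum_nonneg fun e _ => sq_nonneg _) (fun y hy α hα h0 => ?_)
  · have hc := qb_curv (V := Fin 4 → R3) A U hU hA K hKU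
    have ha : ∀ (a : Fin 3) (m : Fin 4), ContinuousOn (fun p : E4 × (Fin 4 → R3) => p.2 m a)
        (K ×ˢ Set.univ) := fun a m => (by fun_prop : Continuous
          (fun p : E4 × (Fin 4 → R3) => p.2 m a)).continuousOn
    unfold quad
    exact continuousOn_const.mul (((qb_wedge3 (ha 0) (ha 1) (fun l m => hc l m 2)).add
      (qb_wedge3 (ha 1) (ha 2) (fun l m => hc l m 0))).add
      (qb_wedge3 (ha 2) (ha 0) (fun l m => hc l m 1)))
  · have hc := qb_curv (V := Fin 4 → R3) A U hU hA K hKU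
    have ha : ∀ (a : Fin 3) (m : Fin 4), ContinuousOn (fun p : E4 × (Fin 4 → R3) => p.2 m a)
        (K ×ˢ Set.univ) := fun a m => (by fun_prop : Continuous
          (fun p : E4 × (Fin 4 → R3) => p.2 m a)).continuousOn
    refine continuousOn_finsetSum _ fun e _ => ContinuousOn.pow ?_ 2
    unfold con
    exact continuousOn_finsetSum _ fun a _ =>
      qb_wedge3 (ha a) (fun l => continuousOn_const) (fun l m => hc l m a)
  · simp only [qb_con_smul, mul_pow, Finset.mul_sum]
  · have h1 : ∀ e, con α (curv A y) e = 0 := by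
      intro e
      have h2 := (Finset.sum_eq_zero_iff_of_nonneg (fun e _ => sq_nonneg _)).1 h0 e
        (Finset.mem_univ e)
      exact pow_eq_zero_iff (two_ne_zero) |>.1 h2
    exact quad_pos _ (skew_curv A y) (hP y hy) (hpin y hy) α (qb_constr α _ h1) hα

/-- PIECE QB2. Same compactness argument with `rest_pos`. -/
theorem bound_rest (A : E4 → Fin 4 → R3) (U : Set E4) (hU : IsOpen U) (hA : ContDiffOn ℝ ∞ A U)
    (K : Set E4) (hK : IsCompact K) (hKU : K ⊆ U) (hP : ∀ y ∈ K, PosDef (curv A y)) :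
    ∃ c : ℝ, 0 < c ∧ ∀ y ∈ K, ∀ φ : R3, c * ∑ a, φ a ^ 2 ≤ rest φ (curv A y) := by
  have hr0 : ∀ y ∈ K, ∀ φ : R3, 0 ≤ rest φ (curv A y) := by
    intro y hy φ
    by_cases h : φ = 0
    · rw [h]; simp [rest]
    · exact (rest_pos _ (skew_curv A y) (hP y hy) φ h).le
  have hgc : ContinuousOn (fun p : E4 × R3 => rest p.2 (curv A p.1)) (K ×ˢ Set.univ) := by
    have hc := qb_curv (V := R3) A U hU hA K hKU
    have hg : ∀ a b : Fin 3, ContinuousOn (fun p : E4 × R3 => gram (curv A p.1) a b)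
        (K ×ˢ Set.univ) := fun a b => qb_wedge (fun l m => hc l m a) (fun l m => hc l m b)
    have hp : ∀ a : Fin 3, ContinuousOn (fun p : E4 × R3 => p.2 a) (K ×ˢ Set.univ) :=
      fun a => (by fun_prop : Continuous (fun p : E4 × R3 => p.2 a)).continuousOn
    unfold rest
    refine ContinuousOn.sub (ContinuousOn.mul ?_ ?_) ?_
    · exact continuousOn_finsetSum _ fun a _ => (hp a).pow 2
    · unfold Matrix.trace
      exact continuousOn_finsetSum _ fun a _ => hg a a
    · exact continuousOn_finsetSum _ fun a _ => continuousOn_finsetSum _ fun b _ =>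
        ((hp a).mul (hg a b)).mul (hp b)
  obtain ⟨C, hC0, hC⟩ := qb_compact (V := R3) K hK (fun _ φ => -∑ a, φ a ^ 2)
    (fun y φ => rest φ (curv A y)) (by fun_prop) hgc
    (fun y t φ => by
      simp only [Pi.smul_apply, smul_eq_mul, mul_pow, ← Finset.mul_sum]
      ring)
    (fun y t φ => by
      simp only [rest, Fin.sum_univ_three, Pi.smul_apply, smul_eq_mul]
      ring)
    hr0 (fun y hy φ hφ h0 => absurd h0 (rest_pos _ (skew_curv A y) (hP y hy) φ hφ).ne')
  refine ⟨1 / (C + 1), by positivity, fun y hy φ => ?_⟩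
  have h1 := hC y hy φ
  have h2 := hr0 y hy φ
  rw [one_div, inv_mul_le_iff₀ (by linarith : (0 : ℝ) < C + 1)]
  linarith

end

end Pool.Agent.Helper8.DC
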