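import Pool.Agent.Helper8.DC.Defs2

set_option autoImplicit false

open scoped Manifold ContDiff

namespace Pool.Agent.Helper8.DC

noncomputable section

theorem qc1_key (A : E4 → Fin 4 → R3) (φ : E4 → R3) (U : Set E4) (hU : IsOpen U)
    (hA : ContDiffOn ℝ ∞ A U) (hφ : ContDiffOn ℝ ∞ φ U) (y : E4) (hy : y ∈ U) (l m n : Fin 4) :
    pd l (fun z => Bundle.form A φ z m n) y - pd m (fun z => Bundle.form A φ z l n) y +
      pd n (fun z => Bundle.form A φ z l m) y =
    ∑ a, (cov A φ y l a * curv A y m n a - cov A φ y m a * curv A y l n a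
      + cov A φ y n a * curv A y l m a) := by
  have hUy := hU.mem_nhds hy
  have hAd : ∀ z ∈ U, DifferentiableAt ℝ A z := fun z hz =>
    (hA.contDiffAt (hU.mem_nhds hz)).differentiableAt (by simp)
  have hφd : ∀ z ∈ U, DifferentiableAt ℝ φ z := fun z hz =>
    (hφ.contDiffAt (hU.mem_nhds hz)).differentiableAt (by simp)
  have hAc : ∀ m a, ContDiffOn ℝ ∞ (fun z => A z m a) U := fun m a =>
    (contDiffOn_pi.1 ((contDiffOn_pi.1 hA) m)) a
  have hAcd : ∀ m a, DifferentiableAt ℝ (fun z => A z m a) y := fun m a =>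
    ((hAc m a).contDiffAt hUy).differentiableAt (by simp)
  have hφc : ∀ a, DifferentiableAt ℝ (fun z => φ z a) y := fun a =>
    (differentiableAt_pi.1 (hφd y hy)) a
  have hpd : ∀ k m a, DifferentiableAt ℝ (fun z => pd k (fun w => A w m a) z) y := fun k m a =>
    ((ph_smooth_pd hU (hAc m a) k).contDiffAt hUy).differentiableAt (by simp)
  have hsym : ∀ k m n a, pd k (fun z => pd m (fun w => A w n a) z) y
      = pd m (fun z => pd k (fun w => A w n a) z) y := fun k m n a => ph_symm hU (hAc n a) hy k m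
  set G : Fin 4 → Fin 4 → Fin 3 → E4 → ℝ := fun m n a z =>
    pd m (fun w => A w n a) z - pd n (fun w => A w m a) z + crossProduct (A z m) (A z n) a with hG
  have hGd : ∀ m n a, DifferentiableAt ℝ (G m n a) y := by
    intro m n a
    refine ((hpd m n a).sub (hpd n m a)).add ?_
    fin_cases a <;> simp [cross_apply] <;>
      exact ((hAcd _ _).mul (hAcd _ _)).sub ((hAcd _ _).mul (hAcd _ _))
  have hform : ∀ l m n, pd l (fun z => Bundle.form A φ z m n) y
      = ∑ a, (pd l (fun z => φ z a) y * G m n a y + φ y a * pd l (G m n a) y) := by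
    intro l m n
    have h1 : (fun z => Bundle.form A φ z m n) =ᶠ[nhds y]
        fun z => φ z 0 * G m n 0 z + φ z 1 * G m n 1 z + φ z 2 * G m n 2 z := by
      filter_upwards [hUy] with z hz
      simp only [Bundle.form, Fin.sum_univ_three, hG]
      rw [ph_curv (hAd z hz), ph_curv (hAd z hz), ph_curv (hAd z hz)]
    rw [ph_pd_congr h1,
      ph_pd_add (((hφc 0).fun_mul (hGd m n 0)).fun_add ((hφc 1).fun_mul (hGd m n 1)))
      ((hφc 2).fun_mul (hGd m n 2)),
      ph_pd_add ((hφc 0).fun_mul (hGd m n 0)) ((hφc 1).fun_mul (hGd m n 1)),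
      ph_pd_mul (hφc 0) (hGd m n 0), ph_pd_mul (hφc 1) (hGd m n 1),
      ph_pd_mul (hφc 2) (hGd m n 2), Fin.sum_univ_three]
  have hGpd : ∀ l m n a, pd l (G m n a) y = pd l (fun z => pd m (fun w => A w n a) z) y
      - pd l (fun z => pd n (fun w => A w m a) z) y
      + pd l (fun z => crossProduct (A z m) (A z n) a) y := by
    intro l m n a
    have hcr : DifferentiableAt ℝ (fun z => crossProduct (A z m) (A z n) a) y := by
      fin_cases a <;> simp [cross_apply] <;>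
        exact ((hAcd _ _).mul (hAcd _ _)).sub ((hAcd _ _).mul (hAcd _ _))
    rw [hG]
    simp only
    rw [ph_pd_add ((hpd m n a).fun_sub (hpd n m a)) hcr, ph_pd_sub (hpd m n a) (hpd n m a)]
  have hcr : ∀ l m n (b c : Fin 3), pd l (fun z => A z m b * A z n c - A z m c * A z n b) y
      = (pd l (fun z => A z m b) y * A y n c + A y m b * pd l (fun z => A z n c) y)
      - (pd l (fun z => A z m c) y * A y n b + A y m c * pd l (fun z => A z n b) y) := by
    intro l m n b c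
    rw [ph_pd_sub ((hAcd _ _).fun_mul (hAcd _ _)) ((hAcd _ _).fun_mul (hAcd _ _)),
      ph_pd_mul (hAcd _ _) (hAcd _ _), ph_pd_mul (hAcd _ _) (hAcd _ _)]
  rw [hform, hform, hform]
  simp only [Fin.sum_univ_three]
  simp only [hGpd]
  have e0 : ∀ k p q, pd k (fun z => crossProduct (A z p) (A z q) 0) y
      = pd k (fun z => A z p 1 * A z q 2 - A z p 2 * A z q 1) y := fun k p q => by
    simp [cross_apply]
  have e1 : ∀ k p q, pd k (fun z => crossProduct (A z p) (A z q) 1) y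
      = pd k (fun z => A z p 2 * A z q 0 - A z p 0 * A z q 2) y := fun k p q => by
    simp [cross_apply]
  have e2 : ∀ k p q, pd k (fun z => crossProduct (A z p) (A z q) 2) y
      = pd k (fun z => A z p 0 * A z q 1 - A z p 1 * A z q 0) y := fun k p q => by
    simp [cross_apply]
  simp only [e0, e1, e2, hcr]
  have c0 : ∀ k a, cov A φ y k a = pd k (fun z => φ z a) y + crossProduct (A y k) (φ y) a := by
    intro k a
    unfold cov
    simp only [Pi.add_apply]
    rw [ph_pd_comp (hφd y hy)]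
  simp only [c0, ph_curv (hAd y hy)]
  simp only [hG]
  simp only [cross_apply, Matrix.cons_val_zero, Matrix.cons_val_one, Matrix.cons_val_two,
    Matrix.cons_val, Matrix.head_cons, Matrix.tail_cons]
  rw [hsym l m n 0, hsym l m n 1, hsym l m n 2, hsym n l m 0, hsym n l m 1, hsym n l m 2,
    hsym m n l 0, hsym m n l 1, hsym m n l 2]
  ring

theorem qc1_pos (A : E4 → Fin 4 → R3) (φ : E4 → R3) (y : E4) (k e m n : Fin 4)
    (h : ∀ B : Fin 4 → Fin 4 → ℝ, dual B k e = B m n) :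
    pd k (fun z => ∑ a, dual (cmp (curv A z) a) k e * φ z a) y =
      pd k (fun z => Bundle.form A φ z m n) y := by
  congr 1
  funext z
  unfold Bundle.form
  refine Finset.sum_congr rfl fun a _ => ?_
  rw [h, cmp, mul_comm]

theorem qc1_neg (A : E4 → Fin 4 → R3) (φ : E4 → R3) (y : E4) (k e m n : Fin 4)
    (h : ∀ B : Fin 4 → Fin 4 → ℝ, dual B k e = -B m n) :
    pd k (fun z => ∑ a, dual (cmp (curv A z) a) k e * φ z a) y =
      -pd k (fun z => Bundle.form A φ z m n) y := by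
  have h1 : (fun z => ∑ a, dual (cmp (curv A z) a) k e * φ z a) =
      fun z => -Bundle.form A φ z m n := by
    funext z
    unfold Bundle.form
    rw [← Finset.sum_neg_distrib]
    refine Finset.sum_congr rfl fun a _ => ?_
    rw [h, cmp]
    ring
  rw [h1]
  unfold pd
  rw [fderiv_fun_neg]
  rfl

theorem qc1_zero (A : E4 → Fin 4 → R3) (φ : E4 → R3) (y : E4) (k e : Fin 4)
    (h : ∀ B : Fin 4 → Fin 4 → ℝ, dual B k e = 0) :
    pd k (fun z => ∑ a, dual (cmp (curv A z) a) k e * φ z a) y = 0 := by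
  have h1 : (fun z => ∑ a, dual (cmp (curv A z) a) k e * φ z a) = fun _ => (0 : ℝ) := by
    funext z
    refine Finset.sum_eq_zero fun a _ => ?_
    rw [h, zero_mul]
  rw [h1]
  unfold pd
  simp

/-- PIECE QC1. `*d⟨φ, F⟩ = ∑ ∇φ_a ∧ F_a` (Bianchi); the computation is that of `constr_of_closed`
in PH.lean. -/
theorem DD_eq (A : E4 → Fin 4 → R3) (φ : E4 → R3) (U : Set E4) (hU : IsOpen U)
    (hA : ContDiffOn ℝ ∞ A U) (hφ : ContDiffOn ℝ ∞ φ U) (y : E4) (hy : y ∈ U) (e : Fin 4) :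
    DD A φ y e = con (cov A φ y) (curv A y) e := by
  have k123 := qc1_key A φ U hU hA hφ y hy 1 2 3
  have k023 := qc1_key A φ U hU hA hφ y hy 0 2 3
  have k013 := qc1_key A φ U hU hA hφ y hy 0 1 3
  have k012 := qc1_key A φ U hU hA hφ y hy 0 1 2
  simp only [Fin.sum_univ_three] at k123 k023 k013 k012
  unfold DD
  rw [Fin.sum_univ_four]
  fin_cases e
  · change pd 0 (fun z => ∑ a, dual (cmp (curv A z) a) 0 0 * φ z a) y +
      pd 1 (fun z => ∑ a, dual (cmp (curv A z) a) 1 0 * φ z a) y +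
      pd 2 (fun z => ∑ a, dual (cmp (curv A z) a) 2 0 * φ z a) y +
      pd 3 (fun z => ∑ a, dual (cmp (curv A z) a) 3 0 * φ z a) y = con (cov A φ y) (curv A y) 0
    rw [qc1_zero A φ y 0 0 (fun B => by simp [dual, wedge3, wedge, wed]),
      qc1_neg A φ y 1 0 2 3 (fun B => by simp [dual, wedge3, wedge, wed]),
      qc1_pos A φ y 2 0 1 3 (fun B => by simp [dual, wedge3, wedge, wed]),
      qc1_neg A φ y 3 0 1 2 (fun B => by simp [dual, wedge3, wedge, wed])]
    simp [con, wedge3, wedge, wed, cm1, cmp, Fin.sum_univ_three]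
    linear_combination -k123
  · change pd 0 (fun z => ∑ a, dual (cmp (curv A z) a) 0 1 * φ z a) y +
      pd 1 (fun z => ∑ a, dual (cmp (curv A z) a) 1 1 * φ z a) y +
      pd 2 (fun z => ∑ a, dual (cmp (curv A z) a) 2 1 * φ z a) y +
      pd 3 (fun z => ∑ a, dual (cmp (curv A z) a) 3 1 * φ z a) y = con (cov A φ y) (curv A y) 1
    rw [qc1_zero A φ y 1 1 (fun B => by simp [dual, wedge3, wedge, wed]),
      qc1_pos A φ y 0 1 2 3 (fun B => by simp [dual, wedge3, wedge, wed]),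
      qc1_neg A φ y 2 1 0 3 (fun B => by simp [dual, wedge3, wedge, wed]),
      qc1_pos A φ y 3 1 0 2 (fun B => by simp [dual, wedge3, wedge, wed])]
    simp [con, wedge3, wedge, wed, cm1, cmp, Fin.sum_univ_three]
    linear_combination k023
  · change pd 0 (fun z => ∑ a, dual (cmp (curv A z) a) 0 2 * φ z a) y +
      pd 1 (fun z => ∑ a, dual (cmp (curv A z) a) 1 2 * φ z a) y +
      pd 2 (fun z => ∑ a, dual (cmp (curv A z) a) 2 2 * φ z a) y +
      pd 3 (fun z => ∑ a, dual (cmp (curv A z) a) 3 2 * φ z a) y = con (cov A φ y) (curv A y) 2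
    rw [qc1_zero A φ y 2 2 (fun B => by simp [dual, wedge3, wedge, wed]),
      qc1_neg A φ y 0 2 1 3 (fun B => by simp [dual, wedge3, wedge, wed]),
      qc1_pos A φ y 1 2 0 3 (fun B => by simp [dual, wedge3, wedge, wed]),
      qc1_neg A φ y 3 2 0 1 (fun B => by simp [dual, wedge3, wedge, wed])]
    simp [con, wedge3, wedge, wed, cm1, cmp, Fin.sum_univ_three]
    linear_combination -k013
  · change pd 0 (fun z => ∑ a, dual (cmp (curv A z) a) 0 3 * φ z a) y +
      pd 1 (fun z => ∑ a, dual (cmp (curv A z) a) 1 3 * φ z a) y +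
      pd 2 (fun z => ∑ a, dual (cmp (curv A z) a) 2 3 * φ z a) y +
      pd 3 (fun z => ∑ a, dual (cmp (curv A z) a) 3 3 * φ z a) y = con (cov A φ y) (curv A y) 3
    rw [qc1_zero A φ y 3 3 (fun B => by simp [dual, wedge3, wedge, wed]),
      qc1_pos A φ y 0 3 1 2 (fun B => by simp [dual, wedge3, wedge, wed]),
      qc1_neg A φ y 1 3 0 2 (fun B => by simp [dual, wedge3, wedge, wed]),
      qc1_pos A φ y 2 3 0 1 (fun B => by simp [dual, wedge3, wedge, wed])]
    simp [con, wedge3, wedge, wed, cm1, cmp, Fin.sum_univ_three]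
    linear_combination k012

theorem qc2_pos (ζ : E4 → Fin 4 → Fin 4 → ℝ) (y : E4) (k e m n : Fin 4)
    (h : ∀ B : Fin 4 → Fin 4 → ℝ, dual B k e = B m n) :
    pd k (fun z => dual (ζ z) k e) y = pd k (fun z => ζ z m n) y := by
  simp only [h]

theorem qc2_neg (ζ : E4 → Fin 4 → Fin 4 → ℝ) (y : E4) (k e m n : Fin 4)
    (h : ∀ B : Fin 4 → Fin 4 → ℝ, dual B k e = -B m n) :
    pd k (fun z => dual (ζ z) k e) y = -pd k (fun z => ζ z m n) y := by
  simp only [h]
  unfold pd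
  rw [fderiv_fun_neg]
  rfl

theorem qc2_zero (ζ : E4 → Fin 4 → Fin 4 → ℝ) (y : E4) (k e : Fin 4)
    (h : ∀ B : Fin 4 → Fin 4 → ℝ, dual B k e = 0) :
    pd k (fun z => dual (ζ z) k e) y = 0 := by
  simp only [h]
  unfold pd
  simp

theorem qc2_d0 (ζ : E4 → Fin 4 → Fin 4 → ℝ) (y : E4) :
    dtwo ζ y 0 = -pd 1 (fun z => ζ z 2 3) y + pd 2 (fun z => ζ z 1 3) y
      - pd 3 (fun z => ζ z 1 2) y := by
  unfold dtwo
  rw [Fin.sum_univ_four,
    qc2_zero ζ y 0 0 (fun B => by simp [dual, wedge3, wedge, wed]),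
    qc2_neg ζ y 1 0 2 3 (fun B => by simp [dual, wedge3, wedge, wed]),
    qc2_pos ζ y 2 0 1 3 (fun B => by simp [dual, wedge3, wedge, wed]),
    qc2_neg ζ y 3 0 1 2 (fun B => by simp [dual, wedge3, wedge, wed])]
  ring

theorem qc2_d1 (ζ : E4 → Fin 4 → Fin 4 → ℝ) (y : E4) :
    dtwo ζ y 1 = pd 0 (fun z => ζ z 2 3) y - pd 2 (fun z => ζ z 0 3) y
      + pd 3 (fun z => ζ z 0 2) y := by
  unfold dtwo
  rw [Fin.sum_univ_four,
    qc2_zero ζ y 1 1 (fun B => by simp [dual, wedge3, wedge, wed]),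
    qc2_pos ζ y 0 1 2 3 (fun B => by simp [dual, wedge3, wedge, wed]),
    qc2_neg ζ y 2 1 0 3 (fun B => by simp [dual, wedge3, wedge, wed]),
    qc2_pos ζ y 3 1 0 2 (fun B => by simp [dual, wedge3, wedge, wed])]
  ring

theorem qc2_d2 (ζ : E4 → Fin 4 → Fin 4 → ℝ) (y : E4) :
    dtwo ζ y 2 = -pd 0 (fun z => ζ z 1 3) y + pd 1 (fun z => ζ z 0 3) y
      - pd 3 (fun z => ζ z 0 1) y := by
  unfold dtwo
  rw [Fin.sum_univ_four,
    qc2_zero ζ y 2 2 (fun B => by simp [dual, wedge3, wedge, wed]),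
    qc2_neg ζ y 0 2 1 3 (fun B => by simp [dual, wedge3, wedge, wed]),
    qc2_pos ζ y 1 2 0 3 (fun B => by simp [dual, wedge3, wedge, wed]),
    qc2_neg ζ y 3 2 0 1 (fun B => by simp [dual, wedge3, wedge, wed])]
  ring

theorem qc2_d3 (ζ : E4 → Fin 4 → Fin 4 → ℝ) (y : E4) :
    dtwo ζ y 3 = pd 0 (fun z => ζ z 1 2) y - pd 1 (fun z => ζ z 0 2) y
      + pd 2 (fun z => ζ z 0 1) y := by
  unfold dtwo
  rw [Fin.sum_univ_four,
    qc2_zero ζ y 3 3 (fun B => by simp [dual, wedge3, wedge, wed]),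
    qc2_pos ζ y 0 3 1 2 (fun B => by simp [dual, wedge3, wedge, wed]),
    qc2_neg ζ y 1 3 0 2 (fun B => by simp [dual, wedge3, wedge, wed]),
    qc2_pos ζ y 2 3 0 1 (fun B => by simp [dual, wedge3, wedge, wed])]
  ring

/-- PIECE QC2. A 2-form is closed iff its divergence form vanishes (one direction). -/
theorem dtwo_of_closed (ζ : E4 → Fin 4 → Fin 4 → ℝ) (U : Set E4) (hU : IsOpen U)
    (hζ : ContDiffOn ℝ ∞ ζ U) (hs : ∀ y ∈ U, ∀ l m, ζ y l m = -ζ y m l) (y : E4) (hy : y ∈ U)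
    (hc : Bundle.ClosedAt ζ y) (e : Fin 4) : dtwo ζ y e = 0 := by
  have hUy := hU.mem_nhds hy
  have hsw : ∀ k m n, pd k (fun z => ζ z m n) y = -pd k (fun z => ζ z n m) y := by
    intro k m n
    have h1 : (fun z => ζ z m n) =ᶠ[nhds y] fun z => -ζ z n m := by
      filter_upwards [hUy] with z hz
      exact hs z hz m n
    rw [ph_pd_congr h1]
    unfold pd
    rw [fderiv_fun_neg]
    rfl
  have c123 := hc 1 2 3
  have c023 := hc 0 2 3
  have c013 := hc 0 1 3
  have c012 := hc 0 1 2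
  rw [hsw 2 3 1] at c123
  rw [hsw 2 3 0] at c023
  rw [hsw 1 3 0] at c013
  rw [hsw 1 2 0] at c012
  fin_cases e
  · change dtwo ζ y 0 = 0
    rw [qc2_d0]
    linarith
  · change dtwo ζ y 1 = 0
    rw [qc2_d1]
    linarith
  · change dtwo ζ y 2 = 0
    rw [qc2_d2]
    linarith
  · change dtwo ζ y 3 = 0
    rw [qc2_d3]
    linarith

/-- PIECE QC3. `d d a = 0`. -/
theorem closed_dd (a : E4 → Fin 4 → ℝ) (U : Set E4) (hU : IsOpen U)
    (ha : ContDiffOn ℝ ∞ a U) (y : E4) (hy : y ∈ U) : Bundle.ClosedAt (dd a) y := by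
  have hUy := hU.mem_nhds hy
  have hac : ∀ m, ContDiffOn ℝ ∞ (fun z => a z m) U := fun m => (contDiffOn_pi.1 ha) m
  have hpd : ∀ k m, DifferentiableAt ℝ (fun z => pd k (fun w => a w m) z) y := fun k m =>
    ((ph_smooth_pd hU (hac m) k).contDiffAt hUy).differentiableAt (by simp)
  have hsym : ∀ k m n, pd k (fun z => pd m (fun w => a w n) z) y
      = pd m (fun z => pd k (fun w => a w n) z) y := fun k m n => ph_symm hU (hac n) hy k m
  have hd : ∀ k m n, pd k (fun z => dd a z m n) y = pd k (fun z => pd m (fun w => a w n) z) y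
      - pd k (fun z => pd n (fun w => a w m) z) y := by
    intro k m n
    unfold dd
    exact ph_pd_sub (hpd m n) (hpd n m) k
  intro l m n
  rw [hd, hd, hd, hsym l m n, hsym l n m, hsym m n l]
  ring

theorem qc4_three {f1 g1 f2 g2 f3 g3 : E4 → ℝ} {y : E4} (hf1 : DifferentiableAt ℝ f1 y)
    (hg1 : DifferentiableAt ℝ g1 y) (hf2 : DifferentiableAt ℝ f2 y)
    (hg2 : DifferentiableAt ℝ g2 y) (hf3 : DifferentiableAt ℝ f3 y)
    (hg3 : DifferentiableAt ℝ g3 y) (l : Fin 4) :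
    pd l (fun z => f1 z * g1 z - f2 z * g2 z + f3 z * g3 z) y =
      (pd l f1 y * g1 y + f1 y * pd l g1 y) - (pd l f2 y * g2 y + f2 y * pd l g2 y) +
        (pd l f3 y * g3 y + f3 y * pd l g3 y) := by
  rw [ph_pd_add ((hf1.fun_mul hg1).fun_sub (hf2.fun_mul hg2)) (hf3.fun_mul hg3),
    ph_pd_sub (hf1.fun_mul hg1) (hf2.fun_mul hg2), ph_pd_mul hf1 hg1, ph_pd_mul hf2 hg2,
    ph_pd_mul hf3 hg3]

theorem qc4_neg (f : E4 → ℝ) (y : E4) (l : Fin 4) : pd l (fun z => -f z) y = -pd l f y := by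
  unfold pd
  rw [fderiv_fun_neg]
  rfl

/-- PIECE QC4. `d(a ∧ ζ) = da ∧ ζ - a ∧ dζ` in divergence form. -/
theorem div_wedge (a : E4 → Fin 4 → ℝ) (ζ : E4 → Fin 4 → Fin 4 → ℝ) (U : Set E4) (hU : IsOpen U)
    (ha : ContDiffOn ℝ ∞ a U) (hζ : ContDiffOn ℝ ∞ ζ U) (y : E4) (hy : y ∈ U) :
    ∑ l, pd l (fun z => wedge3 (Pi.single l 1) (a z) (ζ z)) y =
      wedge (dd a y) (ζ y) + ∑ e, a y e * dtwo ζ y e := by
  have hUy := hU.mem_nhds hy
  have had : ∀ m, DifferentiableAt ℝ (fun z => a z m) y := fun m =>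
    (((contDiffOn_pi.1 ha) m).contDiffAt hUy).differentiableAt (by simp)
  have hζd : ∀ m n, DifferentiableAt ℝ (fun z => ζ z m n) y := fun m n =>
    (((contDiffOn_pi.1 ((contDiffOn_pi.1 hζ) m)) n).contDiffAt hUy).differentiableAt (by simp)
  have e0 : (fun z => wedge3 (Pi.single 0 1) (a z) (ζ z)) =
      fun z => a z 1 * ζ z 2 3 - a z 2 * ζ z 1 3 + a z 3 * ζ z 1 2 := by
    funext z
    simp [wedge3, wedge, wed]
  have e1 : (fun z => wedge3 (Pi.single 1 1) (a z) (ζ z)) =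
      fun z => -(a z 0 * ζ z 2 3 - a z 2 * ζ z 0 3 + a z 3 * ζ z 0 2) := by
    funext z
    simp [wedge3, wedge, wed]
    ring
  have e2 : (fun z => wedge3 (Pi.single 2 1) (a z) (ζ z)) =
      fun z => a z 0 * ζ z 1 3 - a z 1 * ζ z 0 3 + a z 3 * ζ z 0 1 := by
    funext z
    simp [wedge3, wedge, wed]
    ring
  have e3 : (fun z => wedge3 (Pi.single 3 1) (a z) (ζ z)) =
      fun z => -(a z 0 * ζ z 1 2 - a z 1 * ζ z 0 2 + a z 2 * ζ z 0 1) := by
    funext z
    simp [wedge3, wedge, wed]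
    ring
  rw [Fin.sum_univ_four, Fin.sum_univ_four, e0, e1, e2, e3, qc4_neg, qc4_neg,
    qc4_three (had 1) (hζd 2 3) (had 2) (hζd 1 3) (had 3) (hζd 1 2),
    qc4_three (had 0) (hζd 2 3) (had 2) (hζd 0 3) (had 3) (hζd 0 2),
    qc4_three (had 0) (hζd 1 3) (had 1) (hζd 0 3) (had 3) (hζd 0 1),
    qc4_three (had 0) (hζd 1 2) (had 1) (hζd 0 2) (had 2) (hζd 0 1),
    qc2_d0, qc2_d1, qc2_d2, qc2_d3]
  unfold wedge dd
  ring

end

end Pool.Agent.Helper8.DC
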