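import Pool.Agent.Helper8.DC.Defs2

set_option autoImplicit false

open scoped Manifold ContDiff

namespace Pool.Agent.Helper8.DC

noncomputable section

private theorem qd_det (F : Fin 4 → Fin 4 → R3) (hs : Skew F) (hF : PosDef F) :
    IsUnit (gram F).det := by
  rw [isUnit_iff_ne_zero]
  intro h0
  obtain ⟨v, hv, hv0⟩ := Matrix.exists_mulVec_eq_zero_iff.2 h0
  have h1 := gram_pos F hs hF v hv
  have h2 : ∑ a, ∑ b, v a * gram F a b * v b = ∑ a, v a * (gram F).mulVec v a := by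
    refine Finset.sum_congr rfl fun a _ => ?_
    rw [Matrix.mulVec, dotProduct, Finset.mul_sum]
    refine Finset.sum_congr rfl fun b _ => by ring
  rw [h2, hv0] at h1
  simp at h1

private theorem qd_sdp (F : Fin 4 → Fin 4 → R3) (hs : Skew F) (hF : PosDef F)
    (B : Fin 4 → Fin 4 → ℝ) (a : Fin 3) :
    ∑ b, gram F a b * sdp F B b = wedge (cmp F a) B := by
  have h1 : (gram F).mulVec (sdp F B) = fun b => wedge (cmp F b) B := by
    rw [sdp, Matrix.mulVec_mulVec, Matrix.mul_nonsing_inv _ (qd_det F hs hF), Matrix.one_mulVec]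
  exact congrFun h1 a

/-- PIECE QD1. The Gram matrix is invertible and `⟨φ, F⟩ ∧ B = φᵀ M (sdp F B)`. -/
theorem sdp_pair (F : Fin 4 → Fin 4 → R3) (hs : Skew F) (hF : PosDef F)
    (B : Fin 4 → Fin 4 → ℝ) (φ : R3) :
    wedge (fun l m => ∑ a, φ a * F l m a) B = ∑ a, ∑ b, φ a * gram F a b * sdp F B b := by
  have h1 : ∑ a, ∑ b, φ a * gram F a b * sdp F B b = ∑ a, φ a * wedge (cmp F a) B := by
    refine Finset.sum_congr rfl fun a _ => ?_
    rw [← qd_sdp F hs hF, Finset.mul_sum]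
    refine Finset.sum_congr rfl fun b _ => by ring
  rw [h1]
  simp only [wedge, cmp, Fin.sum_univ_three]
  ring

/-- PIECE QD2. `B ∧ B ≤ B⁺ ∧ B⁺`. PROOF. `C = B - ⟨sdp F B, F⟩` satisfies `F_a ∧ C = 0`, and
`B ∧ B = B⁺ ∧ B⁺ + C ∧ C`; so `C ∧ C ≤ 0` is needed for skew `C` with `F_a ∧ C = 0` for all `a`.
Otherwise `t C + ∑ s_a F_a` has positive square for all `(t, s) ≠ 0`; the three linear equations
`B01 + B23 = 0, B02 - B13 = 0, B03 + B12 = 0` in the four unknowns `(t, s)` have a nonzero solution,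
and for such a form `wedge B B = -2 (B01^2 + B02^2 + B03^2) ≤ 0`, a contradiction
(`(t,s) ≠ 0`: the square is `t^2 C∧C + sᵀ M s > 0` by `gram_pos`). -/
theorem wedge_le (F : Fin 4 → Fin 4 → R3) (hs : Skew F) (hF : PosDef F)
    (B : Fin 4 → Fin 4 → ℝ) (hB : ∀ l m, B l m = -B m l) :
    wedge B B ≤ ∑ a, ∑ b, sdp F B a * gram F a b * sdp F B b := by
  obtain ⟨p, hp⟩ : ∃ p, p = sdp F B := ⟨_, rfl⟩
  obtain ⟨C, hC⟩ : ∃ C : Fin 4 → Fin 4 → ℝ, ∀ l m, C l m = B l m - ∑ a, p a * F l m a :=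
    ⟨_, fun _ _ => rfl⟩
  have hFC : ∀ a, wedge (cmp F a) C = 0 := by
    intro a
    have h1 := qd_sdp F hs hF B a
    rw [← hp] at h1
    have h2 : wedge (cmp F a) C = wedge (cmp F a) B - ∑ b, gram F a b * p b := by
      simp only [wedge, hC, gram, cmp, Fin.sum_univ_three]
      ring
    rw [h2, h1, sub_self]
  have hBB : wedge B B = wedge C C + 2 * ∑ a, p a * wedge (cmp F a) C +
      ∑ a, ∑ b, p a * gram F a b * p b := by
    have h1 : ∀ l m, B l m = C l m + ∑ a, p a * F l m a := by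
      intro l m
      rw [hC]
      ring
    simp only [wedge, h1, gram, cmp, Fin.sum_univ_three]
    ring
  have hCC : wedge C C ≤ 0 := by
    by_contra hcon
    rw [not_le] at hcon
    obtain ⟨L, hL⟩ : ∃ L : (Fin 4 → ℝ) →ₗ[ℝ] (Fin 3 → ℝ), ∀ x, L x =
        ![x 0 * (C 0 1 + C 2 3) + x 1 * (F 0 1 0 + F 2 3 0) + x 2 * (F 0 1 1 + F 2 3 1) +
            x 3 * (F 0 1 2 + F 2 3 2),
          x 0 * (C 0 2 - C 1 3) + x 1 * (F 0 2 0 - F 1 3 0) + x 2 * (F 0 2 1 - F 1 3 1) +
            x 3 * (F 0 2 2 - F 1 3 2),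
          x 0 * (C 0 3 + C 1 2) + x 1 * (F 0 3 0 + F 1 2 0) + x 2 * (F 0 3 1 + F 1 2 1) +
            x 3 * (F 0 3 2 + F 1 2 2)] := by
      refine ⟨Matrix.toLin' !![C 0 1 + C 2 3, F 0 1 0 + F 2 3 0, F 0 1 1 + F 2 3 1,
          F 0 1 2 + F 2 3 2;
        C 0 2 - C 1 3, F 0 2 0 - F 1 3 0, F 0 2 1 - F 1 3 1, F 0 2 2 - F 1 3 2;
        C 0 3 + C 1 2, F 0 3 0 + F 1 2 0, F 0 3 1 + F 1 2 1, F 0 3 2 + F 1 2 2], fun x => ?_⟩
      rw [Matrix.toLin'_apply]
      funext i
      fin_cases i <;>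
        simp [Matrix.mulVec, dotProduct, Fin.sum_univ_succ] <;> ring
    have hker : LinearMap.ker L ≠ ⊥ := LinearMap.ker_ne_bot_of_finrank_lt (by simp)
    obtain ⟨x, hx, hx0⟩ := Submodule.exists_mem_ne_zero_of_ne_bot hker
    rw [LinearMap.mem_ker, hL] at hx
    have e0 := congrFun hx 0
    have e1 := congrFun hx 1
    have e2 := congrFun hx 2
    simp only [Matrix.cons_val_zero, Matrix.cons_val_one, Matrix.cons_val, Pi.zero_apply] at e0 e1 e2
    obtain ⟨s, hs'⟩ : ∃ s : R3, s = ![x 1, x 2, x 3] := ⟨_, rfl⟩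
    obtain ⟨G, hG⟩ : ∃ G : Fin 4 → Fin 4 → ℝ, ∀ l m, G l m = x 0 * C l m + ∑ a, s a * F l m a :=
      ⟨_, fun _ _ => rfl⟩
    have hGG : wedge G G = x 0 ^ 2 * wedge C C + 2 * x 0 * ∑ a, s a * wedge (cmp F a) C +
        ∑ a, ∑ b, s a * gram F a b * s b := by
      simp only [wedge, hG, gram, cmp, Fin.sum_univ_three]
      ring
    have g0 : G 0 1 + G 2 3 = 0 := by
      rw [hG, hG, hs']
      simp only [Fin.sum_univ_three, Matrix.cons_val_zero, Matrix.cons_val_one, Matrix.cons_val]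
      linarith
    have g1 : G 0 2 - G 1 3 = 0 := by
      rw [hG, hG, hs']
      simp only [Fin.sum_univ_three, Matrix.cons_val_zero, Matrix.cons_val_one, Matrix.cons_val]
      linarith
    have g2 : G 0 3 + G 1 2 = 0 := by
      rw [hG, hG, hs']
      simp only [Fin.sum_univ_three, Matrix.cons_val_zero, Matrix.cons_val_one, Matrix.cons_val]
      linarith
    have hle : wedge G G ≤ 0 := by
      have h1 : G 2 3 = -G 0 1 := by linarith
      have h2 : G 1 3 = G 0 2 := by linarith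
      have h3 : G 1 2 = -G 0 3 := by linarith
      have h4 : wedge G G = -2 * (G 0 1 ^ 2 + G 0 2 ^ 2 + G 0 3 ^ 2) := by
        simp only [wedge, h1, h2, h3]
        ring
      rw [h4]
      nlinarith [sq_nonneg (G 0 1), sq_nonneg (G 0 2), sq_nonneg (G 0 3)]
    simp only [hFC, mul_zero, Finset.sum_const_zero, add_zero] at hGG
    by_cases hs0 : s = 0
    · have hx00 : x 0 ≠ 0 := by
        intro h
        apply hx0
        rw [hs'] at hs0
        have a1 := congrFun hs0 0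
        have a2 := congrFun hs0 1
        have a3 := congrFun hs0 2
        simp only [Matrix.cons_val_zero, Matrix.cons_val_one, Matrix.cons_val, Pi.zero_apply]
          at a1 a2 a3
        funext i
        fin_cases i
        · exact h
        · exact a1
        · exact a2
        · exact a3
      have h5 : 0 < x 0 ^ 2 * wedge C C := mul_pos (by positivity) hcon
      rw [hs0] at hGG
      simp only [Pi.zero_apply, zero_mul, Finset.sum_const_zero, add_zero] at hGG
      linarith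
    · have h6 := gram_pos F hs hF s hs0
      have h5 : 0 ≤ x 0 ^ 2 * wedge C C := mul_nonneg (sq_nonneg _) hcon.le
      linarith
  rw [← hp, hBB]
  simp only [hFC, mul_zero, Finset.sum_const_zero, add_zero]
  linarith

/-- PIECE QD3. Boundedness of the Gram matrix on compact sets. -/
theorem gram_bound (A : E4 → Fin 4 → R3) (U : Set E4) (hU : IsOpen U) (hA : ContDiffOn ℝ ∞ A U)
    (K : Set E4) (hK : IsCompact K) (hKU : K ⊆ U) :
    ∃ C : ℝ, 0 ≤ C ∧ ∀ y ∈ K, ∀ φ : R3,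
      ∑ a, ∑ b, φ a * gram (curv A y) a b * φ b ≤ C * ∑ a, φ a ^ 2 := by
  have h1 : ∀ a b : Fin 3, ContinuousOn (fun y => gram (curv A y) a b) K := by
    intro a b
    have h2 : ContDiffOn ℝ ∞ (fun y => wedge (cmp (curv A y) a) (cmp (curv A y) b)) U :=
      sm_wedge (fun l m => contDiffOn_pi.mp (sm_curv hU hA l m) a)
        (fun l m => contDiffOn_pi.mp (sm_curv hU hA l m) b)
    exact h2.continuousOn.mono hKU
  have h2 : ∀ a b : Fin 3, ∃ c : ℝ, ∀ y ∈ K, ‖gram (curv A y) a b‖ ≤ c := fun a b =>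
    hK.exists_bound_of_continuousOn (h1 a b)
  choose c hc using h2
  refine ⟨∑ a, ∑ b, |c a b|, Finset.sum_nonneg fun a _ => Finset.sum_nonneg fun b _ =>
    abs_nonneg _, fun y hy φ => ?_⟩
  rw [Finset.sum_mul]
  refine Finset.sum_le_sum fun a _ => ?_
  rw [Finset.sum_mul]
  refine Finset.sum_le_sum fun b _ => ?_
  have h3 : |gram (curv A y) a b| ≤ |c a b| := (hc a b y hy).trans (le_abs_self _)
  have h4 : φ a * gram (curv A y) a b * φ b ≤ |c a b| * (|φ a| * |φ b|) := by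
    calc φ a * gram (curv A y) a b * φ b ≤ |φ a * gram (curv A y) a b * φ b| := le_abs_self _
      _ = |gram (curv A y) a b| * (|φ a| * |φ b|) := by rw [abs_mul, abs_mul]; ring
      _ ≤ _ := by gcongr
  refine h4.trans ?_
  gcongr
  have h5 : |φ a| * |φ b| ≤ (φ a ^ 2 + φ b ^ 2) / 2 := by
    nlinarith [sq_nonneg (|φ a| - |φ b|), sq_abs (φ a), sq_abs (φ b)]
  have h6 : φ a ^ 2 ≤ ∑ a, φ a ^ 2 :=
    Finset.single_le_sum (f := fun a => φ a ^ 2) (fun i _ => sq_nonneg _) (Finset.mem_univ a)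
  have h7 : φ b ^ 2 ≤ ∑ a, φ a ^ 2 :=
    Finset.single_le_sum (f := fun a => φ a ^ 2) (fun i _ => sq_nonneg _) (Finset.mem_univ b)
  linarith

end

end Pool.Agent.Helper8.DC
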