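import Pool.Agent.Helper8.DC.QB
import Pool.Agent.Helper8.DC.QC

set_option autoImplicit false

open scoped Manifold ContDiff
open MeasureTheory

namespace Pool.Agent.Helper8.DC

noncomputable section

variable {X : Type} [TopologicalSpace X] [ChartedSpace E4 X] [IsManifold (𝓡 4) ∞ X]

/-- The trace of the derivative of a vector field with smooth components. -/
theorem qe1_trace (V : E4 → Fin 4 → ℝ) (U : Set E4) (hU : IsOpen U)
    (hV : ∀ l, ContDiffOn ℝ ∞ (fun y => V y l) U) (y : E4) (hy : y ∈ U) :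
    LinearMap.trace ℝ E4 (fderiv ℝ (fun z => (WithLp.toLp 2 (V z) : E4)) y : E4 →ₗ[ℝ] E4) =
      ∑ l, pd l (fun z => V z l) y := by
  rw [trace_eq]
  refine Finset.sum_congr rfl fun l _ => ?_
  have hs : ContDiffOn ℝ ∞ (fun z => (WithLp.toLp 2 (V z) : E4)) U := by
    rw [contDiffOn_euclidean]
    intro l
    exact hV l
  have hw : DifferentiableAt ℝ (fun z => (WithLp.toLp 2 (V z) : E4)) y :=
    (hs.contDiffAt (hU.mem_nhds hy)).differentiableAt (by simp)
  have := (EuclideanSpace.proj (𝕜 := ℝ) l : E4 →L[ℝ] ℝ).hasFDerivAt.comp y hw.hasFDerivAt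
  unfold pd
  have h2 : (fun z => V z l) =
      (EuclideanSpace.proj (𝕜 := ℝ) l : E4 →L[ℝ] ℝ) ∘ (fun z => (WithLp.toLp 2 (V z) : E4)) := by
    funext z; rfl
  rw [h2, this.fderiv]
  rfl

/-- PIECE QE1. Stokes for densities, from `Pool.Agent.Helper64.DC.core` (divergence `dvg` =
`∑_l pd l (V l)`, see `trace_eq`, `trace_wf` in Main.lean). `V` is a vector density. -/
theorem int_div [T2Space X] [CompactSpace X] (P : Bundle X) [Fintype P.ι] (R : PU P)
    (hP : P.PositiveDefinite) (V : P.ι → E4 → Fin 4 → ℝ)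
    (hV : ∀ i, ∀ l, ContDiffOn ℝ ∞ (fun y => V i y l) (P.c i).target)
    (hc : ∀ i j, ∀ y ∈ P.ov i j, ∀ n,
      ∑ l, jac P i j y n l * V j y l = (jac P i j y).det * V i (P.tr i j y) n) :
    R.int (fun i y => ∑ l, pd l (fun z => V i z l) y) = 0 := by
  have hcompat : ∀ i j, ∀ y ∈ (P.c j).target, (P.c j).symm y ∈ (P.c i).source →
      0 < (fderiv ℝ (P.c i ∘ (P.c j).symm) y).det ∧
      fderiv ℝ (P.c i ∘ (P.c j).symm) y ((WithLp.toLp 2 (V j y) : E4))
        = (fderiv ℝ (P.c i ∘ (P.c j).symm) y).det •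
          (WithLp.toLp 2 (V i (P.c i ((P.c j).symm y))) : E4) := by
    intro i j y hy hy2
    have hyo : y ∈ P.ov i j := ⟨hy, hy2⟩
    rw [det_eq]
    refine ⟨det_pos P hP i j y hyo, ?_⟩
    have hlin : fderiv ℝ (P.c i ∘ (P.c j).symm) y ((WithLp.toLp 2 (V j y) : E4)) =
        ∑ l, V j y l • pd l (P.tr i j) y := by
      have h1 : (WithLp.toLp 2 (V j y) : E4) =
          ∑ l, V j y l • EuclideanSpace.single l (1 : ℝ) := by
        ext k
        simp [Finset.sum_apply, Pi.single_apply]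
      rw [h1, map_sum]
      refine Finset.sum_congr rfl fun l _ => ?_
      rw [map_smul]
      rfl
    rw [hlin]
    ext n
    have := hc i j y hyo n
    simp only [PiLp.smul_apply, smul_eq_mul, WithLp.ofLp_sum, Finset.sum_apply]
    refine Eq.trans ?_ this
    refine Finset.sum_congr rfl fun l _ => ?_
    simp only [jac]
    rw [mul_comm]
  have hz := Pool.Agent.Helper64.DC.core P.c P.c_mem
    (fun i z => (WithLp.toLp 2 (V i z) : E4))
    (fun i => by
      have h : ContDiffOn ℝ ∞ (fun z => (WithLp.toLp 2 (V i z) : E4)) (P.c i).target := by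
        rw [contDiffOn_euclidean]
        intro l
        exact hV i l
      exact h.of_le (by simp))
    hcompat R.ρ R.smooth R.supp R.one
  refine Eq.trans ?_ hz
  unfold PU.int
  refine Finset.sum_congr rfl fun i _ => ?_
  refine setIntegral_congr_fun (P.c i).open_target.measurableSet fun y hy => ?_
  have := qe1_trace (V i) (P.c i).target (P.c i).open_target (hV i) y hy
  simp only [PU.rh, Pool.Agent.Helper64.DC.dvg]
  rw [← this]

/-- the trivial flat line -/
def qe2_flat (P : Bundle X) : P.Flat 1 where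
  h := fun _ _ _ => 1
  h_const := fun _ _ _ _ => Filter.Eventually.of_forall fun _ => rfl
  h_mem := fun _ _ _ _ => one_mem _
  h_cocycle := fun _ _ _ _ _ => one_mul _

/-- a section of `E` as a section of `L ⊗ E` for the trivial flat line `L` -/
def qe2_sect (P : Bundle X) (φ : P.ι → E4 → R3) (h : IsSec P φ) : P.Sect (qe2_flat P) where
  s := fun i y _ => φ i y
  smooth := fun i => contDiffOn_pi.2 fun _ => h.1 i
  compat := fun i j y hy r => by
    rw [h.2 i j y hy]
    simp [qe2_flat, Matrix.one_apply, Subsingleton.elim r 0]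

theorem qe2_cov (P : Bundle X) (φ : P.ι → E4 → R3) (h : IsSec P φ) (i j : P.ι) (y : E4)
    (hy : y ∈ P.ov i j) (n : Fin 4) :
    ∑ l, jac P i j y n l * vec (P.A j) (φ j) y l =
      (jac P i j y).det * vec (P.A i) (φ i) (P.tr i j y) n := by
  have := wv_tr P (qe2_flat P) (qe2_sect P φ h) i j y hy n
  simpa [wv, qe2_sect] using this

theorem qe2_sm_DD {U : Set E4} (hU : IsOpen U) {A : E4 → Fin 4 → R3} {φ : E4 → R3}
    (hA : ContDiffOn ℝ ∞ A U) (hφ : ContDiffOn ℝ ∞ φ U) (e : Fin 4) :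
    ContDiffOn ℝ ∞ (fun y => DD A φ y e) U := by
  unfold DD
  refine ContDiffOn.sum fun k _ => sm_pd k hU (ContDiffOn.sum fun a _ => ?_)
  refine ContDiffOn.mul ?_ (contDiffOn_pi.mp hφ a)
  unfold dual wedge3
  exact sm_wedge (fun _ _ => contDiffOn_const) (fun p q => contDiffOn_pi.mp (sm_curv hU hA p q) a)

theorem qe2_loc [T2Space X] [CompactSpace X] (P : Bundle X) [Fintype P.ι] (R : PU P)
    (hP : P.PositiveDefinite) (hpin : P.StrictlyPinched) (i : P.ι) :
    ∃ C : ℝ, 0 ≤ C ∧ ∃ c : ℝ, 0 < c ∧ ∀ φ : P.ι → E4 → R3, IsSec P φ →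
      c * (∫ y in (P.c i).target, R.rh i i y * ∑ a, φ i y a ^ 2) ≤
      (∫ y in (P.c i).target, R.rh i i y * ∑ l, pd l (fun z => vec (P.A i) (φ i) z l) y) +
      C * ∫ y in (P.c i).target, R.rh i i y * ∑ e, DD (P.A i) (φ i) y e ^ 2 := by
  set U := (P.c i).target with hUdef
  have hU : IsOpen U := (P.c i).open_target
  set K : Set E4 := (P.c i) '' tsupport (R.ρ i) with hKdef
  have hK : IsCompact K :=
    (isClosed_tsupport (R.ρ i)).isCompact.image_of_continuousOn
      ((P.c i).continuousOn.mono (R.supp i))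
  have hKU : K ⊆ U := by
    rintro _ ⟨x, hx, rfl⟩
    exact (P.c i).map_source (R.supp i hx)
  have h0 : ∀ y ∈ U \ K, R.rh i i y = 0 := by
    intro y hy
    by_contra hne
    apply hy.2
    refine ⟨(P.c i).symm y, subset_tsupport _ hne, (P.c i).right_inv hy.1⟩
  have hcr : ContinuousOn (fun y => R.rh i i y) U :=
    (R.smooth i).continuous.comp_continuousOn (P.c i).continuousOn_symm
  have hrn : ∀ y, 0 ≤ R.rh i i y := fun y => R.nonneg i _
  obtain ⟨C, hC, hCq⟩ := bound_quad (P.A i) U hU (P.A_smooth i) K hK hKU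
    (fun y hy => hP i y (hKU hy)) (fun y hy => hpin i y (hKU hy))
  obtain ⟨c, hc, hcr'⟩ := bound_rest (P.A i) U hU (P.A_smooth i) K hK hKU
    (fun y hy => hP i y (hKU hy))
  refine ⟨C, hC, c, hc, ?_⟩
  intro φ hφ
  have hφi := hφ.1 i
  have c0 : ContinuousOn (fun y => ∑ l, pd l (fun z => vec (P.A i) (φ i) z l) y) U :=
    (ContDiffOn.sum fun l _ => sm_pd l hU (sm_vec hU (P.A_smooth i) hφi l)).continuousOn
  have c1 : ContinuousOn (fun y => ∑ a, φ i y a ^ 2) U :=
    (ContDiffOn.sum fun a _ => (contDiffOn_pi.mp hφi a).pow 2).continuousOn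
  have c2 : ContinuousOn (fun y => ∑ e, DD (P.A i) (φ i) y e ^ 2) U :=
    (ContDiffOn.sum fun e _ => (qe2_sm_DD hU (P.A_smooth i) hφi e).pow 2).continuousOn
  have i0 : IntegrableOn (fun y => R.rh i i y * ∑ l, pd l (fun z => vec (P.A i) (φ i) z l) y) U :=
    Pool.Agent.Helper64.DC.integrableOn_of_zero hU hK hKU (hcr.mul c0)
      (fun y hy => by rw [h0 y hy, zero_mul])
  have i1 : IntegrableOn (fun y => R.rh i i y * ∑ a, φ i y a ^ 2) U :=
    Pool.Agent.Helper64.DC.integrableOn_of_zero hU hK hKU (hcr.mul c1)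
      (fun y hy => by rw [h0 y hy, zero_mul])
  have i2 : IntegrableOn (fun y => R.rh i i y * ∑ e, DD (P.A i) (φ i) y e ^ 2) U :=
    Pool.Agent.Helper64.DC.integrableOn_of_zero hU hK hKU (hcr.mul c2)
      (fun y hy => by rw [h0 y hy, zero_mul])
  rw [← integral_const_mul, ← integral_const_mul, ← integral_add i0 (i2.const_mul C)]
  refine setIntegral_mono_on (i1.const_mul c) (i0.add (i2.const_mul C)) hU.measurableSet ?_
  intro y hy
  by_cases hyK : y ∈ K
  · have e1 := div_vec (P.A i) (φ i) U hU (P.A_smooth i) hφi y hy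
    have e2 := hCq y hyK (cov (P.A i) (φ i) y)
    have e3 := hcr' y hyK (φ i y)
    have e4 : ∀ e, DD (P.A i) (φ i) y e = con (cov (P.A i) (φ i) y) (curv (P.A i) y) e :=
      fun e => DD_eq (P.A i) (φ i) U hU (P.A_smooth i) hφi y hy e
    simp only [e1, e4]
    have e5 := mul_le_mul_of_nonneg_left (show c * ∑ a, φ i y a ^ 2 ≤
      quad (cov (P.A i) (φ i) y) (curv (P.A i) y) + rest (φ i y) (curv (P.A i) y) +
        C * ∑ e, con (cov (P.A i) (φ i) y) (curv (P.A i) y) e ^ 2 by linarith) (hrn y)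
    calc c * (R.rh i i y * ∑ a, φ i y a ^ 2) = R.rh i i y * (c * ∑ a, φ i y a ^ 2) := by ring
      _ ≤ _ := e5
      _ = _ := by ring
  · simp only [h0 y ⟨hy, hyK⟩, zero_mul, mul_zero, add_zero, le_refl]

/-- PIECE QE2. The a priori estimate. PROOF. `int_div` with `V = ` the vector density `vec` of `φ`
(`div_vec`; covariance as in `wv_tr`, for `N = 1` and the trivial flat bundle) gives
`R.int (quad + rest) = 0`. On `c_i '' tsupport (ρ_i)` (compact) use `bound_quad`, `bound_rest` and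
`DD_eq`. All integrands are continuous on the target and vanish off that compact set after
multiplication by `ρ_i`, so they are integrable. -/
theorem estimate [T2Space X] [CompactSpace X] (P : Bundle X) [Fintype P.ι] (R : PU P)
    (hP : P.PositiveDefinite) (hpin : P.StrictlyPinched) :
    ∃ C : ℝ, 0 ≤ C ∧ ∀ φ : P.ι → E4 → R3, IsSec P φ →
      R.nsq φ ≤ C * R.nsq4 (fun i => DD (P.A i) (φ i)) := by
  classical
  choose C hC c hc hloc using qe2_loc P R hP hpin
  set c0 : ℝ := (1 + ∑ i, 1 / c i)⁻¹ with hc0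
  have hsum : 0 ≤ ∑ i, 1 / c i := Finset.sum_nonneg fun i _ => (one_div_pos.2 (hc i)).le
  have hc0p : 0 < c0 := inv_pos.2 (by linarith)
  have hc0l : ∀ i, c0 ≤ c i := by
    intro i
    have h1 : 1 / c i ≤ ∑ i, 1 / c i :=
      Finset.single_le_sum (f := fun i => 1 / c i) (fun j _ => (one_div_pos.2 (hc j)).le)
        (Finset.mem_univ i)
    rw [hc0, inv_le_comm₀ (by linarith) (hc i)]
    rw [one_div] at h1
    linarith
  set C0 : ℝ := ∑ i, C i with hC0
  have hC0n : 0 ≤ C0 := Finset.sum_nonneg fun i _ => hC i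
  have hC0l : ∀ i, C i ≤ C0 := fun i =>
    Finset.single_le_sum (fun j _ => hC j) (Finset.mem_univ i)
  refine ⟨C0 / c0, div_nonneg hC0n hc0p.le, ?_⟩
  intro φ hφ
  have hz : R.int (fun i y => ∑ l, pd l (fun z => vec (P.A i) (φ i) z l) y) = 0 :=
    int_div P R hP (fun i y l => vec (P.A i) (φ i) y l)
      (fun i l => sm_vec (P.c i).open_target (P.A_smooth i) (hφ.1 i) l)
      (fun i j y hy n => qe2_cov P φ hφ i j y hy n)
  have hrn : ∀ i y, 0 ≤ R.rh i i y := fun i y => R.nonneg i _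
  have h1n : ∀ i, 0 ≤ ∫ y in (P.c i).target, R.rh i i y * ∑ a, φ i y a ^ 2 := fun i =>
    setIntegral_nonneg (P.c i).open_target.measurableSet fun y _ =>
      mul_nonneg (hrn i y) (Finset.sum_nonneg fun _ _ => sq_nonneg _)
  have h2n : ∀ i, 0 ≤ ∫ y in (P.c i).target, R.rh i i y * ∑ e, DD (P.A i) (φ i) y e ^ 2 := fun i =>
    setIntegral_nonneg (P.c i).open_target.measurableSet fun y _ =>
      mul_nonneg (hrn i y) (Finset.sum_nonneg fun _ _ => sq_nonneg _)
  have hmain : c0 * R.nsq φ ≤ C0 * R.nsq4 (fun i => DD (P.A i) (φ i)) := by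
    unfold PU.nsq PU.nsq4 PU.int
    unfold PU.int at hz
    rw [Finset.mul_sum, Finset.mul_sum]
    calc ∑ i, c0 * ∫ y in (P.c i).target, R.rh i i y * ∑ a, φ i y a ^ 2
        ≤ ∑ i, ((∫ y in (P.c i).target, R.rh i i y *
            ∑ l, pd l (fun z => vec (P.A i) (φ i) z l) y) +
            C0 * ∫ y in (P.c i).target, R.rh i i y * ∑ e, DD (P.A i) (φ i) y e ^ 2) := by
          refine Finset.sum_le_sum fun i _ => ?_
          have e1 := hloc i φ hφ
          have e2 := mul_le_mul_of_nonneg_right (hc0l i) (h1n i)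
          have e3 := mul_le_mul_of_nonneg_right (hC0l i) (h2n i)
          linarith
      _ = ∑ i, C0 * ∫ y in (P.c i).target, R.rh i i y * ∑ e, DD (P.A i) (φ i) y e ^ 2 := by
          rw [Finset.sum_add_distrib, hz, zero_add]
  rw [div_mul_eq_mul_div, le_div_iff₀ hc0p]
  linarith

end

end Pool.Agent.Helper8.DC
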