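import Pool.Agent.Helper8.DC.QC
import Pool.Agent.Helper8.DC.QD

set_option autoImplicit false

open scoped Manifold ContDiff
open MeasureTheory

namespace Pool.Agent.Helper8.DC

noncomputable section

variable {X : Type} [TopologicalSpace X] [ChartedSpace E4 X] [IsManifold (𝓡 4) ∞ X]

private theorem dd_two_coord {τ : E4 → E4} {y : E4} (hτ : DifferentiableAt ℝ τ y) (m n : Fin 4) :
    (pd m τ y) n = pd m (fun z => τ z n) y := by
  have h1 : HasFDerivAt (fun z => τ z n)
      ((EuclideanSpace.proj n : E4 →L[ℝ] ℝ).comp (fderiv ℝ τ y)) y :=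
    (EuclideanSpace.proj n : E4 →L[ℝ] ℝ).hasFDerivAt.comp y hτ.hasFDerivAt
  unfold pd
  rw [h1.fderiv]
  rfl

/-- PIECE QF1. PROOF. Chain rule, symmetry of the second derivatives of the change of
coordinates. -/
theorem dd_two (P : Bundle X) (a : P.ι → E4 → Fin 4 → ℝ) (ha : IsOne P a) :
    IsTwo P (fun i => dd (a i)) := by
  refine ⟨fun i => ?_, fun i y _ l m => ?_, fun i j y hy l m => ?_⟩
  · rw [contDiffOn_pi]
    intro l
    rw [contDiffOn_pi]
    intro m
    have h := contDiffOn_pi.1 (ha.1 i)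
    exact (sm_pd l (P.c i).open_target (h m)).sub (sm_pd m (P.c i).open_target (h l))
  · simp only [dd]
    ring
  · have hopen := ov_open P i j
    have hov := hopen.mem_nhds hy
    have hτs := tr_smooth P i j
    set τ := P.tr i j with hτdef
    have hτd : ∀ z ∈ P.ov i j, DifferentiableAt ℝ τ z := fun z hz =>
      (hτs.contDiffAt (hopen.mem_nhds hz)).differentiableAt (by simp)
    have hτc : ∀ n, ContDiffOn ℝ ∞ (fun z => τ z n) (P.ov i j) := fun n =>
      (EuclideanSpace.proj n : E4 →L[ℝ] ℝ).contDiff.comp_contDiffOn hτs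
    have hjac : ∀ n m, ∀ z ∈ P.ov i j, jac P i j z n m = pd m (fun w => τ w n) z := fun n m z hz =>
      dd_two_coord (hτd z hz) m n
    have hjs : ∀ n m, ContDiffOn ℝ ∞ (fun z => pd m (fun w => τ w n) z) (P.ov i j) := fun n m =>
      sm_pd m hopen (hτc n)
    have hjd : ∀ n m, DifferentiableAt ℝ (fun z => pd m (fun w => τ w n) z) y := fun n m =>
      ((hjs n m).contDiffAt hov).differentiableAt (by simp)
    have had : ∀ n, DifferentiableAt ℝ (fun z => a i z n) (τ y) := fun n =>
      ((contDiffOn_pi.1 (ha.1 i) n).contDiffAt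
        ((P.c i).open_target.mem_nhds (tr_mem P i j y hy))).differentiableAt (by simp)
    have hcd : ∀ n, DifferentiableAt ℝ (fun z => a i (τ z) n) y := fun n =>
      (had n).comp y (hτd y hy)
    have key : ∀ l m, pd l (fun z => a j z m) y =
        ∑ n, (pd l (fun z => pd m (fun w => τ w n) z) y * a i (τ y) n +
          jac P i j y n m * ∑ p, jac P i j y p l * pd p (fun z => a i z n) (τ y)) := by
      intro l m
      have h1 : (fun z => a j z m) =ᶠ[nhds y]
          fun z => ∑ n, pd m (fun w => τ w n) z * a i (τ z) n := by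
        filter_upwards [hov] with z hz
        rw [ha.2 i j z hz m]
        exact Finset.sum_congr rfl fun n _ => by rw [hjac n m z hz]
      rw [ph_pd_congr h1, pi_pd_sum _ (fun n _ => (hjd n m).fun_mul (hcd n))]
      refine Finset.sum_congr rfl fun n _ => ?_
      rw [ph_pd_mul (hjd n m) (hcd n), pi_chain (ψ := fun z => a i z n) (hτd y hy) (had n),
        hjac n m y hy]
      simp only [smul_eq_mul]
      rfl
    have hsym : ∀ n, pd l (fun z => pd m (fun w => τ w n) z) y =
        pd m (fun z => pd l (fun w => τ w n) z) y := fun n => ph_symm hopen (hτc n) hy l m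
    have h2 : ∀ f : Fin 4 → Fin 4 → ℝ, ∑ n, ∑ p, jac P i j y n l * jac P i j y p m * f n p =
        ∑ n, jac P i j y n m * ∑ p, jac P i j y p l * f p n := by
      intro f
      rw [Finset.sum_comm]
      refine Finset.sum_congr rfl fun n _ => ?_
      rw [Finset.mul_sum]
      exact Finset.sum_congr rfl fun p _ => by ring
    have h3 : ∀ f : Fin 4 → Fin 4 → ℝ, ∑ n, ∑ p, jac P i j y n l * jac P i j y p m * f p n =
        ∑ n, jac P i j y n l * ∑ p, jac P i j y p m * f p n := by
      intro f
      refine Finset.sum_congr rfl fun n _ => ?_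
      rw [Finset.mul_sum]
      exact Finset.sum_congr rfl fun p _ => by ring
    have h4 : ∑ n, ∑ p, jac P i j y n l * jac P i j y p m * dd (a i) (τ y) n p =
        (∑ n, jac P i j y n m * ∑ p, jac P i j y p l * pd p (fun z => a i z n) (τ y)) -
          ∑ n, jac P i j y n l * ∑ p, jac P i j y p m * pd p (fun z => a i z n) (τ y) := by
      rw [← h2 (fun p n => pd p (fun z => a i z n) (τ y)),
        ← h3 (fun p n => pd p (fun z => a i z n) (τ y)), ← Finset.sum_sub_distrib]
      refine Finset.sum_congr rfl fun n _ => ?_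
      rw [← Finset.sum_sub_distrib]
      refine Finset.sum_congr rfl fun p _ => ?_
      unfold dd
      ring
    rw [h4]
    change pd l (fun z => a j z m) y - pd m (fun z => a j z l) y = _
    rw [key l m, key m l]
    simp only [Finset.sum_add_distrib, hsym]
    ring

private theorem sf_sec_det (F : Fin 4 → Fin 4 → R3) (hs : Skew F) (hF : PosDef F) :
    IsUnit (gram F).det := by
  rw [isUnit_iff_ne_zero]
  intro h0
  obtain ⟨v, hv, hv0⟩ := Matrix.exists_mulVec_eq_zero_iff.2 h0
  have h1 := gram_pos F hs hF v hv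
  have h2 : ∑ a, ∑ b, v a * gram F a b * v b = ∑ a, v a * (gram F).mulVec v a := by
    refine Finset.sum_congr rfl fun a _ => ?_
    rw [Matrix.mulVec, dotProduct, Finset.mul_sum]
    refine Finset.sum_congr rfl fun b _ => by ring
  rw [h2, hv0] at h1
  simp at h1

private theorem sf_sec_smooth {U : Set E4} {A : E4 → Fin 4 → R3}
    {ζ : E4 → Fin 4 → Fin 4 → ℝ} (hU : IsOpen U) (hA : ContDiffOn ℝ ∞ A U)
    (hζ : ContDiffOn ℝ ∞ ζ U) (hP : ∀ y ∈ U, PosDef (curv A y)) :
    ContDiffOn ℝ ∞ (sf A ζ) U := by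
  have hM : ∀ a b, ContDiffOn ℝ ∞ (fun y => gram (curv A y) a b) U := fun a b =>
    sm_wedge (fun l m => contDiffOn_pi.mp (sm_curv hU hA l m) a)
      (fun l m => contDiffOn_pi.mp (sm_curv hU hA l m) b)
  have hw : ∀ b, ContDiffOn ℝ ∞ (fun y => wedge (cmp (curv A y) b) (ζ y)) U := fun b =>
    sm_wedge (fun l m => contDiffOn_pi.mp (sm_curv hU hA l m) b)
      (fun l m => contDiffOn_pi.mp (contDiffOn_pi.mp hζ l) m)
  have hdet : ContDiffOn ℝ ∞ (fun y => (gram (curv A y)).det) U := by
    simp only [Matrix.det_fin_three]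
    fun_prop
  have hdet0 : ∀ y ∈ U, (gram (curv A y)).det ≠ 0 := fun y hy =>
    isUnit_iff_ne_zero.mp (sf_sec_det _ (skew_curv A y) (hP y hy))
  have hadj : ∀ a b, ContDiffOn ℝ ∞ (fun y => (gram (curv A y)).adjugate a b) U := by
    intro a b
    simp only [Matrix.adjugate_fin_three]
    fin_cases a <;> fin_cases b <;> simp <;> fun_prop
  have hinv : ∀ a b, ContDiffOn ℝ ∞ (fun y => (gram (curv A y))⁻¹ a b) U := by
    intro a b
    refine ((hdet.inv hdet0).mul (hadj a b)).congr fun y hy => ?_
    rw [Matrix.inv_def, Ring.inverse_eq_inv', Matrix.smul_apply, smul_eq_mul]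
    rfl
  rw [contDiffOn_pi]
  intro a
  have h1 : (fun y => sf A ζ y a) =
      fun y => ∑ b, (gram (curv A y))⁻¹ a b * wedge (cmp (curv A y) b) (ζ y) := by
    funext y
    rfl
  rw [h1]
  exact ContDiffOn.sum fun b _ => (hinv a b).mul (hw b)

private theorem sf_sec_lin (g : Matrix (Fin 3) (Fin 3) ℝ) (F : Fin 4 → Fin 4 → R3)
    (B : Fin 4 → Fin 4 → ℝ) (a : Fin 3) :
    wedge (cmp (fun l m => g.mulVec (F l m)) a) B = g.mulVec (fun b => wedge (cmp F b) B) a := by
  simp only [wedge, cmp, Matrix.mulVec, dotProduct, Fin.sum_univ_three]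
  ring

/-- The pointwise transformation rule. -/
private theorem sf_sec_tr (T : Matrix (Fin 4) (Fin 4) ℝ) (g : Matrix (Fin 3) (Fin 3) ℝ)
    (hg : g * g.transpose = 1) (F G : Fin 4 → Fin 4 → R3) (B C : Fin 4 → Fin 4 → ℝ)
    (hF : Skew F) (hG : Skew G) (hFp : PosDef F) (hGp : PosDef G)
    (hB : ∀ l m, B l m = -B m l)
    (h1 : ∀ l m, ∑ n, ∑ p, (T n l * T p m) • F n p = g.mulVec (G l m))
    (h2 : ∀ l m, C l m = ∑ n, ∑ p, T n l * T p m * B n p) :
    sdp F B = g.mulVec (sdp G C) := by
  have hgt : g.transpose * g = 1 := mul_eq_one_comm.mp hg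
  have hcmp : ∀ a, cmp (fun l m => g.mulVec (G l m)) a =
      fun l m => ∑ n, ∑ p, T n l * T p m * cmp F a n p := by
    intro a
    funext l m
    have h3 := congrFun (h1 l m) a
    simp only [Finset.sum_apply, Pi.smul_apply, smul_eq_mul] at h3
    exact h3.symm
  have hC : C = fun l m => ∑ n, ∑ p, T n l * T p m * B n p := by
    funext l m
    exact h2 l m
  have hsk : ∀ a, ∀ l m, cmp F a l m = -cmp F a m l := fun a l m => congrFun (hF l m) a
  have hM : T.det • gram F = g * gram G * g.transpose := by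
    rw [← gram_rot]
    ext a b
    show T.det * wedge (cmp F a) (cmp F b) = wedge (cmp (fun l m => g.mulVec (G l m)) a)
      (cmp (fun l m => g.mulVec (G l m)) b)
    rw [hcmp a, hcmp b, wedge_pull T _ _ (hsk a) (hsk b)]
  have hw : T.det • (fun a => wedge (cmp F a) B) = g.mulVec (fun b => wedge (cmp G b) C) := by
    funext a
    rw [← sf_sec_lin g G C a, hcmp a, hC, wedge_pull T _ _ (hsk a) hB]
    rfl
  have hFd := sf_sec_det F hF hFp
  have hGd := sf_sec_det G hG hGp
  have hT : T.det ≠ 0 := by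
    intro h0
    rw [h0, zero_smul] at hM
    have h3 := congrArg Matrix.det hM
    rw [Matrix.det_mul, Matrix.det_mul, Matrix.det_transpose, Matrix.det_zero] at h3
    have h4 := congrArg Matrix.det hg
    rw [Matrix.det_mul, Matrix.det_transpose, Matrix.det_one] at h4
    have h5 : (gram G).det = 0 := by
      have : g.det * (gram G).det * g.det = (gram G).det * (g.det * g.det) := by ring
      rw [this, h4, mul_one] at h3
      exact h3.symm
    exact (isUnit_iff_ne_zero.mp hGd) h5
  have key : T.det • (gram F).mulVec (g.mulVec (sdp G C)) =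
      T.det • (fun a => wedge (cmp F a) B) := by
    rw [hw, ← Matrix.smul_mulVec, hM, Matrix.mulVec_mulVec, Matrix.mul_assoc, hgt, Matrix.mul_one,
      ← Matrix.mulVec_mulVec, sdp, Matrix.mulVec_mulVec _ (gram G) (gram G)⁻¹, Matrix.mul_nonsing_inv _ hGd,
      Matrix.one_mulVec]
  have key2 : (gram F).mulVec (g.mulVec (sdp G C)) = fun a => wedge (cmp F a) B := by
    have := congrArg (fun v => T.det⁻¹ • v) key
    simpa only [smul_smul, inv_mul_cancel₀ hT, one_smul] using this
  rw [sdp, ← key2, Matrix.mulVec_mulVec, Matrix.nonsing_inv_mul _ hFd, Matrix.one_mulVec]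

/-- PIECE QF2. PROOF. `curv_tr`, `wedge_pull`, `gram_rot`: `M_j = det T • gᵀ M_i g` and
`(F_b ∧ ζ)_j = det T • gᵀ (F_b ∧ ζ)_i`, so `sdp` transforms by `gᵀ`. Smoothness: the inverse of a
smooth family of invertible matrices (`gram_pos` gives `det ≠ 0`; `Matrix.inv_def` with
`Ring.inverse` of the determinant and the adjugate, polynomial in the entries). -/
theorem sf_sec (P : Bundle X) (hP : P.PositiveDefinite) (ζ : P.ι → E4 → Fin 4 → Fin 4 → ℝ)
    (hζ : IsTwo P ζ) : IsSec P (fun i => sf (P.A i) (ζ i)) := by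
  refine ⟨fun i => sf_sec_smooth (P.c i).open_target (P.A_smooth i) (hζ.1 i) (hP i), ?_⟩
  intro i j y hy
  have hyj : y ∈ (P.c j).target := hy.1
  have hyi := tr_mem P i j y hy
  have hg : P.g i j y * (P.g i j y).transpose = 1 := by
    have h1 := (Matrix.mem_specialOrthogonalGroup_iff.mp (P.g_mem i j y hy)).1
    have h2 := (Matrix.mem_orthogonalGroup_iff _ _).mp h1
    exact h2
  exact sf_sec_tr (jac P i j y) (P.g i j y) hg _ _ _ _ (skew_curv _ _) (skew_curv _ _)
    (hP i _ hyi) (hP j _ hyj) (hζ.2.1 i _ hyi) (curv_tr P i j y hy) (hζ.2.2 i j y hy)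

/-- PIECE QF3. The 2-form `⟨φ, F⟩` of a section. -/
theorem form_two (P : Bundle X) (φ : P.ι → E4 → R3) (hφ : IsSec P φ) :
    IsTwo P (fun i y l m => ∑ a, φ i y a * curv (P.A i) y l m a) := by
  refine ⟨fun i => ?_, fun i y _ l m => ?_, fun i j y hy l m => ?_⟩
  · rw [contDiffOn_pi]
    intro l
    rw [contDiffOn_pi]
    intro m
    have h1 := contDiffOn_pi.1 (hφ.1 i)
    have h2 := contDiffOn_pi.1 (sm_curv (P.c i).open_target (P.A_smooth i) l m)
    exact ContDiffOn.sum fun a _ => (h1 a).mul (h2 a)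
  · simp only
    rw [← Finset.sum_neg_distrib]
    refine Finset.sum_congr rfl fun a _ => ?_
    have h := congrFun (skew_curv (P.A i) y l m) a
    rw [h, Pi.neg_apply]
    ring
  · set g := P.g i j y with hg
    have hgm : g ∈ Matrix.specialOrthogonalGroup (Fin 3) ℝ := P.g_mem i j y hy
    have hR1 : g.transpose * g = 1 := by
      have := (Matrix.mem_specialOrthogonalGroup_iff.mp hgm).1
      rw [Matrix.mem_orthogonalGroup_iff'] at this
      simpa [Matrix.star_eq_conjTranspose] using this
    have h1 := curv_tr P i j y hy l m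
    have h2 : ∀ b, (g.mulVec (curv (P.A j) y l m)) b =
        ∑ n, ∑ p, jac P i j y n l * jac P i j y p m *
          curv (P.A i) (P.tr i j y) n p b := by
      intro b
      rw [← h1]
      simp only [Finset.sum_apply, Pi.smul_apply, smul_eq_mul]
    have h3 : ∑ n, ∑ p, jac P i j y n l * jac P i j y p m *
        ∑ b, φ i (P.tr i j y) b * curv (P.A i) (P.tr i j y) n p b =
        ∑ b, φ i (P.tr i j y) b * (g.mulVec (curv (P.A j) y l m)) b := by
      simp only [h2, Finset.mul_sum]
      conv_rhs => rw [Finset.sum_comm]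
      refine Finset.sum_congr rfl fun n _ => ?_
      conv_rhs => rw [Finset.sum_comm]
      refine Finset.sum_congr rfl fun p _ => ?_
      refine Finset.sum_congr rfl fun b _ => ?_
      ring
    rw [h3, hφ.2 i j y hy]
    have h4 : (g.mulVec (φ j y)) ⬝ᵥ (g.mulVec (curv (P.A j) y l m)) =
        φ j y ⬝ᵥ curv (P.A j) y l m := by
      rw [Matrix.dotProduct_mulVec, Matrix.vecMul_mulVec, hR1, Matrix.vecMul_one]
    exact h4.symm

end

end Pool.Agent.Helper8.DC
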