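import Pool.Agent.Helper8.DC.QE
import Pool.Agent.Helper8.DC.QF

set_option autoImplicit false

open scoped Manifold ContDiff
open MeasureTheory

namespace Pool.Agent.Helper8.DC

noncomputable section

variable {X : Type} [TopologicalSpace X] [ChartedSpace E4 X] [IsManifold (𝓡 4) ∞ X]

/-- Integrability of `ρ_i f` over the target of the chart `i`. -/
theorem qg_integrable [T2Space X] [CompactSpace X] (P : Bundle X) [Fintype P.ι] (R : PU P)
    (i : P.ι) (f : E4 → ℝ) (hf : ContinuousOn f (P.c i).target) :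
    IntegrableOn (fun y => R.rh i i y * f y) (P.c i).target := by
  have hr : ContinuousOn (fun y => R.rh i i y * f y) (P.c i).target := by
    refine ContinuousOn.mul ?_ hf
    exact (R.smooth i).continuous.comp_continuousOn (P.c i).continuousOn_symm
  have hK : IsCompact ((P.c i) '' tsupport (R.ρ i)) :=
    (isClosed_tsupport _).isCompact.image_of_continuousOn
      ((P.c i).continuousOn.mono (R.supp i))
  have hKt : (P.c i) '' tsupport (R.ρ i) ⊆ (P.c i).target := by
    rintro _ ⟨x, hx, rfl⟩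
    exact (P.c i).map_source (R.supp i hx)
  refine IntegrableOn.of_forall_sdiff_eq_zero ((hr.mono hKt).integrableOn_compact hK)
    (P.c i).open_target.measurableSet ?_
  rintro y ⟨hy, hyK⟩
  have h0 : (P.c i).symm y ∉ tsupport (R.ρ i) := by
    intro h
    exact hyK ⟨_, h, (P.c i).right_inv hy⟩
  have h1 : R.ρ i ((P.c i).symm y) = 0 := image_eq_zero_of_notMem_tsupport h0
  simp only [PU.rh, h1, zero_mul]

theorem qg_int_congr (P : Bundle X) [Fintype P.ι] (R : PU P) (f g : P.ι → E4 → ℝ)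
    (h : ∀ i, ∀ y ∈ (P.c i).target, f i y = g i y) : R.int f = R.int g := by
  unfold PU.int
  refine Finset.sum_congr rfl fun i _ => ?_
  refine setIntegral_congr_fun (P.c i).open_target.measurableSet fun y hy => ?_
  simp only [h i y hy]

theorem qg_int_add [T2Space X] [CompactSpace X] (P : Bundle X) [Fintype P.ι] (R : PU P)
    (f g : P.ι → E4 → ℝ) (hf : ∀ i, ContinuousOn (f i) (P.c i).target)
    (hg : ∀ i, ContinuousOn (g i) (P.c i).target) :
    R.int (fun i y => f i y + g i y) = R.int f + R.int g := by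
  unfold PU.int
  rw [← Finset.sum_add_distrib]
  refine Finset.sum_congr rfl fun i _ => ?_
  rw [← integral_add (qg_integrable P R i _ (hf i)) (qg_integrable P R i _ (hg i))]
  refine integral_congr_ae (Filter.Eventually.of_forall fun y => ?_)
  simp only [mul_add]

theorem qg_sm_two {P : Bundle X} {ζ : P.ι → E4 → Fin 4 → Fin 4 → ℝ} (hζ : IsTwo P ζ) (i : P.ι)
    (l m : Fin 4) : ContDiffOn ℝ ∞ (fun y => ζ i y l m) (P.c i).target :=
  contDiffOn_pi.mp (contDiffOn_pi.mp (hζ.1 i) l) m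

theorem qg_sm_one {P : Bundle X} {a : P.ι → E4 → Fin 4 → ℝ} (ha : IsOne P a) (i : P.ι)
    (l : Fin 4) : ContDiffOn ℝ ∞ (fun y => a i y l) (P.c i).target :=
  contDiffOn_pi.mp (ha.1 i) l

theorem qg_sm_dd {P : Bundle X} {a : P.ι → E4 → Fin 4 → ℝ} (ha : IsOne P a) (i : P.ι)
    (l m : Fin 4) : ContDiffOn ℝ ∞ (fun y => dd (a i) y l m) (P.c i).target :=
  (sm_pd l (P.c i).open_target (qg_sm_one ha i m)).sub
    (sm_pd m (P.c i).open_target (qg_sm_one ha i l))

theorem qg_sm_w3 {P : Bundle X} {ζ : P.ι → E4 → Fin 4 → Fin 4 → ℝ} (hζ : IsTwo P ζ) (i : P.ι)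
    (b c : E4 → Fin 4 → ℝ) (hb : ∀ l, ContDiffOn ℝ ∞ (fun y => b y l) (P.c i).target)
    (hc : ∀ l, ContDiffOn ℝ ∞ (fun y => c y l) (P.c i).target) :
    ContDiffOn ℝ ∞ (fun y => wedge3 (b y) (c y) (ζ i y)) (P.c i).target := by
  unfold wedge3
  refine sm_wedge (fun p q => ?_) (qg_sm_two hζ i)
  exact ((hb p).mul (hc q)).sub ((hb q).mul (hc p))

theorem qg_sm_dtwo {P : Bundle X} {ζ : P.ι → E4 → Fin 4 → Fin 4 → ℝ} (hζ : IsTwo P ζ) (i : P.ι)
    (e : Fin 4) : ContDiffOn ℝ ∞ (fun y => dtwo (ζ i) y e) (P.c i).target := by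
  unfold dtwo dual
  refine ContDiffOn.sum fun k _ => ?_
  exact sm_pd k (P.c i).open_target
    (qg_sm_w3 hζ i _ _ (fun _ => contDiffOn_const) (fun _ => contDiffOn_const))

/-- PIECE QG1. Integration by parts. PROOF. `int_div` with `V i y l = wedge3 (e_l) (a i y) (ζ i y)`
(covariance from `wedge3_pull`) and `div_wedge`; additivity of `R.int` (integrability as in
`estimate`). -/
theorem parts [T2Space X] [CompactSpace X] (P : Bundle X) [Fintype P.ι] (R : PU P)
    (hP : P.PositiveDefinite) (ζ : P.ι → E4 → Fin 4 → Fin 4 → ℝ) (hζ : IsTwo P ζ)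
    (a : P.ι → E4 → Fin 4 → ℝ) (ha : IsOne P a) :
    R.int (fun i y => wedge (dd (a i) y) (ζ i y)) =
      -R.int (fun i y => ∑ e, a i y e * dtwo (ζ i) y e) := by
  have h1 := int_div P R hP (fun i y l => wedge3 (Pi.single l 1) (a i y) (ζ i y))
    (fun i l => qg_sm_w3 hζ i _ _ (fun _ => contDiffOn_const) (qg_sm_one ha i)) ?_
  · have h2 := qg_int_congr P R _ _ (fun i y hy => div_wedge (a i) (ζ i) _ (P.c i).open_target
      (ha.1 i) (hζ.1 i) y hy)
    rw [h1, qg_int_add P R (fun i y => wedge (dd (a i) y) (ζ i y))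
      (fun i y => ∑ e, a i y e * dtwo (ζ i) y e)
      (fun i => (sm_wedge (qg_sm_dd ha i) (qg_sm_two hζ i)).continuousOn)
      (fun i => (ContDiffOn.sum fun e _ =>
        (qg_sm_one ha i e).mul (qg_sm_dtwo hζ i e)).continuousOn)] at h2
    linarith
  · intro i j y hy n
    rw [← wedge3_sum_left]
    have e1 : (fun m => ∑ k, jac P i j y n k * (Pi.single k 1 : Fin 4 → ℝ) m) =
        fun m => ∑ n', jac P i j y n' m * (Pi.single n 1 : Fin 4 → ℝ) n' := by
      funext m
      simp [Pi.single_apply]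
    have e2 : a j y = fun m => ∑ n', jac P i j y n' m * a i (P.tr i j y) n' :=
      funext (ha.2 i j y hy)
    have e3 : ζ j y = fun l m => ∑ n', ∑ p, jac P i j y n' l * jac P i j y p m *
        ζ i (P.tr i j y) n' p := by
      funext l m
      exact hζ.2.2 i j y hy l m
    rw [e1, e2, e3]
    exact wedge3_pull _ _ _ _ (hζ.2.1 i _ (tr_mem P i j y hy))

/-- PIECE QG2. `pair φ (sf (da)) = - ∫ a ∧ D φ`. PROOF. `parts` with `ζ = ⟨φ, F⟩` (`form_two`),
`sdp_pair`, and `dtwo ⟨φ,F⟩ = DD` (linearity of `dual`). -/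
theorem pair_sf [T2Space X] [CompactSpace X] (P : Bundle X) [Fintype P.ι] (R : PU P)
    (hP : P.PositiveDefinite) (φ : P.ι → E4 → R3) (hφ : IsSec P φ)
    (a : P.ι → E4 → Fin 4 → ℝ) (ha : IsOne P a) :
    R.pair φ (fun i => sf (P.A i) (dd (a i))) =
      -R.int (fun i y => ∑ e, a i y e * DD (P.A i) (φ i) y e) := by
  have h1 := parts P R hP _ (form_two P φ hφ) a ha
  have h2 : R.pair φ (fun i => sf (P.A i) (dd (a i))) =
      R.int (fun i y => wedge (dd (a i) y)
        (fun l m => ∑ b, φ i y b * curv (P.A i) y l m b)) := by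
    unfold PU.pair
    refine qg_int_congr P R _ _ fun i y hy => ?_
    have h3 := sdp_pair (curv (P.A i) y) (skew_curv _ _) (hP i y hy) (dd (a i) y) (φ i y)
    unfold sf
    rw [← h3]
    simp only [wedge]
    ring
  rw [h2, h1]
  congr 1
  refine qg_int_congr P R _ _ fun i y _ => ?_
  refine Finset.sum_congr rfl fun e _ => ?_
  congr 1
  unfold dtwo DD
  refine Finset.sum_congr rfl fun k _ => ?_
  congr 1
  funext z
  simp only [dual, wedge3, wedge, cmp, Fin.sum_univ_three]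
  ring

theorem qg_zero [T2Space X] [CompactSpace X] (P : Bundle X) [Fintype P.ι] (R : PU P)
    (hP : P.PositiveDefinite) (ζ : P.ι → E4 → Fin 4 → Fin 4 → ℝ) (hζ : IsTwo P ζ)
    (hc : ∀ i, ∀ y ∈ (P.c i).target, Bundle.ClosedAt (ζ i) y)
    (a : P.ι → E4 → Fin 4 → ℝ) (ha : IsOne P a) :
    R.int (fun i y => wedge (dd (a i) y) (ζ i y)) = 0 := by
  rw [parts P R hP ζ hζ a ha, qg_int_congr P R (fun i y => ∑ e, a i y e * dtwo (ζ i) y e)
    (fun _ _ => 0) (fun i y hy => ?_)]
  · simp [PU.int]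
  · refine Finset.sum_eq_zero fun e _ => ?_
    rw [dtwo_of_closed (ζ i) _ (P.c i).open_target (hζ.1 i) (hζ.2.1 i) y hy (hc i y hy) e,
      mul_zero]

/-- PIECE QG3. Subtracting an exact form does not change the square of a closed form. PROOF.
`parts` twice (`dtwo_of_closed`, `closed_dd`), bilinearity and symmetry of `wedge`. -/
theorem square_sub [T2Space X] [CompactSpace X] (P : Bundle X) [Fintype P.ι] (R : PU P)
    (hP : P.PositiveDefinite) (ζ : P.ι → E4 → Fin 4 → Fin 4 → ℝ) (hζ : IsTwo P ζ)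
    (hc : ∀ i, ∀ y ∈ (P.c i).target, Bundle.ClosedAt (ζ i) y)
    (a : P.ι → E4 → Fin 4 → ℝ) (ha : IsOne P a) :
    R.int (fun i y => wedge (ζ i y) (ζ i y)) =
      R.int (fun i y => wedge (fun l m => ζ i y l m - dd (a i) y l m)
        (fun l m => ζ i y l m - dd (a i) y l m)) := by
  have h1 := qg_zero P R hP ζ hζ hc a ha
  have h2 := qg_zero P R hP (fun i => dd (a i)) (dd_two P a ha)
    (fun i y hy => closed_dd (a i) _ (P.c i).open_target (ha.1 i) y hy) a ha
  have s1 : ∀ i, ContinuousOn (fun y => wedge (ζ i y) (ζ i y)) (P.c i).target := fun i =>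
    (sm_wedge (qg_sm_two hζ i) (qg_sm_two hζ i)).continuousOn
  have s2 : ∀ i, ContinuousOn (fun y => wedge (dd (a i) y) (dd (a i) y)) (P.c i).target :=
    fun i => (sm_wedge (qg_sm_dd ha i) (qg_sm_dd ha i)).continuousOn
  have s3 : ∀ i, ContinuousOn (fun y => wedge (dd (a i) y) (ζ i y)) (P.c i).target := fun i =>
    (sm_wedge (qg_sm_dd ha i) (qg_sm_two hζ i)).continuousOn
  have s4 : ∀ i, ContinuousOn (fun y => wedge (fun l m => ζ i y l m - dd (a i) y l m)
      (fun l m => ζ i y l m - dd (a i) y l m)) (P.c i).target := fun i =>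
    (sm_wedge (fun l m => (qg_sm_two hζ i l m).sub (qg_sm_dd ha i l m))
      (fun l m => (qg_sm_two hζ i l m).sub (qg_sm_dd ha i l m))).continuousOn
  have e1 := qg_int_add P R _ _ s1 s2
  have e2 := qg_int_add P R _ _ s3 s3
  have s5 : ∀ i, ContinuousOn (fun y => wedge (dd (a i) y) (ζ i y) + wedge (dd (a i) y) (ζ i y))
      (P.c i).target := fun i => (s3 i).add (s3 i)
  have e3 := qg_int_add P R _ _ s4 s5
  have e4 : R.int (fun i y => wedge (ζ i y) (ζ i y) + wedge (dd (a i) y) (dd (a i) y)) =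
      R.int (fun i y => wedge (fun l m => ζ i y l m - dd (a i) y l m)
        (fun l m => ζ i y l m - dd (a i) y l m) +
        (wedge (dd (a i) y) (ζ i y) + wedge (dd (a i) y) (ζ i y))) := by
    refine qg_int_congr P R _ _ fun i y _ => ?_
    simp only [wedge]
    ring
  rw [e1, e3, e2, h1] at e4
  rw [h2] at e4
  linarith

private theorem qg_loc [T2Space X] [CompactSpace X] (P : Bundle X) [Fintype P.ι] (R : PU P)
    (hP : P.PositiveDefinite) (i : P.ι) :
    ∃ C : ℝ, 0 ≤ C ∧ ∀ ζ : P.ι → E4 → Fin 4 → Fin 4 → ℝ, IsTwo P ζ →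
      (∫ y in (P.c i).target, R.rh i i y * wedge (ζ i y) (ζ i y)) ≤
      C * ∫ y in (P.c i).target, R.rh i i y * ∑ a, sf (P.A i) (ζ i) y a ^ 2 := by
  have hU : IsOpen (P.c i).target := (P.c i).open_target
  set K : Set E4 := (P.c i) '' tsupport (R.ρ i) with hKdef
  have hK : IsCompact K :=
    (isClosed_tsupport (R.ρ i)).isCompact.image_of_continuousOn
      ((P.c i).continuousOn.mono (R.supp i))
  have hKU : K ⊆ (P.c i).target := by
    rintro _ ⟨x, hx, rfl⟩
    exact (P.c i).map_source (R.supp i hx)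
  have h0 : ∀ y ∈ (P.c i).target \ K, R.rh i i y = 0 := by
    intro y hy
    by_contra hne
    apply hy.2
    refine ⟨(P.c i).symm y, subset_tsupport _ hne, (P.c i).right_inv hy.1⟩
  have hrn : ∀ y, 0 ≤ R.rh i i y := fun y => R.nonneg i _
  obtain ⟨C, hC, hCq⟩ := gram_bound (P.A i) _ hU (P.A_smooth i) K hK hKU
  refine ⟨C, hC, fun ζ hζ => ?_⟩
  have hs := sf_sec P hP ζ hζ
  have i1 := qg_integrable P R i _ (sm_wedge (qg_sm_two hζ i) (qg_sm_two hζ i)).continuousOn
  have i2 := qg_integrable P R i (fun y => ∑ a, sf (P.A i) (ζ i) y a ^ 2)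
    (ContDiffOn.sum fun a _ => (contDiffOn_pi.mp (hs.1 i) a).pow 2).continuousOn
  rw [← integral_const_mul]
  refine setIntegral_mono_on i1 (i2.const_mul C) hU.measurableSet ?_
  intro y hy
  by_cases hyK : y ∈ K
  · have e1 := wedge_le (curv (P.A i) y) (skew_curv _ _) (hP i y hy) (ζ i y) (hζ.2.1 i y hy)
    have e2 := hCq y hyK (sdp (curv (P.A i) y) (ζ i y))
    have e3 := mul_le_mul_of_nonneg_left (e1.trans e2) (hrn y)
    calc R.rh i i y * wedge (ζ i y) (ζ i y) ≤ _ := e3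
      _ = C * (R.rh i i y * ∑ a, sf (P.A i) (ζ i) y a ^ 2) := by
        unfold sf
        ring
  · simp only [h0 y ⟨hy, hyK⟩, zero_mul, mul_zero, le_refl]

/-- PIECE QG4. PROOF. `wedge_le`, `gram_bound`. -/
theorem square_le [T2Space X] [CompactSpace X] (P : Bundle X) [Fintype P.ι] (R : PU P)
    (hP : P.PositiveDefinite) :
    ∃ C : ℝ, 0 ≤ C ∧ ∀ ζ : P.ι → E4 → Fin 4 → Fin 4 → ℝ, IsTwo P ζ →
      R.int (fun i y => wedge (ζ i y) (ζ i y)) ≤ C * R.nsq (fun i => sf (P.A i) (ζ i)) := by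
  classical
  choose C hC hloc using qg_loc P R hP
  have hC0n : 0 ≤ ∑ i, C i := Finset.sum_nonneg fun i _ => hC i
  have hC0l : ∀ i, C i ≤ ∑ i, C i := fun i =>
    Finset.single_le_sum (fun j _ => hC j) (Finset.mem_univ i)
  refine ⟨∑ i, C i, hC0n, fun ζ hζ => ?_⟩
  unfold PU.nsq PU.int
  rw [Finset.mul_sum]
  refine Finset.sum_le_sum fun i _ => ?_
  have hn : 0 ≤ ∫ y in (P.c i).target, R.rh i i y * ∑ a, sf (P.A i) (ζ i) y a ^ 2 :=
    setIntegral_nonneg (P.c i).open_target.measurableSet fun y _ =>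
      mul_nonneg (R.nonneg i _) (Finset.sum_nonneg fun _ _ => sq_nonneg _)
  exact (hloc i ζ hζ).trans (mul_le_mul_of_nonneg_right (hC0l i) hn)

end

end Pool.Agent.Helper8.DC
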