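import Pool.Agent.Helper8.DC.QF

set_option autoImplicit false

open scoped Manifold ContDiff
open MeasureTheory

namespace Pool.Agent.Helper8.DC

noncomputable section

variable {X : Type} [TopologicalSpace X] [ChartedSpace E4 X] [IsManifold (𝓡 4) ∞ X]

/-- On the overlap of the charts `i` and `j` the extension is given by the formula. -/
theorem qh1_of_mem (P : Bundle X) (i j : P.ι) (χ : E4 → R3) {y : E4} (hy : y ∈ P.ov i j) :
    ext P i χ j y = (P.g i j y).transpose.mulVec (χ (P.tr i j y)) := by
  unfold ext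
  rw [if_pos hy]

theorem qh1_of_notMem (P : Bundle X) (i j : P.ι) (χ : E4 → R3) {y : E4} (hy : y ∉ P.ov i j) :
    ext P i χ j y = 0 := by
  unfold ext
  rw [if_neg hy]

/-- Away from the compact set `(c i).symm '' K` the extension vanishes. -/
theorem qh1_zero (P : Bundle X) (i j : P.ι) (χ : E4 → R3) (K : Set E4)
    (h0 : ∀ y ∉ K, χ y = 0) {y : E4}
    (hn : (P.c j).symm y ∉ (P.c i).symm '' K) : ext P i χ j y = 0 := by
  by_cases hy : y ∈ P.ov i j
  · rw [qh1_of_mem P i j χ hy, h0 (P.tr i j y), Matrix.mulVec_zero]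
    intro hK
    exact hn ⟨_, hK, (P.c i).left_inv hy.2⟩
  · exact qh1_of_notMem P i j χ hy

theorem qh1_gg (P : Bundle X) (i j : P.ι) (y : E4) (hy : y ∈ P.ov i j) :
    P.g i j y * (P.g i j y).transpose = 1 := by
  have h := (Matrix.mem_specialOrthogonalGroup_iff.mp (P.g_mem i j y hy)).1
  rw [Matrix.mem_orthogonalGroup_iff] at h
  simpa [Matrix.star_eq_conjTranspose] using h

theorem qh1_smooth (P : Bundle X) (i j : P.ι) (χ : E4 → R3) (hχ : ContDiff ℝ ∞ χ) :
    ContDiffOn ℝ ∞ (fun y => (P.g i j y).transpose.mulVec (χ (P.tr i j y))) (P.ov i j) := by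
  have h1 : ContDiffOn ℝ ∞ (fun y => χ (P.tr i j y)) (P.ov i j) :=
    hχ.comp_contDiffOn (tr_smooth P i j)
  rw [contDiffOn_pi]
  intro a
  simp only [Matrix.mulVec, dotProduct, Matrix.transpose_apply]
  exact ContDiffOn.sum fun b _ => (P.g_smooth i j b a).mul (contDiffOn_pi.mp h1 b)

/-- PIECE QH1. PROOF. On the overlap the formula is smooth and compatible by the cocycle
condition; near a point of `target j` which is not in the overlap `ov i j`, or is in it but with
`tr y ∉ K`, the function vanishes (`K` compact in the target of `i`, `X` Hausdorff: the set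
`(c i).symm '' K` is compact, hence closed in `X`). The derivative is not needed. -/
theorem ext_sec [T2Space X] (P : Bundle X) (i : P.ι) (χ : E4 → R3) (hχ : ContDiff ℝ ∞ χ)
    (K : Set E4) (hK : IsCompact K) (hKt : K ⊆ (P.c i).target) (h0 : ∀ y ∉ K, χ y = 0) :
    IsSec P (ext P i χ) := by
  refine ⟨fun j y hy => ?_, fun j k y hy => ?_⟩
  · by_cases ho : y ∈ P.ov i j
    · have hn : P.ov i j ∈ nhds y := (ov_open P i j).mem_nhds ho
      have h1 : ContDiffAt ℝ ∞ (fun z => (P.g i j z).transpose.mulVec (χ (P.tr i j z))) y :=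
        (qh1_smooth P i j χ hχ).contDiffAt hn
      have h2 : ext P i χ j =ᶠ[nhds y]
          fun z => (P.g i j z).transpose.mulVec (χ (P.tr i j z)) := by
        filter_upwards [hn] with z hz
        exact qh1_of_mem P i j χ hz
      exact (h1.congr_of_eventuallyEq h2).contDiffWithinAt
    · have hC : IsClosed ((P.c i).symm '' K) :=
        (hK.image_of_continuousOn ((P.c i).continuousOn_symm.mono hKt)).isClosed
      have hyn : (P.c j).symm y ∉ (P.c i).symm '' K := by
        rintro ⟨w, hw, hwy⟩
        exact ho ⟨hy, by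
          rw [Set.mem_preimage, ← hwy]
          exact (P.c i).map_target (hKt hw)⟩
      have hU : IsOpen ((P.c j).target ∩ (P.c j).symm ⁻¹' ((P.c i).symm '' K)ᶜ) :=
        (P.c j).isOpen_inter_preimage_symm hC.isOpen_compl
      have hn : (P.c j).target ∩ (P.c j).symm ⁻¹' ((P.c i).symm '' K)ᶜ ∈ nhds y :=
        hU.mem_nhds ⟨hy, hyn⟩
      have h2 : ext P i χ j =ᶠ[nhds y] fun _ => 0 := by
        filter_upwards [hn] with z hz
        exact qh1_zero P i j χ K h0 hz.2
      exact (contDiffAt_const.congr_of_eventuallyEq h2).contDiffWithinAt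
  · have hs : (P.c j).symm (P.tr j k y) = (P.c k).symm y := (P.c j).left_inv hy.2
    have ht : P.tr j k y ∈ (P.c j).target := tr_mem P j k y hy
    by_cases ho : (P.c k).symm y ∈ (P.c i).source
    · have hk : y ∈ P.ov i k := ⟨hy.1, ho⟩
      have hj : P.tr j k y ∈ P.ov i j := ⟨ht, by rw [Set.mem_preimage, hs]; exact ho⟩
      have htt : P.tr i j (P.tr j k y) = P.tr i k y := by
        show (P.c i) ((P.c j).symm (P.tr j k y)) = (P.c i) ((P.c k).symm y)
        rw [hs]
      have hc : P.g i j (P.tr j k y) * P.g j k y = P.g i k y :=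
        P.g_cocycle i j k y ⟨hy.1, ho, hy.2⟩
      rw [qh1_of_mem P i j χ hj, qh1_of_mem P i k χ hk, htt, ← hc, Matrix.transpose_mul,
        Matrix.mulVec_mulVec, ← Matrix.mul_assoc, qh1_gg P j k y hy, Matrix.one_mul]
    · have hk : y ∉ P.ov i k := fun h => ho h.2
      have hj : P.tr j k y ∉ P.ov i j := fun h => ho (by
        have h2 := h.2
        rwa [Set.mem_preimage, hs] at h2)
      rw [qh1_of_notMem P i j χ hj, qh1_of_notMem P i k χ hk, Matrix.mulVec_zero]

theorem ext1_one_jac_smooth (P : Bundle X) (i j : P.ι) (n m : Fin 4) :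
    ContDiffOn ℝ ∞ (fun z => jac P i j z n m) (P.ov i j) := by
  have h := sm_pd m (ov_open P i j) (tr_smooth P i j)
  exact ((EuclideanSpace.proj (𝕜 := ℝ) n).contDiff (n := ∞)).comp_contDiffOn h

theorem ext1_one_back (P : Bundle X) (k j : P.ι) (y : E4) (hy : y ∈ P.ov k j) :
    (P.c k).symm (P.tr k j y) = (P.c j).symm y := by
  unfold Bundle.tr
  exact (P.c k).left_inv hy.2

theorem ext1_one_ov (P : Bundle X) (i k j : P.ι) (y : E4) (hy : y ∈ P.ov k j) :
    P.tr k j y ∈ P.ov i k ↔ y ∈ P.ov i j := by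
  have hb := ext1_one_back P k j y hy
  constructor
  · intro h
    refine ⟨hy.1, ?_⟩
    have h2 := h.2
    rw [Set.mem_preimage, hb] at h2
    exact h2
  · intro h
    refine ⟨tr_mem P k j y hy, ?_⟩
    rw [Set.mem_preimage, hb]
    exact h.2

theorem ext1_one_tr (P : Bundle X) (i k j : P.ι) (y : E4) (hy : y ∈ P.ov k j) :
    P.tr i k (P.tr k j y) = P.tr i j y := by
  have hb := ext1_one_back P k j y hy
  change (P.c i) ((P.c k).symm (P.tr k j y)) = (P.c i) ((P.c j).symm y)
  rw [hb]

theorem ext1_one_chain (P : Bundle X) (i k j : P.ι) (y : E4) (hy : y ∈ P.ov k j)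
    (hy' : y ∈ P.ov i j) (n m : Fin 4) :
    jac P i j y n m = ∑ p, jac P i k (P.tr k j y) n p * jac P k j y p m := by
  have hik : P.tr k j y ∈ P.ov i k := (ext1_one_ov P i k j y hy).2 hy'
  have d1 : DifferentiableAt ℝ (P.tr k j) y :=
    ((tr_smooth P k j).contDiffAt ((ov_open P k j).mem_nhds hy)).differentiableAt (by simp)
  have d2 : DifferentiableAt ℝ (P.tr i k) (P.tr k j y) :=
    ((tr_smooth P i k).contDiffAt ((ov_open P i k).mem_nhds hik)).differentiableAt (by simp)
  have he : P.tr i j =ᶠ[nhds y] fun z => P.tr i k (P.tr k j z) := by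
    filter_upwards [(ov_open P k j).mem_nhds hy] with z hz
    exact (ext1_one_tr P i k j z hz).symm
  have hc := pj_chain m d2 d1
  rw [← pj_congr m he] at hc
  have hc2 := congrArg (fun v : E4 => v n) hc
  unfold jac
  simp only at hc2
  rw [hc2]
  simp only [WithLp.ofLp_sum, WithLp.ofLp_smul, Finset.sum_apply, Pi.smul_apply, smul_eq_mul]
  exact Finset.sum_congr rfl fun p _ => mul_comm _ _

/-- PIECE QH2. The same for 1-forms (chain rule for `jac`: `jac i k = jac i j * jac j k`). -/
theorem ext1_one [T2Space X] (P : Bundle X) (i : P.ι) (b : E4 → Fin 4 → ℝ)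
    (hb : ContDiff ℝ ∞ b)
    (K : Set E4) (hK : IsCompact K) (hKt : K ⊆ (P.c i).target) (h0 : ∀ y ∉ K, b y = 0) :
    IsOne P (ext1 P i b) := by
  refine ⟨fun j => ?_, fun k j y hy m => ?_⟩
  · intro y hy
    by_cases hyo : y ∈ P.ov i j
    · refine ContDiffAt.contDiffWithinAt ?_
      have hs : ContDiffOn ℝ ∞ (fun z => fun m => ∑ n, jac P i j z n m * b (P.tr i j z) n)
          (P.ov i j) := by
        rw [contDiffOn_pi]
        intro m
        refine ContDiffOn.sum fun n _ => ?_
        refine (ext1_one_jac_smooth P i j n m).mul ?_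
        have h1 : ContDiffOn ℝ ∞ (fun z => b (P.tr i j z)) (P.ov i j) :=
          hb.comp_contDiffOn (tr_smooth P i j)
        exact contDiffOn_pi.mp h1 n
      have hs2 := hs.contDiffAt ((ov_open P i j).mem_nhds hyo)
      refine hs2.congr_of_eventuallyEq ?_
      filter_upwards [(ov_open P i j).mem_nhds hyo] with z hz
      funext m
      simp only [ext1, if_pos hz]
    · refine ContDiffAt.contDiffWithinAt ?_
      have hKc : IsCompact ((P.c i).symm '' K) :=
        hK.image_of_continuousOn ((P.c i).continuousOn_symm.mono hKt)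
      have hKo : IsOpen ((P.c i).symm '' K)ᶜ := hKc.isClosed.isOpen_compl
      have hKs : (P.c i).symm '' K ⊆ (P.c i).source := by
        rintro _ ⟨z, hz, rfl⟩
        exact (P.c i).map_target (hKt hz)
      have hW : IsOpen ((P.c j).target ∩ (P.c j).symm ⁻¹' ((P.c i).symm '' K)ᶜ) :=
        (P.c j).isOpen_inter_preimage_symm hKo
      have hyW : y ∈ (P.c j).target ∩ (P.c j).symm ⁻¹' ((P.c i).symm '' K)ᶜ :=
        ⟨hy, fun h => hyo ⟨hy, hKs h⟩⟩
      have hz : ext1 P i b j =ᶠ[nhds y] fun _ => 0 := by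
        filter_upwards [hW.mem_nhds hyW] with z hz
        funext m
        by_cases hzo : z ∈ P.ov i j
        · have hzK : P.tr i j z ∉ K := by
            intro h
            exact hz.2 ⟨P.tr i j z, h, ext1_one_back P i j z hzo⟩
          simp only [ext1, if_pos hzo, h0 _ hzK]
          simp
        · simp only [ext1, if_neg hzo]
          rfl
      exact contDiffAt_const.congr_of_eventuallyEq hz
  · by_cases hyo : y ∈ P.ov i j
    · have hik : P.tr k j y ∈ P.ov i k := (ext1_one_ov P i k j y hy).2 hyo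
      simp only [ext1, if_pos hyo, if_pos hik, ext1_one_tr P i k j y hy,
        ext1_one_chain P i k j y hy hyo, Finset.sum_mul, Finset.mul_sum]
      rw [Finset.sum_comm]
      refine Finset.sum_congr rfl fun p _ => Finset.sum_congr rfl fun n _ => ?_
      ring
    · have hik : P.tr k j y ∉ P.ov i k := fun h => hyo ((ext1_one_ov P i k j y hy).1 h)
      simp only [ext1, if_neg hyo, if_neg hik]
      simp

/-- PIECE QH3. In its own chart `ext` is the given function. PROOF. `ov i i = target i`,
`tr i i y = y`, `g i i y = 1` (cocycle), `jac i i y = 1`. -/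
theorem ext_self (P : Bundle X) (i : P.ι) (χ : E4 → R3) (y : E4) (hy : y ∈ (P.c i).target) :
    ext P i χ i y = χ y := by
  have ho : y ∈ P.ov i i := ⟨hy, (P.c i).map_target hy⟩
  have ht : P.tr i i y = y := (P.c i).right_inv hy
  have hc : P.g i i (P.tr i i y) * P.g i i y = P.g i i y :=
    P.g_cocycle i i i y ⟨hy, ho.2, ho.2⟩
  have h1 : P.g i i y = 1 := by
    rw [ht] at hc
    calc P.g i i y = P.g i i y * (P.g i i y * (P.g i i y).transpose) := by
          rw [qh1_gg P i i y ho, Matrix.mul_one]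
      _ = 1 := by rw [← Matrix.mul_assoc, hc, qh1_gg P i i y ho]
  rw [qh1_of_mem P i i χ ho, ht, h1, Matrix.transpose_one, Matrix.one_mulVec]

theorem ext1_self (P : Bundle X) (i : P.ι) (b : E4 → Fin 4 → ℝ) (y : E4)
    (hy : y ∈ (P.c i).target) (m : Fin 4) : ext1 P i b i y m = b y m := by
  have hyo : y ∈ P.ov i i := ⟨hy, (P.c i).map_target hy⟩
  have ht : P.tr i i y = y := (P.c i).right_inv hy
  have he : P.tr i i =ᶠ[nhds y] fun z => z := by
    filter_upwards [(P.c i).open_target.mem_nhds hy] with z hz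
    exact (P.c i).right_inv hz
  have hj : ∀ n, jac P i i y n m = if n = m then 1 else 0 := by
    intro n
    unfold jac
    rw [pj_congr m he]
    unfold pd
    rw [fderiv_fun_id]
    simp [Pi.single_apply]
  simp only [ext1, if_pos hyo, ht, hj]
  simp

end

end Pool.Agent.Helper8.DC
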