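import Pool.Agent.Helper8.DC.QH

set_option autoImplicit false

open scoped Manifold ContDiff
open MeasureTheory

namespace Pool.Agent.Helper8.DC

noncomputable section

variable {X : Type} [TopologicalSpace X] [ChartedSpace E4 X] [IsManifold (𝓡 4) ∞ X]

/-- One summand of `int_local`. -/
theorem qi1_piece (P : Bundle X) [Fintype P.ι] (R : PU P)
    (hP : P.PositiveDefinite) (i j : P.ι) (f : P.ι → E4 → ℝ)
    (hov : ∀ y ∈ P.ov i j, f j y = (jac P i j y).det * f i (P.tr i j y))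
    (hz : ∀ y ∈ (P.c j).target, y ∉ P.ov i j → f j y = 0) :
    ∫ y in (P.c j).target, R.rh j j y * f j y =
      ∫ y in (P.c i).target, R.ρ j ((P.c i).symm y) * f i y := by
  have hSo : IsOpen (P.ov i j) := ov_open P i j
  have hL : ∫ y in (P.c j).target, R.rh j j y * f j y =
      ∫ y in P.ov i j, R.rh j j y * f j y := by
    refine setIntegral_eq_of_subset_of_forall_sdiff_eq_zero (P.c j).open_target.measurableSet
      (fun y hy => hy.1) ?_
    intro y hy
    rw [hz y hy.1 hy.2, mul_zero]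
  have hR : ∫ y in (P.c i).target, R.ρ j ((P.c i).symm y) * f i y =
      ∫ y in P.ov j i, R.ρ j ((P.c i).symm y) * f i y := by
    refine setIntegral_eq_of_subset_of_forall_sdiff_eq_zero (P.c i).open_target.measurableSet
      (fun y hy => hy.1) ?_
    intro y hy
    have hx : (P.c i).symm y ∉ (P.c j).source := fun h => hy.2 ⟨hy.1, h⟩
    have h0 : R.ρ j ((P.c i).symm y) = 0 :=
      image_eq_zero_of_notMem_tsupport (fun h => hx (R.supp j h))
    rw [h0, zero_mul]
  rw [hL, hR]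
  have himg : P.tr i j '' P.ov i j = P.ov j i :=
    ((P.c j).symm.trans (P.c i)).image_source_eq_target
  have hinj : Set.InjOn (P.tr i j) (P.ov i j) := ((P.c j).symm.trans (P.c i)).injOn
  have hd : ∀ y ∈ P.ov i j, DifferentiableAt ℝ (P.tr i j) y := fun y hy =>
    ((tr_smooth P i j).contDiffAt (hSo.mem_nhds hy)).differentiableAt (by simp)
  rw [← himg, integral_image_eq_integral_abs_det_fderiv_smul volume hSo.measurableSet
    (fun y hy => (hd y hy).hasFDerivAt.hasFDerivWithinAt) hinj]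
  refine setIntegral_congr_fun hSo.measurableSet ?_
  intro y hy
  have hdet : (fderiv ℝ (P.tr i j) y).det = (jac P i j y).det := det_eq P i j y
  have hpos := det_pos P hP i j y hy
  have hinv : (P.c i).symm (P.tr i j y) = (P.c j).symm y := (P.c i).left_inv hy.2
  show R.rh j j y * f j y = |(fderiv ℝ (P.tr i j) y).det| •
    (R.ρ j ((P.c i).symm (P.tr i j y)) * f i (P.tr i j y))
  rw [hdet, abs_of_pos hpos, hinv, hov y hy, smul_eq_mul, PU.rh]
  ring

theorem qi1_le_one (P : Bundle X) [Fintype P.ι] (R : PU P) (j : P.ι) (x : X) : R.ρ j x ≤ 1 := by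
  rw [← R.one x]
  exact Finset.single_le_sum (f := fun k => R.ρ k x) (fun k _ => R.nonneg k x)
    (Finset.mem_univ j)

/-- PIECE QI1. Local-global principle: a density supported in one chart. PROOF. As `swap` in
Helper64/DC/Stokes.lean: for every `j` the integral over `target j` of `ρ_j f_j` is the integral of
`(ρ_j ∘ (c i).symm) f_i` over `target i` (change of variables on the overlap, `det > 0`), and
`∑_j ρ_j = 1`. -/
theorem int_local [T2Space X] [CompactSpace X] (P : Bundle X) [Fintype P.ι] (R : PU P)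
    (hP : P.PositiveDefinite) (i : P.ι) (f : P.ι → E4 → ℝ)
    (K : Set E4) (hK : IsCompact K) (hKt : K ⊆ (P.c i).target)
    (h0 : ∀ y ∉ K, f i y = 0) (hint : Integrable (f i) volume)
    (hov : ∀ j, ∀ y ∈ P.ov i j, f j y = (jac P i j y).det * f i (P.tr i j y))
    (hz : ∀ j, ∀ y ∈ (P.c j).target, y ∉ P.ov i j → f j y = 0) :
    R.int f = ∫ y, f i y := by
  have h1 : R.int f = ∑ j, ∫ y in (P.c i).target, R.ρ j ((P.c i).symm y) * f i y := by
    unfold PU.int
    exact Finset.sum_congr rfl fun j _ => qi1_piece P R hP i j f (hov j) (hz j)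
  have hI : ∀ j, IntegrableOn (fun y => R.ρ j ((P.c i).symm y) * f i y) (P.c i).target := by
    intro j
    have hc : ContinuousOn (fun y => R.ρ j ((P.c i).symm y)) (P.c i).target :=
      (R.smooth j).continuous.comp_continuousOn (P.c i).continuousOn_symm
    refine Integrable.mono' (hint.integrableOn (s := (P.c i).target)).norm
      ((hc.aestronglyMeasurable (P.c i).open_target.measurableSet).mul
        hint.integrableOn.aestronglyMeasurable) ?_
    refine Filter.Eventually.of_forall fun y => ?_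
    rw [norm_mul]
    refine mul_le_of_le_one_left (norm_nonneg _) ?_
    rw [Real.norm_of_nonneg (R.nonneg j _)]
    exact qi1_le_one P R j _
  rw [h1, ← integral_finsetSum _ (fun j _ => hI j)]
  have h2 : ∀ y, ∑ j, R.ρ j ((P.c i).symm y) * f i y = f i y := by
    intro y
    rw [← Finset.sum_mul, R.one, one_mul]
  simp only [h2]
  exact setIntegral_eq_integral_of_forall_compl_eq_zero fun y hy => h0 y fun h => hy (hKt h)

private lemma cv_bound_aux [T2Space X] (P : Bundle X) [Fintype P.ι] (R : PU P)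
    (i j : P.ι) (K : Set E4) (hK : IsCompact K) (hKt : K ⊆ (P.c i).target) :
    ∃ C : ℝ, 0 ≤ C ∧ ∀ z ∈ P.ov j i, z ∈ K →
      |(fderiv ℝ (P.tr j i) z).det| * R.ρ j ((P.c i).symm z) ≤ C := by
  have hSo : IsOpen (P.ov j i) := ((P.c i).symm.trans (P.c j)).open_source
  have hσC : ContDiffOn ℝ ∞ (P.tr j i) (P.ov j i) :=
    Pool.Agent.Helper64.DC.contDiffOn_trans (P.c_mem i) (P.c_mem j)
  have hdC : ContinuousOn (fderiv ℝ (P.tr j i)) (P.ov j i) :=
    hσC.continuousOn_fderiv_of_isOpen hSo (by simp)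
  have hrC : ContinuousOn (fun z => R.ρ j ((P.c i).symm z)) (P.c i).target :=
    (Pool.Agent.Helper64.DC.contDiffOn_symm (P.c_mem i) (R.smooth j)).continuousOn
  set K1 : Set E4 := K ∩ (P.c i).symm ⁻¹' tsupport (R.ρ j) with hK1
  have hK1c : IsCompact K1 := by
    refine hK.of_isClosed_subset ?_ Set.inter_subset_left
    exact ((P.c i).symm.continuousOn.mono hKt).preimage_isClosed_of_isClosed hK.isClosed
      (isClosed_tsupport _)
  have hK1S : K1 ⊆ P.ov j i := fun z hz => ⟨hKt hz.1, R.supp j hz.2⟩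
  have hcont : ContinuousOn
      (fun z => |(fderiv ℝ (P.tr j i) z).det| * R.ρ j ((P.c i).symm z)) K1 := by
    refine ContinuousOn.mul ?_ (hrC.mono (fun z hz => hKt hz.1))
    exact (ContinuousLinearMap.continuous_det.comp_continuousOn (hdC.mono hK1S)).abs
  obtain ⟨C, hC⟩ := hK1c.exists_bound_of_continuousOn hcont
  refine ⟨max C 0, le_max_right _ _, fun z hz hzK => ?_⟩
  by_cases hs : (P.c i).symm z ∈ tsupport (R.ρ j)
  · exact (le_abs_self _).trans ((hC z ⟨hzK, hs⟩).trans (le_max_left _ _))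
  · rw [image_eq_zero_of_notMem_tsupport hs, mul_zero]
    exact le_max_right _ _

/-- PIECE QI2. Change of variables bound. PROOF. `∫_(ov) ρ_j(y) h(tr y) dy =
∫ ρ_j h |det d(tr)⁻¹| ≤ C ∫ h`, the determinant being bounded on the compact set
`c_i (K' ∩ supp ρ_j)`. -/
theorem cv_bound [T2Space X] [CompactSpace X] (P : Bundle X) [Fintype P.ι] (R : PU P)
    (hP : P.PositiveDefinite) (i j : P.ι) (K : Set E4) (hK : IsCompact K)
    (hKt : K ⊆ (P.c i).target) :
    ∃ C : ℝ, 0 ≤ C ∧ ∀ h : E4 → ℝ, Continuous h → (∀ y, 0 ≤ h y) → (∀ y ∉ K, h y = 0) →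
      ∫ y in P.ov i j, R.rh j j y * h (P.tr i j y) ≤ C * ∫ y, h y := by
  obtain ⟨C, hC0, hC⟩ := cv_bound_aux P R i j K hK hKt
  refine ⟨C, hC0, fun h hc hn hz => ?_⟩
  have hSo : IsOpen (P.ov j i) := ((P.c i).symm.trans (P.c j)).open_source
  have himg : P.tr j i '' P.ov j i = P.ov i j :=
    ((P.c i).symm.trans (P.c j)).image_source_eq_target
  have hinj : Set.InjOn (P.tr j i) (P.ov j i) := ((P.c i).symm.trans (P.c j)).injOn
  have hσC : ContDiffOn ℝ ∞ (P.tr j i) (P.ov j i) :=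
    Pool.Agent.Helper64.DC.contDiffOn_trans (P.c_mem i) (P.c_mem j)
  have hσd : ∀ z ∈ P.ov j i, DifferentiableAt ℝ (P.tr j i) z := fun z hz =>
    (hσC.contDiffAt (hSo.mem_nhds hz)).differentiableAt (by simp)
  have hhi : Integrable h := by
    refine hc.integrable_of_hasCompactSupport (HasCompactSupport.intro hK hz)
  rw [← himg, integral_image_eq_integral_abs_det_fderiv_smul volume hSo.measurableSet
    (fun z hz => (hσd z hz).hasFDerivAt.hasFDerivWithinAt) hinj]
  have hval : ∀ z ∈ P.ov j i, |(fderiv ℝ (P.tr j i) z).det| •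
      (R.rh j j (P.tr j i z) * h (P.tr i j (P.tr j i z))) =
      |(fderiv ℝ (P.tr j i) z).det| * R.ρ j ((P.c i).symm z) * h z := by
    intro z hz
    have h1 : (P.c j).symm (P.tr j i z) = (P.c i).symm z := (P.c j).left_inv hz.2
    have h2 : P.tr i j (P.tr j i z) = z := by
      unfold Bundle.tr at h1 ⊢
      rw [h1]
      exact (P.c i).right_inv hz.1
    rw [h2]
    unfold PU.rh
    rw [h1, smul_eq_mul, mul_assoc]
  rw [setIntegral_congr_fun hSo.measurableSet hval, ← integral_const_mul]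
  have hle : ∫ z in P.ov j i, |(fderiv ℝ (P.tr j i) z).det| * R.ρ j ((P.c i).symm z) * h z ≤
      ∫ z in P.ov j i, C * h z := by
    refine integral_mono_of_nonneg ?_ (hhi.const_mul C).integrableOn ?_
    · exact Filter.Eventually.of_forall fun z =>
        mul_nonneg (mul_nonneg (abs_nonneg _) (R.nonneg _ _)) (hn z)
    · refine (ae_restrict_iff' hSo.measurableSet).2 (Filter.Eventually.of_forall fun z hz => ?_)
      by_cases hzK : z ∈ K
      · exact mul_le_mul_of_nonneg_right (hC z hz hzK) (hn z)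
      · show _ * h z ≤ C * h z
        rw [‹∀ y ∉ K, h y = 0› z hzK, mul_zero, mul_zero]
  refine hle.trans ?_
  exact setIntegral_le_integral (hhi.const_mul C)
    (Filter.Eventually.of_forall fun z => mul_nonneg hC0 (hn z))

private lemma ext_bound_rot (g : Matrix (Fin 3) (Fin 3) ℝ)
    (hg : g ∈ Matrix.specialOrthogonalGroup (Fin 3) ℝ) (v : R3) :
    ∑ a, (g.transpose.mulVec v) a ^ 2 = ∑ a, v a ^ 2 := by
  have h1 := (Matrix.mem_specialOrthogonalGroup_iff.mp hg).1
  have h2 : g * g.transpose = 1 := (Matrix.mem_orthogonalGroup_iff (Fin 3) ℝ).1 h1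
  have h3 : ∀ w : R3, ∑ a, w a ^ 2 = dotProduct w w := fun w => by
    unfold dotProduct
    exact Finset.sum_congr rfl fun a _ => sq _
  rw [h3, h3, Matrix.dotProduct_mulVec, Matrix.vecMul_transpose, Matrix.mulVec_mulVec, h2,
    Matrix.one_mulVec]

/-- PIECE QI3. PROOF. `|ext|^2 = |χ ∘ tr|^2` (rotation) and `cv_bound`, summed over `j`. -/
theorem ext_bound [T2Space X] [CompactSpace X] (P : Bundle X) [Fintype P.ι] (R : PU P)
    (hP : P.PositiveDefinite) (i : P.ι) (K : Set E4) (hK : IsCompact K)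
    (hKt : K ⊆ (P.c i).target) :
    ∃ C : ℝ, 0 ≤ C ∧ ∀ χ : E4 → R3, ContDiff ℝ ∞ χ → (∀ y ∉ K, χ y = 0) →
      R.nsq (ext P i χ) ≤ C * ∫ y, ∑ a, χ y a ^ 2 := by
  choose C hC0 hC using fun j => cv_bound P R hP i j K hK hKt
  refine ⟨∑ j, C j, Finset.sum_nonneg fun j _ => hC0 j, fun χ hχ h0 => ?_⟩
  unfold PU.nsq PU.int
  rw [Finset.sum_mul]
  refine Finset.sum_le_sum fun j _ => ?_
  have hc : Continuous fun y => ∑ a, χ y a ^ 2 :=
    continuous_finsetSum _ fun a _ => ((continuous_apply a).comp hχ.continuous).pow 2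
  refine le_trans (le_of_eq ?_) (hC j (fun y => ∑ a, χ y a ^ 2) hc
    (fun y => Finset.sum_nonneg fun a _ => sq_nonneg _)
    (fun y hy => by
      rw [h0 y hy]
      simp))
  have hSo : IsOpen (P.ov i j) := ((P.c j).symm.trans (P.c i)).open_source
  have hsub : P.ov i j ⊆ (P.c j).target := Set.inter_subset_left
  rw [setIntegral_eq_of_subset_of_forall_sdiff_eq_zero (P.c j).open_target.measurableSet hsub]
  · refine setIntegral_congr_fun hSo.measurableSet fun y hy => ?_
    show R.rh j j y * ∑ a, ext P i χ j y a ^ 2 = R.rh j j y * ∑ a, χ (P.tr i j y) a ^ 2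
    unfold ext
    rw [if_pos hy, ext_bound_rot _ (P.g_mem i j y hy)]
  · intro y hy
    show R.rh j j y * ∑ a, ext P i χ j y a ^ 2 = 0
    unfold ext
    rw [if_neg hy.2]
    simp

theorem qi4_DD_congr {A : E4 → Fin 4 → R3} {φ φ' : E4 → R3} {y : E4}
    (h : φ =ᶠ[nhds y] φ') (e : Fin 4) : DD A φ y e = DD A φ' y e := by
  unfold DD
  refine Finset.sum_congr rfl fun k _ => pj_congr k ?_
  filter_upwards [h] with z hz
  rw [hz]

theorem qi4_DD_zero {A : E4 → Fin 4 → R3} {φ : E4 → R3} {y : E4}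
    (h : ∀ᶠ z in nhds y, φ z = 0) (e : Fin 4) : DD A φ y e = 0 := by
  have h1 : φ =ᶠ[nhds y] fun _ => 0 := h
  rw [qi4_DD_congr h1 e]
  simp [DD, pd]

theorem qi4_sm_DD {U : Set E4} (hU : IsOpen U) {A : E4 → Fin 4 → R3} {φ : E4 → R3}
    (hA : ContDiffOn ℝ ∞ A U) (hφ : ContDiffOn ℝ ∞ φ U) (e : Fin 4) :
    ContDiffOn ℝ ∞ (fun y => DD A φ y e) U := by
  unfold DD
  refine ContDiffOn.sum fun k _ => sm_pd k hU (ContDiffOn.sum fun a _ => ?_)
  refine ContDiffOn.mul ?_ (contDiffOn_pi.mp hφ a)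
  unfold dual wedge3
  exact sm_wedge (fun _ _ => contDiffOn_const) (fun p q => contDiffOn_pi.mp (sm_curv hU hA p q) a)

/-- the trivial flat line -/
def qi4_flat (P : Bundle X) : P.Flat 1 where
  h := fun _ _ _ => 1
  h_const := fun _ _ _ _ => Filter.Eventually.of_forall fun _ => rfl
  h_mem := fun _ _ _ _ => one_mem _
  h_cocycle := fun _ _ _ _ _ => one_mul _

/-- a section of `E` as a section of `L ⊗ E` for the trivial flat line `L` -/
def qi4_sect (P : Bundle X) (φ : P.ι → E4 → R3) (h : IsSec P φ) : P.Sect (qi4_flat P) where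
  s := fun i y _ => φ i y
  smooth := fun i => contDiffOn_pi.2 fun _ => h.1 i
  compat := fun i j y hy r => by
    rw [h.2 i j y hy]
    simp [qi4_flat, Matrix.one_apply, Subsingleton.elim r 0]

theorem qi4_cov (P : Bundle X) (φ : P.ι → E4 → R3) (h : IsSec P φ) (i j : P.ι) (y : E4)
    (hy : y ∈ P.ov i j) (m : Fin 4) :
    ∑ n, jac P i j y n m • cov (P.A i) (φ i) (P.tr i j y) n =
      (P.g i j y).mulVec (cov (P.A j) (φ j) y m) := by
  have := cov_tr P (qi4_flat P) (qi4_sect P φ h) i j y hy 0 m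
  simpa [qi4_sect, qi4_flat] using this

theorem qi4_con_rot (R : Matrix (Fin 3) (Fin 3) ℝ)
    (hR : R ∈ Matrix.specialOrthogonalGroup (Fin 3) ℝ)
    (α : Fin 4 → R3) (F : Fin 4 → Fin 4 → R3) (β : Fin 4 → ℝ) :
    ∑ a, wedge3 (cm1 (fun m => R.mulVec (α m)) a) β (cmp (fun l m => R.mulVec (F l m)) a) =
      ∑ a, wedge3 (cm1 α a) β (cmp F a) := by
  have hR1 : R.transpose * R = 1 := by
    have := (Matrix.mem_specialOrthogonalGroup_iff.mp hR).1
    rw [Matrix.mem_orthogonalGroup_iff'] at this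
    simpa [Matrix.star_eq_conjTranspose] using this
  have e : ∀ a b, ∑ c, R c a * R c b = if a = b then 1 else 0 := by
    intro a b
    have := congrFun (congrFun hR1 a) b
    simpa [Matrix.mul_apply, Matrix.one_apply] using this
  have key : ∑ a, wedge3 (cm1 (fun m => R.mulVec (α m)) a) β
      (cmp (fun l m => R.mulVec (F l m)) a) =
      ∑ b, ∑ c, (∑ a, R a b * R a c) * wedge3 (cm1 α b) β (cmp F c) := by
    simp only [wedge3, wed, wedge, cm1, cmp, Matrix.mulVec, dotProduct, Fin.sum_univ_three]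
    ring
  rw [key]
  simp only [e]
  simp

theorem qi4_con_pull (T : Matrix (Fin 4) (Fin 4) ℝ) (α : Fin 4 → R3)
    (F : Fin 4 → Fin 4 → R3) (hF : Skew F) (n : Fin 4) :
    ∑ a, wedge3 (cm1 (fun m => ∑ k, T k m • α k) a) (fun m => T n m)
      (cmp (fun l m => ∑ k, ∑ p, (T k l * T p m) • F k p) a) = T.det * con α F n := by
  have h1 : ∀ b, cm1 (fun m => ∑ k, T k m • α k) b = fun m => ∑ k, T k m * cm1 α b k := by
    intro b; funext m; simp [cm1, Finset.sum_apply]
  have h2 : ∀ c, cmp (fun l m => ∑ k, ∑ p, (T k l * T p m) • F k p) c =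
      fun l m => ∑ k, ∑ p, T k l * T p m * cmp F c k p := by
    intro c; funext l m; simp [cmp, Finset.sum_apply]
  have h3 : (fun m => T n m) = fun m => ∑ k, T k m * (Pi.single n 1 : Fin 4 → ℝ) k := by
    funext m; simp [Pi.single_apply]
  have hs : ∀ c, ∀ l m, cmp F c l m = -cmp F c m l := by
    intro c l m
    have := congrFun (hF l m) c
    simpa [cmp] using this
  unfold con
  rw [Finset.mul_sum]
  refine Finset.sum_congr rfl fun a _ => ?_
  rw [h1, h2, h3]
  exact wedge3_pull T _ _ _ (hs a)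

theorem qi4_con_lin (T : Matrix (Fin 4) (Fin 4) ℝ) (α : Fin 4 → R3)
    (F : Fin 4 → Fin 4 → R3) (n : Fin 4) :
    ∑ a, wedge3 (cm1 α a) (fun m => T n m) (cmp F a) = ∑ l, T n l * con α F l := by
  unfold con
  have h : ∀ a, wedge3 (cm1 α a) (fun m => T n m) (cmp F a) =
      ∑ l, T n l * wedge3 (cm1 α a) (Pi.single l 1) (cmp F a) := by
    intro a
    rw [← wedge3_sum_right]
    congr 1
    funext m
    simp [Pi.single_apply]
  simp only [h]
  rw [Finset.sum_comm]
  refine Finset.sum_congr rfl fun l _ => ?_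
  rw [Finset.mul_sum]

/-- The transformation of `*d⟨φ, F⟩`. -/
theorem qi4_DD_tr (P : Bundle X) (φ : P.ι → E4 → R3) (h : IsSec P φ) (i j : P.ι) (y : E4)
    (hy : y ∈ P.ov i j) (n : Fin 4) :
    ∑ l, jac P i j y n l * DD (P.A j) (φ j) y l =
      (jac P i j y).det * DD (P.A i) (φ i) (P.tr i j y) n := by
  have e1 : ∀ l, DD (P.A j) (φ j) y l = con (cov (P.A j) (φ j) y) (curv (P.A j) y) l := fun l =>
    DD_eq (P.A j) (φ j) _ (P.c j).open_target (P.A_smooth j) (h.1 j) y hy.1 l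
  have e2 : DD (P.A i) (φ i) (P.tr i j y) n =
      con (cov (P.A i) (φ i) (P.tr i j y)) (curv (P.A i) (P.tr i j y)) n :=
    DD_eq (P.A i) (φ i) _ (P.c i).open_target (P.A_smooth i) (h.1 i) _ (tr_mem P i j y hy) n
  simp only [e1]
  rw [e2, ← qi4_con_pull _ _ _ (skew_curv _ _), ← qi4_con_lin]
  have a2 : (fun m => ∑ k, jac P i j y k m • cov (P.A i) (φ i) (P.tr i j y) k) =
      fun m => (P.g i j y).mulVec (cov (P.A j) (φ j) y m) := by
    funext m; exact qi4_cov P φ h i j y hy m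
  have a3 : (fun l m => ∑ k, ∑ p, (jac P i j y k l * jac P i j y p m) •
      curv (P.A i) (P.tr i j y) k p) = fun l m => (P.g i j y).mulVec (curv (P.A j) y l m) := by
    funext l m; exact curv_tr P i j y hy l m
  rw [a2, a3]
  exact (qi4_con_rot (P.g i j y) (P.g_mem i j y hy) _ _ _).symm

theorem qi4_DD_adj (P : Bundle X) (φ : P.ι → E4 → R3) (h : IsSec P φ)
    (hP : P.PositiveDefinite) (i j : P.ι) (y : E4) (hy : y ∈ P.ov i j) (l : Fin 4) :
    DD (P.A j) (φ j) y l =
      ∑ n, (jac P i j y).adjugate l n * DD (P.A i) (φ i) (P.tr i j y) n := by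
  have h1 : (jac P i j y).mulVec (DD (P.A j) (φ j) y) =
      (jac P i j y).det • DD (P.A i) (φ i) (P.tr i j y) := by
    funext n
    exact qi4_DD_tr P φ h i j y hy n
  have h2 : (jac P i j y).det • DD (P.A j) (φ j) y =
      (jac P i j y).det • (jac P i j y).adjugate.mulVec (DD (P.A i) (φ i) (P.tr i j y)) := by
    rw [← Matrix.mulVec_smul, ← h1, Matrix.mulVec_mulVec, Matrix.adjugate_mul, Matrix.smul_mulVec,
      Matrix.one_mulVec]
  have h3 := smul_right_injective _ (det_pos P hP i j y hy).ne' h2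
  rw [h3]
  rfl

theorem qi4_zero [T2Space X] (P : Bundle X) (i j : P.ι) (K : Set E4) (hK : IsCompact K)
    (hKt : K ⊆ (P.c i).target) (χ : E4 → R3) (h0 : ∀ y ∉ K, χ y = 0) (y : E4)
    (hy : y ∈ (P.c j).target) (hn : ¬ (y ∈ P.ov i j ∧ P.tr i j y ∈ K)) (e : Fin 4) :
    DD (P.A j) (ext P i χ j) y e = 0 := by
  refine qi4_DD_zero ?_ e
  have hc : IsClosed ((P.c i).symm '' K) :=
    (hK.image_of_continuousOn ((P.c i).continuousOn_symm.mono hKt)).isClosed
  have hyK : (P.c j).symm y ∉ (P.c i).symm '' K := by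
    rintro ⟨z, hz, hzy⟩
    apply hn
    have hs : (P.c j).symm y ∈ (P.c i).source := by
      rw [← hzy]
      exact (P.c i).map_target (hKt hz)
    refine ⟨⟨hy, hs⟩, ?_⟩
    show (P.c i) ((P.c j).symm y) ∈ K
    rw [← hzy, (P.c i).right_inv (hKt hz)]
    exact hz
  have hev : ∀ᶠ z in nhds y, (P.c j).symm z ∉ (P.c i).symm '' K :=
    ((P.c j).continuousAt_symm hy).eventually (hc.isOpen_compl.mem_nhds hyK)
  filter_upwards [hev] with z hz
  unfold ext
  split_ifs with hzo
  · rw [h0, Matrix.mulVec_zero]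
    intro hzK
    exact hz ⟨_, hzK, (P.c i).left_inv hzo.2⟩
  · rfl

theorem qi4_adj_bound (P : Bundle X) (i j : P.ι) (Q : Set E4) (hQ : IsCompact Q)
    (hQo : Q ⊆ P.ov i j) :
    ∃ B : ℝ, 0 ≤ B ∧ ∀ y ∈ Q, ∀ l n, |(jac P i j y).adjugate l n| ≤ B := by
  have hj : ContinuousOn (fun y => jac P i j y) Q := by
    have h1 : ∀ m, ContinuousOn (fun y => pd m (P.tr i j) y) Q := fun m =>
      ((sm_pd m (ov_open P i j) (tr_smooth P i j)).continuousOn).mono hQo
    refine continuousOn_pi.2 fun n => continuousOn_pi.2 fun m => ?_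
    exact (EuclideanSpace.proj (𝕜 := ℝ) n : E4 →L[ℝ] ℝ).continuous.comp_continuousOn (h1 m)
  have ha : ∀ l n, ContinuousOn (fun y => (jac P i j y).adjugate l n) Q := by
    intro l n
    have h2 : Continuous (fun A : Matrix (Fin 4) (Fin 4) ℝ => A.adjugate l n) :=
      (continuous_id.matrix_adjugate).matrix_elem l n
    exact h2.comp_continuousOn hj
  have hb : ∀ l n, ∃ c : ℝ, ∀ y ∈ Q, ‖(jac P i j y).adjugate l n‖ ≤ c := fun l n =>
    hQ.exists_bound_of_continuousOn (ha l n)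
  choose c hc using hb
  refine ⟨∑ l, ∑ n, |c l n|, Finset.sum_nonneg fun l _ => Finset.sum_nonneg fun n _ =>
    abs_nonneg _, fun y hy l n => ?_⟩
  have h3 : |c l n| ≤ ∑ n, |c l n| :=
    Finset.single_le_sum (f := fun n => |c l n|) (fun n _ => abs_nonneg _) (Finset.mem_univ n)
  have h4 : ∑ n, |c l n| ≤ ∑ l, ∑ n, |c l n| :=
    Finset.single_le_sum (f := fun l => ∑ n, |c l n|)
      (fun l _ => Finset.sum_nonneg fun n _ => abs_nonneg _) (Finset.mem_univ l)
  exact ((hc l n y hy).trans (le_abs_self _)).trans (h3.trans h4)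

theorem qi4_sq (a : Matrix (Fin 4) (Fin 4) ℝ) (v : Fin 4 → ℝ) (B : ℝ)
    (h : ∀ l n, |a l n| ≤ B) : ∑ l, (∑ n, a l n * v n) ^ 2 ≤ 16 * B ^ 2 * ∑ n, v n ^ 2 := by
  have hv : 0 ≤ ∑ n, v n ^ 2 := Finset.sum_nonneg fun n _ => sq_nonneg _
  have h1 : ∀ l, (∑ n, a l n * v n) ^ 2 ≤ 4 * B ^ 2 * ∑ n, v n ^ 2 := by
    intro l
    refine (Finset.sum_mul_sq_le_sq_mul_sq Finset.univ (fun n => a l n) v).trans ?_
    refine mul_le_mul_of_nonneg_right ?_ hv
    have h2 : ∀ n, a l n ^ 2 ≤ B ^ 2 := fun n => by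
      rw [← sq_abs]
      exact pow_le_pow_left₀ (abs_nonneg _) (h l n) 2
    calc ∑ n, a l n ^ 2 ≤ ∑ _n : Fin 4, B ^ 2 := Finset.sum_le_sum fun n _ => h2 n
      _ = 4 * B ^ 2 := by simp
  calc ∑ l, (∑ n, a l n * v n) ^ 2 ≤ ∑ _l : Fin 4, 4 * B ^ 2 * ∑ n, v n ^ 2 :=
        Finset.sum_le_sum fun l _ => h1 l
    _ = 16 * B ^ 2 * ∑ n, v n ^ 2 := by
        rw [Finset.sum_const, Finset.card_univ, Fintype.card_fin, nsmul_eq_mul]
        push_cast
        ring

/-- The local estimate. -/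
theorem qi4_loc [T2Space X] [CompactSpace X] (P : Bundle X) [Fintype P.ι] (R : PU P)
    (hP : P.PositiveDefinite) (i j : P.ι) (K : Set E4) (hK : IsCompact K)
    (hKt : K ⊆ (P.c i).target) :
    ∃ C : ℝ, 0 ≤ C ∧ ∀ χ : E4 → R3, ContDiff ℝ ∞ χ → (∀ y ∉ K, χ y = 0) →
      ∫ y in (P.c j).target, R.rh j j y * ∑ e, DD (P.A j) (ext P i χ j) y e ^ 2 ≤
        C * ∫ y, ∑ e, DD (P.A i) χ y e ^ 2 := by
  have hK' : IsCompact ((P.c i).symm '' K) :=
    hK.image_of_continuousOn ((P.c i).continuousOn_symm.mono hKt)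
  obtain ⟨Q, hQdef⟩ : ∃ Q : Set E4, Q = (P.c j) '' (tsupport (R.ρ j) ∩ (P.c i).symm '' K) :=
    ⟨_, rfl⟩
  have hQ : IsCompact Q := by
    rw [hQdef]
    exact ((isClosed_tsupport (R.ρ j)).isCompact.inter_right hK'.isClosed).image_of_continuousOn
      ((P.c j).continuousOn.mono fun x hx => R.supp j hx.1)
  have hQo : Q ⊆ P.ov i j := by
    rw [hQdef]
    rintro _ ⟨x, ⟨hx, hxK⟩, rfl⟩
    refine ⟨(P.c j).map_source (R.supp j hx), ?_⟩
    show (P.c j).symm ((P.c j) x) ∈ (P.c i).source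
    rw [(P.c j).left_inv (R.supp j hx)]
    obtain ⟨z, hz, rfl⟩ := hxK
    exact (P.c i).map_target (hKt hz)
  have hQt : Q ⊆ (P.c j).target := fun y hy => (hQo hy).1
  obtain ⟨B, hB0, hB⟩ := qi4_adj_bound P i j Q hQ hQo
  obtain ⟨C, hC0, hC⟩ := cv_bound P R hP i j K hK hKt
  refine ⟨16 * B ^ 2 * C, by positivity, fun χ hχ h0 => ?_⟩
  have hφ : IsSec P (ext P i χ) := ext_sec P i χ hχ K hK hKt h0
  have hrn : ∀ y, 0 ≤ R.rh j j y := fun y => R.nonneg j _
  obtain ⟨h, hh⟩ : ∃ h : E4 → ℝ, ∀ y, h y = ∑ e, DD (P.A i) χ y e ^ 2 := ⟨_, fun _ => rfl⟩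
  have hhn : ∀ y, 0 ≤ h y := fun y => by
    rw [hh]
    exact Finset.sum_nonneg fun e _ => sq_nonneg _
  have hhz : ∀ y ∉ K, h y = 0 := by
    intro y hy
    rw [hh]
    refine Finset.sum_eq_zero fun e _ => ?_
    rw [qi4_DD_zero, zero_pow two_ne_zero]
    filter_upwards [hK.isClosed.isOpen_compl.mem_nhds hy] with z hz using h0 z hz
  have hhc : Continuous h := by
    rw [continuous_iff_continuousAt]
    intro y
    by_cases hy : y ∈ (P.c i).target
    · have h1 : ContDiffOn ℝ ∞ h (P.c i).target := by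
        refine ContDiffOn.congr (f := fun y => ∑ e, DD (P.A i) χ y e ^ 2) ?_ fun y _ => hh y
        exact ContDiffOn.sum fun e _ => (qi4_sm_DD (P.c i).open_target (P.A_smooth i)
          hχ.contDiffOn e).pow 2
      exact h1.continuousOn.continuousAt ((P.c i).open_target.mem_nhds hy)
    · have hyK : y ∉ K := fun h => hy (hKt h)
      have h1 : (fun _ => 0) =ᶠ[nhds y] h := by
        filter_upwards [hK.isClosed.isOpen_compl.mem_nhds hyK] with z hz using (hhz z hz).symm
      exact continuousAt_const.congr h1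
  -- vanishing
  have hr0 : ∀ y ∈ P.ov i j, P.tr i j y ∈ K → y ∉ Q → R.rh j j y = 0 := by
    intro y hy hyK hyQ
    by_contra hne
    apply hyQ
    rw [hQdef]
    refine ⟨(P.c j).symm y, ⟨subset_tsupport _ hne, ⟨_, hyK, (P.c i).left_inv hy.2⟩⟩,
      (P.c j).right_inv hy.1⟩
  have hF0 : ∀ y ∈ (P.c j).target \ Q,
      R.rh j j y * ∑ e, DD (P.A j) (ext P i χ j) y e ^ 2 = 0 := by
    intro y hy
    by_cases hyo : y ∈ P.ov i j ∧ P.tr i j y ∈ K
    · rw [hr0 y hyo.1 hyo.2 hy.2, zero_mul]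
    · have h1 : ∑ e, DD (P.A j) (ext P i χ j) y e ^ 2 = 0 := by
        refine Finset.sum_eq_zero fun e _ => ?_
        rw [qi4_zero P i j K hK hKt χ h0 y hy.1 hyo e, zero_pow two_ne_zero]
      rw [h1, mul_zero]
  have hG0 : ∀ y ∈ P.ov i j \ Q, R.rh j j y * h (P.tr i j y) = 0 := by
    intro y hy
    by_cases hyo : P.tr i j y ∈ K
    · rw [hr0 y hy.1 hyo hy.2, zero_mul]
    · rw [hhz _ hyo, mul_zero]
  have hcr : ContinuousOn (fun y => R.rh j j y) (P.c j).target :=
    (R.smooth j).continuous.comp_continuousOn (P.c j).continuousOn_symm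
  have hcF : ContinuousOn (fun y => R.rh j j y * ∑ e, DD (P.A j) (ext P i χ j) y e ^ 2)
      (P.c j).target := by
    refine hcr.mul ?_
    exact (ContDiffOn.sum fun e _ => (qi4_sm_DD (P.c j).open_target (P.A_smooth j)
      (hφ.1 j) e).pow 2).continuousOn
  have hot : P.ov i j ⊆ (P.c j).target := fun y hy => hy.1
  have i1 : IntegrableOn (fun y => R.rh j j y * ∑ e, DD (P.A j) (ext P i χ j) y e ^ 2)
      (P.c j).target :=
    Pool.Agent.Helper64.DC.integrableOn_of_zero (P.c j).open_target hQ hQt hcF hF0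
  have i2 : IntegrableOn (fun y => R.rh j j y * h (P.tr i j y)) (P.ov i j) :=
    Pool.Agent.Helper64.DC.integrableOn_of_zero (ov_open P i j) hQ hQo
      ((hcr.mono hot).mul (hhc.comp_continuousOn (tr_smooth P i j).continuousOn)) hG0
  have s1 : ∫ y in (P.c j).target, R.rh j j y * ∑ e, DD (P.A j) (ext P i χ j) y e ^ 2 =
      ∫ y in P.ov i j, R.rh j j y * ∑ e, DD (P.A j) (ext P i χ j) y e ^ 2 := by
    refine setIntegral_eq_of_subset_of_forall_sdiff_eq_zero (P.c j).open_target.measurableSet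
      hot fun y hy => ?_
    exact hF0 y ⟨hy.1, fun h => hy.2 (hQo h)⟩
  have s2 : ∫ y in P.ov i j, R.rh j j y * ∑ e, DD (P.A j) (ext P i χ j) y e ^ 2 ≤
      ∫ y in P.ov i j, 16 * B ^ 2 * (R.rh j j y * h (P.tr i j y)) := by
    refine setIntegral_mono_on (i1.mono_set hot) (i2.const_mul _) (ov_open P i j).measurableSet
      fun y hy => ?_
    by_cases hyQ : y ∈ Q
    · have e1 : ∀ l, DD (P.A j) (ext P i χ j) y l =
          ∑ n, (jac P i j y).adjugate l n * DD (P.A i) χ (P.tr i j y) n := by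
        intro l
        rw [qi4_DD_adj P _ hφ hP i j y hy l]
        refine Finset.sum_congr rfl fun n _ => ?_
        congr 1
        refine qi4_DD_congr ?_ n
        filter_upwards [(P.c i).open_target.mem_nhds (tr_mem P i j y hy)] with z hz using
          ext_self P i χ z hz
      simp only [e1]
      have e2 := qi4_sq _ (DD (P.A i) χ (P.tr i j y)) B (hB y hyQ)
      rw [← hh] at e2
      calc _ ≤ R.rh j j y * (16 * B ^ 2 * h (P.tr i j y)) :=
            mul_le_mul_of_nonneg_left e2 (hrn y)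
        _ = _ := by ring
    · rw [hF0 y ⟨hy.1, hyQ⟩]
      exact mul_nonneg (by positivity) (mul_nonneg (hrn y) (hhn _))
  have s3 := hC h hhc hhn hhz
  have s4 : (fun y => ∑ e, DD (P.A i) χ y e ^ 2) = h := by
    funext y
    exact (hh y).symm
  rw [s1, s4]
  refine s2.trans ?_
  rw [integral_const_mul]
  calc 16 * B ^ 2 * ∫ y in P.ov i j, R.rh j j y * h (P.tr i j y)
      ≤ 16 * B ^ 2 * (C * ∫ y, h y) := mul_le_mul_of_nonneg_left s3 (by positivity)
    _ = _ := by ring

/-- PIECE QI4. PROOF. On the overlap `∑_l jac n l * DD_j l = det jac * (DD_i n) ∘ tr`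
(`DD_eq`, `cov_tr`, `curv_tr`, `wedge3_pull`, or directly), `jac` is invertible, its inverse and
determinant are bounded on the compact set of the `y` in `c_j (supp ρ_j)` with `tr y ∈ K`; off the
set `tr y ∈ K` `DD_j` vanishes (the extension is locally zero there, and on the overlap use the
formula). Then `cv_bound`. -/
theorem ext_DD_bound [T2Space X] [CompactSpace X] (P : Bundle X) [Fintype P.ι] (R : PU P)
    (hP : P.PositiveDefinite) (i : P.ι) (K : Set E4) (hK : IsCompact K)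
    (hKt : K ⊆ (P.c i).target) :
    ∃ C : ℝ, 0 ≤ C ∧ ∀ χ : E4 → R3, ContDiff ℝ ∞ χ → (∀ y ∉ K, χ y = 0) →
      R.nsq4 (fun j => DD (P.A j) (ext P i χ j)) ≤ C * ∫ y, ∑ e, DD (P.A i) χ y e ^ 2 := by
  classical
  choose C hC0 hC using fun j => qi4_loc P R hP i j K hK hKt
  refine ⟨∑ j, C j, Finset.sum_nonneg fun j _ => hC0 j, fun χ hχ h0 => ?_⟩
  unfold PU.nsq4 PU.int
  rw [Finset.sum_mul]
  exact Finset.sum_le_sum fun j _ => hC j χ hχ h0

theorem qi5_gram (P : Bundle X) (i j : P.ι) (y : E4) (hy : y ∈ P.ov i j) :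
    P.g i j y * gram (curv (P.A j) y) * (P.g i j y).transpose =
      (jac P i j y).det • gram (curv (P.A i) (P.tr i j y)) := by
  rw [← gram_rot]
  ext a b
  have h1 : (fun l m => (P.g i j y).mulVec (curv (P.A j) y l m)) =
      fun l m => ∑ k, ∑ p, (jac P i j y k l * jac P i j y p m) •
        curv (P.A i) (P.tr i j y) k p := by
    funext l m
    exact (curv_tr P i j y hy l m).symm
  rw [h1]
  have h2 : ∀ c, cmp (fun l m => ∑ k, ∑ p, (jac P i j y k l * jac P i j y p m) •
      curv (P.A i) (P.tr i j y) k p) c =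
      fun l m => ∑ k, ∑ p, jac P i j y k l * jac P i j y p m *
        cmp (curv (P.A i) (P.tr i j y)) c k p := by
    intro c
    funext l m
    simp [cmp, Finset.sum_apply]
  have hs : ∀ c, ∀ l m, cmp (curv (P.A i) (P.tr i j y)) c l m =
      -cmp (curv (P.A i) (P.tr i j y)) c m l := by
    intro c l m
    have := congrFun (skew_curv (P.A i) (P.tr i j y) l m) c
    simpa [cmp] using this
  simp only [gram, Matrix.smul_apply, smul_eq_mul]
  rw [h2, h2]
  exact wedge_pull (jac P i j y) _ _ (hs a) (hs b)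

theorem qi5_dot (M : Matrix (Fin 3) (Fin 3) ℝ) (u v : R3) :
    ∑ a, ∑ b, u a * M a b * v b = dotProduct u (M.mulVec v) := by
  simp only [dotProduct, Matrix.mulVec]
  refine Finset.sum_congr rfl fun a _ => ?_
  rw [Finset.mul_sum]
  exact Finset.sum_congr rfl fun b _ => by ring

theorem qi5_ov [T2Space X] (P : Bundle X) (i : P.ι) (χ : E4 → R3)
    (ψ : P.ι → E4 → R3) (hψ : IsSec P ψ) (j : P.ι) (y : E4) (hy : y ∈ P.ov i j) :
    ∑ a, ∑ b, ext P i χ j y a * gram (curv (P.A j) y) a b * ψ j y b =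
      (jac P i j y).det * ∑ a, ∑ b, ext P i χ i (P.tr i j y) a *
        gram (curv (P.A i) (P.tr i j y)) a b * ψ i (P.tr i j y) b := by
  have hg : (P.g i j y).transpose * P.g i j y = 1 := by
    have := (Matrix.mem_specialOrthogonalGroup_iff.mp (P.g_mem i j y hy)).1
    rw [Matrix.mem_orthogonalGroup_iff'] at this
    simpa [Matrix.star_eq_conjTranspose] using this
  rw [qi5_dot, qi5_dot, ext_self P i χ _ (tr_mem P i j y hy), qh1_of_mem P i j χ hy,
    hψ.2 i j y hy]
  have h1 : (jac P i j y).det * dotProduct (χ (P.tr i j y))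
      ((gram (curv (P.A i) (P.tr i j y))).mulVec ((P.g i j y).mulVec (ψ j y))) =
      dotProduct (χ (P.tr i j y)) (((jac P i j y).det •
        gram (curv (P.A i) (P.tr i j y))).mulVec ((P.g i j y).mulVec (ψ j y))) := by
    rw [Matrix.smul_mulVec, dotProduct_smul, smul_eq_mul]
  rw [h1, ← qi5_gram P i j y hy, Matrix.mulVec_mulVec, Matrix.mul_assoc, hg, Matrix.mul_one,
    ← Matrix.mulVec_mulVec, Matrix.dotProduct_mulVec (χ (P.tr i j y)) (P.g i j y),
    Matrix.mulVec_transpose]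

/-- PIECE QI5. PROOF. `int_local` for the density `∑ ext_a M_ab ψ_b`. -/
theorem pair_ext [T2Space X] [CompactSpace X] (P : Bundle X) [Fintype P.ι] (R : PU P)
    (hP : P.PositiveDefinite) (i : P.ι) (K : Set E4) (hK : IsCompact K)
    (hKt : K ⊆ (P.c i).target) (χ : E4 → R3) (hχ : ContDiff ℝ ∞ χ) (h0 : ∀ y ∉ K, χ y = 0)
    (ψ : P.ι → E4 → R3) (hψ : IsSec P ψ) :
    R.pair (ext P i χ) ψ = ∫ y, ∑ a, ∑ b, χ y a * gram (curv (P.A i) y) a b * ψ i y b := by
  have hself : (fun y => ∑ a, ∑ b, ext P i χ i y a * gram (curv (P.A i) y) a b * ψ i y b) =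
      fun y => ∑ a, ∑ b, χ y a * gram (curv (P.A i) y) a b * ψ i y b := by
    funext y
    by_cases hy : y ∈ (P.c i).target
    · rw [ext_self P i χ y hy]
    · rw [qh1_of_notMem P i i χ fun h => hy h.1, h0 y fun h => hy (hKt h)]
  have hz : ∀ y ∉ K, ∑ a, ∑ b, χ y a * gram (curv (P.A i) y) a b * ψ i y b = 0 := by
    intro y hy
    rw [h0 y hy]
    simp
  have hc : ContinuousOn (fun y => ∑ a, ∑ b, χ y a * gram (curv (P.A i) y) a b * ψ i y b)
      (P.c i).target := by
    have hg : ∀ a b, ContDiffOn ℝ ∞ (fun y => gram (curv (P.A i) y) a b) (P.c i).target :=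
      fun a b => sm_wedge
        (fun l m => contDiffOn_pi.mp (sm_curv (P.c i).open_target (P.A_smooth i) l m) a)
        (fun l m => contDiffOn_pi.mp (sm_curv (P.c i).open_target (P.A_smooth i) l m) b)
    refine ContDiffOn.continuousOn (n := ∞) (𝕜 := ℝ) ?_
    exact ContDiffOn.sum fun a _ => ContDiffOn.sum fun b _ =>
      ((contDiffOn_pi.mp hχ.contDiffOn a).mul (hg a b)).mul (contDiffOn_pi.mp (hψ.1 i) b)
  have hi : Integrable (fun y => ∑ a, ∑ b, χ y a * gram (curv (P.A i) y) a b * ψ i y b)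
      volume := by
    have h1 : IntegrableOn (fun y => ∑ a, ∑ b, χ y a * gram (curv (P.A i) y) a b * ψ i y b) K :=
      (hc.mono hKt).integrableOn_compact hK
    exact h1.integrable_of_forall_notMem_eq_zero hz
  have h1 := int_local P R hP i
    (fun j y => ∑ a, ∑ b, ext P i χ j y a * gram (curv (P.A j) y) a b * ψ j y b) K hK hKt
    (fun y hy => (congrFun hself y).trans (hz y hy))
    (hself.symm ▸ hi)
    (fun j y hy => qi5_ov P i χ ψ hψ j y hy)
    (fun j y _ hn => by
      show ∑ a, ∑ b, ext P i χ j y a * gram (curv (P.A j) y) a b * ψ j y b = 0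
      rw [qh1_of_notMem P i j χ hn]
      simp)
  unfold PU.pair
  rw [h1, hself]

end

end Pool.Agent.Helper8.DC
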