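import Pool.Agent.Helper8.DC.Defs2

set_option autoImplicit false

open scoped Manifold ContDiff
open MeasureTheory

namespace Pool.Agent.Helper8.DC

noncomputable section

open scoped RealInnerProductSpace in
theorem qj1_inner {m : ℕ} (K : Set E4) (f g : E4 → Fin m → ℝ)
    (hf : MemLp (fun y => WithLp.toLp 2 (f y) : E4 → EuclideanSpace ℝ (Fin m)) 2 (volume.restrict K))
    (v : Lp (EuclideanSpace ℝ (Fin m)) 2 (volume.restrict K)) (hg : ∀ᵐ y ∂(volume.restrict K), ∀ a, v y a = g y a) :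
    ⟪v, hf.toLp _⟫ = ∫ y in K, ∑ a, g y a * f y a := by
  rw [L2.inner_def]
  refine integral_congr_ae ?_
  filter_upwards [hf.coeFn_toLp, hg] with y hy hy'
  rw [hy, PiLp.inner_apply]
  refine Finset.sum_congr rfl fun a _ => ?_
  rw [hy' a]
  simp [mul_comm]

open scoped RealInnerProductSpace in
/-- PIECE QJ1. Riesz representation on `L²(K)`. PROOF. The classes of the smooth compactly
supported functions form a subspace of `Lp (EuclideanSpace ℝ (Fin m)) 2 (volume.restrict K)`; by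
`hb` (and linearity) `L` descends to a bounded functional on it (if two `χ` agree a.e. on `K`
their values of `L` agree); extend it by Hahn-Banach (`exists_extension_norm_eq`) and represent it
by `InnerProductSpace.toDual`; extend the representing function by `0` off `K`. -/
theorem riesz {m : ℕ} (K : Set E4) (hK : IsCompact K) (L : (E4 → Fin m → ℝ) → ℝ)
    (hadd : ∀ χ χ' : E4 → Fin m → ℝ, ContDiff ℝ ∞ χ → HasCompactSupport χ → ContDiff ℝ ∞ χ' →
      HasCompactSupport χ' → L (χ + χ') = L χ + L χ')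
    (hsmul : ∀ (t : ℝ) (χ : E4 → Fin m → ℝ), ContDiff ℝ ∞ χ → HasCompactSupport χ →
      L (t • χ) = t * L χ)
    (C : ℝ) (hb : ∀ χ : E4 → Fin m → ℝ, ContDiff ℝ ∞ χ → HasCompactSupport χ →
      L χ ^ 2 ≤ C * ∫ y in K, ∑ a, χ y a ^ 2) :
    ∃ v : Fin m → E4 → ℝ, (∀ a, MemLp (v a) 2 volume) ∧ (∀ a, ∀ y ∉ K, v a y = 0) ∧
      ∀ χ : E4 → Fin m → ℝ, ContDiff ℝ ∞ χ → HasCompactSupport χ →
        L χ = ∫ y, ∑ a, v a y * χ y a := by
  classical
  -- the space of test functions
  let W : Submodule ℝ (E4 → Fin m → ℝ) :=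
    { carrier := {χ | ContDiff ℝ ∞ χ ∧ HasCompactSupport χ}
      add_mem' := fun {a b} ha hb => ⟨ha.1.add hb.1, ha.2.add hb.2⟩
      zero_mem' := ⟨contDiff_const, HasCompactSupport.zero⟩
      smul_mem' := fun t a ha => ⟨ha.1.const_smul t, by
        refine HasCompactSupport.mono' ha.2 ?_
        exact (Function.support_const_smul_subset t a).trans (subset_tsupport a)⟩ }
  have hmem : ∀ χ : W, MemLp (fun y => WithLp.toLp 2 ((χ : E4 → Fin m → ℝ) y) :
      E4 → EuclideanSpace ℝ (Fin m)) 2 (volume.restrict K) := by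
    intro χ
    have hc : Continuous fun y => (WithLp.toLp 2 ((χ : E4 → Fin m → ℝ) y) :
        EuclideanSpace ℝ (Fin m)) :=
      (PiLp.continuous_toLp 2 _).comp χ.2.1.continuous
    refine (hc.memLp_of_hasCompactSupport ?_).restrict K
    refine HasCompactSupport.mono' χ.2.2 ?_
    intro y hy
    apply subset_tsupport
    intro h0
    apply hy
    show WithLp.toLp 2 ((χ : E4 → Fin m → ℝ) y) = 0
    rw [h0]
    rfl
  let T : W →ₗ[ℝ] Lp (EuclideanSpace ℝ (Fin m)) 2 (volume.restrict K) :=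
    { toFun := fun χ => (hmem χ).toLp _
      map_add' := fun χ χ' => by
        rw [← MemLp.toLp_add]
        rfl
      map_smul' := fun t χ => by
        rw [RingHom.id_apply, ← MemLp.toLp_const_smul]
        rfl }
  let l : W →ₗ[ℝ] ℝ :=
    { toFun := fun χ => L χ
      map_add' := fun χ χ' => hadd _ _ χ.2.1 χ.2.2 χ'.2.1 χ'.2.2
      map_smul' := fun t χ => hsmul t _ χ.2.1 χ.2.2 }
  have hTn : ∀ χ : W, ‖T χ‖ ^ 2 = ∫ y in K, ∑ a, (χ : E4 → Fin m → ℝ) y a ^ 2 := by
    intro χ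
    rw [← real_inner_self_eq_norm_sq]
    have h1 := qj1_inner K (χ : E4 → Fin m → ℝ) (χ : E4 → Fin m → ℝ) (hmem χ) (T χ) (by
      filter_upwards [(hmem χ).coeFn_toLp] with y hy a
      have : (T χ) y = WithLp.toLp 2 ((χ : E4 → Fin m → ℝ) y) := hy
      rw [this])
    refine Eq.trans h1 ?_
    simp only [← pow_two]
  have hlT : ∀ χ : W, l χ ^ 2 ≤ |C| * ‖T χ‖ ^ 2 := by
    intro χ
    have h1 := hb _ χ.2.1 χ.2.2
    rw [← hTn χ] at h1
    refine h1.trans ?_
    exact mul_le_mul_of_nonneg_right (le_abs_self C) (by positivity)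
  obtain ⟨g, hg⟩ := T.rangeRestrict.exists_rightInverse_of_surjective T.range_rangeRestrict
  have hg' : ∀ z : LinearMap.range T, T (g z) = z := by
    intro z
    have := LinearMap.congr_fun hg z
    exact congrArg Subtype.val this
  have hlg : ∀ χ : W, l (g (T.rangeRestrict χ)) = l χ := by
    intro χ
    have h1 : T (g (T.rangeRestrict χ) - χ) = 0 := by
      rw [map_sub, hg']
      exact sub_self _
    have h2 := hlT (g (T.rangeRestrict χ) - χ)
    rw [h1, norm_zero] at h2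
    have h3 : l (g (T.rangeRestrict χ) - χ) = 0 := by
      have h4 : l (g (T.rangeRestrict χ) - χ) ^ 2 ≤ 0 := by simpa using h2
      exact pow_eq_zero_iff (two_ne_zero) |>.1 (le_antisymm h4 (sq_nonneg _))
    rw [map_sub] at h3
    linarith
  let f : StrongDual ℝ (LinearMap.range T) := (l.comp g).mkContinuous √|C| (by
    intro z
    have h1 := hlT (g z)
    rw [hg'] at h1
    have h2 : |l (g z)| ≤ √|C| * ‖z‖ := by
      apply abs_le_of_sq_le_sq _ (by positivity)
      rw [mul_pow, Real.sq_sqrt (abs_nonneg C)]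
      exact h1
    exact h2)
  obtain ⟨F, hF, _⟩ := exists_extension_norm_eq (LinearMap.range T) f
  set v0 := (InnerProductSpace.toDual ℝ (Lp (EuclideanSpace ℝ (Fin m)) 2 (volume.restrict K))).symm F
    with hv0
  have hLv : ∀ χ : W, L χ = ⟪v0, T χ⟫ := by
    intro χ
    rw [hv0, InnerProductSpace.toDual_symm_apply]
    have h1 := hF (T.rangeRestrict χ)
    have h2 : f (T.rangeRestrict χ) = l χ := hlg χ
    rw [h2] at h1
    exact h1.symm
  have hKm : MeasurableSet K := hK.isClosed.measurableSet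
  refine ⟨fun a => K.indicator fun y => v0 y a, fun a => ?_, fun a y hy => ?_, fun χ hχ hχ' => ?_⟩
  · rw [memLp_indicator_iff_restrict hKm]
    have h1 : MemLp (fun y => v0 y) 2 (volume.restrict K) := Lp.memLp v0
    refine h1.mono ?_ ?_
    · have h2 : Continuous fun z : EuclideanSpace ℝ (Fin m) => z a := by fun_prop
      exact h2.comp_aestronglyMeasurable h1.1
    · exact Filter.Eventually.of_forall fun y => PiLp.norm_apply_le (v0 y) a
  · exact Set.indicator_of_notMem hy _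
  · have h1 := hLv ⟨χ, hχ, hχ'⟩
    have h2 := qj1_inner K χ (fun y a => v0 y a) (hmem ⟨χ, hχ, hχ'⟩) v0
      (Filter.Eventually.of_forall fun y a => rfl)
    rw [h1]
    refine Eq.trans h2 ?_
    rw [← integral_indicator hKm]
    refine integral_congr_ae (Filter.Eventually.of_forall fun y => ?_)
    show K.indicator (fun y => ∑ a, v0 y a * χ y a) y = ∑ a, K.indicator (fun y => v0 y a) y * χ y a
    by_cases hy : y ∈ K
    · rw [Set.indicator_of_mem hy]
      exact Finset.sum_congr rfl fun a _ => by rw [Set.indicator_of_mem hy]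
    · rw [Set.indicator_of_notMem hy]
      symm
      exact Finset.sum_eq_zero fun a _ => by rw [Set.indicator_of_notMem hy, zero_mul]

/-- PIECE QJ2. Hahn-Banach. PROOF. `N v = d⁻¹ * inf_{s ∈ S} p (v - s)` is sublinear
(`exists_extension_of_le_sublinear`), `f (t x) = t` on the span of `x` satisfies `f ≤ N`; the
extension is `≤ N ≤ d⁻¹ p`, and `N = 0` on `S`. -/
theorem hb_sep {V : Type} [AddCommGroup V] [Module ℝ V] (p : Seminorm ℝ V) (S : Submodule ℝ V)
    (x : V) (d : ℝ) (hd : 0 < d) (h : ∀ s ∈ S, d ≤ p (x - s)) :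
    ∃ l : V →ₗ[ℝ] ℝ, (∀ s ∈ S, l s = 0) ∧ l x = 1 ∧ ∀ v, |l v| ≤ d⁻¹ * p v := by
  have hx : x ∉ S := by
    intro hxS
    have h0 := h x hxS
    rw [sub_self, map_zero] at h0
    linarith
  set f0 : V →ₗ.[ℝ] ℝ := ⟨S, 0⟩ with hf0
  have hx0 : x ∉ f0.domain := hx
  set f := f0.supSpanSingleton x (1 : ℝ) hx0 with hf
  have hfv : ∀ (s : V) (hs : s ∈ S) (c : ℝ) (hm : s + c • x ∈ f.domain), f ⟨s + c • x, hm⟩ = c := by
    intro s hs c hm
    have h1 := LinearPMap.supSpanSingleton_apply_mk f0 x (1 : ℝ) hx0 s hs c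
    refine h1.trans ?_
    show (0 : S →ₗ[ℝ] ℝ) ⟨s, hs⟩ + (RingHom.id ℝ) c • (1 : ℝ) = c
    simp
  have hle : ∀ z : f.domain, f z ≤ d⁻¹ * p z := by
    rintro ⟨z, hz⟩
    have hz' : z ∈ S ⊔ Submodule.span ℝ {x} := hz
    obtain ⟨s, hs, w, hw, rfl⟩ := Submodule.mem_sup.1 hz'
    obtain ⟨c, rfl⟩ := Submodule.mem_span_singleton.1 hw
    rw [hfv s hs c hz]
    show c ≤ d⁻¹ * p (s + c • x)
    rcases le_or_gt c 0 with hc | hc
    · exact hc.trans (mul_nonneg (inv_nonneg.2 hd.le) (apply_nonneg p _))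
    · have h1 : s + c • x = c • (x - (-(c⁻¹ • s))) := by
        rw [sub_neg_eq_add, smul_add, smul_smul, mul_inv_cancel₀ hc.ne', one_smul, add_comm]
      have h2 := h (-(c⁻¹ • s)) (S.neg_mem (S.smul_mem _ hs))
      rw [h1, map_smul_eq_mul, Real.norm_eq_abs, abs_of_pos hc]
      have h3 : c * d ≤ c * p (x - (-(c⁻¹ • s))) := mul_le_mul_of_nonneg_left h2 hc.le
      rw [inv_mul_eq_div, le_div_iff₀ hd]
      exact h3
  obtain ⟨g, hg1, hg2⟩ := exists_extension_of_le_sublinear f (fun v => d⁻¹ * p v)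
    (fun c hc v => by
      show d⁻¹ * p (c • v) = c * (d⁻¹ * p v)
      rw [map_smul_eq_mul, Real.norm_eq_abs, abs_of_pos hc]
      ring)
    (fun v w => by
      show d⁻¹ * p (v + w) ≤ d⁻¹ * p v + d⁻¹ * p w
      rw [← mul_add]
      exact mul_le_mul_of_nonneg_left (map_add_le_add p v w) (inv_nonneg.2 hd.le)) hle
  refine ⟨g, fun s hs => ?_, ?_, fun v => ?_⟩
  · have hm : s + (0 : ℝ) • x ∈ f.domain := by
      rw [zero_smul, add_zero]
      exact Submodule.mem_sup_left hs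
    have h1 := hg1 ⟨s + (0 : ℝ) • x, hm⟩
    rw [hfv s hs 0 hm] at h1
    simpa using h1
  · have hm : (0 : V) + (1 : ℝ) • x ∈ f.domain := by
      rw [one_smul, zero_add]
      exact Submodule.mem_sup_right (Submodule.mem_span_singleton_self x)
    have h1 := hg1 ⟨(0 : V) + (1 : ℝ) • x, hm⟩
    rw [hfv 0 S.zero_mem 1 hm] at h1
    simpa using h1
  · rw [abs_le]
    constructor
    · have h1 := hg2 (-v)
      simp only [map_neg] at h1
      rw [map_neg_eq_map] at h1
      linarith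
    · exact hg2 v

/-- PIECE QJ3. A smooth cut-off function. -/
theorem cutoff (U K : Set E4) (hU : IsOpen U) (hK : IsCompact K) (hKU : K ⊆ U) :
    ∃ κ : E4 → ℝ, ContDiff ℝ ∞ κ ∧ HasCompactSupport κ ∧ tsupport κ ⊆ U ∧
      (∀ y, 0 ≤ κ y ∧ κ y ≤ 1) ∧ ∃ V, IsOpen V ∧ K ⊆ V ∧ ∀ y ∈ V, κ y = 1 := by
  obtain ⟨K', hK'c, hKK', hK'U⟩ := exists_compact_between hK hU hKU
  obtain ⟨f, hf1, hf0, hf⟩ := exists_contMDiffMap_one_nhds_of_subset_interior
    (I := 𝓘(ℝ, E4)) (n := (⊤ : ℕ∞)) hK.isClosed hKK'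
  have hsupp : tsupport (f : E4 → ℝ) ⊆ K' := by
    refine closure_minimal ?_ hK'c.isClosed
    intro y hy
    by_contra hyK
    exact hy (hf0 y hyK)
  refine ⟨f, f.contMDiff.contDiff, HasCompactSupport.of_support_subset_isCompact hK'c
    (subset_closure.trans hsupp), hsupp.trans hK'U, fun y => ⟨(hf y).1, (hf y).2⟩, ?_⟩
  obtain ⟨V, hV, hKV, hV1⟩ := mem_nhdsSet_iff_exists.1 hf1
  exact ⟨V, hV, hKV, fun y hy => hV1 hy⟩

end

end Pool.Agent.Helper8.DC
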