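import Pool.Agent.Helper8.DC.QI
import Pool.Agent.Helper8.DC.QJ

set_option autoImplicit false

open scoped Manifold ContDiff
open MeasureTheory

namespace Pool.Agent.Helper8.DC

noncomputable section

variable {X : Type} [TopologicalSpace X] [ChartedSpace E4 X] [IsManifold (𝓡 4) ∞ X]

/-- A bounded linear functional on the smooth sections that vanishes on the `Λ⁺`-parts of exact
forms. -/
structure Fun {P : Bundle X} [Fintype P.ι] (R : PU P) where
  /-- the functional -/
  l : (P.ι → E4 → R3) → ℝ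
  add : ∀ φ ψ, IsSec P φ → IsSec P ψ → l (φ + ψ) = l φ + l ψ
  smul : ∀ (t : ℝ) φ, IsSec P φ → l (t • φ) = t * l φ
  /-- the constant -/
  C : ℝ
  C_nonneg : 0 ≤ C
  bound : ∀ φ, IsSec P φ → l φ ^ 2 ≤ C * R.nsq φ
  zero : ∀ a, IsOne P a → l (fun i => sf (P.A i) (dd (a i))) = 0

/-- PIECE QK0. Only the values on the targets of the charts matter. PROOF. `bound` for `φ - ψ`. -/
theorem Fun.congr [T2Space X] [CompactSpace X] {P : Bundle X} [Fintype P.ι] {R : PU P}
    (T : Fun R) (φ ψ : P.ι → E4 → R3)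
    (hφ : IsSec P φ) (hψ : IsSec P ψ) (h : ∀ i, ∀ y ∈ (P.c i).target, φ i y = ψ i y) :
    T.l φ = T.l ψ := by
  have h1 : IsSec P (φ + (-1 : ℝ) • ψ) := isSec_add hφ (isSec_smul (-1) hψ)
  have h2 := T.bound _ h1
  rw [T.add _ _ hφ (isSec_smul (-1) hψ), T.smul _ _ hψ] at h2
  have h3 : R.nsq (φ + (-1 : ℝ) • ψ) = 0 := by
    unfold PU.nsq PU.int
    refine Finset.sum_eq_zero fun i _ => ?_
    rw [setIntegral_congr_fun (g := fun _ => (0 : ℝ)) (P.c i).open_target.measurableSet ?_]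
    · simp
    · intro y hy
      simp [h i y hy]
  rw [h3, mul_zero] at h2
  have h4 : T.l φ + -1 * T.l ψ = 0 := by
    have h5 : (T.l φ + -1 * T.l ψ) ^ 2 = 0 := le_antisymm h2 (sq_nonneg _)
    exact pow_eq_zero_iff (two_ne_zero) |>.1 h5
  linarith

/-- The compact set of the chart `i` that carries `ρ_i`. -/
def PU.K {P : Bundle X} [Fintype P.ι] (R : PU P) (i : P.ι) : Set E4 :=
  P.c i '' tsupport (R.ρ i)

/-- `ρ_i` in its own chart, extended by zero. -/
private def qk01_r {P : Bundle X} [Fintype P.ι] (R : PU P) (i : P.ι) (y : E4) : ℝ :=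
  open Classical in if y ∈ (P.c i).target then R.rh i i y else 0

private theorem qk01_comp [T2Space X] [CompactSpace X] {P : Bundle X} [Fintype P.ι] (R : PU P)
    (i : P.ι) : IsCompact (R.K i) :=
  Pool.Agent.Helper64.DC.isCompact_K P.c R.ρ R.supp i

private theorem qk01_sub {P : Bundle X} [Fintype P.ι] (R : PU P) (i : P.ι) :
    R.K i ⊆ (P.c i).target :=
  Pool.Agent.Helper64.DC.K_subset P.c R.ρ R.supp i

private theorem qk01_zero {P : Bundle X} [Fintype P.ι] (R : PU P) (i : P.ι) (y : E4)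
    (hy : y ∉ R.K i) : qk01_r R i y = 0 := by
  unfold qk01_r
  by_cases h : y ∈ (P.c i).target
  · rw [if_pos h]
    exact image_eq_zero_of_notMem_tsupport (f := R.ρ i)
      (Pool.Agent.Helper64.DC.notMem_tsupport_of_notMem P.c R.ρ h hy)
  · rw [if_neg h]

private theorem qk01_smooth [T2Space X] [CompactSpace X] {P : Bundle X} [Fintype P.ι] (R : PU P)
    (i : P.ι) : ContDiff ℝ ∞ (qk01_r R i) := by
  rw [contDiff_iff_contDiffAt]
  intro y
  by_cases hy : y ∈ (P.c i).target
  · have h1 : ContDiffOn ℝ ∞ (R.rh i i) (P.c i).target :=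
      Pool.Agent.Helper64.DC.contDiffOn_symm (P.c_mem i) (R.smooth i)
    refine (h1.contDiffAt ((P.c i).open_target.mem_nhds hy)).congr_of_eventuallyEq ?_
    filter_upwards [(P.c i).open_target.mem_nhds hy] with z hz
    unfold qk01_r
    rw [if_pos hz]
  · have h1 : y ∉ R.K i := fun h => hy (qk01_sub R i h)
    refine (contDiffAt_const (c := (0 : ℝ))).congr_of_eventuallyEq ?_
    filter_upwards [(qk01_comp R i).isClosed.isOpen_compl.mem_nhds h1] with z hz
    exact qk01_zero R i z hz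

private theorem qk01_le {P : Bundle X} [Fintype P.ι] (R : PU P) (i : P.ι) (y : E4) :
    0 ≤ qk01_r R i y ∧ qk01_r R i y ≤ 1 := by
  unfold qk01_r
  split_ifs
  · refine ⟨R.nonneg _ _, ?_⟩
    have h1 := R.one ((P.c i).symm y)
    rw [← h1]
    exact Finset.single_le_sum (f := fun j => R.ρ j ((P.c i).symm y))
      (fun j _ => R.nonneg j _) (Finset.mem_univ i)
  · exact ⟨le_refl _, zero_le_one⟩

private theorem qk01_rh {P : Bundle X} [Fintype P.ι] (R : PU P) (i k j : P.ι) (y : E4)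
    (hy : y ∈ P.ov k j) : R.rh i k (P.tr k j y) = R.rh i j y := by
  unfold PU.rh Bundle.tr
  rw [(P.c k).left_inv hy.2]

private theorem qk01_ext_add (P : Bundle X) (i : P.ι) (χ χ' : E4 → R3) :
    ext P i (fun y => χ y + χ' y) = ext P i χ + ext P i χ' := by
  funext j y
  unfold ext
  simp only [Pi.add_apply]
  split_ifs
  · rw [Matrix.mulVec_add]
  · simp

private theorem qk01_ext_smul (P : Bundle X) (i : P.ι) (t : ℝ) (χ : E4 → R3) :
    ext P i (fun y => t • χ y) = t • ext P i χ := by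
  funext j y
  unfold ext
  simp only [Pi.smul_apply]
  split_ifs
  · rw [Matrix.mulVec_smul]
  · simp

private theorem qk01_sec {P : Bundle X} [Fintype P.ι] (R : PU P) (i : P.ι)
    (ψ : P.ι → E4 → R3) (hψ : IsSec P ψ) : IsSec P (fun j y => R.rh i j y • ψ j y) := by
  refine ⟨fun j => ?_, fun k j y hy => ?_⟩
  · exact ContDiffOn.smul (Pool.Agent.Helper64.DC.contDiffOn_symm (P.c_mem j) (R.smooth i))
      (hψ.1 j)
  · simp only
    rw [qk01_rh R i k j y hy, hψ.2 k j y hy, Matrix.mulVec_smul]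

private theorem qk01_orth (P : Bundle X) (i j : P.ι) (y : E4) (hy : y ∈ P.ov i j) (w : R3) :
    (P.g i j y).transpose.mulVec ((P.g i j y).mulVec w) = w := by
  have h1 := P.g_mem i j y hy
  rw [Matrix.mem_specialOrthogonalGroup_iff, Matrix.mem_orthogonalGroup_iff'] at h1
  rw [Matrix.mulVec_mulVec]
  rw [h1.1, Matrix.one_mulVec]

/-- PIECE QK1. The piece `ρ_i T` of the functional is an `L²` function in the chart `i`.
PROOF. `riesz` for `L χ = T.l (ext P i (r χ))`, `r y = ρ_i ((c i).symm y)` on the target and `0`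
off it (smooth); `ext_sec`, `ext_bound`, `ρ ≤ 1`. For a section `ψ` take `χ = κ • ψ i` with
`cutoff` for `R.K i` in the target; `ext P i (r χ) = ρ_i ψ` on all targets. -/
theorem loc_v [T2Space X] [CompactSpace X] {P : Bundle X} [Fintype P.ι] {R : PU P}
    (hP : P.PositiveDefinite) (T : Fun R) (i : P.ι) :
    ∃ v : Fin 3 → E4 → ℝ, (∀ a, MemLp (v a) 2 volume) ∧ (∀ a, ∀ y ∉ R.K i, v a y = 0) ∧
      ∀ ψ, IsSec P ψ → T.l (fun j y => R.rh i j y • ψ j y) = ∫ y, ∑ a, v a y * ψ i y a := by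
  have hK := qk01_comp R i
  have hKt := qk01_sub R i
  have hr := qk01_smooth R i
  obtain ⟨C0, hC0, hext⟩ := ext_bound P R hP i (R.K i) hK hKt
  have hsec : ∀ χ : E4 → R3, ContDiff ℝ ∞ χ → IsSec P (ext P i (fun y => qk01_r R i y • χ y)) := by
    intro χ hχ
    refine ext_sec P i _ (hr.smul hχ) (R.K i) hK hKt fun y hy => ?_
    rw [qk01_zero R i y hy, zero_smul]
  obtain ⟨v, hv1, hv2, hv3⟩ := riesz (m := 3) (R.K i) hK
    (fun χ => T.l (ext P i (fun y => qk01_r R i y • χ y)))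
    (by
      intro χ χ' h1 _ h2 _
      have h3 : (fun y => qk01_r R i y • (χ + χ') y) =
          fun y => (fun z => qk01_r R i z • χ z) y + (fun z => qk01_r R i z • χ' z) y := by
        funext y
        simp only [Pi.add_apply, smul_add]
      rw [h3, qk01_ext_add, T.add _ _ (hsec χ h1) (hsec χ' h2)])
    (by
      intro t χ h1 _
      have h3 : (fun y => qk01_r R i y • (t • χ) y) =
          fun y => t • (fun z => qk01_r R i z • χ z) y := by
        funext y
        simp only [Pi.smul_apply]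
        rw [smul_comm]
      rw [h3, qk01_ext_smul, T.smul _ _ (hsec χ h1)])
    (T.C * C0)
    (by
      intro χ h1 _
      have h3 := T.bound _ (hsec χ h1)
      have h4 := hext (fun y => qk01_r R i y • χ y) (hr.smul h1) (fun y hy => by
        rw [qk01_zero R i y hy, zero_smul])
      have h5 : ∫ y, ∑ a, (qk01_r R i y • χ y) a ^ 2 ≤ ∫ y in R.K i, ∑ a, χ y a ^ 2 := by
        rw [← setIntegral_eq_integral_of_forall_compl_eq_zero (s := R.K i) (fun y hy => by
          rw [qk01_zero R i y hy]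
          simp)]
        have hc : ∀ a, Continuous fun y => χ y a := fun a =>
          (continuous_apply a).comp h1.continuous
        refine setIntegral_mono_on ?_ ?_ hK.measurableSet ?_
        · refine ContinuousOn.integrableOn_compact hK (Continuous.continuousOn ?_)
          refine continuous_finset_sum _ fun a _ => ?_
          simp only [Pi.smul_apply, smul_eq_mul]
          exact (hr.continuous.mul (hc a)).pow 2
        · refine ContinuousOn.integrableOn_compact hK (Continuous.continuousOn ?_)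
          exact continuous_finset_sum _ fun a _ => (hc a).pow 2
        · intro y _
          refine Finset.sum_le_sum fun a _ => ?_
          simp only [Pi.smul_apply, smul_eq_mul]
          rw [mul_pow]
          have h6 := qk01_le R i y
          have h7 : qk01_r R i y ^ 2 ≤ 1 := pow_le_one₀ h6.1 h6.2
          nlinarith [sq_nonneg (χ y a)]
      calc T.l (ext P i (fun y => qk01_r R i y • χ y)) ^ 2 ≤
          T.C * R.nsq (ext P i (fun y => qk01_r R i y • χ y)) := h3
        _ ≤ T.C * (C0 * ∫ y, ∑ a, (qk01_r R i y • χ y) a ^ 2) :=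
            mul_le_mul_of_nonneg_left h4 T.C_nonneg
        _ ≤ T.C * (C0 * ∫ y in R.K i, ∑ a, χ y a ^ 2) :=
            mul_le_mul_of_nonneg_left (mul_le_mul_of_nonneg_left h5 hC0) T.C_nonneg
        _ = T.C * C0 * ∫ y in R.K i, ∑ a, χ y a ^ 2 := by ring)
  refine ⟨v, hv1, hv2, fun ψ hψ => ?_⟩
  obtain ⟨κ, hκ, hκc, hκs, -, V, hV, hKV, hκ1⟩ :=
    cutoff (P.c i).target (R.K i) (P.c i).open_target hK hKt
  have hχ : ContDiff ℝ ∞ (fun y => κ y • ψ i y) := by
    rw [contDiff_iff_contDiffAt]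
    intro y
    by_cases hy : y ∈ (P.c i).target
    · exact hκ.contDiffAt.smul ((hψ.1 i).contDiffAt ((P.c i).open_target.mem_nhds hy))
    · have h1 : y ∉ tsupport κ := fun h => hy (hκs h)
      refine (contDiffAt_const (c := (0 : R3))).congr_of_eventuallyEq ?_
      filter_upwards [(isClosed_tsupport κ).isOpen_compl.mem_nhds h1] with z hz
      rw [image_eq_zero_of_notMem_tsupport hz, zero_smul]
  have hχc : HasCompactSupport (fun y => κ y • ψ i y) := hκc.smul_right
  have h1 := hv3 (fun y => κ y • ψ i y) hχ hχc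
  have h2 : T.l (fun j y => R.rh i j y • ψ j y) =
      T.l (ext P i (fun y => qk01_r R i y • κ y • ψ i y)) := by
    refine T.congr _ _ (qk01_sec R i ψ hψ) (hsec _ hχ) fun j y hy => ?_
    unfold ext
    by_cases ho : y ∈ P.ov i j
    · rw [if_pos ho]
      have ht : P.tr i j y ∈ (P.c i).target := (P.c i).map_source ho.2
      have h3 : qk01_r R i (P.tr i j y) = R.rh i j y := by
        unfold qk01_r
        rw [if_pos ht, qk01_rh R i i j y ho]
      beta_reduce
      rw [hψ.2 i j y ho, Matrix.mulVec_smul, Matrix.mulVec_smul, qk01_orth P i j y ho]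
      by_cases hk : P.tr i j y ∈ R.K i
      · rw [hκ1 _ (hKV hk), one_smul, h3]
      · rw [qk01_zero R i _ hk] at h3
        rw [qk01_zero R i _ hk, ← h3, zero_smul, zero_smul]
    · rw [if_neg ho]
      have h3 : (P.c j).symm y ∉ tsupport (R.ρ i) := fun h => ho ⟨hy, R.supp i h⟩
      have h4 : R.rh i j y = 0 := image_eq_zero_of_notMem_tsupport (f := R.ρ i) h3
      rw [h4, zero_smul]
  rw [h2, h1]
  refine integral_congr_ae (Filter.Eventually.of_forall fun y => ?_)
  refine Finset.sum_congr rfl fun a _ => ?_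
  by_cases hk : y ∈ R.K i
  · rw [hκ1 _ (hKV hk), one_smul]
  · rw [hv2 a y hk, zero_mul, zero_mul]

theorem loc_f_smooth {V W : Type} [NormedAddCommGroup V] [NormedSpace ℝ V]
    [NormedAddCommGroup W] [NormedSpace ℝ W]
    {U K : Set V} (hU : IsOpen U) (hK : IsClosed K) (hKU : K ⊆ U) (h : V → W)
    (h1 : ContDiffOn ℝ ∞ h U) (h2 : ∀ x ∉ K, h x = 0) : ContDiff ℝ ∞ h := by
  rw [contDiff_iff_contDiffAt]
  intro x
  by_cases hx : x ∈ U
  · exact h1.contDiffAt (hU.mem_nhds hx)
  · have hx' : x ∈ Kᶜ := fun h => hx (hKU h)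
    refine (contDiffAt_const (c := (0 : W))).congr_of_eventuallyEq ?_
    filter_upwards [hK.isOpen_compl.mem_nhds hx'] with y hy using h2 y hy

theorem loc_f_det (F : Fin 4 → Fin 4 → R3) (hs : Skew F) (hF : PosDef F) : (gram F).det ≠ 0 := by
  intro h
  obtain ⟨v, hv, hv0⟩ := Matrix.exists_mulVec_eq_zero_iff.mpr h
  have h1 := gram_pos F hs hF v hv
  have h2 : ∑ a, ∑ b, v a * gram F a b * v b = ∑ a, v a * ((gram F).mulVec v) a := by
    refine Finset.sum_congr rfl fun a _ => ?_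
    simp only [Matrix.mulVec, dotProduct, Finset.mul_sum]
    exact Finset.sum_congr rfl fun b _ => by ring
  rw [h2, hv0] at h1
  simp at h1

theorem loc_f_sdp {U : Set E4} (hU : IsOpen U) {A : E4 → Fin 4 → R3} (hA : ContDiffOn ℝ ∞ A U)
    (hp : ∀ y ∈ U, PosDef (curv A y)) {B : E4 → Fin 4 → Fin 4 → ℝ}
    (hB : ∀ l m, ContDiffOn ℝ ∞ (fun y => B y l m) U) :
    ContDiffOn ℝ ∞ (fun y => sdp (curv A y) (B y)) U := by
  have hc : ∀ a l m, ContDiffOn ℝ ∞ (fun y => cmp (curv A y) a l m) U := fun a l m =>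
    contDiffOn_pi.mp (sm_curv hU hA l m) a
  have hM : ∀ a b, ContDiffOn ℝ ∞ (fun y => gram (curv A y) a b) U := fun a b =>
    sm_wedge (hc a) (hc b)
  have hd : ContDiffOn ℝ ∞ (fun y => (gram (curv A y)).det) U := by
    simp only [Matrix.det_fin_three]
    exact ((((((hM 0 0).mul (hM 1 1)).mul (hM 2 2)).sub (((hM 0 0).mul (hM 1 2)).mul (hM 2 1))).sub
      (((hM 0 1).mul (hM 1 0)).mul (hM 2 2))).add (((hM 0 1).mul (hM 1 2)).mul (hM 2 0))).add
      (((hM 0 2).mul (hM 1 0)).mul (hM 2 1)) |>.sub (((hM 0 2).mul (hM 1 1)).mul (hM 2 0))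
  have hdi : ContDiffOn ℝ ∞ (fun y => ((gram (curv A y)).det)⁻¹) U :=
    hd.inv fun y hy => loc_f_det _ (skew_curv A y) (hp y hy)
  have hadj : ∀ a b, ContDiffOn ℝ ∞ (fun y => (gram (curv A y)).adjugate a b) U := by
    intro a b
    simp only [Matrix.adjugate_fin_three]
    fin_cases a <;> fin_cases b <;> simp
    · exact ((hM 1 1).mul (hM 2 2)).sub ((hM 1 2).mul (hM 2 1))
    · exact ((hM 0 1).mul (hM 2 2)).neg.add ((hM 0 2).mul (hM 2 1))
    · exact ((hM 0 1).mul (hM 1 2)).sub ((hM 0 2).mul (hM 1 1))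
    · exact ((hM 1 0).mul (hM 2 2)).neg.add ((hM 1 2).mul (hM 2 0))
    · exact ((hM 0 0).mul (hM 2 2)).sub ((hM 0 2).mul (hM 2 0))
    · exact ((hM 0 0).mul (hM 1 2)).neg.add ((hM 0 2).mul (hM 1 0))
    · exact ((hM 1 0).mul (hM 2 1)).sub ((hM 1 1).mul (hM 2 0))
    · exact ((hM 0 0).mul (hM 2 1)).neg.add ((hM 0 1).mul (hM 2 0))
    · exact ((hM 0 0).mul (hM 1 1)).sub ((hM 0 1).mul (hM 1 0))
  rw [contDiffOn_pi]
  intro a
  simp only [sdp, Matrix.mulVec, dotProduct, Matrix.inv_def, Ring.inverse_eq_inv', Matrix.smul_apply,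
    smul_eq_mul]
  exact ContDiffOn.sum fun b _ => (hdi.mul (hadj a b)).mul (sm_wedge (hc b) hB)

theorem loc_f_wedge_add (B C D : Fin 4 → Fin 4 → ℝ) : wedge B (C + D) = wedge B C + wedge B D := by
  simp only [wedge, Pi.add_apply]
  ring

theorem loc_f_wedge_smul (t : ℝ) (B C : Fin 4 → Fin 4 → ℝ) :
    wedge B (t • C) = t * wedge B C := by
  simp only [wedge, Pi.smul_apply, smul_eq_mul]
  ring

theorem loc_f_sdp_add (F : Fin 4 → Fin 4 → R3) (C D : Fin 4 → Fin 4 → ℝ) :
    sdp F (C + D) = sdp F C + sdp F D := by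
  simp only [sdp, loc_f_wedge_add]
  rw [← Matrix.mulVec_add]
  rfl

theorem loc_f_sdp_smul (F : Fin 4 → Fin 4 → R3) (t : ℝ) (C : Fin 4 → Fin 4 → ℝ) :
    sdp F (t • C) = t • sdp F C := by
  simp only [sdp, loc_f_wedge_smul]
  rw [← Matrix.mulVec_smul]
  rfl

theorem loc_f_sdp_zero (F : Fin 4 → Fin 4 → R3) : sdp F 0 = 0 := by
  have := loc_f_sdp_smul F 0 0
  simpa using this

theorem loc_f_wed_add (u b c : Fin 4 → ℝ) : wed u (b + c) = wed u b + wed u c := by
  funext l m
  simp only [wed, Pi.add_apply]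
  ring

theorem loc_f_wed_smul (t : ℝ) (u b : Fin 4 → ℝ) : wed u (t • b) = t • wed u b := by
  funext l m
  simp only [wed, Pi.smul_apply, smul_eq_mul]
  ring

theorem loc_f_wed_zero (b : Fin 4 → ℝ) : wed (fun _ => 0) b = 0 := by
  funext l m
  simp [wed]

theorem loc_f_ext_add (P : Bundle X) (i : P.ι) (χ χ' : E4 → R3) :
    ext P i (χ + χ') = ext P i χ + ext P i χ' := by
  funext j y
  simp only [ext, Pi.add_apply]
  split_ifs
  · rw [Matrix.mulVec_add]
  · simp

theorem loc_f_ext_smul (P : Bundle X) (i : P.ι) (t : ℝ) (χ : E4 → R3) :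
    ext P i (t • χ) = t • ext P i χ := by
  funext j y
  simp only [ext, Pi.smul_apply]
  split_ifs
  · rw [Matrix.mulVec_smul]
  · simp

/-- The 1-form `b` of the chart `i` goes to `sf (dρ_i ∧ b)`. -/
def loc_f_s {P : Bundle X} [Fintype P.ι] (R : PU P) (i : P.ι) (b : E4 → Fin 4 → ℝ) (y : E4) : R3 :=
  open Classical in
  if y ∈ (P.c i).target then sdp (curv (P.A i) y) (wed (fun l => pd l (R.rh i i) y) (b y)) else 0

theorem loc_f_s_add {P : Bundle X} [Fintype P.ι] (R : PU P) (i : P.ι) (b c : E4 → Fin 4 → ℝ) :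
    loc_f_s R i (b + c) = loc_f_s R i b + loc_f_s R i c := by
  funext y
  simp only [loc_f_s, Pi.add_apply]
  split_ifs
  · rw [loc_f_wed_add, loc_f_sdp_add]
  · simp

theorem loc_f_s_smul {P : Bundle X} [Fintype P.ι] (R : PU P) (i : P.ι) (t : ℝ)
    (b : E4 → Fin 4 → ℝ) : loc_f_s R i (t • b) = t • loc_f_s R i b := by
  funext y
  simp only [loc_f_s, Pi.smul_apply]
  split_ifs
  · rw [loc_f_wed_smul, loc_f_sdp_smul]
  · simp

theorem loc_f_s_lin {P : Bundle X} [Fintype P.ι] (R : PU P) (i : P.ι) (b : E4 → Fin 4 → ℝ)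
    (y : E4) (a : Fin 3) :
    loc_f_s R i b y a = ∑ e, b y e * loc_f_s R i (fun _ => Pi.single e 1) y a := by
  unfold loc_f_s
  split_ifs
  · have h : b y = ∑ e, b y e • (Pi.single e 1 : Fin 4 → ℝ) := by
      funext k
      simp [Finset.sum_apply, Pi.single_apply]
    conv_lhs => rw [h]
    simp only [Fin.sum_univ_four, loc_f_wed_add, loc_f_wed_smul, loc_f_sdp_add, loc_f_sdp_smul,
      Pi.add_apply, Pi.smul_apply, smul_eq_mul]
  · simp

theorem loc_f_pd_zero {P : Bundle X} [Fintype P.ι] (R : PU P) (i j : P.ι) {y : E4}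
    (hy : y ∈ (P.c j).target) (h : (P.c j).symm y ∉ tsupport (R.ρ i)) (l : Fin 4) :
    pd l (R.rh i j) y = 0 := by
  have h1 : R.rh i j =ᶠ[nhds y] fun _ => (0 : ℝ) :=
    Pool.Agent.Helper64.DC.eventually_zero P.c R.ρ hy h
  rw [pj_congr l h1]
  simp [pd]

theorem loc_f_rh_smooth {P : Bundle X} [Fintype P.ι] (R : PU P) (i j : P.ι) :
    ContDiffOn ℝ ∞ (R.rh i j) (P.c j).target :=
  Pool.Agent.Helper64.DC.contDiffOn_symm (P.c_mem j) (R.smooth i)

theorem loc_f_K_compact [CompactSpace X] {P : Bundle X} [Fintype P.ι] (R : PU P) (i : P.ι) :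
    IsCompact (R.K i) :=
  Pool.Agent.Helper64.DC.isCompact_K P.c R.ρ R.supp i

theorem loc_f_K_sub {P : Bundle X} [Fintype P.ι] (R : PU P) (i : P.ι) :
    R.K i ⊆ (P.c i).target :=
  Pool.Agent.Helper64.DC.K_subset P.c R.ρ R.supp i

theorem loc_f_pd_off {P : Bundle X} [Fintype P.ι] (R : PU P) (i : P.ι) {y : E4}
    (hy : y ∈ (P.c i).target) (h : y ∉ R.K i) (l : Fin 4) : pd l (R.rh i i) y = 0 :=
  loc_f_pd_zero R i i hy (Pool.Agent.Helper64.DC.notMem_tsupport_of_notMem P.c R.ρ hy h) l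

theorem loc_f_s_off {P : Bundle X} [Fintype P.ι] (R : PU P) (i : P.ι) (b : E4 → Fin 4 → ℝ)
    (y : E4) (h : y ∉ R.K i) : loc_f_s R i b y = 0 := by
  unfold loc_f_s
  split_ifs with hy
  · simp only [loc_f_pd_off R i hy h, loc_f_wed_zero, loc_f_sdp_zero]
  · rfl

theorem loc_f_s_smooth [CompactSpace X] {P : Bundle X} [Fintype P.ι] (R : PU P)
    (hP : P.PositiveDefinite) (i : P.ι) (b : E4 → Fin 4 → ℝ) (hb : ContDiff ℝ ∞ b) :
    ContDiff ℝ ∞ (loc_f_s R i b) := by
  have hU := (P.c i).open_target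
  refine loc_f_smooth hU (loc_f_K_compact R i).isClosed (loc_f_K_sub R i) _ ?_
    (loc_f_s_off R i b)
  have h1 : ContDiffOn ℝ ∞ (fun y => sdp (curv (P.A i) y)
      (wed (fun l => pd l (R.rh i i) y) (b y))) (P.c i).target := by
    refine loc_f_sdp hU (P.A_smooth i) (hP i) fun l m => ?_
    have h2 := fun e => contDiffOn_pi.mp (hb.contDiffOn (s := (P.c i).target)) e
    exact ((sm_pd l hU (loc_f_rh_smooth R i i)).mul (h2 m)).sub
      ((sm_pd m hU (loc_f_rh_smooth R i i)).mul (h2 l))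
  refine h1.congr fun y hy => ?_
  simp only [loc_f_s, if_pos hy]

theorem loc_f_bound [CompactSpace X] {P : Bundle X} [Fintype P.ι] (R : PU P)
    (hP : P.PositiveDefinite) (i : P.ι) :
    ∃ C : ℝ, 0 ≤ C ∧ ∀ b : E4 → Fin 4 → ℝ, ContDiff ℝ ∞ b →
      ∫ y, ∑ a, loc_f_s R i b y a ^ 2 ≤ C * ∫ y in R.K i, ∑ e, b y e ^ 2 := by
  have hKc := loc_f_K_compact R i
  have hS : ∀ e, Continuous (loc_f_s R i (fun _ => (Pi.single e 1 : Fin 4 → ℝ))) := fun e =>
    (loc_f_s_smooth R hP i _ contDiff_const).continuous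
  have hcont : Continuous (fun y => ∑ a, ∑ e,
      loc_f_s R i (fun _ => (Pi.single e 1 : Fin 4 → ℝ)) y a ^ 2) :=
    continuous_finsetSum _ fun a _ => continuous_finsetSum _ fun e _ =>
      ((continuous_apply a).comp (hS e)).pow 2
  obtain ⟨C, hC⟩ := hKc.exists_bound_of_continuousOn hcont.continuousOn
  refine ⟨max C 0, le_max_right _ _, fun b hb => ?_⟩
  have hsb := (loc_f_s_smooth R hP i b hb).continuous
  have hl : Continuous (fun y => ∑ a, loc_f_s R i b y a ^ 2) :=
    continuous_finsetSum _ fun a _ => ((continuous_apply a).comp hsb).pow 2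
  have hr : Continuous (fun y => ∑ e, b y e ^ 2) :=
    continuous_finsetSum _ fun e _ => ((continuous_apply e).comp hb.continuous).pow 2
  have h0 : ∫ y, ∑ a, loc_f_s R i b y a ^ 2 = ∫ y in R.K i, ∑ a, loc_f_s R i b y a ^ 2 := by
    rw [setIntegral_eq_integral_of_forall_compl_eq_zero]
    intro y hy
    rw [loc_f_s_off R i b y hy]
    simp
  rw [h0, ← integral_const_mul]
  refine setIntegral_mono_on (hl.continuousOn.integrableOn_compact hKc)
    ((continuous_const.mul hr).continuousOn.integrableOn_compact hKc) hKc.measurableSet ?_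
  intro y hy
  have h1 : ∀ a, loc_f_s R i b y a ^ 2 ≤ (∑ e, b y e ^ 2) *
      ∑ e, loc_f_s R i (fun _ => (Pi.single e 1 : Fin 4 → ℝ)) y a ^ 2 := by
    intro a
    rw [loc_f_s_lin R i b y a]
    exact Finset.sum_mul_sq_le_sq_mul_sq _ _ _
  have h2 : ∑ a, loc_f_s R i b y a ^ 2 ≤ (∑ e, b y e ^ 2) *
      ∑ a, ∑ e, loc_f_s R i (fun _ => (Pi.single e 1 : Fin 4 → ℝ)) y a ^ 2 := by
    rw [Finset.mul_sum]
    exact Finset.sum_le_sum fun a _ => h1 a
  have h3 := (le_abs_self _).trans ((Real.norm_eq_abs _).symm.le.trans (hC y hy))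
  have h4 : (0 : ℝ) ≤ ∑ e, b y e ^ 2 := Finset.sum_nonneg fun e _ => sq_nonneg _
  calc _ ≤ _ := h2
    _ ≤ (∑ e, b y e ^ 2) * max C 0 :=
        mul_le_mul_of_nonneg_left (h3.trans (le_max_left _ _)) h4
    _ = _ := mul_comm _ _

theorem loc_f_two {P : Bundle X} [Fintype P.ι] (R : PU P) (i : P.ι) (a : P.ι → E4 → Fin 4 → ℝ)
    (ha : IsOne P a) : IsTwo P (fun j y => wed (fun l => pd l (R.rh i j) y) (a j y)) := by
  refine ⟨fun j => ?_, fun j y _ l m => ?_, fun k j y hy l m => ?_⟩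
  · rw [contDiffOn_pi]
    intro l
    rw [contDiffOn_pi]
    intro m
    have hU := (P.c j).open_target
    have h2 := fun e => contDiffOn_pi.mp (ha.1 j) e
    exact ((sm_pd l hU (loc_f_rh_smooth R i j)).mul (h2 m)).sub
      ((sm_pd m hU (loc_f_rh_smooth R i j)).mul (h2 l))
  · simp only [wed]
    ring
  · have hov := (ov_open P k j).mem_nhds hy
    have hτ : DifferentiableAt ℝ (P.tr k j) y :=
      ((tr_smooth P k j).contDiffAt hov).differentiableAt (by simp)
    have hρ : DifferentiableAt ℝ (R.rh i k) (P.tr k j y) :=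
      ((loc_f_rh_smooth R i k).contDiffAt ((P.c k).open_target.mem_nhds
        (tr_mem P k j y hy))).differentiableAt (by simp)
    have hch : ∀ q, pd q (R.rh i j) y =
        ∑ n, jac P k j y n q * pd n (R.rh i k) (P.tr k j y) := by
      intro q
      have h1 : R.rh i j =ᶠ[nhds y] fun z => R.rh i k (P.tr k j z) := by
        filter_upwards [hov] with z hz
        simp only [PU.rh, Bundle.tr]
        rw [(P.c k).left_inv hz.2]
      rw [pj_congr q h1, pj_chain (F := R.rh i k) q hρ hτ]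
      rfl
    simp only [wed, hch, ha.2 k j y hy]
    simp only [Fin.sum_univ_four]
    ring

/-- PIECE QK2. The same for the functional `a ↦ T (sf (dρ_i ∧ a))` on 1-forms.
PROOF. `riesz` with `m = 4` for `L b = T.l (ext P i (s b))`,
`s b y = sdp (curv (P.A i) y) (wed (fun l => pd l (R.rh i i) y) (b y))` on the target, `0` off it
(smooth, supported in `R.K i`, `|s b| ≤ C |b|` there). For a 1-form `a` use `b = κ • a i`; on all
targets `ext P i (s b) = sf (dρ_i ∧ a)` (as in `sf_sec`, `dρ_i ∧ a` is a 2-form). -/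
theorem loc_f [T2Space X] [CompactSpace X] {P : Bundle X} [Fintype P.ι] {R : PU P}
    (hP : P.PositiveDefinite) (T : Fun R) (i : P.ι) :
    ∃ f : Fin 4 → E4 → ℝ, (∀ e, MemLp (f e) 2 volume) ∧ (∀ e, ∀ y ∉ R.K i, f e y = 0) ∧
      ∀ a, IsOne P a →
        T.l (fun j y => sdp (curv (P.A j) y) (wed (fun l => pd l (R.rh i j) y) (a j y))) =
          ∫ y, ∑ e, f e y * a i y e := by
  have hKc := loc_f_K_compact R i
  have hKt := loc_f_K_sub R i
  have hsec : ∀ b : E4 → Fin 4 → ℝ, ContDiff ℝ ∞ b → IsSec P (ext P i (loc_f_s R i b)) :=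
    fun b hb => ext_sec P i _ (loc_f_s_smooth R hP i b hb) (R.K i) hKc hKt (loc_f_s_off R i b)
  obtain ⟨C1, hC1, hb1⟩ := ext_bound P R hP i (R.K i) hKc hKt
  obtain ⟨C2, hC2, hb2⟩ := loc_f_bound R hP i
  obtain ⟨f, hf1, hf2, hf3⟩ := riesz (m := 4) (R.K i) hKc
    (fun b => T.l (ext P i (loc_f_s R i b)))
    (fun b c hb _ hc _ => by
      simp only [loc_f_s_add, loc_f_ext_add]
      exact T.add _ _ (hsec b hb) (hsec c hc))
    (fun t b hb _ => by
      simp only [loc_f_s_smul, loc_f_ext_smul]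
      exact T.smul t _ (hsec b hb))
    (T.C * (C1 * C2))
    (fun b hb _ => by
      have h1 := T.bound _ (hsec b hb)
      have h2 := hb1 _ (loc_f_s_smooth R hP i b hb) (loc_f_s_off R i b)
      have h3 := hb2 b hb
      calc _ ≤ _ := h1
        _ ≤ T.C * (C1 * (C2 * ∫ y in R.K i, ∑ e, b y e ^ 2)) :=
            mul_le_mul_of_nonneg_left (h2.trans (mul_le_mul_of_nonneg_left h3 hC1)) T.C_nonneg
        _ = _ := by ring)
  refine ⟨f, hf1, hf2, fun a ha => ?_⟩
  obtain ⟨κ, hκ, hκc, hκt, -, V, -, hKV, hκ1⟩ := cutoff (P.c i).target (R.K i)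
    (P.c i).open_target hKc hKt
  have hbs : ContDiff ℝ ∞ (fun y => κ y • a i y) := by
    refine loc_f_smooth (P.c i).open_target (isClosed_tsupport κ) hκt _
      (hκ.contDiffOn.smul (ha.1 i)) fun y hy => ?_
    rw [image_eq_zero_of_notMem_tsupport hy, zero_smul]
  have hbc : HasCompactSupport (fun y => κ y • a i y) := hκc.smul_right
  have h3 := hf3 _ hbs hbc
  have h4 : ∫ y, ∑ e, f e y * (κ y • a i y) e = ∫ y, ∑ e, f e y * a i y e := by
    congr 1
    funext y
    refine Finset.sum_congr rfl fun e _ => ?_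
    by_cases hy : y ∈ R.K i
    · rw [hκ1 y (hKV hy), one_smul]
    · rw [hf2 e y hy, zero_mul, zero_mul]
  rw [← h4, ← h3]
  have hφ : IsSec P (fun j y => sdp (curv (P.A j) y)
      (wed (fun l => pd l (R.rh i j) y) (a j y))) := sf_sec P hP _ (loc_f_two R i a ha)
  refine T.congr _ _ hφ (hsec _ hbs) fun j y hy => ?_
  unfold ext
  split_ifs with hov
  · have ht := tr_mem P i j y hov
    have h5 : loc_f_s R i (fun y => κ y • a i y) (P.tr i j y) =
        sdp (curv (P.A i) (P.tr i j y))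
          (wed (fun l => pd l (R.rh i i) (P.tr i j y)) (a i (P.tr i j y))) := by
      unfold loc_f_s
      rw [if_pos ht]
      beta_reduce
      by_cases hy' : P.tr i j y ∈ R.K i
      · rw [hκ1 _ (hKV hy'), one_smul]
      · simp only [loc_f_pd_off R i ht hy', loc_f_wed_zero]
    rw [h5]
    have h6 := hφ.2 i j y hov
    simp only at h6
    rw [h6, Matrix.mulVec_mulVec]
    have h7 := (Matrix.mem_specialOrthogonalGroup_iff.mp (P.g_mem i j y hov)).1
    have h8 : (P.g i j y).transpose * P.g i j y = 1 := by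
      have := (Matrix.mem_orthogonalGroup_iff' (Fin 3) ℝ).mp h7
      simpa [Matrix.star_eq_conjTranspose, Matrix.conjTranspose] using this
    rw [h8, Matrix.one_mulVec]
  · have h5 : (P.c j).symm y ∉ tsupport (R.ρ i) := fun h => hov ⟨hy, R.supp i h⟩
    simp only [loc_f_pd_zero R i j hy h5, loc_f_wed_zero, loc_f_sdp_zero]

/-- A function times a section is a section. -/
theorem weak_eq_sec {P : Bundle X} [Fintype P.ι] (R : PU P) (i : P.ι) (ψ : P.ι → E4 → R3)
    (hψ : IsSec P ψ) : IsSec P (fun j y => R.rh i j y • ψ j y) := by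
  refine ⟨fun j => (loc_f_rh_smooth R i j).smul (hψ.1 j), fun j k y hy => ?_⟩
  have h1 : R.rh i j (P.tr j k y) = R.rh i k y := by
    simp only [PU.rh, Bundle.tr]
    rw [(P.c j).left_inv hy.2]
  simp only
  rw [h1, hψ.2 j k y hy, Matrix.mulVec_smul]

/-- A function times a 1-form is a 1-form. -/
theorem weak_eq_one {P : Bundle X} [Fintype P.ι] (R : PU P) (i : P.ι)
    (a : P.ι → E4 → Fin 4 → ℝ) (ha : IsOne P a) : IsOne P (fun j y => R.rh i j y • a j y) := by
  refine ⟨fun j => (loc_f_rh_smooth R i j).smul (ha.1 j), fun j k y hy m => ?_⟩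
  have h1 : R.rh i j (P.tr j k y) = R.rh i k y := by
    simp only [PU.rh, Bundle.tr]
    rw [(P.c j).left_inv hy.2]
  simp only [Pi.smul_apply, smul_eq_mul]
  rw [h1, ha.2 j k y hy m, Finset.mul_sum]
  exact Finset.sum_congr rfl fun n _ => by ring

/-- `d (ρ a) = ρ da + dρ ∧ a`. -/
theorem weak_eq_dd {P : Bundle X} [Fintype P.ι] (R : PU P) (i j : P.ι)
    (a : P.ι → E4 → Fin 4 → ℝ) (ha : IsOne P a) (y : E4) (hy : y ∈ (P.c j).target) :
    dd (fun z => R.rh i j z • a j z) y =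
      R.rh i j y • dd (a j) y + wed (fun l => pd l (R.rh i j) y) (a j y) := by
  have hn := (P.c j).open_target.mem_nhds hy
  have hr : DifferentiableAt ℝ (R.rh i j) y :=
    ((loc_f_rh_smooth R i j).contDiffAt hn).differentiableAt (by simp)
  have hd : ∀ m, DifferentiableAt ℝ (fun z => a j z m) y := fun m =>
    ((contDiffOn_pi.mp (ha.1 j) m).contDiffAt hn).differentiableAt (by simp)
  have key : ∀ l m, pd l (fun z => (R.rh i j z • a j z) m) y =
      pd l (R.rh i j) y * a j y m + R.rh i j y * pd l (fun z => a j z m) y := fun l m =>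
    pj_smul l hr (hd m)
  funext l m
  show pd l (fun z => (R.rh i j z • a j z) m) y - pd m (fun z => (R.rh i j z • a j z) l) y = _
  rw [key l m, key m l]
  simp only [dd, wed, Pi.add_apply, Pi.smul_apply, smul_eq_mul]
  ring

theorem weak_eq_symm (F : Fin 4 → Fin 4 → R3) (v w : R3) :
    ∑ a, v a * ((gram F)⁻¹.mulVec w) a = ∑ a, ((gram F)⁻¹.mulVec v) a * w a := by
  have h : (gram F)⁻¹.transpose = (gram F)⁻¹ := by
    rw [Matrix.transpose_nonsing_inv, gram_symm]
  have h1 : v ⬝ᵥ (gram F)⁻¹.mulVec w = (gram F)⁻¹.mulVec v ⬝ᵥ w := by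
    rw [Matrix.dotProduct_mulVec, ← Matrix.mulVec_transpose, h]
  simpa only [dotProduct] using h1

theorem weak_eq_wedge (B : Fin 4 → Fin 4 → ℝ) (e : Fin 4) (p : Fin 4 → ℝ) :
    wedge B (fun l m => p l * (Pi.single e (1 : ℝ) : Fin 4 → ℝ) m -
      p m * (Pi.single e (1 : ℝ) : Fin 4 → ℝ) l) = ∑ k, dual B k e * p k := by
  simp only [dual, wedge3, wedge, wed, Fin.sum_univ_four, Pi.single_apply]
  fin_cases e <;> simp <;> ring

/-- PIECE QK3. The weak equation. PROOF. Apply `T.zero` to the 1-form `ρ_i • ext1 P i (χ e)`;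
`d (ρ a) = ρ da + dρ ∧ a`, linearity of `sdp` and of `T`, `loc_v`, `loc_f`. With
`u = M⁻¹ v` one has `∑_a v_a (sdp F B)_a = ∑_a u_a wedge (F_a) B` (symmetry of `M`), and
`wedge (F_a) (d (χ e)) = ∑_k dual (F_a) k e * ∂_k χ`. -/
theorem weak_eq [T2Space X] [CompactSpace X] {P : Bundle X} [Fintype P.ι] {R : PU P}
    (hP : P.PositiveDefinite) (T : Fun R) (i : P.ι)
    (v : Fin 3 → E4 → ℝ) (hv : ∀ a, MemLp (v a) 2 volume) (hv0 : ∀ a, ∀ y ∉ R.K i, v a y = 0)
    (hv1 : ∀ ψ, IsSec P ψ → T.l (fun j y => R.rh i j y • ψ j y) = ∫ y, ∑ a, v a y * ψ i y a)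
    (f : Fin 4 → E4 → ℝ) (hf : ∀ e, MemLp (f e) 2 volume) (hf0 : ∀ e, ∀ y ∉ R.K i, f e y = 0)
    (hf1 : ∀ a, IsOne P a →
        T.l (fun j y => sdp (curv (P.A j) y) (wed (fun l => pd l (R.rh i j) y) (a j y))) =
          ∫ y, ∑ e, f e y * a i y e)
    (e : Fin 4) (χ : E4 → ℝ) (hχ : ContDiff ℝ ∞ χ) (hc : HasCompactSupport χ)
    (hs : tsupport χ ⊆ (P.c i).target) :
    ∫ y, f e y * χ y = -∫ y, ∑ k, ∑ a, dual (cmp (curv (P.A i) y) a) k e *
      ((gram (curv (P.A i) y))⁻¹.mulVec (fun b => v b y)) a * pd k χ y := by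
  have hKt := loc_f_K_sub R i
  -- the 1-form
  obtain ⟨b, hb⟩ : ∃ b : E4 → Fin 4 → ℝ, b = fun y => χ y • (Pi.single e 1 : Fin 4 → ℝ) :=
    ⟨_, rfl⟩
  have hbs : ContDiff ℝ ∞ b := by rw [hb]; exact hχ.smul contDiff_const
  have hb0 : ∀ y ∉ tsupport χ, b y = 0 := fun y hy => by
    rw [hb]; simp only; rw [image_eq_zero_of_notMem_tsupport hy, zero_smul]
  have ha : IsOne P (ext1 P i b) := ext1_one P i b hbs (tsupport χ) hc hs hb0
  have hz := T.zero _ (weak_eq_one R i _ ha)
  have hφ1 : IsSec P (fun j y => R.rh i j y • sf (P.A j) (dd (ext1 P i b j)) y) :=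
    weak_eq_sec R i _ (sf_sec P hP _ (dd_two P _ ha))
  have hφ2 : IsSec P (fun j y => sdp (curv (P.A j) y)
      (wed (fun l => pd l (R.rh i j) y) (ext1 P i b j y))) := sf_sec P hP _ (loc_f_two R i _ ha)
  have hφ : IsSec P (fun j => sf (P.A j) (dd (fun y => R.rh i j y • ext1 P i b j y))) :=
    sf_sec P hP _ (dd_two P _ (weak_eq_one R i _ ha))
  have h1 : T.l (fun j => sf (P.A j) (dd (fun y => R.rh i j y • ext1 P i b j y))) =
      T.l ((fun j y => R.rh i j y • sf (P.A j) (dd (ext1 P i b j)) y) +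
        (fun j y => sdp (curv (P.A j) y)
          (wed (fun l => pd l (R.rh i j) y) (ext1 P i b j y)))) := by
    refine T.congr _ _ hφ (isSec_add hφ1 hφ2) fun j y hy => ?_
    simp only [sf, Pi.add_apply]
    rw [weak_eq_dd R i j _ ha y hy, loc_f_sdp_add, loc_f_sdp_smul]
  rw [h1, T.add _ _ hφ1 hφ2, hv1 _ (sf_sec P hP _ (dd_two P _ ha)), hf1 _ ha] at hz
  have h2 : ∫ y, ∑ e', f e' y * ext1 P i b i y e' = ∫ y, f e y * χ y := by
    congr 1
    funext y
    by_cases hy : y ∈ R.K i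
    · simp only [ext1_self P i b y (hKt hy)]
      rw [hb]
      simp [Pi.single_apply]
    · simp only [hf0 _ y hy, zero_mul, Finset.sum_const_zero]
  have h3 : ∫ y, ∑ a, v a y * sf (P.A i) (dd (ext1 P i b i)) y a =
      ∫ y, ∑ k, ∑ a, dual (cmp (curv (P.A i) y) a) k e *
        ((gram (curv (P.A i) y))⁻¹.mulVec (fun b => v b y)) a * pd k χ y := by
    congr 1
    funext y
    by_cases hy : y ∈ R.K i
    · have hn := (P.c i).open_target.mem_nhds (hKt hy)
      have hcd : DifferentiableAt ℝ χ y := hχ.contDiffAt.differentiableAt (by simp)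
      have h4 : ∀ l m, pd l (fun z => ext1 P i b i z m) y =
          pd l χ y * (Pi.single e (1 : ℝ) : Fin 4 → ℝ) m := by
        intro l m
        have h5 : (fun z => ext1 P i b i z m) =ᶠ[nhds y]
            fun z => χ z • (Pi.single e (1 : ℝ) : Fin 4 → ℝ) m := by
          filter_upwards [hn] with z hz
          rw [ext1_self P i b z hz m, hb]
          rfl
        rw [pj_congr l h5, pj_smul l hcd (differentiableAt_const _)]
        simp [pd]
      have h6 : dd (ext1 P i b i) y = fun l m =>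
          pd l χ y * (Pi.single e (1 : ℝ) : Fin 4 → ℝ) m -
            pd m χ y * (Pi.single e (1 : ℝ) : Fin 4 → ℝ) l := by
        funext l m
        simp only [dd, h4]
      have h7 := weak_eq_symm (curv (P.A i) y) (fun c => v c y)
        (fun c => wedge (cmp (curv (P.A i) y) c) (dd (ext1 P i b i) y))
      have h8 : ∑ a, v a y * sf (P.A i) (dd (ext1 P i b i)) y a =
          ∑ a, ((gram (curv (P.A i) y))⁻¹.mulVec (fun b => v b y)) a *
            wedge (cmp (curv (P.A i) y) a) (dd (ext1 P i b i) y) := h7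
      rw [h8, Finset.sum_comm]
      refine Finset.sum_congr rfl fun a _ => ?_
      rw [h6, weak_eq_wedge, Finset.mul_sum]
      exact Finset.sum_congr rfl fun k _ => by ring
    · have h4 : (fun c => v c y) = (0 : R3) := funext fun c => hv0 c y hy
      rw [h4]
      simp only [Matrix.mulVec_zero, Pi.zero_apply, mul_zero, zero_mul, hv0 _ y hy,
        Finset.sum_const_zero]
  rw [h2, h3] at hz
  linarith

end

end Pool.Agent.Helper8.DC
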