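import Pool.Agent.Helper8.DC.QG
import Pool.Agent.Helper8.DC.QK

set_option autoImplicit false

open scoped Manifold ContDiff
open MeasureTheory

namespace Pool.Agent.Helper8.DC

noncomputable section

variable {X : Type} [TopologicalSpace X] [ChartedSpace E4 X] [IsManifold (𝓡 4) ∞ X]

/-- Homogeneity of the integral. -/
theorem ql1_int_smul (P : Bundle X) [Fintype P.ι] (R : PU P) (t : ℝ) (f : P.ι → E4 → ℝ) :
    R.int (fun i y => t * f i y) = t * R.int f := by
  unfold PU.int
  rw [Finset.mul_sum]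
  refine Finset.sum_congr rfl fun i _ => ?_
  rw [← integral_const_mul]
  refine setIntegral_congr_fun (P.c i).open_target.measurableSet fun y _ => ?_
  simp only []
  ring

/-- Integrals of nonnegative functions. -/
theorem ql1_int_nonneg (P : Bundle X) [Fintype P.ι] (R : PU P) (f : P.ι → E4 → ℝ)
    (h : ∀ i, ∀ y ∈ (P.c i).target, 0 ≤ f i y) : 0 ≤ R.int f := by
  unfold PU.int
  refine Finset.sum_nonneg fun i _ => ?_
  exact setIntegral_nonneg (P.c i).open_target.measurableSet fun y hy =>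
    mul_nonneg (R.nonneg _ _) (h i y hy)

/-- Continuity of the products. -/
theorem ql1_cont (P : Bundle X) (u v : P.ι → E4 → R3)
    (hu : ∀ i, ContinuousOn (u i) (P.c i).target) (hv : ∀ i, ContinuousOn (v i) (P.c i).target)
    (i : P.ι) : ContinuousOn (fun y => ∑ a, u i y a * v i y a) (P.c i).target :=
  continuousOn_finsetSum _ fun a _ =>
    (continuousOn_pi.mp (hu i) a).mul (continuousOn_pi.mp (hv i) a)

/-- Expansion of the square of `u + t v`. -/
theorem ql1_expand [T2Space X] [CompactSpace X] (P : Bundle X) [Fintype P.ι] (R : PU P)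
    (u v : P.ι → E4 → R3) (hu : ∀ i, ContinuousOn (u i) (P.c i).target)
    (hv : ∀ i, ContinuousOn (v i) (P.c i).target) (t : ℝ) :
    R.int (fun i y => ∑ a, (u i y a + t * v i y a) ^ 2) =
      R.int (fun i y => ∑ a, u i y a ^ 2) + 2 * t * R.int (fun i y => ∑ a, u i y a * v i y a) +
        t * t * R.int (fun i y => ∑ a, v i y a ^ 2) := by
  have hsq : ∀ w : P.ι → E4 → R3, (∀ i, ContinuousOn (w i) (P.c i).target) → ∀ i,
      ContinuousOn (fun y => ∑ a, w i y a ^ 2) (P.c i).target := by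
    intro w hw i
    have h := ql1_cont P w w hw hw i
    simpa only [pow_two] using h
  have h1 : R.int (fun i y => ∑ a, (u i y a + t * v i y a) ^ 2) =
      R.int (fun i y => ((∑ a, u i y a ^ 2) + 2 * t * ∑ a, u i y a * v i y a) +
        t * t * ∑ a, v i y a ^ 2) := by
    refine qg_int_congr P R _ _ fun i y _ => ?_
    rw [Finset.mul_sum, Finset.mul_sum, ← Finset.sum_add_distrib, ← Finset.sum_add_distrib]
    refine Finset.sum_congr rfl fun a _ => ?_
    ring
  rw [h1, qg_int_add P R (fun i y => (∑ a, u i y a ^ 2) + 2 * t * ∑ a, u i y a * v i y a)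
    (fun i y => t * t * ∑ a, v i y a ^ 2)
    (fun i => (hsq u hu i).add (continuousOn_const.mul (ql1_cont P u v hu hv i)))
    (fun i => continuousOn_const.mul (hsq v hv i)),
    qg_int_add P R (fun i y => ∑ a, u i y a ^ 2) (fun i y => 2 * t * ∑ a, u i y a * v i y a)
    (hsq u hu) (fun i => continuousOn_const.mul (ql1_cont P u v hu hv i)),
    ql1_int_smul, ql1_int_smul]

/-- Cauchy-Schwarz. -/
theorem ql1_cs [T2Space X] [CompactSpace X] (P : Bundle X) [Fintype P.ι] (R : PU P)
    (u v : P.ι → E4 → R3) (hu : ∀ i, ContinuousOn (u i) (P.c i).target)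
    (hv : ∀ i, ContinuousOn (v i) (P.c i).target) :
    R.int (fun i y => ∑ a, u i y a * v i y a) ^ 2 ≤
      R.int (fun i y => ∑ a, u i y a ^ 2) * R.int (fun i y => ∑ a, v i y a ^ 2) := by
  have h := discrim_le_zero (a := R.int (fun i y => ∑ a, v i y a ^ 2))
    (b := 2 * R.int (fun i y => ∑ a, u i y a * v i y a))
    (c := R.int (fun i y => ∑ a, u i y a ^ 2)) (fun t => by
      have h0 : 0 ≤ R.int (fun i y => ∑ a, (u i y a + t * v i y a) ^ 2) :=
        ql1_int_nonneg P R _ fun i y _ => Finset.sum_nonneg fun a _ => sq_nonneg _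
      rw [ql1_expand P R u v hu hv t] at h0
      linarith)
  unfold discrim at h
  nlinarith [h]

/-- PIECE QL1. `√nsq` is a seminorm on the sections. PROOF. The bilinear form
`R.int (∑_a φ_a ψ_a)` is symmetric and positive semidefinite (integrability: continuous on the
target, zero off `R.K i`), so Cauchy-Schwarz and Minkowski hold. -/
theorem exists_seminorm [T2Space X] [CompactSpace X] (P : Bundle X) [Fintype P.ι] (R : PU P) :
    ∃ p : Seminorm ℝ (secs P), ∀ φ : secs P, p φ ^ 2 = R.nsq φ.1 := by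
  have hc : ∀ φ : secs P, ∀ i, ContinuousOn (φ.1 i) (P.c i).target :=
    fun φ i => (φ.2.1 i).continuousOn
  have hn : ∀ φ : secs P, 0 ≤ R.nsq φ.1 := fun φ =>
    ql1_int_nonneg P R _ fun i y _ => Finset.sum_nonneg fun a _ => sq_nonneg _
  refine ⟨Seminorm.of (fun φ : secs P => √(R.nsq φ.1)) (fun φ ψ => ?_) (fun t φ => ?_),
    fun φ => Real.sq_sqrt (hn φ)⟩
  · have h1 : R.nsq (φ + ψ).1 = R.nsq φ.1 + 2 * R.int (fun i y => ∑ a, φ.1 i y a * ψ.1 i y a) +
        R.nsq ψ.1 := by
      have h := ql1_expand P R φ.1 ψ.1 (hc φ) (hc ψ) 1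
      have h' : R.nsq (φ + ψ).1 = R.int (fun i y => ∑ a, (φ.1 i y a + 1 * ψ.1 i y a) ^ 2) := by
        unfold PU.nsq
        refine qg_int_congr P R _ _ fun i y _ => ?_
        refine Finset.sum_congr rfl fun a _ => ?_
        rw [one_mul]
        rfl
      rw [h', h]
      unfold PU.nsq
      ring
    have h2 := ql1_cs P R φ.1 ψ.1 (hc φ) (hc ψ)
    have h3 : R.int (fun i y => ∑ a, φ.1 i y a * ψ.1 i y a) ≤ √(R.nsq φ.1) * √(R.nsq ψ.1) := by
      rw [← Real.sqrt_mul (hn φ)]
      exact (le_abs_self _).trans (Real.abs_le_sqrt h2)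
    refine Real.sqrt_le_iff.mpr ⟨by positivity, ?_⟩
    rw [h1, add_sq, Real.sq_sqrt (hn φ), Real.sq_sqrt (hn ψ)]
    linarith
  · have h1 : R.nsq (t • φ).1 = t ^ 2 * R.nsq φ.1 := by
      unfold PU.nsq
      rw [← ql1_int_smul]
      refine qg_int_congr P R _ _ fun i y _ => ?_
      rw [Finset.mul_sum]
      refine Finset.sum_congr rfl fun a _ => ?_
      show (t * φ.1 i y a) ^ 2 = _
      ring
    show √(R.nsq (t • φ).1) = ‖t‖ * √(R.nsq φ.1)
    rw [h1, Real.sqrt_mul (sq_nonneg t), Real.sqrt_sq_eq_abs, Real.norm_eq_abs]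

/-- PIECE QL2. Cauchy-Schwarz for the pairing with a fixed section. -/
theorem pair_bound [T2Space X] [CompactSpace X] (P : Bundle X) [Fintype P.ι] (R : PU P)
    (hP : P.PositiveDefinite) (ψ : P.ι → E4 → R3) (hψ : IsSec P ψ) :
    ∃ C : ℝ, 0 ≤ C ∧ ∀ φ, IsSec P φ → R.pair φ ψ ^ 2 ≤ C * R.nsq φ := by
  have hw : ∀ i, ContinuousOn (fun y => (gram (curv (P.A i) y)).mulVec (ψ i y))
      (P.c i).target := by
    intro i
    refine continuousOn_pi.mpr fun a => ?_
    simp only [Matrix.mulVec, dotProduct]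
    refine continuousOn_finsetSum _ fun b _ => ?_
    refine ContinuousOn.mul ?_ (continuousOn_pi.mp (hψ.1 i).continuousOn b)
    refine ContDiffOn.continuousOn (𝕜 := ℝ) (n := ∞) ?_
    exact sm_wedge
      (fun l m => contDiffOn_pi.mp (sm_curv (P.c i).open_target (P.A_smooth i) l m) a)
      (fun l m => contDiffOn_pi.mp (sm_curv (P.c i).open_target (P.A_smooth i) l m) b)
  refine ⟨R.int (fun i y => ∑ a, (gram (curv (P.A i) y)).mulVec (ψ i y) a ^ 2),
    ql1_int_nonneg P R _ fun i y _ => Finset.sum_nonneg fun a _ => sq_nonneg _, fun φ hφ => ?_⟩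
  have h1 := ql1_cs P R φ (fun i y => (gram (curv (P.A i) y)).mulVec (ψ i y))
    (fun i => (hφ.1 i).continuousOn) hw
  have h2 : R.pair φ ψ =
      R.int (fun i y => ∑ a, φ i y a * (gram (curv (P.A i) y)).mulVec (ψ i y) a) := by
    unfold PU.pair
    refine qg_int_congr P R _ _ fun i y _ => ?_
    refine Finset.sum_congr rfl fun a _ => ?_
    simp only [Matrix.mulVec, dotProduct]
    rw [Finset.mul_sum]
    refine Finset.sum_congr rfl fun b _ => ?_
    ring
  rw [h2, mul_comm]
  exact h1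

end

end Pool.Agent.Helper8.DC
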