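import Pool.Agent.Helper8.DC.QY
import Pool.Agent.Helper8.DC.QL
import Pool.Agent.Helper64.DC.Fried

set_option autoImplicit false

open scoped Manifold ContDiff
open MeasureTheory Filter Topology

namespace Pool.Agent.Helper8.DC

noncomputable section

/-! ### Local facts -/

theorem qm_det_ne {F : Fin 4 → Fin 4 → R3} (hs : Skew F) (hF : PosDef F) : (gram F).det ≠ 0 := by
  intro h
  obtain ⟨v, hv, hv0⟩ := Matrix.exists_mulVec_eq_zero_iff.mpr h
  have h1 := gram_pos F hs hF v hv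
  have h2 : ∑ a, ∑ b, v a * gram F a b * v b = ∑ a, v a * (gram F).mulVec v a := by
    simp only [Matrix.mulVec, dotProduct, Finset.mul_sum]
    refine Finset.sum_congr rfl fun a _ => Finset.sum_congr rfl fun b _ => ?_
    ring
  rw [h2, hv0] at h1
  simp at h1

theorem qm_gram_cd {U : Set E4} (hU : IsOpen U) {A : E4 → Fin 4 → R3}
    (hA : ContDiffOn ℝ ∞ A U) (a b : Fin 3) :
    ContDiffOn ℝ ∞ (fun y => gram (curv A y) a b) U := by
  unfold gram
  exact sm_wedge (fun l m => contDiffOn_pi.mp (sm_curv hU hA l m) a)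
    (fun l m => contDiffOn_pi.mp (sm_curv hU hA l m) b)

theorem qm_gram_cont {U : Set E4} (hU : IsOpen U) {A : E4 → Fin 4 → R3}
    (hA : ContDiffOn ℝ ∞ A U) : ContinuousOn (fun y => gram (curv A y)) U := by
  exact continuousOn_pi.2 fun a => continuousOn_pi.2 fun b => (qm_gram_cd hU hA a b).continuousOn

theorem qm_inv_cont {U : Set E4} (hU : IsOpen U) {A : E4 → Fin 4 → R3}
    (hA : ContDiffOn ℝ ∞ A U) (hP : ∀ y ∈ U, PosDef (curv A y)) :
    ContinuousOn (fun y => (gram (curv A y))⁻¹) U := by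
  have h1 := qm_gram_cont hU hA
  have h2 : ContinuousOn (fun y => (gram (curv A y)).det) U :=
    (continuous_id.matrix_det).comp_continuousOn h1
  have h3 : ContinuousOn (fun y => (gram (curv A y)).adjugate) U :=
    (continuous_id.matrix_adjugate).comp_continuousOn h1
  have h4 : ContinuousOn (fun y => ((gram (curv A y)).det)⁻¹) U :=
    h2.inv₀ fun y hy => qm_det_ne (skew_curv A y) (hP y hy)
  refine (h4.smul h3).congr fun y _ => ?_
  rw [Matrix.inv_def, Ring.inverse_eq_inv']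
  rfl

/-- Young's inequality instead of Cauchy-Schwarz. -/
theorem qm_young {g h : E4 → ℝ} (hg : MemLp g 2 volume) (hh : MemLp h 2 volume) (s : ℝ)
    (hs : 0 < s) : |∫ y, g y * h y| ≤ (1 / 2) * (s⁻¹ * (∫ y, g y ^ 2) + s * ∫ y, h y ^ 2) := by
  have i1 : Integrable (fun y => g y ^ 2) volume := hg.integrable_sq
  have i2 : Integrable (fun y => h y ^ 2) volume := hh.integrable_sq
  have i3 : Integrable (fun y => g y * h y) volume := hg.integrable_mul hh
  calc |∫ y, g y * h y| ≤ ∫ y, |g y * h y| := abs_integral_le_integral_abs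
    _ ≤ ∫ y, (1 / 2) * (s⁻¹ * g y ^ 2 + s * h y ^ 2) := by
        refine integral_mono i3.abs (((i1.const_mul _).add (i2.const_mul _)).const_mul _) ?_
        intro y
        simp only []
        rw [abs_le]
        have h1 : 0 ≤ s⁻¹ * (g y - s * h y) ^ 2 := by positivity
        have h2 : 0 ≤ s⁻¹ * (g y + s * h y) ^ 2 := by positivity
        have h3 : s⁻¹ * s = 1 := inv_mul_cancel₀ hs.ne'
        constructor
        · nlinarith [h1, h2, h3]
        · nlinarith [h1, h2, h3]
    _ = (1 / 2) * (s⁻¹ * (∫ y, g y ^ 2) + s * ∫ y, h y ^ 2) := by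
        rw [integral_const_mul, integral_add (i1.const_mul _) (i2.const_mul _),
          integral_const_mul, integral_const_mul]

variable {X : Type} [TopologicalSpace X] [ChartedSpace E4 X] [IsManifold (𝓡 4) ∞ X]

theorem qm_isSec_sum {P : Bundle X} {κ : Type} (s : Finset κ) (φ : κ → P.ι → E4 → R3)
    (h : ∀ k ∈ s, IsSec P (φ k)) : IsSec P (fun j y => ∑ k ∈ s, φ k j y) := by
  have h1 : (∑ k ∈ s, φ k) ∈ secs P := Submodule.sum_mem _ fun k hk => h k hk
  have h2 : (∑ k ∈ s, φ k) = fun j y => ∑ k ∈ s, φ k j y := by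
    funext j y
    simp [Finset.sum_apply]
  rw [h2] at h1
  exact h1

/-- Linearity of `DD`. -/
theorem qm_DD_sum {κ : Type} (s : Finset κ) {U : Set E4} (hU : IsOpen U) {A : E4 → Fin 4 → R3}
    (hA : ContDiffOn ℝ ∞ A U) (φ : κ → E4 → R3) (hφ : ∀ k ∈ s, ContDiffOn ℝ ∞ (φ k) U) (y : E4)
    (hy : y ∈ U) (e : Fin 4) :
    DD A (fun z => ∑ k ∈ s, φ k z) y e = ∑ k ∈ s, DD A (φ k) y e := by
  have hd : ∀ a k' , ContDiffOn ℝ ∞ (fun z => dual (cmp (curv A z) a) k' e) U := by
    intro a k'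
    unfold dual wedge3
    exact sm_wedge (fun l m => contDiffOn_const)
      (fun l m => contDiffOn_pi.mp (sm_curv hU hA l m) a)
  have hdf : ∀ k ∈ s, ∀ k', DifferentiableAt ℝ
      (fun z => ∑ a, dual (cmp (curv A z) a) k' e * φ k z a) y := by
    intro k hk k'
    have : ContDiffOn ℝ ∞ (fun z => ∑ a, dual (cmp (curv A z) a) k' e * φ k z a) U :=
      ContDiffOn.sum fun a _ => (hd a k').mul (contDiffOn_pi.mp (hφ k hk) a)
    exact (this.contDiffAt (hU.mem_nhds hy)).differentiableAt (by simp)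
  unfold DD
  rw [Finset.sum_comm]
  refine Finset.sum_congr rfl fun k' _ => ?_
  have h1 : (fun z => ∑ a, dual (cmp (curv A z) a) k' e * (∑ k ∈ s, φ k z) a) =
      fun z => ∑ k ∈ s, ∑ a, dual (cmp (curv A z) a) k' e * φ k z a := by
    funext z
    rw [Finset.sum_comm]
    refine Finset.sum_congr rfl fun a _ => ?_
    rw [Finset.sum_apply, Finset.mul_sum]
  rw [h1]
  unfold pd
  rw [fderiv_fun_sum (fun k hk => hdf k hk k')]
  simp

theorem qm_DD_cd {U : Set E4} (hU : IsOpen U) {A : E4 → Fin 4 → R3}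
    (hA : ContDiffOn ℝ ∞ A U) (φ : E4 → R3) (hφ : ContDiffOn ℝ ∞ φ U) (e : Fin 4) :
    ContDiffOn ℝ ∞ (fun y => DD A φ y e) U := by
  have hd : ∀ a k' , ContDiffOn ℝ ∞ (fun z => dual (cmp (curv A z) a) k' e) U := by
    intro a k'
    unfold dual wedge3
    exact sm_wedge (fun l m => contDiffOn_const)
      (fun l m => contDiffOn_pi.mp (sm_curv hU hA l m) a)
  unfold DD
  refine ContDiffOn.sum fun k' _ => sm_pd k' hU ?_
  exact ContDiffOn.sum fun a _ => (hd a k').mul (contDiffOn_pi.mp hφ a)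

theorem qm_DD_sub {U : Set E4} (hU : IsOpen U) {A : E4 → Fin 4 → R3}
    (hA : ContDiffOn ℝ ∞ A U) (φ ψ : E4 → R3) (hφ : ContDiffOn ℝ ∞ φ U)
    (hψ : ContDiffOn ℝ ∞ ψ U) (y : E4) (hy : y ∈ U) (e : Fin 4) :
    DD A (fun z => φ z - ψ z) y e = DD A φ y e - DD A ψ y e := by
  have hd : ∀ a k' , ContDiffOn ℝ ∞ (fun z => dual (cmp (curv A z) a) k' e) U := by
    intro a k'
    unfold dual wedge3
    exact sm_wedge (fun l m => contDiffOn_const)
      (fun l m => contDiffOn_pi.mp (sm_curv hU hA l m) a)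
  have hdf : ∀ (φ : E4 → R3), ContDiffOn ℝ ∞ φ U → ∀ k', DifferentiableAt ℝ
      (fun z => ∑ a, dual (cmp (curv A z) a) k' e * φ z a) y := by
    intro φ hφ k'
    have : ContDiffOn ℝ ∞ (fun z => ∑ a, dual (cmp (curv A z) a) k' e * φ z a) U :=
      ContDiffOn.sum fun a _ => (hd a k').mul (contDiffOn_pi.mp hφ a)
    exact (this.contDiffAt (hU.mem_nhds hy)).differentiableAt (by simp)
  unfold DD
  rw [← Finset.sum_sub_distrib]
  refine Finset.sum_congr rfl fun k' _ => ?_
  have h1 : (fun z => ∑ a, dual (cmp (curv A z) a) k' e * (φ z - ψ z) a) =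
      fun z => (∑ a, dual (cmp (curv A z) a) k' e * φ z a) -
        ∑ a, dual (cmp (curv A z) a) k' e * ψ z a := by
    funext z
    rw [← Finset.sum_sub_distrib]
    refine Finset.sum_congr rfl fun a _ => ?_
    rw [Pi.sub_apply, mul_sub]
  rw [h1]
  unfold pd
  rw [fderiv_fun_sub (hdf φ hφ k') (hdf ψ hψ k')]
  simp

end

end Pool.Agent.Helper8.DC
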