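import Pool.Agent.Helper8.DC.QM

set_option autoImplicit false

open scoped Manifold ContDiff
open MeasureTheory Filter Topology

namespace Pool.Agent.Helper8.DC

noncomputable section

variable {X : Type} [TopologicalSpace X] [ChartedSpace E4 X] [IsManifold (𝓡 4) ∞ X]

/-- A product of an `L²` function that vanishes off the compact `K ⊆ U` with a function that is
continuous on `U`. -/
theorem qn_memLp_mul {U K : Set E4} (hU : IsOpen U) (hK : IsCompact K) (hKU : K ⊆ U)
    {g h : E4 → ℝ} (hg : ContinuousOn g U) (hh : MemLp h 2 volume) (h0 : ∀ y ∉ K, h y = 0) :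
    MemLp (fun y => g y * h y) 2 volume := by
  obtain ⟨κ, hκ, hκc, hκU, -, V, hV, hKV, hκ1⟩ := cutoff U K hU hK hKU
  have hc : Continuous (fun y => κ y * g y) := by
    rw [continuous_iff_continuousAt]
    intro y
    by_cases hy : y ∈ tsupport κ
    · exact hκ.continuous.continuousAt.mul (hg.continuousAt (hU.mem_nhds (hκU hy)))
    · have : (fun z => κ z * g z) =ᶠ[𝓝 y] fun _ => (0 : ℝ) := by
        filter_upwards [(isClosed_tsupport κ).isOpen_compl.mem_nhds hy] with z hz
        rw [image_eq_zero_of_notMem_tsupport hz, zero_mul]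
      exact continuousAt_const.congr this.symm
  have hcs : HasCompactSupport (fun y => κ y * g y) := hκc.mul_right
  have h1 : MemLp (fun y => κ y * g y) ⊤ volume := hc.memLp_top_of_hasCompactSupport hcs volume
  have h2 : MemLp ((fun y => κ y * g y) * h) 2 volume := hh.mul h1
  refine h2.ae_eq (Eventually.of_forall fun y => ?_)
  simp only [Pi.mul_apply]
  by_cases hy : y ∈ K
  · rw [hκ1 y (hKV hy), one_mul]
  · rw [h0 y hy, mul_zero, mul_zero]

/-- The local data of a functional. -/
theorem qn_local [T2Space X] [CompactSpace X] {P : Bundle X} [Fintype P.ι] {R : PU P}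
    (hP : P.PositiveDefinite) (T : Fun R) (i : P.ι) :
    ∃ (u : Fin 3 → E4 → ℝ) (f : Fin 4 → E4 → ℝ) (K : Set E4), IsCompact K ∧
      K ⊆ (P.c i).target ∧ (∀ a, MemLp (u a) 2 volume) ∧ (∀ a, ∀ y ∉ K, u a y = 0) ∧
      (∀ e, MemLp (f e) 2 volume) ∧
      (∀ ψ, IsSec P ψ → T.l (fun j y => R.rh i j y • ψ j y) =
        ∫ y, ∑ a, ∑ b, u a y * gram (curv (P.A i) y) a b * ψ i y b) ∧
      ∀ ε > 0, ∃ χ : E4 → R3, ContDiff ℝ ∞ χ ∧ (∀ y ∉ K, χ y = 0) ∧
        (∀ a, ∫ y, (χ y a - u a y) ^ 2 ≤ ε) ∧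
        (∀ e, ∫ y, (DD (P.A i) χ y e - f e y) ^ 2 ≤ ε) := by
  obtain ⟨v, hv, hv0, hv1⟩ := loc_v hP T i
  obtain ⟨f, hf, hf0, hf1⟩ := loc_f hP T i
  have hU := (P.c i).open_target
  have hK := qz_K_compact R i
  have hKU := qz_K_subset R i
  set u : Fin 3 → E4 → ℝ := fun a y =>
    ((gram (curv (P.A i) y))⁻¹.mulVec (fun b => v b y)) a with hu
  have hu0 : ∀ a, ∀ y ∉ R.K i, u a y = 0 := by
    intro a y hy
    have : (fun b => v b y) = 0 := by
      funext b
      exact hv0 b y hy
    simp only [hu]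
    rw [this, Matrix.mulVec_zero]
    rfl
  have hinv := qm_inv_cont hU (P.A_smooth i) (fun y hy => hP i y hy)
  have hum : ∀ a, MemLp (u a) 2 volume := by
    intro a
    have h1 : u a = fun y => ∑ b, ((gram (curv (P.A i) y))⁻¹ a b) * v b y := by
      funext y
      simp only [hu, Matrix.mulVec, dotProduct]
    rw [h1]
    refine memLp_finsetSum _ fun b _ => ?_
    refine qn_memLp_mul hU hK hKU ?_ (hv b) (hv0 b)
    exact continuousOn_pi.1 (continuousOn_pi.1 hinv a) b
  have hB : ∀ (e : Fin 4) (k : Fin 4) (a : Fin 3), ContDiffOn ℝ 1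
      (fun y => dual (cmp (curv (P.A i) y) a) k e) (P.c i).target := by
    intro e k a
    refine ContDiffOn.of_le (n := ∞) ?_ (by norm_cast)
    unfold dual wedge3
    exact sm_wedge (fun l m => contDiffOn_const)
      (fun l m => contDiffOn_pi.mp (sm_curv hU (P.A_smooth i) l m) a)
  obtain ⟨K', hK', hK'U, hε⟩ := Pool.Agent.Helper64.DC.friedrichs (m := 3) (m' := 4)
    (P.c i).target hU (fun e k a y => dual (cmp (curv (P.A i) y) a) k e) hB (R.K i) hK hKU u f
    hum hf hu0 hf0 (fun e χ h1 h2 h3 => weak_eq hP T i v hv hv0 hv1 f hf hf0 hf1 e χ h1 h2 h3)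
  refine ⟨u, f, R.K i ∪ K', hK.union hK', Set.union_subset hKU hK'U, hum,
    fun a y hy => hu0 a y fun h => hy (Or.inl h), hf, ?_, ?_⟩
  · intro ψ hψ
    rw [hv1 ψ hψ]
    refine integral_congr_ae (Eventually.of_forall fun y => ?_)
    simp only []
    by_cases hy : y ∈ R.K i
    · have hM : IsUnit (gram (curv (P.A i) y)).det :=
        isUnit_iff_ne_zero.2 (qm_det_ne (skew_curv _ _) (hP i y (hKU hy)))
      have h1 : (gram (curv (P.A i) y)).mulVec (fun a => u a y) = fun b => v b y := by
        have : (fun a => u a y) = (gram (curv (P.A i) y))⁻¹.mulVec (fun b => v b y) := rfl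
        rw [this, Matrix.mulVec_mulVec, Matrix.mul_nonsing_inv _ hM, Matrix.one_mulVec]
      have hsym : ∀ a b, gram (curv (P.A i) y) a b = gram (curv (P.A i) y) b a := by
        intro a b
        unfold gram wedge
        ring
      rw [Finset.sum_comm]
      refine Finset.sum_congr rfl fun b _ => ?_
      rw [← Finset.sum_mul]
      congr 1
      have h2 : ((gram (curv (P.A i) y)).mulVec (fun a => u a y)) b = v b y := congrFun h1 b
      rw [← h2]
      simp only [Matrix.mulVec, dotProduct]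
      refine Finset.sum_congr rfl fun a _ => ?_
      rw [hsym b a]
      ring
    · simp [hv0 _ y hy, hu0 _ y hy]
  · intro ε hε0
    obtain ⟨w, hw, hw0, hw1, hw2⟩ := hε ε hε0
    refine ⟨fun y a => w a y, contDiff_pi.2 hw, fun y hy => ?_, hw1, hw2⟩
    funext a
    exact hw0 a y fun h => hy (Or.inr h)

end

end Pool.Agent.Helper8.DC
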