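import Pool.Agent.Helper8.DC.QN

set_option autoImplicit false

open scoped Manifold ContDiff
open MeasureTheory Filter Topology

namespace Pool.Agent.Helper8.DC

noncomputable section

/-! ### Analysis lemmas -/

theorem qo_eps : Tendsto (fun n : ℕ => 1 / ((n : ℝ) + 1)) atTop (𝓝 0) :=
  tendsto_one_div_add_atTop_nhds_zero_nat

/-- Weak convergence from strong convergence. -/
theorem qo_lim {g : ℕ → E4 → ℝ} {g0 h : E4 → ℝ} (hg : ∀ n, MemLp (g n) 2 volume)
    (hg0 : MemLp g0 2 volume) (hh : MemLp h 2 volume)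
    (hb : ∀ n : ℕ, ∫ y, (g n y - g0 y) ^ 2 ≤ 1 / ((n : ℝ) + 1)) :
    Tendsto (fun n => ∫ y, g n y * h y) atTop (𝓝 (∫ y, g0 y * h y)) := by
  set t : ℕ → ℝ := fun n => Real.sqrt (1 / ((n : ℝ) + 1)) with ht
  have ht0 : ∀ n, 0 < t n := fun n => Real.sqrt_pos.2 (by positivity)
  have htt : ∀ n, t n * t n = 1 / ((n : ℝ) + 1) := fun n => Real.mul_self_sqrt (by positivity)
  have htl : Tendsto t atTop (𝓝 0) := by
    have := (Real.continuous_sqrt.tendsto 0).comp qo_eps
    simpa [ht, Function.comp_def] using this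
  have key : ∀ n, |(∫ y, g n y * h y) - ∫ y, g0 y * h y| ≤
      t n * ((1 / 2) * (1 + ∫ y, h y ^ 2)) := by
    intro n
    have i1 : Integrable (fun y => g n y * h y) volume := (hg n).integrable_mul hh
    have i2 : Integrable (fun y => g0 y * h y) volume := hg0.integrable_mul hh
    have e1 : (∫ y, g n y * h y) - ∫ y, g0 y * h y = ∫ y, (g n y - g0 y) * h y := by
      rw [← integral_sub i1 i2]
      refine integral_congr_ae (Eventually.of_forall fun y => ?_)
      simp only []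
      ring
    rw [e1]
    have e2 := qm_young (g := fun y => g n y - g0 y) ((hg n).sub hg0) hh (t n) (ht0 n)
    refine e2.trans ?_
    have e3 : (t n)⁻¹ * ∫ y, (g n y - g0 y) ^ 2 ≤ t n := by
      calc (t n)⁻¹ * ∫ y, (g n y - g0 y) ^ 2 ≤ (t n)⁻¹ * (1 / ((n : ℝ) + 1)) :=
            mul_le_mul_of_nonneg_left (hb n) (inv_nonneg.2 (ht0 n).le)
        _ = t n := by
            rw [← htt n, ← mul_assoc, inv_mul_cancel₀ (ht0 n).ne', one_mul]
    nlinarith [e3]
  have h1 : Tendsto (fun n => t n * ((1 / 2) * (1 + ∫ y, h y ^ 2))) atTop (𝓝 0) := by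
    simpa using htl.mul_const ((1 / 2) * (1 + ∫ y, h y ^ 2))
  rw [tendsto_iff_norm_sub_tendsto_zero]
  exact squeeze_zero (fun n => norm_nonneg _) (fun n => by simpa [Real.norm_eq_abs] using key n) h1

theorem qo_tri {a b c : E4 → ℝ} (ha : MemLp a 2 volume) (hb : MemLp b 2 volume)
    (hc : MemLp c 2 volume) :
    ∫ y, (a y - b y) ^ 2 ≤ 2 * (∫ y, (a y - c y) ^ 2) + 2 * ∫ y, (b y - c y) ^ 2 := by
  have i1 : Integrable (fun y => (a y - b y) ^ 2) volume := (ha.sub hb).integrable_sq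
  have i2 : Integrable (fun y => (a y - c y) ^ 2) volume := (ha.sub hc).integrable_sq
  have i3 : Integrable (fun y => (b y - c y) ^ 2) volume := (hb.sub hc).integrable_sq
  calc ∫ y, (a y - b y) ^ 2 ≤ ∫ y, (2 * (a y - c y) ^ 2 + 2 * (b y - c y) ^ 2) := by
        refine integral_mono i1 ((i2.const_mul _).add (i3.const_mul _)) fun y => ?_
        simp only []
        nlinarith [sq_nonneg ((a y - c y) + (b y - c y))]
    _ = _ := by
        rw [integral_add (i2.const_mul _) (i3.const_mul _), integral_const_mul,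
          integral_const_mul]

/-! ### `DD` of compactly supported sections -/

theorem qo_DD_zero {A : E4 → Fin 4 → R3} {K : Set E4} (hK : IsClosed K) {χ : E4 → R3}
    (h0 : ∀ y ∉ K, χ y = 0) {y : E4} (hy : y ∉ K) (e : Fin 4) : DD A χ y e = 0 := by
  unfold DD
  refine Finset.sum_eq_zero fun k _ => ?_
  have h1 : (fun z => ∑ a, dual (cmp (curv A z) a) k e * χ z a) =ᶠ[𝓝 y] fun _ => (0 : ℝ) := by
    filter_upwards [hK.isOpen_compl.mem_nhds hy] with z hz
    refine Finset.sum_eq_zero fun a _ => ?_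
    rw [h0 z hz]
    simp
  unfold pd
  rw [h1.fderiv_eq]
  simp

theorem qo_DD_contDiff {U K : Set E4} (hU : IsOpen U) (hK : IsCompact K) (hKU : K ⊆ U)
    {A : E4 → Fin 4 → R3} (hA : ContDiffOn ℝ ∞ A U) {χ : E4 → R3} (hχ : ContDiff ℝ ∞ χ)
    (h0 : ∀ y ∉ K, χ y = 0) (e : Fin 4) : ContDiff ℝ ∞ (fun y => DD A χ y e) :=
  qy_contDiff_of_zero hU hK.isClosed hKU _ (qm_DD_cd hU hA χ hχ.contDiffOn e)
    fun y hy => qo_DD_zero hK.isClosed h0 hy e

theorem qo_memLp {K : Set E4} (hK : IsCompact K) {h : E4 → ℝ} (hh : ContDiff ℝ ∞ h)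
    (h0 : ∀ y ∉ K, h y = 0) : MemLp h 2 volume :=
  hh.continuous.memLp_of_hasCompactSupport (HasCompactSupport.intro hK h0)

theorem qo_DD_sub {U K : Set E4} (hU : IsOpen U) (hK : IsCompact K) (hKU : K ⊆ U)
    {A : E4 → Fin 4 → R3} (hA : ContDiffOn ℝ ∞ A U) {φ ψ : E4 → R3} (hφ : ContDiff ℝ ∞ φ)
    (hψ : ContDiff ℝ ∞ ψ) (h0 : ∀ y ∉ K, φ y = 0) (h0' : ∀ y ∉ K, ψ y = 0) (y : E4)
    (e : Fin 4) : DD A (fun z => φ z - ψ z) y e = DD A φ y e - DD A ψ y e := by
  by_cases hy : y ∈ U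
  · exact qm_DD_sub hU hA φ ψ hφ.contDiffOn hψ.contDiffOn y hy e
  · have hy' : y ∉ K := fun h => hy (hKU h)
    rw [qo_DD_zero hK.isClosed h0 hy' e, qo_DD_zero hK.isClosed h0' hy' e,
      qo_DD_zero hK.isClosed (fun z hz => by simp [h0 z hz, h0' z hz]) hy' e, sub_zero]

variable {X : Type} [TopologicalSpace X] [ChartedSpace E4 X] [IsManifold (𝓡 4) ∞ X]

/-! ### Linearity of the functional -/

theorem qo_rho_sec {P : Bundle X} [Fintype P.ι] (R : PU P) (i : P.ι)
    (ψ : P.ι → E4 → R3) (hψ : IsSec P ψ) [T2Space X] [CompactSpace X] :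
    IsSec P (fun j y => R.rh i j y • ψ j y) := by
  refine ⟨fun j => (qz_rh_cont R i j).smul (hψ.1 j), fun k j y hy => ?_⟩
  have h1 : R.rh i k (P.tr k j y) = R.rh i j y := by
    unfold PU.rh Bundle.tr
    rw [(P.c k).left_inv hy.2]
  simp only []
  rw [h1, hψ.2 k j y hy, Matrix.mulVec_smul]

theorem qo_T_sum {P : Bundle X} [Fintype P.ι] {R : PU P} (T : Fun R) {κ : Type} (s : Finset κ)
    (φ : κ → P.ι → E4 → R3) (h : ∀ k, IsSec P (φ k)) :
    T.l (fun j y => ∑ k ∈ s, φ k j y) = ∑ k ∈ s, T.l (φ k) := by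
  classical
  induction s using Finset.induction_on with
  | empty =>
    have h0 : IsSec P (fun (_ : P.ι) (_ : E4) => (0 : R3)) :=
      ⟨fun _ => contDiffOn_const, fun i j y _ => by simp⟩
    have h1 := T.smul 0 _ h0
    have h2 : (0 : ℝ) • (fun (_ : P.ι) (_ : E4) => (0 : R3)) = fun (_ : P.ι) (_ : E4) => 0 := by
      funext i y; simp
    rw [h2, zero_mul] at h1
    simpa using h1
  | insert k s hk ih =>
    have h1 : (fun j y => ∑ k ∈ insert k s, φ k j y) =
        φ k + fun j y => ∑ k ∈ s, φ k j y := by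
      funext j y
      simp only [Pi.add_apply]
      rw [Finset.sum_insert hk]
    rw [h1, T.add _ _ (h k) (qm_isSec_sum s φ fun k _ => h k), ih, Finset.sum_insert hk]

/-- Local approximations of the functional. -/
structure Apx {P : Bundle X} [Fintype P.ι] {R : PU P} (T : Fun R) where
  /-- the local weak forms -/
  u : P.ι → Fin 3 → E4 → ℝ
  /-- their derivatives -/
  f : P.ι → Fin 4 → E4 → ℝ
  /-- compact sets -/
  K : P.ι → Set E4
  K_comp : ∀ i, IsCompact (K i)
  K_sub : ∀ i, K i ⊆ (P.c i).target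
  u_mem : ∀ i a, MemLp (u i a) 2 volume
  u_zero : ∀ i a, ∀ y ∉ K i, u i a y = 0
  f_mem : ∀ i e, MemLp (f i e) 2 volume
  rep : ∀ i ψ, IsSec P ψ → T.l (fun j y => R.rh i j y • ψ j y) =
        ∫ y, ∑ a, ∑ b, u i a y * gram (curv (P.A i) y) a b * ψ i y b
  /-- the approximations -/
  χ : P.ι → ℕ → E4 → R3
  χ_cd : ∀ i n, ContDiff ℝ ∞ (χ i n)
  χ_zero : ∀ i n, ∀ y ∉ K i, χ i n y = 0
  χ_u : ∀ i (n : ℕ) a, ∫ y, (χ i n y a - u i a y) ^ 2 ≤ 1 / ((n : ℝ) + 1)
  χ_f : ∀ i (n : ℕ) e, ∫ y, (DD (P.A i) (χ i n) y e - f i e y) ^ 2 ≤ 1 / ((n : ℝ) + 1)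

theorem exists_apx [T2Space X] [CompactSpace X] {P : Bundle X} [Fintype P.ι] {R : PU P}
    (hP : P.PositiveDefinite) (T : Fun R) : Nonempty (Apx T) := by
  choose u f K hK hKU hu hu0 hf hrep happ using fun i => qn_local hP T i
  choose χ h1 h2 h3 h4 using fun (i : P.ι) (n : ℕ) => happ i (1 / ((n : ℝ) + 1)) (by positivity)
  exact ⟨⟨u, f, K, hK, hKU, hu, hu0, hf, hrep, χ, h1, h2, h3, h4⟩⟩

namespace Apx

variable {P : Bundle X} [Fintype P.ι] {R : PU P} {T : Fun R} (S : Apx T)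

/-- The approximating sections. -/
def φ (n : ℕ) : P.ι → E4 → R3 := fun j y => ∑ i, ext P i (S.χ i n) j y

/-- Their derivatives. -/
def G (n : ℕ) : P.ι → E4 → Fin 4 → ℝ := fun j => DD (P.A j) (S.φ n j)

theorem ext_isSec [T2Space X] (i : P.ι) (n : ℕ) : IsSec P (ext P i (S.χ i n)) :=
  ext_sec P i _ (S.χ_cd i n) (S.K i) (S.K_comp i) (S.K_sub i) (S.χ_zero i n)

theorem sec [T2Space X] (n : ℕ) : IsSec P (S.φ n) :=
  qm_isSec_sum _ _ fun i _ => S.ext_isSec i n

theorem G_cd [T2Space X] (n : ℕ) (j : P.ι) (e : Fin 4) :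
    ContDiffOn ℝ ∞ (fun y => S.G n j y e) (P.c j).target :=
  qm_DD_cd (P.c j).open_target (P.A_smooth j) _ ((S.sec n).1 j) e

theorem gram_cont (j : P.ι) (a b : Fin 3) :
    ContinuousOn (fun y => gram (curv (P.A j) y) a b) (P.c j).target :=
  (qm_gram_cd (P.c j).open_target (P.A_smooth j) a b).continuousOn

theorem χ_mem (i : P.ι) (n : ℕ) (a : Fin 3) : MemLp (fun y => S.χ i n y a) 2 volume :=
  qo_memLp (S.K_comp i) (contDiff_pi.1 (S.χ_cd i n) a) fun y hy => by rw [S.χ_zero i n y hy]; rfl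

theorem DD_mem (i : P.ι) (n : ℕ) (e : Fin 4) :
    MemLp (fun y => DD (P.A i) (S.χ i n) y e) 2 volume :=
  qo_memLp (S.K_comp i) (qo_DD_contDiff (P.c i).open_target (S.K_comp i) (S.K_sub i)
    (P.A_smooth i) (S.χ_cd i n) (S.χ_zero i n) e)
    fun y hy => qo_DD_zero (S.K_comp i).isClosed (S.χ_zero i n) hy e

/-- The pairing with the approximations converges. -/
theorem tendsto_pair [T2Space X] [CompactSpace X] (hP : P.PositiveDefinite)
    (ψ : P.ι → E4 → R3) (hψ : IsSec P ψ) :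
    Tendsto (fun n => R.pair (S.φ n) ψ) atTop (𝓝 (T.l ψ)) := by
  have e1 : T.l ψ = ∑ i, ∫ y, ∑ a, ∑ b, S.u i a y * gram (curv (P.A i) y) a b * ψ i y b := by
    have h1 : T.l ψ = T.l (fun j y => ∑ i, R.rh i j y • ψ j y) := by
      refine T.congr _ _ hψ (qm_isSec_sum Finset.univ (fun i j y => R.rh i j y • ψ j y)
        fun i _ => qo_rho_sec R i ψ hψ) fun j y hy => ?_
      rw [← Finset.sum_smul]
      have : ∑ i, R.rh i j y = 1 := R.one _
      rw [this, one_smul]
    rw [h1, qo_T_sum T Finset.univ (fun i j y => R.rh i j y • ψ j y)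
      fun i => qo_rho_sec R i ψ hψ]
    exact Finset.sum_congr rfl fun i _ => S.rep i ψ hψ
  have e2 : ∀ n, R.pair (S.φ n) ψ =
      ∑ i, ∫ y, ∑ a, ∑ b, S.χ i n y a * gram (curv (P.A i) y) a b * ψ i y b := by
    intro n
    have h1 : R.pair (S.φ n) ψ = R.int (fun j y => ∑ i, ∑ a, ∑ b,
        ext P i (S.χ i n) j y a * gram (curv (P.A j) y) a b * ψ j y b) := by
      unfold PU.pair
      refine qz_int_congr R fun j y _ => ?_
      symm
      rw [Finset.sum_comm]
      refine Finset.sum_congr rfl fun a _ => ?_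
      rw [Finset.sum_comm]
      refine Finset.sum_congr rfl fun b _ => ?_
      have h2 : S.φ n j y a = ∑ i, ext P i (S.χ i n) j y a := by
        simp only [Apx.φ]
        rw [Finset.sum_apply]
      rw [h2, Finset.sum_mul, Finset.sum_mul]
    rw [h1, qz_int_sum R Finset.univ (f := fun i j y => ∑ a, ∑ b,
        ext P i (S.χ i n) j y a * gram (curv (P.A j) y) a b * ψ j y b) ?_]
    · refine Finset.sum_congr rfl fun i _ => ?_
      exact pair_ext P R hP i (S.K i) (S.K_comp i) (S.K_sub i) (S.χ i n) (S.χ_cd i n)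
        (S.χ_zero i n) ψ hψ
    · intro i _ j
      refine continuousOn_finsetSum _ fun a _ => continuousOn_finsetSum _ fun b _ => ?_
      exact ((continuousOn_pi.1 ((S.ext_isSec i n).1 j).continuousOn a).mul
        (gram_cont j a b)).mul (continuousOn_pi.1 (hψ.1 j).continuousOn b)
  rw [e1]
  simp only [e2]
  refine tendsto_finsetSum _ fun i _ => ?_
  obtain ⟨κ, hκ, hκc, hκU, -, V, hV, hKV, hκ1⟩ :=
    cutoff (P.c i).target (S.K i) (P.c i).open_target (S.K_comp i) (S.K_sub i)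
  set H : Fin 3 → E4 → ℝ := fun a y => (∑ b, gram (curv (P.A i) y) a b * ψ i y b) * κ y with hH
  have hHm : ∀ a, MemLp (H a) 2 volume := by
    intro a
    refine qn_memLp_mul (P.c i).open_target hκc hκU ?_
      (hκ.continuous.memLp_of_hasCompactSupport hκc)
      (fun y hy => image_eq_zero_of_notMem_tsupport hy)
    refine continuousOn_finsetSum _ fun b _ => ?_
    exact (gram_cont i a b).mul (continuousOn_pi.1 (hψ.1 i).continuousOn b)
  have hrw : ∀ w : Fin 3 → E4 → ℝ, (∀ a, MemLp (w a) 2 volume) → (∀ a, ∀ y ∉ S.K i, w a y = 0) →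
      ∫ y, ∑ a, ∑ b, w a y * gram (curv (P.A i) y) a b * ψ i y b = ∑ a, ∫ y, w a y * H a y := by
    intro w hw hw0
    have h9 := integral_finsetSum (μ := volume) (Finset.univ : Finset (Fin 3))
      (f := fun a y => w a y * H a y) (fun a _ => (hw a).integrable_mul (hHm a))
    rw [← h9]
    refine integral_congr_ae (Eventually.of_forall fun y => ?_)
    simp only []
    refine Finset.sum_congr rfl fun a _ => ?_
    by_cases hy : y ∈ S.K i
    · simp only [hH]
      rw [hκ1 y (hKV hy), mul_one, Finset.mul_sum]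
      refine Finset.sum_congr rfl fun b _ => ?_
      ring
    · simp [hw0 a y hy]
  rw [hrw (S.u i) (S.u_mem i) (S.u_zero i)]
  have h2 : ∀ n, (∫ y, ∑ a, ∑ b, S.χ i n y a * gram (curv (P.A i) y) a b * ψ i y b) =
      ∑ a, ∫ y, S.χ i n y a * H a y := fun n => hrw (fun a y => S.χ i n y a) (S.χ_mem i n)
        (fun a y hy => by rw [S.χ_zero i n y hy]; rfl)
  simp only [h2]
  refine tendsto_finsetSum _ fun a _ => ?_
  exact qo_lim (fun n => S.χ_mem i n a) (S.u_mem i a) (hHm a) (fun n => S.χ_u i n a)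

theorem G_eq [T2Space X] (n : ℕ) (j : P.ι) (y : E4) (hy : y ∈ (P.c j).target) (e : Fin 4) :
    S.G n j y e = ∑ i, DD (P.A j) (ext P i (S.χ i n) j) y e := by
  unfold Apx.G
  exact qm_DD_sum Finset.univ (P.c j).open_target (P.A_smooth j)
    (fun i => ext P i (S.χ i n) j) (fun i _ => (S.ext_isSec i n).1 j) y hy e

/-- The derivatives form a Cauchy sequence. -/
theorem cauchy [T2Space X] [CompactSpace X] (hP : P.PositiveDefinite) :
    ∃ C : ℝ, 0 ≤ C ∧ ∀ m n : ℕ, R.nsq4 (fun j y e => S.G n j y e - S.G m j y e) ≤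
      C * (1 / ((n : ℝ) + 1) + 1 / ((m : ℝ) + 1)) := by
  choose B hB0 hB using fun i => ext_DD_bound P R hP i (S.K i) (S.K_comp i) (S.K_sub i)
  refine ⟨(Fintype.card P.ι : ℝ) * ∑ i, B i * 8, ?_, fun m n => ?_⟩
  · exact mul_nonneg (Nat.cast_nonneg _) (Finset.sum_nonneg fun i _ => mul_nonneg (hB0 i) (by norm_num))
  set d : P.ι → E4 → R3 := fun i z => S.χ i n z - S.χ i m z with hd
  have hdc : ∀ i, ContDiff ℝ ∞ (d i) := fun i => (S.χ_cd i n).sub (S.χ_cd i m)
  have hd0 : ∀ i, ∀ y ∉ S.K i, d i y = 0 := fun i y hy => by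
    simp only [hd]
    rw [S.χ_zero i n y hy, S.χ_zero i m y hy, sub_zero]
  have hds : ∀ i, IsSec P (ext P i (d i)) := fun i =>
    ext_sec P i _ (hdc i) (S.K i) (S.K_comp i) (S.K_sub i) (hd0 i)
  have hext : ∀ i j, ext P i (d i) j = fun z => ext P i (S.χ i n) j z - ext P i (S.χ i m) j z := by
    intro i j
    funext z
    unfold ext
    split_ifs
    · simp only [hd]
      rw [Matrix.mulVec_sub]
    · simp
  have h1 : ∀ j, ∀ y ∈ (P.c j).target, ∀ e, S.G n j y e - S.G m j y e =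
      ∑ i, DD (P.A j) (ext P i (d i) j) y e := by
    intro j y hy e
    rw [S.G_eq n j y hy e, S.G_eq m j y hy e, ← Finset.sum_sub_distrib]
    refine Finset.sum_congr rfl fun i _ => ?_
    rw [hext i j]
    exact (qm_DD_sub (P.c j).open_target (P.A_smooth j) _ _ ((S.ext_isSec i n).1 j)
      ((S.ext_isSec i m).1 j) y hy e).symm
  have hcd : ∀ i j, ContinuousOn (fun y => ∑ e, DD (P.A j) (ext P i (d i) j) y e ^ 2)
      (P.c j).target := fun i j => continuousOn_finsetSum _ fun e _ =>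
        ((qm_DD_cd (P.c j).open_target (P.A_smooth j) _ ((hds i).1 j) e).continuousOn).pow 2
  have h2 : R.nsq4 (fun j y e => S.G n j y e - S.G m j y e) ≤
      (Fintype.card P.ι : ℝ) * ∑ i, R.nsq4 (fun j => DD (P.A j) (ext P i (d i) j)) := by
    unfold PU.nsq4
    rw [← qz_int_sum R Finset.univ (f := fun i j y => ∑ e, DD (P.A j) (ext P i (d i) j) y e ^ 2)
      (fun i _ j => hcd i j), ← qz_int_smul]
    refine qz_int_mono R ?_ ?_ fun j y hy => ?_
    · intro j
      exact continuousOn_finsetSum _ fun e _ =>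
        (((S.G_cd n j e).continuousOn).sub ((S.G_cd m j e).continuousOn)).pow 2
    · intro j
      exact continuousOn_const.mul (continuousOn_finsetSum _ fun i _ => hcd i j)
    · rw [Finset.sum_comm, Finset.mul_sum]
      refine Finset.sum_le_sum fun e _ => ?_
      show (S.G n j y e - S.G m j y e) ^ 2 ≤ _
      rw [h1 j y hy e]
      have := sq_sum_le_card_mul_sum_sq (s := (Finset.univ : Finset P.ι))
        (f := fun i => DD (P.A j) (ext P i (d i) j) y e)
      simpa using this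
  have h3 : ∀ i, R.nsq4 (fun j => DD (P.A j) (ext P i (d i) j)) ≤
      B i * 8 * (1 / ((n : ℝ) + 1) + 1 / ((m : ℝ) + 1)) := by
    intro i
    refine (hB i (d i) (hdc i) (hd0 i)).trans ?_
    rw [mul_assoc]
    refine mul_le_mul_of_nonneg_left ?_ (hB0 i)
    have h4 : ∀ e, ∫ y, DD (P.A i) (d i) y e ^ 2 ≤
        2 * (1 / ((n : ℝ) + 1)) + 2 * (1 / ((m : ℝ) + 1)) := by
      intro e
      have h5 : (fun y => DD (P.A i) (d i) y e ^ 2) = fun y =>
          (DD (P.A i) (S.χ i n) y e - DD (P.A i) (S.χ i m) y e) ^ 2 := by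
        funext y
        rw [← qo_DD_sub (P.c i).open_target (S.K_comp i) (S.K_sub i) (P.A_smooth i)
          (S.χ_cd i n) (S.χ_cd i m) (S.χ_zero i n) (S.χ_zero i m) y e]
      rw [h5]
      refine (qo_tri (S.DD_mem i n e) (S.DD_mem i m e) (S.f_mem i e)).trans ?_
      have := S.χ_f i n e
      have := S.χ_f i m e
      linarith
    rw [integral_finsetSum]
    · refine (Finset.sum_le_sum fun e _ => h4 e).trans ?_
      simp only [Finset.sum_const, Finset.card_univ, Fintype.card_fin, nsmul_eq_mul]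
      push_cast
      linarith
    · intro e _
      exact (qo_memLp (S.K_comp i) (qo_DD_contDiff (P.c i).open_target (S.K_comp i) (S.K_sub i)
        (P.A_smooth i) (hdc i) (hd0 i) e)
        fun y hy => qo_DD_zero (S.K_comp i).isClosed (hd0 i) hy e).integrable_sq
  calc _ ≤ _ := h2
    _ ≤ (Fintype.card P.ι : ℝ) * ∑ i, B i * 8 * (1 / ((n : ℝ) + 1) + 1 / ((m : ℝ) + 1)) :=
        mul_le_mul_of_nonneg_left (Finset.sum_le_sum fun i _ => h3 i) (Nat.cast_nonneg _)
    _ = _ := by rw [← Finset.sum_mul]; ring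

/-- The derivatives converge to zero. -/
theorem small [T2Space X] [CompactSpace X] (hP : P.PositiveDefinite) :
    ∃ C : ℝ, 0 ≤ C ∧ ∀ m : ℕ, R.nsq4 (S.G m) ≤ C * (1 / ((m : ℝ) + 1)) := by
  obtain ⟨C, hC, hCb⟩ := S.cauchy hP
  refine ⟨C, hC, fun m => ?_⟩
  obtain ⟨a, ha, hH⟩ := exists_test P R hP (S.G m) (S.G_cd m)
  have h1 : ∀ n, R.int (fun k y => ∑ e, S.G m k y e * S.G n k y e) =
      -R.pair (S.φ n) (fun i => sf (P.A i) (dd (a i))) := by
    intro n
    rw [← hH (S.G n) (S.G_cd n) (fun i j y hy q => DD_tr P (S.φ n) (S.sec n) i j y hy q)]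
    rw [pair_sf P R hP (S.φ n) (S.sec n) a ha, neg_neg]
    rfl
  have h2 : Tendsto (fun n => R.int (fun k y => ∑ e, S.G m k y e * S.G n k y e)) atTop
      (𝓝 0) := by
    simp only [h1]
    have h3 := (S.tendsto_pair hP (fun i => sf (P.A i) (dd (a i)))
      (sf_sec P hP _ (dd_two P a ha))).neg
    rw [T.zero a ha, neg_zero] at h3
    exact h3
  have h4 : ∀ n, R.nsq4 (S.G m) ≤ 2 * R.int (fun k y => ∑ e, S.G m k y e * S.G n k y e) +
      C * (1 / ((n : ℝ) + 1) + 1 / ((m : ℝ) + 1)) := by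
    intro n
    have h5 : R.nsq4 (S.G m) ≤ 2 * R.int (fun k y => ∑ e, S.G m k y e * S.G n k y e) +
        R.nsq4 (fun j y e => S.G n j y e - S.G m j y e) := by
      unfold PU.nsq4
      have c1 : ∀ i, ContinuousOn (fun y => ∑ e, S.G m i y e * S.G n i y e) (P.c i).target :=
        fun i => continuousOn_finsetSum _ fun e _ =>
          ((S.G_cd m i e).continuousOn).mul ((S.G_cd n i e).continuousOn)
      have c2 : ∀ i, ContinuousOn (fun y => ∑ e, (S.G n i y e - S.G m i y e) ^ 2)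
          (P.c i).target := fun i => continuousOn_finsetSum _ fun e _ =>
          (((S.G_cd n i e).continuousOn).sub ((S.G_cd m i e).continuousOn)).pow 2
      have h8 := qz_int_add R (f := fun i y => 2 * ∑ e, S.G m i y e * S.G n i y e)
        (g := fun i y => ∑ e, (S.G n i y e - S.G m i y e) ^ 2)
        (fun i => continuousOn_const.mul (c1 i)) c2
      rw [← qz_int_smul, ← h8]
      refine qz_int_mono R (fun i => continuousOn_finsetSum _ fun e _ =>
        ((S.G_cd m i e).continuousOn).pow 2)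
        (fun i => (continuousOn_const.mul (c1 i)).add (c2 i)) fun i y _ => ?_
      rw [Finset.mul_sum, ← Finset.sum_add_distrib]
      refine Finset.sum_le_sum fun e _ => ?_
      nlinarith [sq_nonneg (S.G n i y e)]
    exact h5.trans (by linarith [hCb m n])
  have h6 : Tendsto (fun n : ℕ => 2 * R.int (fun k y => ∑ e, S.G m k y e * S.G n k y e) +
      C * (1 / ((n : ℝ) + 1) + 1 / ((m : ℝ) + 1))) atTop
      (𝓝 (2 * 0 + C * (0 + 1 / ((m : ℝ) + 1)))) :=
    (h2.const_mul 2).add ((qo_eps.add_const _).const_mul C)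
  have h7 := ge_of_tendsto' h6 h4
  simpa using h7

end Apx

/-- The functional is zero. -/
theorem fun_zero_main [T2Space X] [CompactSpace X] {P : Bundle X} [Fintype P.ι] {R : PU P}
    (hP : P.PositiveDefinite) (hpin : P.StrictlyPinched) (T : Fun R) (ψ : P.ι → E4 → R3)
    (hψ : IsSec P ψ) : T.l ψ = 0 := by
  obtain ⟨S⟩ := exists_apx hP T
  obtain ⟨C, hC, hCb⟩ := S.small hP
  obtain ⟨C', hC', hC'b⟩ := estimate P R hP hpin
  obtain ⟨D, hD, hDb⟩ := pair_bound P R hP ψ hψ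
  have h1 : ∀ m : ℕ, R.pair (S.φ m) ψ ^ 2 ≤ D * (C' * (C * (1 / ((m : ℝ) + 1)))) := by
    intro m
    refine (hDb (S.φ m) (S.sec m)).trans (mul_le_mul_of_nonneg_left ?_ hD)
    refine (hC'b (S.φ m) (S.sec m)).trans (mul_le_mul_of_nonneg_left ?_ hC')
    exact hCb m
  have h2 : Tendsto (fun m => R.pair (S.φ m) ψ ^ 2) atTop (𝓝 (T.l ψ ^ 2)) :=
    (S.tendsto_pair hP ψ hψ).pow 2
  have h3 : Tendsto (fun m : ℕ => D * (C' * (C * (1 / ((m : ℝ) + 1))))) atTop
      (𝓝 (D * (C' * (C * 0)))) :=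
    ((qo_eps.const_mul C).const_mul C').const_mul D
  have h4 := le_of_tendsto_of_tendsto' h2 h3 h1
  simp only [mul_zero] at h4
  exact pow_eq_zero_iff (two_ne_zero) |>.1 (le_antisymm h4 (sq_nonneg _))

end

end Pool.Agent.Helper8.DC
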