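import Pool.Agent.Helper8.DC.QO

set_option autoImplicit false

open scoped Manifold ContDiff
open MeasureTheory Filter Topology

namespace Pool.Agent.Helper8.DC

noncomputable section

theorem qp_sdp_add (F : Fin 4 → Fin 4 → R3) (B C : Fin 4 → Fin 4 → ℝ) (s t : ℝ) :
    sdp F (fun l m => s * B l m + t * C l m) = s • sdp F B + t • sdp F C := by
  unfold sdp
  rw [← Matrix.mulVec_smul, ← Matrix.mulVec_smul, ← Matrix.mulVec_add]
  congr 1
  funext b
  simp only [Pi.add_apply, Pi.smul_apply, smul_eq_mul, wedge]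
  ring

theorem qp_dd_comb {U : Set E4} (hU : IsOpen U) {a b : E4 → Fin 4 → ℝ}
    (ha : ContDiffOn ℝ ∞ a U) (hb : ContDiffOn ℝ ∞ b U) (s t : ℝ) (y : E4) (hy : y ∈ U)
    (l m : Fin 4) :
    dd (fun z n => s * a z n + t * b z n) y l m = s * dd a y l m + t * dd b y l m := by
  have h1 : ∀ (a : E4 → Fin 4 → ℝ), ContDiffOn ℝ ∞ a U → ∀ m,
      DifferentiableAt ℝ (fun z => a z m) y := by
    intro a ha m
    exact ((contDiffOn_pi.1 ha m).contDiffAt (hU.mem_nhds hy)).differentiableAt (by simp)
  have h2 : ∀ l m, pd l (fun z => s * a z m + t * b z m) y =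
      s * pd l (fun z => a z m) y + t * pd l (fun z => b z m) y := by
    intro l m
    unfold pd
    rw [fderiv_fun_add ((h1 a ha m).const_mul s) ((h1 b hb m).const_mul t),
      fderiv_const_mul (h1 a ha m), fderiv_const_mul (h1 b hb m)]
    simp
  unfold dd
  rw [h2, h2]
  ring

variable {X : Type} [TopologicalSpace X] [ChartedSpace E4 X] [IsManifold (𝓡 4) ∞ X]

theorem qp_isOne_comb {P : Bundle X} {a b : P.ι → E4 → Fin 4 → ℝ} (ha : IsOne P a)
    (hb : IsOne P b) (s t : ℝ) : IsOne P (fun i y m => s * a i y m + t * b i y m) := by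
  refine ⟨fun i => contDiffOn_pi.2 fun m => ?_, fun i j y hy m => ?_⟩
  · exact (contDiffOn_const.mul (contDiffOn_pi.1 (ha.1 i) m)).add
      (contDiffOn_const.mul (contDiffOn_pi.1 (hb.1 i) m))
  · simp only []
    rw [ha.2 i j y hy m, hb.2 i j y hy m, Finset.mul_sum, Finset.mul_sum,
      ← Finset.sum_add_distrib]
    refine Finset.sum_congr rfl fun n _ => ?_
    ring

/-- The sections that are the `Λ⁺`-parts of exact forms. -/
def exactSecs (P : Bundle X) : Submodule ℝ (secs P) where
  carrier := {φ | ∃ a, IsOne P a ∧ ∀ i, ∀ y ∈ (P.c i).target,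
    φ.1 i y = sf (P.A i) (dd (a i)) y}
  add_mem' := by
    rintro φ ψ ⟨a, ha, h1⟩ ⟨b, hb, h2⟩
    refine ⟨_, qp_isOne_comb ha hb 1 1, fun i y hy => ?_⟩
    have h3 : (φ + ψ).1 i y = φ.1 i y + ψ.1 i y := rfl
    have h4 : dd (fun z m => 1 * a i z m + 1 * b i z m) y =
        fun l m => 1 * dd (a i) y l m + 1 * dd (b i) y l m := by
      funext l m
      exact qp_dd_comb (P.c i).open_target (ha.1 i) (hb.1 i) 1 1 y hy l m
    unfold sf
    rw [h3, h1 i y hy, h2 i y hy, h4, qp_sdp_add, one_smul, one_smul]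
    rfl
  zero_mem' := by
    have h0 : IsOne P (fun _ _ _ => (0 : ℝ)) :=
      ⟨fun i => contDiffOn_const, fun i j y _ m => by simp⟩
    refine ⟨_, h0, fun i y hy => ?_⟩
    have h1 : dd (fun (_ : E4) (_ : Fin 4) => (0 : ℝ)) y = fun _ _ => 0 := by
      funext l m
      simp [dd, pd]
    unfold sf
    rw [h1]
    have h2 := qp_sdp_add (curv (P.A i) y) (fun _ _ => 0) (fun _ _ => 0) 0 0
    simp only [mul_zero, add_zero, zero_smul] at h2
    rw [h2]
    rfl
  smul_mem' := by
    rintro t φ ⟨a, ha, h1⟩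
    refine ⟨_, qp_isOne_comb ha ha t 0, fun i y hy => ?_⟩
    have h3 : (t • φ).1 i y = t • φ.1 i y := rfl
    have h4 : dd (fun z m => t * a i z m + 0 * a i z m) y =
        fun l m => t * dd (a i) y l m + 0 * dd (a i) y l m := by
      funext l m
      exact qp_dd_comb (P.c i).open_target (ha.1 i) (ha.1 i) t 0 y hy l m
    unfold sf
    rw [h3, h1 i y hy, h4, qp_sdp_add, zero_smul, add_zero]
    rfl

/-- V2 for a finite cover: closed 2-forms have nonpositive square. -/
theorem square_nonpos [T2Space X] [CompactSpace X] (P : Bundle X) [Fintype P.ι] (R : PU P)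
    (hP : P.PositiveDefinite) (hpin : P.StrictlyPinched)
    (η : P.ι → E4 → Fin 4 → Fin 4 → ℝ) (hη : IsTwo P η)
    (hc : ∀ i, ∀ y ∈ (P.c i).target, Bundle.ClosedAt (η i) y) :
    R.int (fun i y => wedge (η i y) (η i y)) ≤ 0 := by
  classical
  by_contra hcon
  push Not at hcon
  set c := R.int (fun i y => wedge (η i y) (η i y)) with hcdef
  obtain ⟨C, hC, hCb⟩ := square_le P R hP
  obtain ⟨p, hp⟩ := exists_seminorm P R
  set x : secs P := ⟨fun i => sf (P.A i) (η i), sf_sec P hP η hη⟩ with hx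
  set d : ℝ := Real.sqrt (c / (C + 1)) with hd
  have hd0 : 0 < d := Real.sqrt_pos.2 (by positivity)
  have key : ∀ s ∈ exactSecs P, d ≤ p (x - s) := by
    rintro s ⟨a, ha, hs⟩
    have h1 := square_sub P R hP η hη hc a ha
    set ζ : P.ι → E4 → Fin 4 → Fin 4 → ℝ := fun i y l m => η i y l m - dd (a i) y l m with hζ
    have hζ2 : IsTwo P ζ := by
      have h2 := dd_two P a ha
      refine ⟨fun i => ?_, fun i y hy l m => ?_, fun i j y hy l m => ?_⟩
      · exact (hη.1 i).sub (h2.1 i)
      · have h3 : dd (a i) y l m = -dd (a i) y m l := h2.2.1 i y hy l m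
        simp only [hζ]
        rw [hη.2.1 i y hy l m, h3]
        ring
      · have h3 : dd (a j) y l m = ∑ n, ∑ p, jac P i j y n l * jac P i j y p m *
            dd (a i) (P.tr i j y) n p := h2.2.2 i j y hy l m
        simp only [hζ]
        rw [hη.2.2 i j y hy l m, h3, ← Finset.sum_sub_distrib]
        refine Finset.sum_congr rfl fun n _ => ?_
        rw [← Finset.sum_sub_distrib]
        refine Finset.sum_congr rfl fun q _ => ?_
        ring
    have h3 := hCb ζ hζ2
    have h4 : R.nsq (fun i => sf (P.A i) (ζ i)) = R.nsq (x - s).1 := by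
      unfold PU.nsq
      refine qz_int_congr R fun i y hy => ?_
      have h5 : (x - s).1 i y = sf (P.A i) (ζ i) y := by
        have h6 : (x - s).1 i y = sf (P.A i) (η i) y - s.1 i y := rfl
        rw [h6, hs i y hy]
        have h7 := qp_sdp_add (curv (P.A i) y) (η i y) (dd (a i) y) 1 (-1)
        unfold sf
        have h8 : ζ i y = fun l m => 1 * η i y l m + -1 * dd (a i) y l m := by
          funext l m
          simp only [hζ]
          ring
        rw [h8, h7, one_smul, neg_one_smul, ← sub_eq_add_neg]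
      rw [h5]
    rw [h4, ← hp] at h3
    have h9 : c ≤ C * p (x - s) ^ 2 := by
      rw [hcdef, h1]
      exact h3
    have h10 : c / (C + 1) ≤ p (x - s) ^ 2 := by
      rw [div_le_iff₀ (by positivity)]
      nlinarith [sq_nonneg (p (x - s))]
    have h11 : d ≤ Real.sqrt (p (x - s) ^ 2) := Real.sqrt_le_sqrt h10
    rwa [Real.sqrt_sq (apply_nonneg p _)] at h11
  obtain ⟨l, hl0, hl1, hlb⟩ := hb_sep p (exactSecs P) x d hd0 key
  let T : Fun R :=
    { l := fun φ => if h : IsSec P φ then l ⟨φ, h⟩ else 0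
      add := by
        intro φ ψ h1 h2
        have h3 : IsSec P (φ + ψ) := isSec_add h1 h2
        rw [dif_pos h1, dif_pos h2, dif_pos h3, ← map_add]
        rfl
      smul := by
        intro t φ h1
        have h3 : IsSec P (t • φ) := isSec_smul t h1
        rw [dif_pos h1, dif_pos h3, ← smul_eq_mul, ← map_smul]
        rfl
      C := d⁻¹ ^ 2
      C_nonneg := sq_nonneg _
      bound := by
        intro φ h1
        rw [dif_pos h1]
        have h2 := hlb ⟨φ, h1⟩
        have h3 := hp ⟨φ, h1⟩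
        have h4 : l ⟨φ, h1⟩ ^ 2 ≤ (d⁻¹ * p ⟨φ, h1⟩) ^ 2 := sq_le_sq.2 (h2.trans (le_abs_self _))
        rw [mul_pow, h3] at h4
        exact h4
      zero := by
        intro a ha
        have h1 := sf_sec P hP _ (dd_two P a ha)
        rw [dif_pos h1]
        exact hl0 _ ⟨a, ha, fun i y _ => rfl⟩ }
  have h1 := fun_zero_main hP hpin T x.1 x.2
  have h2 : T.l x.1 = l x := dif_pos x.2
  rw [h2, hl1] at h1
  exact one_ne_zero h1

end

end Pool.Agent.Helper8.DC
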