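import Pool.Agent.Helper8.DC.QP

set_option autoImplicit false

open scoped Manifold ContDiff
open MeasureTheory Filter Topology

namespace Pool.Agent.Helper8.DC

noncomputable section

variable {X : Type} [TopologicalSpace X] [ChartedSpace E4 X] [IsManifold (𝓡 4) ∞ X]

/-- The same bundle over some of the charts. -/
@[reducible] def Bundle.sub (P : Bundle X) (t : Finset P.ι) (h : ∀ x, ∃ i ∈ t, x ∈ (P.c i).source) :
    Bundle X where
  ι := {i // i ∈ t}
  c i := P.c i
  c_mem i := P.c_mem i
  cover x := by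
    obtain ⟨i, hi, hx⟩ := h x
    exact ⟨⟨i, hi⟩, hx⟩
  A i := P.A i
  A_smooth i := P.A_smooth i
  g i j := P.g i j
  g_smooth i j := P.g_smooth i j
  g_mem i j := P.g_mem i j
  g_cocycle i j k := P.g_cocycle i j k
  compat i j := P.compat i j

theorem sub_two (P : Bundle X) (t : Finset P.ι) (h : ∀ x, ∃ i ∈ t, x ∈ (P.c i).source)
    (η : P.ι → E4 → Fin 4 → Fin 4 → ℝ) (hη : IsTwo P η) :
    IsTwo (P.sub t h) (fun i => η i.1) :=
  ⟨fun i => hη.1 i.1, fun i => hη.2.1 i.1, fun i j => hη.2.2 i.1 j.1⟩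

/-- V2 in general. -/
theorem square_nonpos_gen [T2Space X] [CompactSpace X] (P : Bundle X)
    (hP : P.PositiveDefinite) (hpin : P.StrictlyPinched)
    (η : P.ι → E4 → Fin 4 → Fin 4 → ℝ) (hη : IsTwo P η)
    (hc : ∀ i, ∀ y ∈ (P.c i).target, Bundle.ClosedAt (η i) y)
    (f : SmoothPartitionOfUnity P.ι (𝓡 4) X Set.univ)
    (hf : f.IsSubordinate fun i => (P.c i).source) :
    ∑ᶠ i, ∫ y in (P.c i).target, f i ((P.c i).symm y) * wedge (η i y) (η i y) ≤ 0 := by
  classical
  have hfin : {i | (Function.support (f i)).Nonempty}.Finite :=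
    f.locallyFinite.finite_nonempty_of_compact
  set t := hfin.toFinset with ht
  have hsum : ∀ x, ∑ i ∈ t, f i x = 1 := by
    intro x
    rw [← f.sum_eq_one (Set.mem_univ x)]
    symm
    refine finsum_eq_sum_of_support_subset _ ?_
    intro i hi
    rw [ht, Set.Finite.coe_toFinset]
    exact ⟨x, hi⟩
  have h : ∀ x, ∃ i ∈ t, x ∈ (P.c i).source := by
    intro x
    have h1 : ∑ i ∈ t, f i x ≠ 0 := by rw [hsum x]; exact one_ne_zero
    obtain ⟨i, hi, hx⟩ := Finset.exists_ne_zero_of_sum_ne_zero h1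
    exact ⟨i, hi, hf i (subset_closure hx)⟩
  let R : PU (P.sub t h) :=
    { ρ := fun i => f i.1
      smooth := fun i => (f i.1).contMDiff
      supp := fun i => hf i.1
      nonneg := fun i x => f.nonneg i.1 x
      one := fun x => by
        rw [← hsum x]
        exact Finset.sum_coe_sort t (fun i => f i x) }
  have h1 := square_nonpos (P.sub t h) R (fun i => hP i.1) (fun i => hpin i.1) (fun i => η i.1)
    (sub_two P t h η hη) (fun i => hc i.1)
  have h2 : ∑ᶠ i, ∫ y in (P.c i).target, f i ((P.c i).symm y) * wedge (η i y) (η i y) =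
      ∑ i ∈ t, ∫ y in (P.c i).target, f i ((P.c i).symm y) * wedge (η i y) (η i y) := by
    refine finsum_eq_sum_of_support_subset _ ?_
    intro i hi
    rw [ht, Set.Finite.coe_toFinset]
    by_contra hne
    apply hi
    have h3 : ∀ x, f i x = 0 := by
      intro x
      by_contra hx
      exact hne ⟨x, hx⟩
    simp [h3]
  rw [h2, ← Finset.sum_coe_sort t
    (fun i => ∫ y in (P.c i).target, f i ((P.c i).symm y) * wedge (η i y) (η i y))]
  exact h1

end

end Pool.Agent.Helper8.DC
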