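import Pool.Agent.Helper8.DC.QZ

set_option autoImplicit false

open scoped Manifold ContDiff
open MeasureTheory

namespace Pool.Agent.Helper8.DC

noncomputable section

variable {X : Type} [TopologicalSpace X] [ChartedSpace E4 X] [IsManifold (𝓡 4) ∞ X]

/-- The trivial flat bundle. -/
def qy_flat (P : Bundle X) : P.Flat 1 where
  h := fun _ _ _ => 1
  h_const := fun _ _ _ _ => Filter.Eventually.of_forall fun _ => rfl
  h_mem := fun _ _ _ _ => Submonoid.one_mem _
  h_cocycle := fun _ _ _ _ _ => by simp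

/-- A section as a section with trivial coefficients. -/
def qy_sect (P : Bundle X) (φ : P.ι → E4 → R3) (hφ : IsSec P φ) : P.Sect (qy_flat P) where
  s := fun i y _ => φ i y
  smooth := fun i => contDiffOn_pi.2 fun _ => hφ.1 i
  compat := fun i j y hy r => by
    simp only [qy_flat, Fin.sum_univ_one, Matrix.one_apply]
    rw [hφ.2 i j y hy]
    have : r = 0 := Subsingleton.elim _ _
    simp [this]

theorem qy_cov_tr (P : Bundle X) (φ : P.ι → E4 → R3) (hφ : IsSec P φ) (i j : P.ι) (y : E4)
    (hy : y ∈ P.ov i j) (m : Fin 4) :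
    ∑ n, jac P i j y n m • cov (P.A i) (φ i) (P.tr i j y) n =
      (P.g i j y).mulVec (cov (P.A j) (φ j) y m) := by
  have h := cov_tr P (qy_flat P) (qy_sect P φ hφ) i j y hy 0 m
  simpa [qy_flat, qy_sect] using h

theorem qy_con_rot (R : Matrix (Fin 3) (Fin 3) ℝ)
    (hR : R ∈ Matrix.specialOrthogonalGroup (Fin 3) ℝ)
    (α : Fin 4 → R3) (F : Fin 4 → Fin 4 → R3) (β : Fin 4 → ℝ) :
    ∑ a, wedge3 (cm1 (fun m => R.mulVec (α m)) a) β (cmp (fun l m => R.mulVec (F l m)) a) =
      ∑ a, wedge3 (cm1 α a) β (cmp F a) := by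
  have hR1 : R.transpose * R = 1 := by
    have := (Matrix.mem_specialOrthogonalGroup_iff.mp hR).1
    rw [Matrix.mem_orthogonalGroup_iff'] at this
    simpa [Matrix.star_eq_conjTranspose] using this
  have e : ∀ a b, ∑ c, R c a * R c b = if a = b then 1 else 0 := by
    intro a b
    have := congrFun (congrFun hR1 a) b
    simpa [Matrix.mul_apply, Matrix.one_apply] using this
  have key : ∑ a, wedge3 (cm1 (fun m => R.mulVec (α m)) a) β
      (cmp (fun l m => R.mulVec (F l m)) a) =
      ∑ b, ∑ c, (∑ a, R a b * R a c) * wedge3 (cm1 α b) β (cmp F c) := by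
    simp only [wedge3, wed, wedge, cm1, cmp, Matrix.mulVec, dotProduct, Fin.sum_univ_three]
    ring
  rw [key]
  simp only [e]
  simp

/-- PIECE QY1. `DD φ` is a vector density (on the overlap). PROOF. `DD_eq`, `cov_tr`, `curv_tr`,
`wedge3_pull` (or `wv_tr` as a model). -/
theorem DD_tr (P : Bundle X) (φ : P.ι → E4 → R3) (hφ : IsSec P φ) (i j : P.ι) (y : E4)
    (hy : y ∈ P.ov i j) (n : Fin 4) :
    ∑ l, jac P i j y n l * DD (P.A j) (φ j) y l =
      (jac P i j y).det * DD (P.A i) (φ i) (P.tr i j y) n := by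
  have hj : ∀ l, DD (P.A j) (φ j) y l = con (cov (P.A j) (φ j) y) (curv (P.A j) y) l := fun l =>
    DD_eq (P.A j) (φ j) (P.c j).target (P.c j).open_target (P.A_smooth j) (hφ.1 j) y hy.1 l
  have hi : DD (P.A i) (φ i) (P.tr i j y) n =
      con (cov (P.A i) (φ i) (P.tr i j y)) (curv (P.A i) (P.tr i j y)) n :=
    DD_eq (P.A i) (φ i) (P.c i).target (P.c i).open_target (P.A_smooth i) (hφ.1 i) _
      (tr_mem P i j y hy) n
  rw [hi]
  simp only [hj]
  set T := jac P i j y with hT
  set g := P.g i j y with hg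
  have hgm : g ∈ Matrix.specialOrthogonalGroup (Fin 3) ℝ := P.g_mem i j y hy
  unfold con
  simp only [Finset.mul_sum]
  rw [Finset.sum_comm]
  have hL : ∀ a, ∑ l, T n l * wedge3 (cm1 (cov (P.A j) (φ j) y) a) (Pi.single l 1)
      (cmp (curv (P.A j) y) a) = wedge3 (cm1 (cov (P.A j) (φ j) y) a) (fun m => T n m)
      (cmp (curv (P.A j) y) a) := by
    intro a
    rw [← wedge3_sum_right]
    congr 1
    funext m
    simp [Pi.single_apply]
  have hR : ∀ a, T.det * wedge3 (cm1 (cov (P.A i) (φ i) (P.tr i j y)) a) (Pi.single n 1)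
      (cmp (curv (P.A i) (P.tr i j y)) a) =
      wedge3 (cm1 (fun m => g.mulVec (cov (P.A j) (φ j) y m)) a) (fun m => T n m)
        (cmp (fun l m => g.mulVec (curv (P.A j) y l m)) a) := by
    intro a
    have hs : ∀ l m, cmp (curv (P.A i) (P.tr i j y)) a l m =
        -cmp (curv (P.A i) (P.tr i j y)) a m l := by
      intro l m
      have := congrFun (skew_curv (P.A i) (P.tr i j y) l m) a
      simpa [cmp] using this
    rw [← wedge3_pull T _ _ _ hs]
    have a1 : (fun m => ∑ n', T n' m * (Pi.single n 1 : Fin 4 → ℝ) n') = fun m => T n m := by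
      funext m; simp [Pi.single_apply]
    have a2 : (fun m => ∑ n', T n' m * cm1 (cov (P.A i) (φ i) (P.tr i j y)) a n') =
        cm1 (fun m => g.mulVec (cov (P.A j) (φ j) y m)) a := by
      funext m
      have := congrFun (qy_cov_tr P φ hφ i j y hy m) a
      simp only [Finset.sum_apply, Pi.smul_apply, smul_eq_mul] at this
      exact this
    have a3 : (fun l m => ∑ n', ∑ p, T n' l * T p m *
        cmp (curv (P.A i) (P.tr i j y)) a n' p) =
        cmp (fun l m => g.mulVec (curv (P.A j) y l m)) a := by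
      funext l m
      have := congrFun (curv_tr P i j y hy l m) a
      simp only [Finset.sum_apply, Pi.smul_apply, smul_eq_mul] at this
      exact this
    rw [a1, a2, a3]
  simp only [hL, hR]
  exact (qy_con_rot g hgm _ _ _).symm

theorem qy_tr_ov (P : Bundle X) (i j : P.ι) (y : E4) (hy : y ∈ P.ov i j) :
    P.tr i j y ∈ (P.c i).target := tr_mem P i j y hy

/-- PIECE QY2. PROOF. `int_local` for the density `∑_e (ext1)_e H_e`. -/
theorem dens_ext1 [T2Space X] [CompactSpace X] (P : Bundle X) [Fintype P.ι] (R : PU P)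
    (hP : P.PositiveDefinite) (H : P.ι → E4 → Fin 4 → ℝ)
    (hH : ∀ i e, ContDiffOn ℝ ∞ (fun y => H i y e) (P.c i).target)
    (hc : ∀ i j, ∀ y ∈ P.ov i j, ∀ n,
      ∑ l, jac P i j y n l * H j y l = (jac P i j y).det * H i (P.tr i j y) n)
    (j : P.ι) (b : E4 → Fin 4 → ℝ) (hb : ContDiff ℝ ∞ b)
    (K : Set E4) (hK : IsCompact K) (hKt : K ⊆ (P.c j).target) (h0 : ∀ y ∉ K, b y = 0) :
    R.int (fun k y => ∑ e, ext1 P j b k y e * H k y e) = ∫ y, ∑ e, b y e * H j y e := by
  have hself : ∀ y ∈ (P.c j).target, ∀ e, ext1 P j b j y e = b y e := fun y hy e =>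
    ext1_self P j b y hy e
  set f : P.ι → E4 → ℝ := fun k y => ∑ e, ext1 P j b k y e * H k y e with hf
  -- off the compact set
  have hj0 : ∀ y ∉ K, f j y = 0 := by
    intro y hy
    show ∑ e, ext1 P j b j y e * H j y e = 0
    refine Finset.sum_eq_zero fun e _ => ?_
    by_cases hyt : y ∈ (P.c j).target
    · rw [hself y hyt, h0 y hy]; simp
    · have : y ∉ P.ov j j := fun h => hyt h.1
      simp only [ext1, this, if_false, zero_mul]
  have hfj : f j = fun y => ∑ e, b y e * H j y e := by
    funext y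
    by_cases hyt : y ∈ (P.c j).target
    · show ∑ e, ext1 P j b j y e * H j y e = _
      simp only [hself y hyt]
    · have hyK : y ∉ K := fun h => hyt (hKt h)
      rw [hj0 y hyK, h0 y hyK]
      simp
  have hcont : ContinuousOn (fun y => ∑ e, b y e * H j y e) (P.c j).target := by
    refine continuousOn_finset_sum _ fun e _ => ?_
    exact (((contDiff_pi.1 hb) e).continuous.continuousOn).mul (hH j e).continuousOn
  have hint : Integrable (f j) volume := by
    rw [hfj]
    have h1 : IntegrableOn (fun y => ∑ e, b y e * H j y e) (P.c j).target :=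
      Pool.Agent.Helper64.DC.integrableOn_of_zero (P.c j).open_target hK hKt hcont (by
        intro y hy
        rw [h0 y hy.2]; simp)
    rw [integrableOn_iff_integrable_of_support_subset] at h1
    · exact h1
    · intro y hy
      by_contra hyt
      have hyK : y ∉ K := fun h => hyt (hKt h)
      apply hy
      show ∑ e, b y e * H j y e = 0
      rw [h0 y hyK]; simp
  have key := int_local P R hP j f K hK hKt hj0 hint ?_ ?_
  · rw [key, hfj]
  · intro k y hy
    show ∑ e, ext1 P j b k y e * H k y e = _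
    rw [hfj]
    show _ = (jac P j k y).det * ∑ e, b (P.tr j k y) e * H j (P.tr j k y) e
    simp only [ext1, hy, if_true]
    calc ∑ e, (∑ n, jac P j k y n e * b (P.tr j k y) n) * H k y e
        = ∑ n, b (P.tr j k y) n * ∑ e, jac P j k y n e * H k y e := by
          simp only [Finset.sum_mul, Finset.mul_sum]
          rw [Finset.sum_comm]
          refine Finset.sum_congr rfl fun n _ => Finset.sum_congr rfl fun e _ => ?_
          ring
      _ = _ := by
          simp only [hc j k y hy]
          rw [Finset.mul_sum]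
          refine Finset.sum_congr rfl fun n _ => ?_
          ring
  · intro k y hy hyo
    show ∑ e, ext1 P j b k y e * H k y e = 0
    simp only [ext1, hyo, if_false, zero_mul, Finset.sum_const_zero]

theorem qy_contDiff_of_zero {F : Type*} [NormedAddCommGroup F] [NormedSpace ℝ F]
    {U K : Set E4} (hU : IsOpen U) (hK : IsClosed K) (hKU : K ⊆ U) (h : E4 → F)
    (h1 : ContDiffOn ℝ ∞ h U) (h2 : ∀ x ∉ K, h x = 0) : ContDiff ℝ ∞ h := by
  rw [contDiff_iff_contDiffAt]
  intro x
  by_cases hx : x ∈ U
  · exact h1.contDiffAt (hU.mem_nhds hx)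
  · have hx' : x ∈ Kᶜ := fun h => hx (hKU h)
    refine (contDiffAt_const (c := (0 : F))).congr_of_eventuallyEq ?_
    filter_upwards [hK.isOpen_compl.mem_nhds hx'] with y hy using h2 y hy

theorem qy_isOne_sum {P : Bundle X} {κ : Type} (s : Finset κ) (a : κ → P.ι → E4 → Fin 4 → ℝ)
    (ha : ∀ k ∈ s, IsOne P (a k)) : IsOne P (fun i y m => ∑ k ∈ s, a k i y m) := by
  refine ⟨fun i => ?_, fun i j y hy m => ?_⟩
  · rw [contDiffOn_pi]
    intro m
    exact ContDiffOn.sum fun k hk => contDiffOn_pi.1 ((ha k hk).1 i) m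
  · have h1 : ∀ k ∈ s, a k j y m = ∑ n, jac P i j y n m * a k i (P.tr i j y) n := fun k hk =>
      (ha k hk).2 i j y hy m
    show ∑ k ∈ s, a k j y m = ∑ n, jac P i j y n m * ∑ k ∈ s, a k i (P.tr i j y) n
    rw [Finset.sum_congr rfl h1, Finset.sum_comm]
    simp only [Finset.mul_sum]

/-- PIECE QY3. Every smooth family `G` (not necessarily compatible) gives a 1-form `a` with
`∫ a ∧ H = ∫ ⟨G, H⟩` for all vector densities `H`. PROOF. `a = ∑_j ext1 P j (ρ_j G_j)`, where
`ρ_j G_j` is extended by `0` off the target; `ext1_one`, `dens_ext1`, `qz_int_sum`. -/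
theorem exists_test [T2Space X] [CompactSpace X] (P : Bundle X) [Fintype P.ι] (R : PU P)
    (hP : P.PositiveDefinite) (G : P.ι → E4 → Fin 4 → ℝ)
    (hG : ∀ i e, ContDiffOn ℝ ∞ (fun y => G i y e) (P.c i).target) :
    ∃ a, IsOne P a ∧ ∀ H : P.ι → E4 → Fin 4 → ℝ,
      (∀ i e, ContDiffOn ℝ ∞ (fun y => H i y e) (P.c i).target) →
      (∀ i j, ∀ y ∈ P.ov i j, ∀ n,
        ∑ l, jac P i j y n l * H j y l = (jac P i j y).det * H i (P.tr i j y) n) →
      R.int (fun k y => ∑ e, a k y e * H k y e) = R.int (fun k y => ∑ e, G k y e * H k y e) := by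
  classical
  set b : P.ι → E4 → Fin 4 → ℝ := fun j =>
    (P.c j).target.indicator (fun y => R.rh j j y • G j y) with hb
  have hbin : ∀ j, ∀ y ∈ (P.c j).target, b j y = R.rh j j y • G j y := fun j y hy =>
    Set.indicator_of_mem hy _
  have hb0 : ∀ j, ∀ y ∉ R.K j, b j y = 0 := by
    intro j y hy
    by_cases hyt : y ∈ (P.c j).target
    · rw [hbin j y hyt, qz_rh_zero R j y hyt hy, zero_smul]
    · exact Set.indicator_of_notMem hyt _
  have hbC : ∀ j, ContDiff ℝ ∞ (b j) := by
    intro j
    refine qy_contDiff_of_zero (P.c j).open_target (qz_K_compact R j).isClosed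
      (qz_K_subset R j) (b j) ?_ (hb0 j)
    have h1 : ContDiffOn ℝ ∞ (fun y => R.rh j j y • G j y) (P.c j).target :=
      (qz_rh_cont R j j).smul (contDiffOn_pi.2 fun e => hG j e)
    exact h1.congr fun y hy => hbin j y hy
  refine ⟨fun k y e => ∑ j, ext1 P j (b j) k y e, ?_, ?_⟩
  · exact qy_isOne_sum Finset.univ (fun j => ext1 P j (b j)) fun j _ =>
      ext1_one P j (b j) (hbC j) (R.K j) (qz_K_compact R j) (qz_K_subset R j) (hb0 j)
  · intro H hH hc
    have h1 : R.int (fun k y => ∑ e, (∑ j, ext1 P j (b j) k y e) * H k y e)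
        = R.int (fun k y => ∑ j, ∑ e, ext1 P j (b j) k y e * H k y e) := by
      refine qz_int_congr R fun k y _ => ?_
      rw [Finset.sum_comm]
      refine Finset.sum_congr rfl fun e _ => ?_
      rw [Finset.sum_mul]
    rw [h1, qz_int_sum R Finset.univ (f := fun j k y => ∑ e, ext1 P j (b j) k y e * H k y e)]
    · unfold PU.int
      refine Finset.sum_congr rfl fun j _ => ?_
      have h2 := dens_ext1 P R hP H hH hc j (b j) (hbC j) (R.K j) (qz_K_compact R j)
        (qz_K_subset R j) (hb0 j)
      unfold PU.int at h2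
      rw [h2]
      rw [← setIntegral_eq_integral_of_forall_compl_eq_zero (s := (P.c j).target)]
      · refine setIntegral_congr_fun (P.c j).open_target.measurableSet fun y hy => ?_
        show ∑ e, b j y e * H j y e = R.rh j j y * ∑ e, G j y e * H j y e
        rw [hbin j y hy, Finset.mul_sum]
        refine Finset.sum_congr rfl fun e _ => ?_
        simp only [Pi.smul_apply, smul_eq_mul]
        ring
      · intro y hy
        have : y ∉ R.K j := fun h => hy (qz_K_subset R j h)
        rw [hb0 j y this]; simp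
    · intro j _ k
      refine continuousOn_finset_sum _ fun e _ => ?_
      have h3 := (ext1_one P j (b j) (hbC j) (R.K j) (qz_K_compact R j) (qz_K_subset R j)
        (hb0 j)).1 k
      exact ((contDiffOn_pi.1 h3) e).continuousOn.mul (hH k e).continuousOn

end

end Pool.Agent.Helper8.DC
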