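import Pool.Agent.Helper8.DC.QK
import Pool.Agent.Helper8.DC.QG

set_option autoImplicit false

open scoped Manifold ContDiff
open MeasureTheory

namespace Pool.Agent.Helper8.DC

noncomputable section

variable {X : Type} [TopologicalSpace X] [T2Space X] [CompactSpace X] [ChartedSpace E4 X]
  [IsManifold (𝓡 4) ∞ X]

theorem qz_K_compact {P : Bundle X} [Fintype P.ι] (R : PU P) (i : P.ι) : IsCompact (R.K i) :=
  Pool.Agent.Helper64.DC.isCompact_K P.c R.ρ R.supp i

theorem qz_K_subset {P : Bundle X} [Fintype P.ι] (R : PU P) (i : P.ι) :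
    R.K i ⊆ (P.c i).target :=
  Pool.Agent.Helper64.DC.K_subset P.c R.ρ R.supp i

theorem qz_rh_zero {P : Bundle X} [Fintype P.ι] (R : PU P) (i : P.ι) (y : E4)
    (hy : y ∈ (P.c i).target) (h : y ∉ R.K i) : R.rh i i y = 0 :=
  image_eq_zero_of_notMem_tsupport (f := R.ρ i)
    (Pool.Agent.Helper64.DC.notMem_tsupport_of_notMem P.c R.ρ hy h)

theorem qz_rh_cont {P : Bundle X} [Fintype P.ι] (R : PU P) (i j : P.ι) :
    ContDiffOn ℝ ∞ (R.rh i j) (P.c j).target :=
  Pool.Agent.Helper64.DC.contDiffOn_symm (P.c_mem j) (R.smooth i)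

theorem qz_integrable {P : Bundle X} [Fintype P.ι] (R : PU P) (i : P.ι) {f : E4 → ℝ}
    (hf : ContinuousOn f (P.c i).target) :
    IntegrableOn (fun y => R.rh i i y * f y) (P.c i).target := by
  refine Pool.Agent.Helper64.DC.integrableOn_of_zero (P.c i).open_target (qz_K_compact R i)
    (qz_K_subset R i) ((qz_rh_cont R i i).continuousOn.mul hf) ?_
  intro y hy
  rw [qz_rh_zero R i y hy.1 hy.2, zero_mul]

theorem qz_int_add {P : Bundle X} [Fintype P.ι] (R : PU P) {f g : P.ι → E4 → ℝ}
    (hf : ∀ i, ContinuousOn (f i) (P.c i).target) (hg : ∀ i, ContinuousOn (g i) (P.c i).target) :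
    R.int (fun i y => f i y + g i y) = R.int f + R.int g := by
  unfold PU.int
  rw [← Finset.sum_add_distrib]
  refine Finset.sum_congr rfl fun i _ => ?_
  rw [← integral_add (qz_integrable R i (hf i)) (qz_integrable R i (hg i))]
  refine setIntegral_congr_fun (P.c i).open_target.measurableSet fun y _ => ?_
  simp only []
  ring

theorem qz_int_smul {P : Bundle X} [Fintype P.ι] (R : PU P) (t : ℝ) (f : P.ι → E4 → ℝ) :
    R.int (fun i y => t * f i y) = t * R.int f := by
  unfold PU.int
  rw [Finset.mul_sum]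
  refine Finset.sum_congr rfl fun i _ => ?_
  rw [← integral_const_mul]
  refine setIntegral_congr_fun (P.c i).open_target.measurableSet fun y _ => ?_
  simp only []
  ring

theorem qz_int_neg {P : Bundle X} [Fintype P.ι] (R : PU P) (f : P.ι → E4 → ℝ) :
    R.int (fun i y => -f i y) = -R.int f := by
  have := qz_int_smul R (-1) f
  simpa using this

theorem qz_int_sub {P : Bundle X} [Fintype P.ι] (R : PU P) {f g : P.ι → E4 → ℝ}
    (hf : ∀ i, ContinuousOn (f i) (P.c i).target) (hg : ∀ i, ContinuousOn (g i) (P.c i).target) :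
    R.int (fun i y => f i y - g i y) = R.int f - R.int g := by
  have h := qz_int_add R hf (g := fun i y => -g i y) (fun i => (hg i).neg)
  rw [qz_int_neg] at h
  simpa [sub_eq_add_neg] using h

theorem qz_int_sum {P : Bundle X} [Fintype P.ι] (R : PU P) {κ : Type} (s : Finset κ)
    {f : κ → P.ι → E4 → ℝ} (hf : ∀ k ∈ s, ∀ i, ContinuousOn (f k i) (P.c i).target) :
    R.int (fun i y => ∑ k ∈ s, f k i y) = ∑ k ∈ s, R.int (f k) := by
  unfold PU.int
  rw [Finset.sum_comm]
  refine Finset.sum_congr rfl fun i _ => ?_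
  rw [← integral_finsetSum _ (fun k hk => qz_integrable R i (hf k hk i))]
  refine setIntegral_congr_fun (P.c i).open_target.measurableSet fun y _ => ?_
  simp only []
  rw [Finset.mul_sum]

theorem qz_int_mono {P : Bundle X} [Fintype P.ι] (R : PU P) {f g : P.ι → E4 → ℝ}
    (hf : ∀ i, ContinuousOn (f i) (P.c i).target) (hg : ∀ i, ContinuousOn (g i) (P.c i).target)
    (h : ∀ i, ∀ y ∈ (P.c i).target, f i y ≤ g i y) : R.int f ≤ R.int g := by
  unfold PU.int
  refine Finset.sum_le_sum fun i _ => ?_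
  refine setIntegral_mono_on (qz_integrable R i (hf i)) (qz_integrable R i (hg i))
    (P.c i).open_target.measurableSet fun y hy => ?_
  exact mul_le_mul_of_nonneg_left (h i y hy) (R.nonneg _ _)

theorem qz_int_congr {P : Bundle X} [Fintype P.ι] (R : PU P) {f g : P.ι → E4 → ℝ}
    (h : ∀ i, ∀ y ∈ (P.c i).target, f i y = g i y) : R.int f = R.int g := by
  unfold PU.int
  refine Finset.sum_congr rfl fun i _ => ?_
  refine setIntegral_congr_fun (P.c i).open_target.measurableSet fun y hy => ?_
  show R.rh i i y * f i y = R.rh i i y * g i y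
  rw [h i y hy]

theorem qz_int_nonneg {P : Bundle X} [Fintype P.ι] (R : PU P) {f : P.ι → E4 → ℝ}
    (h : ∀ i, ∀ y ∈ (P.c i).target, 0 ≤ f i y) : 0 ≤ R.int f := by
  unfold PU.int
  refine Finset.sum_nonneg fun i _ => ?_
  exact setIntegral_nonneg (P.c i).open_target.measurableSet fun y hy =>
    mul_nonneg (R.nonneg _ _) (h i y hy)

end

end Pool.Agent.Helper8.DC
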